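import Pool.Agent.Helper41.DV.E13b
import Pool.Agent.Helper27.GF.Cal1

/-!
E13c.  The energy form is the integral against the potential.
-/

open MeasureTheory Filter Topology

namespace GF

private lemma E13c_tst_smul {W : Set Pl} {u : Pl → ℝ} (h : Tst W u) (t : ℝ) : Tst W (fun z => t * u z) := by
  refine ⟨h.toCc.smul t, ?_⟩
  refine subset_trans ?_ h.sub
  exact closure_mono (fun z hz => by
    rw [Function.mem_support] at hz ⊢
    exact fun h0 => hz (by rw [h0, mul_zero]))

private lemma E13c_tst_add {W : Set Pl} {u v : Pl → ℝ} (h : Tst W u) (k : Tst W v) :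
    Tst W (fun z => u z + v z) := by
  refine ⟨h.toCc.add k.toCc, ?_⟩
  exact (tsupport_add u v).trans (Set.union_subset h.sub k.sub)

private lemma E13c_tst_sub {W : Set Pl} {u v : Pl → ℝ} (h : Tst W u) (k : Tst W v) :
    Tst W (fun z => u z - v z) := by
  have h1 := E13c_tst_add h (E13c_tst_smul k (-1))
  have e : (fun z => u z - v z) = fun z => u z + -1 * v z := by
    funext z
    ring
  rw [e]
  exact h1

private lemma E13c_int {f V : Pl → ℝ} (hf : Cc f) (hV : Continuous V) : Integrable (fun z => f z * V z) :=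
  (hf.continuous.mul hV).integrable_of_hasCompactSupport hf.supp.mul_right

private lemma E13c_dir {u w : Pl → ℝ} (hu : Cc u) (hw : Cc w) (t : ℝ) :
    dir (fun z => u z + t * w z) =
      dir u + 2 * t * (∫ z, (dx u z * dx w z + dy u z * dy w z)) + t ^ 2 * dir w := by
  have hi : ∀ {a b : Pl → ℝ}, Cc a → Cc b → Integrable (fun z => dx a z * dx b z + dy a z * dy b z) :=
    fun ha hb => ((ha.dx.mul hb.dx.smooth).add (ha.dy.mul hb.dy.smooth)).integrable
  have e : ∀ z, (dx (fun z => u z + t * w z) z ^ 2 + dy (fun z => u z + t * w z) z ^ 2) =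
      (dx u z ^ 2 + dy u z ^ 2) + (2 * t * (dx u z * dx w z + dy u z * dy w z) +
        t ^ 2 * (dx w z ^ 2 + dy w z ^ 2)) := by
    intro z
    rw [dx_add hu.smooth (hw.smul t).smooth, dy_add hu.smooth (hw.smul t).smooth, dx_smul t hw.smooth,
      dy_smul t hw.smooth]
    ring
  have h1 : Integrable (fun z => dx u z ^ 2 + dy u z ^ 2) := by
    have := hi hu hu
    refine this.congr (Eventually.of_forall fun z => ?_)
    simp only
    ring
  have h2 : Integrable (fun z => dx w z ^ 2 + dy w z ^ 2) := by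
    have := hi hw hw
    refine this.congr (Eventually.of_forall fun z => ?_)
    simp only
    ring
  have i3 : Integrable (fun z => 2 * t * (dx u z * dx w z + dy u z * dy w z)) :=
    (hi hu hw).const_mul _
  have i4 : Integrable (fun z => t ^ 2 * (dx w z ^ 2 + dy w z ^ 2)) := h2.const_mul _
  have i5 : Integrable (fun z => 2 * t * (dx u z * dx w z + dy u z * dy w z) +
      t ^ 2 * (dx w z ^ 2 + dy w z ^ 2)) := i3.add i4
  unfold dir
  simp only [e]
  rw [integral_add h1 i5, integral_add i3 i4, integral_const_mul, integral_const_mul]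
  ring

/-- near maximisers of the functional -/
private lemma E13c_near {Ω : Set Pl} (hΩ : IsOpen Ω) (hb : Bornology.IsBounded Ω) {f U : Pl → ℝ}
    (hf : Tst Ω f) (hU : Pot Ω f U) {ε : ℝ} (hε : 0 < ε) :
    ∃ V, Tst Ω V ∧ (∀ z, |V z - U z| ≤ 2 * ε) ∧ dir V ≤ ∫ z, f z * V z ∧
      ∀ w, Tst Ω w → ∀ t : ℝ, 2 * t * ((∫ z, f z * w z) - ∫ z, (dx V z * dx w z + dy V z * dy w z)) ≤
        2 * ε * (∫ z, |f z|) + t ^ 2 * dir w := by
  obtain ⟨V, hV, hVU, hdir, -⟩ := pot_trunc hΩ hb hf.toCc hU hε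
  refine ⟨V, hV, hVU, hdir, fun w hw t => ?_⟩
  have h1 := le_En hb hf.toCc (E13c_tst_add hV (E13c_tst_smul hw t))
  rw [En_pot hΩ hb hf hU] at h1
  unfold JJ at h1
  rw [E13c_dir hV.toCc hw.toCc t] at h1
  have h2 : ∫ z, f z * (V z + t * w z) = (∫ z, f z * V z) + t * ∫ z, f z * w z := by
    rw [← integral_const_mul, ← integral_add (E13c_int hf.toCc hV.toCc.continuous)
      ((E13c_int hf.toCc hw.toCc.continuous).const_mul t)]
    congr 1
    funext z
    ring
  rw [h2] at h1
  have h3 : (∫ z, f z * U z) - (∫ z, f z * V z) ≤ 2 * ε * ∫ z, |f z| := by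
    rw [← integral_sub (E13c_int hf.toCc hU.cont) (E13c_int hf.toCc hV.toCc.continuous),
      ← integral_const_mul]
    refine integral_mono ((E13c_int hf.toCc hU.cont).sub (E13c_int hf.toCc hV.toCc.continuous))
      (hf.toCc.integrable.abs.const_mul _) (fun z => ?_)
    simp only
    have h4 := hVU z
    have h5 : f z * U z - f z * V z ≤ |f z| * |V z - U z| := by
      rw [← abs_mul]
      refine le_trans (le_of_eq ?_) (neg_le_abs _)
      ring
    nlinarith [abs_nonneg (f z), mul_le_mul_of_nonneg_left h4 (abs_nonneg (f z))]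
  linarith

private lemma E13c_bdd {Ω : Set Pl} {f V : Pl → ℝ} (hf : Tst Ω f) (hV : Continuous V) :
    ∃ C : ℝ, 0 ≤ C ∧ ∀ V' : Pl → ℝ, Cc V' → (∀ z, |V' z - V z| ≤ 2) → ∫ z, f z * V' z ≤ C := by
  have hi1 : Integrable (fun z => |f z| * (|V z| + 2)) :=
    (hf.toCc.continuous.abs.mul (hV.abs.add continuous_const)).integrable_of_hasCompactSupport
      (HasCompactSupport.mul_right (hf.toCc.supp.abs))
  refine ⟨∫ z, |f z| * (|V z| + 2), integral_nonneg fun z => mul_nonneg (abs_nonneg _)
    (add_nonneg (abs_nonneg _) (by norm_num)), fun V' hV' h => ?_⟩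
  refine integral_mono (E13c_int hf.toCc hV'.continuous) hi1 (fun z => ?_)
  simp only
  have h1 : |V' z| ≤ |V z| + 2 := by
    have h2 := abs_sub_abs_le_abs_sub (V' z) (V z)
    linarith [h z]
  calc f z * V' z ≤ |f z * V' z| := le_abs_self _
    _ = |f z| * |V' z| := abs_mul _ _
    _ ≤ |f z| * (|V z| + 2) := mul_le_mul_of_nonneg_left h1 (abs_nonneg _)

private lemma E13c_symm {Ω : Set Pl} (hΩ : IsOpen Ω) (hb : Bornology.IsBounded Ω) {f g U V : Pl → ℝ}
    (hf : Tst Ω f) (hg : Tst Ω g) (hU : Pot Ω f U) (hV : Pot Ω g V) :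
    (∫ z, f z * V z) - (∫ z, g z * U z) ≤ 0 := by
  obtain ⟨Cf, hCf0, hCf⟩ := E13c_bdd hf hU.cont
  obtain ⟨Cg, hCg0, hCg⟩ := E13c_bdd hg hV.cont
  set A : ℝ := ∫ z, |f z| with hA
  set B : ℝ := ∫ z, |g z| with hB
  have hA0 : 0 ≤ A := integral_nonneg fun z => abs_nonneg _
  have hB0 : 0 ≤ B := integral_nonneg fun z => abs_nonneg _
  have key : ∀ δ : ℝ, 0 < δ → δ ≤ 1 →
      (∫ z, f z * V z) - (∫ z, g z * U z) ≤ δ * (3 * A + 3 * B + Cf + Cg) := by
    intro δ hδ hδ1
    have hε : 0 < δ ^ 2 := by positivity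
    have hδ2 : δ ^ 2 ≤ δ := by nlinarith
    obtain ⟨U', hU', hUU, hdU, hwU⟩ := E13c_near hΩ hb hf hU hε
    obtain ⟨V', hV', hVV, hdV, hwV⟩ := E13c_near hΩ hb hg hV hε
    have h1 := hwU V' hV' δ
    have h2 := hwV U' hU' (-δ)
    have hc : ∫ z, (dx V' z * dx U' z + dy V' z * dy U' z) =
        ∫ z, (dx U' z * dx V' z + dy U' z * dy V' z) := by
      congr 1
      funext z
      ring
    rw [hc] at h2
    have h3 : dir V' ≤ Cg := hdV.trans (hCg V' hV'.toCc fun z => (hVV z).trans (by nlinarith))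
    have h4 : dir U' ≤ Cf := hdU.trans (hCf U' hU'.toCc fun z => (hUU z).trans (by nlinarith))
    have h5 : (∫ z, f z * V z) - (∫ z, f z * V' z) ≤ 2 * δ ^ 2 * A := by
      rw [hA, ← integral_sub (E13c_int hf.toCc hV.cont) (E13c_int hf.toCc hV'.toCc.continuous),
        ← integral_const_mul]
      refine integral_mono ((E13c_int hf.toCc hV.cont).sub (E13c_int hf.toCc hV'.toCc.continuous))
        (hf.toCc.integrable.abs.const_mul _) (fun z => ?_)
      simp only
      have h6 := hVV z
      have h7 : f z * V z - f z * V' z ≤ |f z| * |V' z - V z| := by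
        rw [← abs_mul]
        refine le_trans (le_of_eq ?_) (neg_le_abs _)
        ring
      nlinarith [abs_nonneg (f z), mul_le_mul_of_nonneg_left h6 (abs_nonneg (f z))]
    have h6 : (∫ z, g z * U' z) - (∫ z, g z * U z) ≤ 2 * δ ^ 2 * B := by
      rw [hB, ← integral_sub (E13c_int hg.toCc hU'.toCc.continuous) (E13c_int hg.toCc hU.cont),
        ← integral_const_mul]
      refine integral_mono ((E13c_int hg.toCc hU'.toCc.continuous).sub (E13c_int hg.toCc hU.cont))
        (hg.toCc.integrable.abs.const_mul _) (fun z => ?_)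
      simp only
      have h6 := hUU z
      have h7 : g z * U' z - g z * U z ≤ |g z| * |U' z - U z| := by
        rw [← abs_mul]
        refine le_trans (le_of_eq ?_) (le_abs_self _)
        ring
      nlinarith [abs_nonneg (g z), mul_le_mul_of_nonneg_left h6 (abs_nonneg (g z))]
    have h7 : 2 * ((∫ z, f z * V' z) - ∫ z, (dx U' z * dx V' z + dy U' z * dy V' z)) ≤
        δ * (2 * A + Cg) := by
      have : δ * (2 * ((∫ z, f z * V' z) - ∫ z, (dx U' z * dx V' z + dy U' z * dy V' z))) ≤
          δ * (δ * (2 * A + Cg)) := by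
        nlinarith [mul_le_mul_of_nonneg_left h3 hε.le]
      exact le_of_mul_le_mul_left this hδ
    have h8 : 2 * ((∫ z, (dx U' z * dx V' z + dy U' z * dy V' z)) - ∫ z, g z * U' z) ≤
        δ * (2 * B + Cf) := by
      have : δ * (2 * ((∫ z, (dx U' z * dx V' z + dy U' z * dy V' z)) - ∫ z, g z * U' z)) ≤
          δ * (δ * (2 * B + Cf)) := by
        nlinarith [mul_le_mul_of_nonneg_left h4 hε.le]
      exact le_of_mul_le_mul_left this hδ
    have h9 : 2 * δ ^ 2 * A ≤ 2 * δ * A := by nlinarith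
    have h10 : 2 * δ ^ 2 * B ≤ 2 * δ * B := by nlinarith
    have h11 : 0 ≤ δ * Cf := by positivity
    have h12 : 0 ≤ δ * Cg := by positivity
    linarith
  by_contra hlt
  push Not at hlt
  set X : ℝ := (∫ z, f z * V z) - (∫ z, g z * U z) with hX
  set S : ℝ := 3 * A + 3 * B + Cf + Cg with hS
  have hS0 : 0 ≤ S := by positivity
  have h1 := key (min 1 (X / (2 * (S + 1)))) (lt_min one_pos (by positivity)) (min_le_left _ _)
  have h2 : min 1 (X / (2 * (S + 1))) * S ≤ X / (2 * (S + 1)) * S :=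
    mul_le_mul_of_nonneg_right (min_le_right _ _) hS0
  have h3 : X / (2 * (S + 1)) * S ≤ X / 2 := by
    rw [div_mul_eq_mul_div, div_le_div_iff₀ (by positivity) (by norm_num)]
    nlinarith
  linarith

/--
`En_pot` for `f ± g` with the potentials `U ± V` gives `Gr Ω f g = (∫ f V + ∫ g U)/2`.  Symmetry `∫ f V = ∫ g U`: for the
truncations `V_f`, `V_g`: near maximisers, `JJ f (V_f + t w) ≤ En Ω f ≤ JJ f V_f + c ε` for all `t` gives
`|∫ f w + ∫ V_f Δw|² ≤ c ε dir w`, put `w = V_g` (and exchange), `∫ V_f Δ V_g = ∫ V_g Δ V_f`.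
-/
theorem Gr_pot {Ω : Set Pl} (hΩ : IsOpen Ω) (hb : Bornology.IsBounded Ω) {f g U V : Pl → ℝ} (hf : Tst Ω f)
    (hg : Tst Ω g) (hU : Pot Ω f U) (hV : Pot Ω g V) : Gr Ω f g = ∫ z, f z * V z := by
  have hs : ∫ z, f z * V z = ∫ z, g z * U z :=
    le_antisymm (by linarith [E13c_symm hΩ hb hf hg hU hV]) (by linarith [E13c_symm hΩ hb hg hf hV hU])
  have lapadd : ∀ z ∈ Ω, ∀ c : ℝ, lap (fun z => U z + c * V z) z = lap U z + c * lap V z := by
    intro z hz c
    have hdU : ∀ᶠ y in 𝓝 z, DifferentiableAt ℝ U y :=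
      Filter.eventually_of_mem (hΩ.mem_nhds hz) fun y hy =>
        (hU.smooth.contDiffAt (hΩ.mem_nhds hy)).differentiableAt (by simp)
    have hdV : ∀ᶠ y in 𝓝 z, DifferentiableAt ℝ V y :=
      Filter.eventually_of_mem (hΩ.mem_nhds hz) fun y hy =>
        (hV.smooth.contDiffAt (hΩ.mem_nhds hy)).differentiableAt (by simp)
    have hfU : DifferentiableAt ℝ (fderiv ℝ U) z :=
      ((hU.smooth.contDiffAt (hΩ.mem_nhds hz)).fderiv_right (m := ((⊤ : ℕ∞) : WithTop ℕ∞))
        (by simp)).differentiableAt (by simp)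
    have hfV : DifferentiableAt ℝ (fderiv ℝ V) z :=
      ((hV.smooth.contDiffAt (hΩ.mem_nhds hz)).fderiv_right (m := ((⊤ : ℕ∞) : WithTop ℕ∞))
        (by simp)).differentiableAt (by simp)
    have hgen : ∀ v : Pl, fderiv ℝ (fun y => fderiv ℝ (fun z => U z + c * V z) y v) z v =
        fderiv ℝ (fun y => fderiv ℝ U y v) z v + c * fderiv ℝ (fun y => fderiv ℝ V y v) z v := by
      intro v
      have e1 : (fun y => fderiv ℝ (fun z => U z + c * V z) y v) =ᶠ[𝓝 z]
          fun y => fderiv ℝ U y v + c * fderiv ℝ V y v := by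
        filter_upwards [hdU, hdV] with y h1 h2
        have h3 : HasFDerivAt (fun z => U z + c * V z) (fderiv ℝ U y + c • fderiv ℝ V y) y :=
          h1.hasFDerivAt.add (h2.hasFDerivAt.const_mul c)
        rw [h3.fderiv]
        simp
      rw [e1.fderiv_eq]
      have hUv : DifferentiableAt ℝ (fun y => fderiv ℝ U y v) z := hfU.clm_apply (differentiableAt_const v)
      have hVv : DifferentiableAt ℝ (fun y => fderiv ℝ V y v) z := hfV.clm_apply (differentiableAt_const v)
      have h4 : HasFDerivAt (fun y => fderiv ℝ U y v + c * fderiv ℝ V y v)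
          (fderiv ℝ (fun y => fderiv ℝ U y v) z + c • fderiv ℝ (fun y => fderiv ℝ V y v) z) z :=
        hUv.hasFDerivAt.add (hVv.hasFDerivAt.const_mul c)
      rw [h4.fderiv]
      simp
    have hx := hgen (1, 0)
    have hy := hgen (0, 1)
    unfold lap dx dy
    rw [hx, hy]
    ring
  have hp : Pot Ω (fun z => f z + g z) (fun z => U z + V z) := by
    refine ⟨hU.cont.add hV.cont, fun z hz => by rw [hU.zero z hz, hV.zero z hz, add_zero],
      hU.smooth.add hV.smooth, fun z hz => ?_⟩
    have h := lapadd z hz 1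
    simp only [one_mul] at h
    rw [h, ← hU.lap z hz, ← hV.lap z hz]
    ring
  have hm : Pot Ω (fun z => f z - g z) (fun z => U z - V z) := by
    refine ⟨hU.cont.sub hV.cont, fun z hz => by rw [hU.zero z hz, hV.zero z hz, sub_zero],
      hU.smooth.sub hV.smooth, fun z hz => ?_⟩
    have h := lapadd z hz (-1)
    have e : (fun z => U z + -1 * V z) = fun z => U z - V z := by
      funext z
      ring
    rw [e] at h
    rw [h, ← hU.lap z hz, ← hV.lap z hz]
    ring
  unfold Gr
  rw [En_pot hΩ hb (E13c_tst_add hf hg) hp, En_pot hΩ hb (E13c_tst_sub hf hg) hm]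
  have i1 := E13c_int hf.toCc hU.cont
  have i2 := E13c_int hf.toCc hV.cont
  have i3 := E13c_int hg.toCc hU.cont
  have i4 := E13c_int hg.toCc hV.cont
  have a1 : ∫ z, (f z + g z) * (U z + V z) =
      (∫ z, f z * U z) + (∫ z, f z * V z) + ((∫ z, g z * U z) + ∫ z, g z * V z) := by
    have i12 : Integrable (fun z => f z * U z + f z * V z) := i1.add i2
    have i34 : Integrable (fun z => g z * U z + g z * V z) := i3.add i4
    rw [← integral_add i1 i2, ← integral_add i3 i4, ← integral_add i12 i34]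
    congr 1
    funext z
    ring
  have a2 : ∫ z, (f z - g z) * (U z - V z) =
      (∫ z, f z * U z) - (∫ z, f z * V z) - ((∫ z, g z * U z) - ∫ z, g z * V z) := by
    have i12 : Integrable (fun z => f z * U z - f z * V z) := i1.sub i2
    have i34 : Integrable (fun z => g z * U z - g z * V z) := i3.sub i4
    rw [← integral_sub i1 i2, ← integral_sub i3 i4, ← integral_sub i12 i34]
    congr 1
    funext z
    ring
  rw [a1, a2, ← hs]
  ring

end GF
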