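import Pool.Agent.Helper41.DV.E14
import Pool.Agent.Helper41.DV.E13c
import Pool.Agent.Helper63.RP4.A02

/-!
Fin.  The final statement from `SandV`.
-/

open Filter Topology MeasureTheory ProbabilityTheory

namespace GF.Fin

/-- vertices of the square lattice -/
abbrev Vertex := ℤ × ℤ

/-- the plane -/
abbrev Plane := ℝ × ℝ

/-- nearest-neighbour adjacency -/
def Adjacent (u v : Vertex) : Prop := |u.1 - v.1| + |u.2 - v.2| = 1

/-- the Euclidean distance is `√2` -/
def Diagonal (u v : Vertex) : Prop := |u.1 - v.1| = 1 ∧ |u.2 - v.2| = 1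

/-- vertices of `D` having a neighbour outside `D` -/
def Boundary (D : Finset Vertex) : Set Vertex := {v | v ∈ D ∧ ∃ u, Adjacent u v ∧ u ∉ D}

/-- even domain: the boundary is a `×`-circuit of even vertices -/
def EvenDomain (D : Finset Vertex) : Prop :=
  ∃ (n : ℕ) (c : ℕ → Vertex), 0 < n ∧ c n = c 0 ∧ (∀ i < n, Diagonal (c i) (c (i + 1))) ∧
    Boundary D = {v | ∃ i < n, c i = v} ∧ ∀ v ∈ Boundary D, Even (v.1 + v.2)

/-- `h` is a height function on `D` with zero boundary values, extended by zero outside `D` -/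
structure IsHeight (D : Finset Vertex) (h : Vertex → ℤ) : Prop where
  step : ∀ u ∈ D, ∀ v ∈ D, Adjacent u v → |h u - h v| = 1
  even : ∀ v ∈ D, Even (v.1 + v.2) → Even (h v)
  zero : ∀ v ∈ Boundary D, h v = 0
  off : ∀ v, v ∉ D → h v = 0

/-- mean for the uniform probability measure on the height functions on `D` with zero boundary
values -/
noncomputable def Mean (D : Finset Vertex) (F : (Vertex → ℤ) → ℝ) : ℝ :=
  (∑ᶠ h ∈ {h | IsHeight D h}, F h) / ({h | IsHeight D h}.ncard : ℝ)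

/-- the point of the plane at the vertex `x` of the lattice of mesh `δ` -/
def point (δ : ℝ) (x : Vertex) : Plane := (δ * x.1, δ * x.2)

/-- The even domains `D δ`, mesh `δ`, approximate `Ω` as `δ → 0`: they stay in a bounded region, every compact
subset of `Ω` is eventually covered, and every boundary point of `Ω` is a limit of lattice points outside the
domains. -/
structure Approximates (D : ℝ → Finset Vertex) (Ω : Set Plane) : Prop where
  even : ∀ δ > 0, EvenDomain (D δ)
  bounded : ∃ R : ℝ, ∀ᶠ δ in 𝓝[>] (0 : ℝ), ∀ x ∈ D δ, ‖point δ x‖ ≤ R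
  inner : ∀ Q : Set Plane, IsCompact Q → Q ⊆ Ω → ∀ᶠ δ in 𝓝[>] (0 : ℝ), ∀ x, point δ x ∈ Q → x ∈ D δ
  outer : ∀ z ∈ frontier Ω, ∀ ε > 0, ∀ᶠ δ in 𝓝[>] (0 : ℝ), ∃ x, x ∉ D δ ∧ dist (point δ x) z < ε

/-- test functions in `Ω` -/
structure Test (Ω : Set Plane) (f : Plane → ℝ) : Prop where
  smooth : ContDiff ℝ (⊤ : ℕ∞) f
  compact : HasCompactSupport f
  inside : tsupport f ⊆ Ω

/-- the pairing of the height function on the lattice of mesh `δ` with `f` -/
noncomputable def pairing (δ : ℝ) (D : Finset Vertex) (f : Plane → ℝ) (h : Vertex → ℤ) : ℝ :=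
  δ ^ 2 * ∑ x ∈ D, h x * f (point δ x)

/-- the vector of the pairings with the test functions `f i` -/
noncomputable def pairings {m : ℕ} (δ : ℝ) (D : Finset Vertex) (f : Fin m → Plane → ℝ) (h : Vertex → ℤ) :
    EuclideanSpace ℝ (Fin m) := WithLp.toLp 2 fun i => pairing δ D (f i) h

/-- partial derivatives and Laplacian -/
noncomputable def d₁ (u : Plane → ℝ) (z : Plane) : ℝ := fderiv ℝ u z (1, 0)

/-- partial derivatives and Laplacian -/
noncomputable def d₂ (u : Plane → ℝ) (z : Plane) : ℝ := fderiv ℝ u z (0, 1)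

/-- partial derivatives and Laplacian -/
noncomputable def laplacian (u : Plane → ℝ) (z : Plane) : ℝ := d₁ (d₁ u) z + d₂ (d₂ u) z

/-- Dirichlet energy -/
noncomputable def dirichlet (u : Plane → ℝ) : ℝ := ∫ z, (d₁ u z ^ 2 + d₂ u z ^ 2)

/-- `∬ f(x) G_Ω(x,y) f(y) dx dy`, the dual Dirichlet norm: the supremum of `2 ∫ f u - ∫ |∇u|²` over the test
functions `u` in `Ω` -/
noncomputable def greenNorm (Ω : Set Plane) (f : Plane → ℝ) : ℝ :=
  sSup {a | ∃ u, Test Ω u ∧ a = 2 * (∫ z, f z * u z) - dirichlet u}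

/-- `∬ f(x) G_Ω(x,y) g(y) dx dy`, by polarisation -/
noncomputable def greenForm (Ω : Set Plane) (f g : Plane → ℝ) : ℝ :=
  (greenNorm Ω (fun z => f z + g z) - greenNorm Ω (fun z => f z - g z)) / 4

/-- `G` is the Green function of `-Δ` on `Ω` with zero boundary values: for every test function `f` in `Ω` the
function `x ↦ ∫ G(x,y) f(y) dy` is continuous, vanishes outside `Ω`, is smooth in `Ω` and solves `-Δ U = f`. -/
def IsGreenFunction (Ω : Set Plane) (G : Plane → Plane → ℝ) : Prop :=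
  ∀ f, Test Ω f → Continuous (fun x => ∫ y, G x y * f y) ∧ (∀ x ∉ Ω, ∫ y, G x y * f y = 0) ∧
    ContDiffOn ℝ (⊤ : ℕ∞) (fun x => ∫ y, G x y * f y) Ω ∧
    ∀ x ∈ Ω, -laplacian (fun x => ∫ y, G x y * f y) x = f x

/-- the covariance matrix of the pairings of `κ` times the Dirichlet Gaussian free field on `Ω` with the
test functions `f i` -/
noncomputable def covariance {m : ℕ} (κ : ℝ) (Ω : Set Plane) (f : Fin m → Plane → ℝ) :
    Matrix (Fin m) (Fin m) ℝ :=
  Matrix.of fun i j => κ ^ 2 * greenForm Ω (f i) (f j)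

lemma boundary_eq (D : Finset Vertex) : Boundary D = (RP4.bdry D : Set Vertex) := by
  ext v
  rw [Finset.mem_coe, RP4.mem_bdry]
  rfl

lemma bdryPar_iff (D : Finset Vertex) : RP4.BdryPar D 0 ↔ ∀ v ∈ Boundary D, Even (v.1 + v.2) := by
  unfold RP4.BdryPar RP4.par
  rw [boundary_eq]
  simp

private lemma isHeight_iff {D : Finset Vertex} (hD : ∀ v ∈ Boundary D, Even (v.1 + v.2)) (h : Vertex → ℤ) :
    IsHeight D h ↔ h ∈ RP4.Om D := by
  rw [RP4.mem_Om]
  constructor
  · intro hh
    refine ⟨⟨hh.off, fun v hv => ?_, hh.step⟩, fun v hv => hh.zero v ?_⟩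
    · rw [sub_zero]
      unfold RP4.par
      by_cases hev : Even (v.1 + v.2)
      · exact (hh.even v hv hev).sub hev
      · have hin : v ∉ Boundary D := fun hb => hev (hD v hb)
        have hu : (v.1 + 1, v.2) ∈ D := by
          by_contra hu
          exact hin ⟨hv, (v.1 + 1, v.2), by simp [Adjacent], hu⟩
        have h1 := hh.step _ hu v hv (by simp [Adjacent])
        have h2 : Even (h (v.1 + 1, v.2)) := by
          refine hh.even _ hu ?_
          have : Odd (v.1 + v.2) := Int.not_even_iff_odd.1 hev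
          have h3 : v.1 + 1 + v.2 = v.1 + v.2 + 1 := by ring
          simp only [h3]
          exact this.add_one
        have h3 : Odd (v.1 + v.2) := Int.not_even_iff_odd.1 hev
        have h4 : Odd (h v) := by
          rcases (abs_eq (by norm_num : (0 : ℤ) ≤ 1)).1 h1 with h5 | h5
          · have h6 : h v = h (v.1 + 1, v.2) - 1 := by linarith
            rw [h6]
            exact h2.sub_odd odd_one
          · have h6 : h v = h (v.1 + 1, v.2) + 1 := by linarith
            rw [h6]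
            exact h2.add_one
        exact h4.sub_odd h3
    · rw [boundary_eq]
      exact hv
  · rintro ⟨hh, hz⟩
    refine ⟨hh.step, fun v hv hev => ?_, fun v hv => hz v ?_, hh.off⟩
    · have h1 := hh.par v hv
      rw [sub_zero] at h1
      unfold RP4.par at h1
      have h2 := h1.add hev
      rwa [sub_add_cancel] at h2
    · rw [boundary_eq] at hv
      exact hv

lemma mean_eq {D : Finset Vertex} (hD : ∀ v ∈ Boundary D, Even (v.1 + v.2)) (F : (Vertex → ℤ) → ℝ) :
    Mean D F = RP4.avg (RP4.Om D) F := by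
  have h1 : {h | IsHeight D h} = (RP4.Om D : Set (Vertex → ℤ)) := by
    ext h
    rw [Set.mem_ofPred_eq, Finset.mem_coe]
    exact isHeight_iff hD h
  unfold Mean RP4.avg
  rw [h1, finsum_mem_coe_finset, Set.ncard_coe_finset]

lemma test_iff {Ω : Set Plane} {f : Plane → ℝ} : Test Ω f ↔ Tst Ω f :=
  ⟨fun h => ⟨⟨h.smooth, h.compact⟩, h.inside⟩, fun h => ⟨h.smooth, h.supp, h.sub⟩⟩

lemma greenNorm_eq (Ω : Set Plane) (f : Plane → ℝ) : greenNorm Ω f = En Ω f := by
  unfold greenNorm En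
  congr 1
  ext a
  constructor
  · rintro ⟨u, hu, rfl⟩
    exact ⟨u, test_iff.1 hu, rfl⟩
  · rintro ⟨u, hu, rfl⟩
    exact ⟨u, test_iff.2 hu, rfl⟩

lemma greenForm_eq (Ω : Set Plane) (f g : Plane → ℝ) : greenForm Ω f g = Gr Ω f g := by
  unfold greenForm Gr
  rw [greenNorm_eq, greenNorm_eq]

lemma pairings_eq {m : ℕ} (δ : ℝ) (D : Finset Vertex) (f : Fin m → Plane → ℝ) (h : Vertex → ℤ) :
    pairings δ D f h = WithLp.toLp 2 fun j => prD δ (f j) D h := by
  unfold pairings pairing prD point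
  congr 1
  funext j
  congr 1
  exact Finset.sum_congr rfl fun x _ => mul_comm _ _

/-- the final statement from the probabilistic input -/
theorem final {K : ℝ} (hK : 0 < K) (hS : ∀ (Ω : Set Plane) (D : ℝ → Finset Vertex), IsOpen Ω →
      Bornology.IsBounded Ω → Approximates D Ω → ∀ f, Tst Ω f → (∀ z, 0 ≤ f z) → SandV K Ω D f) :
    ∃ κ : ℝ, 0 < κ ∧ ∀ (Ω : Set Plane) (D : ℝ → Finset Vertex), IsOpen Ω → Bornology.IsBounded Ω →
      Approximates D Ω → ∀ (m : ℕ) (f : Fin m → Plane → ℝ), (∀ i, Test Ω (f i)) →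
      (covariance κ Ω f).PosSemidef ∧
      (∀ G, IsGreenFunction Ω G → ∀ i j,
        covariance κ Ω f i j = κ ^ 2 * ∫ x, ∫ y, f i x * G x y * f j y) ∧
      ∀ φ : EuclideanSpace ℝ (Fin m) → ℝ, Continuous φ →
        (∃ (C : ℝ) (k : ℕ), ∀ v, |φ v| ≤ C * (1 + ‖v‖) ^ k) →
        Integrable φ (multivariateGaussian 0 (covariance κ Ω f)) ∧
        Tendsto (fun δ => Mean (D δ) fun h => φ (pairings δ (D δ) f h)) (𝓝[>] 0)
          (𝓝 (∫ v, φ v ∂(multivariateGaussian 0 (covariance κ Ω f)))) := by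
  refine ⟨Real.sqrt K, Real.sqrt_pos.2 hK, fun Ω D hΩ hb hD m f hf => ?_⟩
  have hcov : covariance (Real.sqrt K) Ω f = gramD K Ω f := by
    ext i j
    unfold covariance gramD
    rw [Matrix.of_apply, Matrix.of_apply, Real.sq_sqrt hK.le, greenForm_eq]
  have hpar : ∀ δ > 0, ∀ v ∈ Boundary (D δ), Even (v.1 + v.2) := by
    intro δ hδ
    obtain ⟨n, c, -, -, -, -, h⟩ := hD.even δ hδ
    exact h
  have hpar' : ∀ᶠ δ in 𝓝[>] (0 : ℝ), RP4.BdryPar (D δ) 0 := by
    filter_upwards [self_mem_nhdsWithin] with δ hδ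
    exact (bdryPar_iff _).2 (hpar δ hδ)
  obtain ⟨h1, h2⟩ := law_of_sandV hK hΩ hb hpar' (hS Ω D hΩ hb hD) f fun j => test_iff.1 (hf j)
  rw [hcov]
  refine ⟨h1, fun G hG i j => ?_, fun φ hφ hg => ?_⟩
  · unfold gramD
    rw [Matrix.of_apply, Real.sq_sqrt hK.le]
    congr 1
    have hp : ∀ i, Pot Ω (f i) (fun x => ∫ y, G x y * f i y) := by
      intro i
      obtain ⟨a, b, c, d⟩ := hG _ (hf i)
      exact ⟨a, b, c, d⟩
    rw [Gr_pot hΩ hb (test_iff.1 (hf i)) (test_iff.1 (hf j)) (hp i) (hp j)]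
    refine integral_congr_ae (Eventually.of_forall fun x => ?_)
    simp only [mul_assoc]
    rw [integral_const_mul]
  · obtain ⟨h3, h4⟩ := h2 φ hφ hg
    refine ⟨h3, h4.congr' ?_⟩
    filter_upwards [self_mem_nhdsWithin] with δ hδ
    rw [mean_eq (hpar δ hδ)]
    congr 1
    funext h
    rw [pairings_eq]

end GF.Fin
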