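import Pool.Agent.Helper41.DV.H3

/-!
H7.  The upper half of the sandwich from a sequence of weights or from one weight.
-/

open MeasureTheory Filter Topology

namespace GF

open RP4 (V avg Om BdryPar Deloc)
open GF.Lat (Xd)
open DV (qt SeqDat EnvDat)

/-- the upper half from a sequence of weights -/
theorem upN_of_seqDat (hd : Deloc) {U₀ : Ultrafilter ℝ} (hU₀ : (U₀ : Filter ℝ) ≤ 𝓝[>] 0) {K : ℝ} (hK : 0 < K)
    {Ω W Q : Set Pl} {D : ℝ → Finset V} {f : Pl → ℝ} {C : ℕ → ℝ} {ε b : ℝ} {F : ℕ → ℝ → (V → ℤ) → ℝ}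
    (hW : IsOpen W) (hf : Tst W f) (hf0 : ∀ z, 0 ≤ f z) (hQ : IsCompact Q) (hQW : Q ⊆ W)
    (hEn : En W f ≤ En Ω f + ε) (hS : SeqDat U₀ W K F) (hb0 : 0 ≤ b) (hb : b * ∫ z, f z ≤ ε)
    (hwall : ∀ η, Tst (W \ Q) η → (∀ z, 0 ≤ η z) → ∀ e > 0, ∀ᶠ j in atTop, ∀ᶠ δ in (U₀ : Filter ℝ),
      qt (F j) (fun δ h => Xd δ f h * Xd δ η h) δ ≤ b * (∫ z, η z) + e)
    (hmom : ∀ n, ∀ᶠ j in atTop, ∀ᶠ δ in (U₀ : Filter ℝ), qt (F j) (fun δ h => Xd δ f h ^ (2 * n)) δ ≤ C n)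
    {n : ℕ} {ε₁ : ℝ} (hε₁ : ε₁ < ε) (hmd : ∀ᶠ j in atTop, ∀ᶠ δ in (U₀ : Filter ℝ),
      md D f n δ ≤ qt (F j) (fun δ h => Xd δ f h ^ (2 * n)) δ + ε₁) :
    UpN K Ω D f n C ε U₀ := by
  obtain ⟨S, -, hle, hge, hpr⟩ := hS.seqEnv hd hU₀
  obtain ⟨E, hEle, hEge, hEpr⟩ := S.toEnv hW
  have hwE : E.Wall f b := ⟨hb0, Q, hQ, hQW, fun η hη h0 => by
    refine le_of_forall_pos_le_add fun e he => ?_
    refine hEpr f η hf.toCc hη.toCc _ ?_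
    filter_upwards [hwall η hη h0 e he] with j hj
    exact hpr f η hf.toCc hη.toCc j _ hj⟩
  have hup := E.upper hW hK hf hf0 hwE
  refine ⟨ℕ × GF.Lat.Ix, W, E, hf, by linarith, hEn, fun n => ?_, ?_⟩
  · refine hEle f hf.toCc (2 * n) (C n) ?_
    filter_upwards [hmom n] with j hj
    exact hle f hf.toCc (2 * n) j (C n) hj
  · -- the moments of the environment are above every eventual lower bound of `md`
    have key : ∀ c : ℝ, (∀ᶠ δ in (U₀ : Filter ℝ), c ≤ md D f n δ) →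
        c - ε₁ ≤ E.L (fun p => E.X f p ^ (2 * n)) := by
      intro c hc
      refine hEge f hf.toCc (2 * n) (c - ε₁) ?_
      filter_upwards [hmd] with j hj
      refine hge f hf.toCc (2 * n) j (c - ε₁) ?_
      filter_upwards [hj, hc] with δ h1 h2
      linarith
    by_contra hcon
    rw [← Ultrafilter.eventually_not] at hcon
    have h2 := key (E.L (fun p => E.X f p ^ (2 * n)) + ε) (hcon.mono fun δ hδ => (not_le.1 hδ).le)
    linarith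

/-- one weight as a constant sequence -/
theorem seqDat_of_envDat {U₀ : Ultrafilter ℝ} {W : Set Pl} {K : ℝ} {E : ℝ → (V → ℤ) → ℝ}
    (h : EnvDat (U₀ : Filter ℝ) W K E) : SeqDat U₀ W K (fun _ => E) where
  wd := fun _ => h.toWDat
  mom := fun f hf n => by
    obtain ⟨C, hC⟩ := h.mom f hf n
    exact ⟨C, fun _ => hC⟩
  shift := fun z hz => by
    obtain ⟨r, hr, h1⟩ := h.shift z hz
    refine ⟨r, hr, fun u f hu hus hf ε hε => Eventually.of_forall fun _ => ?_⟩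
    have h2 := (Metric.tendsto_nhds.1 (h1 u f hu hus hf)) ε hε
    filter_upwards [h2] with δ h3
    rw [Real.dist_eq, sub_zero] at h3
    exact h3.le

/-- the upper half from one weight -/
theorem upN_of_envDat (hd : Deloc) {U₀ : Ultrafilter ℝ} (hU₀ : (U₀ : Filter ℝ) ≤ 𝓝[>] 0) {K : ℝ} (hK : 0 < K)
    {Ω W Q : Set Pl} {D : ℝ → Finset V} {f : Pl → ℝ} {C : ℕ → ℝ} {ε b : ℝ} {E : ℝ → (V → ℤ) → ℝ}
    (hW : IsOpen W) (hf : Tst W f) (hf0 : ∀ z, 0 ≤ f z) (hQ : IsCompact Q) (hQW : Q ⊆ W)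
    (hEn : En W f ≤ En Ω f + ε) (hS : EnvDat (U₀ : Filter ℝ) W K E) (hb0 : 0 ≤ b) (hb : b * ∫ z, f z ≤ ε)
    (hwall : ∀ η, Tst (W \ Q) η → (∀ z, 0 ≤ η z) → ∀ e > 0, ∀ᶠ δ in (U₀ : Filter ℝ),
      qt E (fun δ h => Xd δ f h * Xd δ η h) δ ≤ b * (∫ z, η z) + e)
    (hmom : ∀ n, ∀ᶠ δ in (U₀ : Filter ℝ), qt E (fun δ h => Xd δ f h ^ (2 * n)) δ ≤ C n)
    {n : ℕ} {ε₁ : ℝ} (hε₁ : ε₁ < ε) (hmd : ∀ᶠ δ in (U₀ : Filter ℝ),
      md D f n δ ≤ qt E (fun δ h => Xd δ f h ^ (2 * n)) δ + ε₁) :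
    UpN K Ω D f n C ε U₀ :=
  upN_of_seqDat hd hU₀ hK hW hf hf0 hQ hQW hEn (seqDat_of_envDat hS) hb0 hb
    (fun η hη h0 e he => Eventually.of_forall fun _ => hwall η hη h0 e he)
    (fun n => Eventually.of_forall fun _ => hmom n) hε₁ (Eventually.of_forall fun _ => hmd)

end GF
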