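import Pool.Agent.Helper41.DV.H6
import Pool.Agent.Helper41.DV.H7
import Pool.Agent.Helper41.DV.Fin

/-!
H8.  The final assembly.
-/

open Filter Topology

namespace DV

open RP4 (V Deloc)
open GF (Pl Tst Kc UpN)
open GF.Fin (Approximates Plane Vertex)

/-- INPUT: the families of blocks -/
def FamIn (hd : Deloc) : Prop :=
  ∀ k S (U₀ : Ultrafilter ℝ), (U₀ : Filter ℝ) ≤ 𝓝[>] 0 → ∃ F, LoFam (Kc hd) (pol k S) U₀ F

/-- INPUT: the upper half -/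
def UpIn (hd : Deloc) : Prop :=
  ∀ (Ω : Set Pl) (D : ℝ → Finset V), IsOpen Ω → Bornology.IsBounded Ω → Approximates D Ω →
    ∀ f, Tst Ω f → (∀ z, 0 ≤ f z) → ∀ n, ∃ C : ℕ → ℝ, ∀ ε > 0, ∀ U : Ultrafilter ℝ, (U : Filter ℝ) ≤ 𝓝[>] 0 →
      UpN (Kc hd) Ω D f n C ε U

theorem sandV_all (hd : Deloc) (hfam : FamIn hd) (hup : UpIn hd) (Ω : Set Plane) (D : ℝ → Finset Vertex)
    (hΩ : IsOpen Ω) (hb : Bornology.IsBounded Ω) (hD : Approximates D Ω) (f : Plane → ℝ) (hf : Tst Ω f)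
    (hf0 : ∀ z, 0 ≤ f z) : GF.SandV (Kc hd) Ω D f :=
  GF.sandV_of_halves (hup Ω D hΩ hb hD f hf hf0) (lo_all hd hfam hΩ hb hD hf hf0)

open GF.Fin in
/-- the final statement from the two inputs -/
theorem dv_all (hfam : FamIn GF.deloc) (hup : UpIn GF.deloc) :
    ∃ κ : ℝ, 0 < κ ∧ ∀ (Ω : Set Plane) (D : ℝ → Finset Vertex), IsOpen Ω → Bornology.IsBounded Ω →
      Approximates D Ω → ∀ (m : ℕ) (f : Fin m → Plane → ℝ), (∀ i, Test Ω (f i)) →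
      (covariance κ Ω f).PosSemidef ∧
      (∀ G, IsGreenFunction Ω G → ∀ i j,
        covariance κ Ω f i j = κ ^ 2 * ∫ x, ∫ y, f i x * G x y * f j y) ∧
      ∀ φ : EuclideanSpace ℝ (Fin m) → ℝ, Continuous φ →
        (∃ (C : ℝ) (k : ℕ), ∀ v, |φ v| ≤ C * (1 + ‖v‖) ^ k) →
        MeasureTheory.Integrable φ (ProbabilityTheory.multivariateGaussian 0 (covariance κ Ω f)) ∧
        Tendsto (fun δ => Mean (D δ) fun h => φ (pairings δ (D δ) f h)) (𝓝[>] 0)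
          (𝓝 (∫ v, φ v ∂(ProbabilityTheory.multivariateGaussian 0 (covariance κ Ω f)))) :=
  GF.Fin.final (GF.Kc_pos GF.deloc) (fun Ω D hΩ hb hD f hf hf0 => sandV_all GF.deloc hfam hup Ω D hΩ hb hD f hf hf0)

end DV
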