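import Pool.Agent.Helper34.GF.EF
import Pool.Agent.Helper27.GF.Lm

/-!
E0.  Domain version, continuum part: definitions.

The energy of a test function in an open set is defined by the variational formula, an environment is a
limit state with a field which has the domain Markov property in an open set.
-/

open MeasureTheory Filter Topology

namespace GF

/-- Dirichlet energy -/
noncomputable def dir (u : Pl → ℝ) : ℝ := ∫ z, (dx u z ^ 2 + dy u z ^ 2)

/-- test functions of `W` -/
structure Tst (W : Set Pl) (u : Pl → ℝ) : Prop extends Cc u where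
  sub : tsupport u ⊆ W

/-- the functional whose supremum is the energy -/
noncomputable def JJ (f u : Pl → ℝ) : ℝ := 2 * (∫ z, f z * u z) - dir u

/-- the energy of `f` in `W`: supremum over the test functions of `W`; it is `∬ f G_W f` -/
noncomputable def En (W : Set Pl) (f : Pl → ℝ) : ℝ := sSup {a | ∃ u, Tst W u ∧ a = JJ f u}

/-- the energy form, by polarisation; it is `∬ f G_W g` -/
noncomputable def Gr (W : Set Pl) (f g : Pl → ℝ) : ℝ :=
  (En W (fun z => f z + g z) - En W (fun z => f z - g z)) / 4

/-- an environment: a limit state with a field which has the domain Markov property in `W` -/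
structure Env (I : Type) (W : Set Pl) (K : ℝ) extends Lim I where
  X : (Pl → ℝ) → I → ℝ
  ok_X : ∀ f, Cc f → Ok (X f)
  X_add : ∀ f g, Cc f → Cc g → ∀ i, X (fun z => f z + g z) i = X f i + X g i
  X_smul : ∀ (c : ℝ) f, Cc f → ∀ i, X (fun z => c * f z) i = c * X f i
  odd : ∀ f, Cc f → L (fun i => Real.sin (X f i)) = 0
  pos : ∀ f g, Cc f → Cc g → (∀ z, 0 ≤ f z) → (∀ z, 0 ≤ g z) → 0 ≤ L (fun i => X f i * X g i)
  shift : ∀ u f, Tst W u → Tst W f →
    L (fun i => Real.cos (X f i)) =
      Real.exp (-(K / 2 * JJ f u)) * L (fun i => Real.cos (X (fun z => f z + lap u z) i))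

/-- the covariance with `f` of functions supported near the boundary of `W` is at most `b` -/
def Env.Wall {I : Type} {W : Set Pl} {K : ℝ} (M : Env I W K) (f : Pl → ℝ) (b : ℝ) : Prop :=
  0 ≤ b ∧ ∃ Q : Set Pl, IsCompact Q ∧ Q ⊆ W ∧
    ∀ η, Tst (W \ Q) η → (∀ z, 0 ≤ η z) → M.L (fun i => M.X f i * M.X η i) ≤ b * ∫ z, η z

/-! ### elementary facts -/

lemma Tst.mono {W W' : Set Pl} {u : Pl → ℝ} (h : Tst W u) (hW : W ⊆ W') : Tst W' u :=
  ⟨h.toCc, h.sub.trans hW⟩

lemma tst_zero (W : Set Pl) : Tst W (fun _ => 0) := by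
  refine ⟨⟨contDiff_const, ?_⟩, ?_⟩
  · exact HasCompactSupport.zero
  · rw [show (fun _ : Pl => (0 : ℝ)) = 0 from rfl, tsupport_zero]
    exact Set.empty_subset _

end GF
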