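import Pool.Agent.Helper41.DV.E1
import Pool.Agent.Helper27.GF.Cal1

/-!
E12.  The shift identity for small supports gives the shift identity for all test functions.
-/

open MeasureTheory Filter Topology

namespace GF

private lemma E12_add {W : Set Pl} {u v : Pl → ℝ} (hu : Tst W u) (hv : Tst W v) : Tst W (fun z => u z + v z) :=
  ⟨hu.toCc.add hv.toCc, (tsupport_add u v).trans (Set.union_subset hu.sub hv.sub)⟩

private lemma E12_lap {W : Set Pl} {u : Pl → ℝ} (hu : Tst W u) : Tst W (lap u) :=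
  ⟨hu.toCc.lap, (tsupport_lap u).trans hu.sub⟩

/-- the shift identity for `u` and all `f` -/
private def E12_P (W : Set Pl) (K : ℝ) (χ : (Pl → ℝ) → ℝ) (u : Pl → ℝ) : Prop :=
  Tst W u ∧ ∀ f, Tst W f → χ f = Real.exp (-(K / 2 * JJ f u)) * χ (fun w => f w + lap u w)

private lemma E12_P_zero (W : Set Pl) (K : ℝ) (χ : (Pl → ℝ) → ℝ) : E12_P W K χ 0 := by
  refine ⟨tst_zero W, fun f _ => ?_⟩
  have h1 : ∀ z : Pl, dx (0 : Pl → ℝ) z = 0 := by
    intro z
    simp [dx]
  have h2 : ∀ z : Pl, dy (0 : Pl → ℝ) z = 0 := by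
    intro z
    simp [dy]
  have h1' : dx (0 : Pl → ℝ) = 0 := funext h1
  have h2' : dy (0 : Pl → ℝ) = 0 := funext h2
  have h3 : ∀ z : Pl, lap (0 : Pl → ℝ) z = 0 := by
    intro z
    simp only [lap, h1', h2', h1, h2, add_zero]
  have h4 : JJ f 0 = 0 := by
    simp [JJ, dir, h1, h2]
  rw [h4]
  simp only [h3, mul_zero, neg_zero, Real.exp_zero, one_mul, add_zero]

private lemma E12_P_add (W : Set Pl) (K : ℝ) (χ : (Pl → ℝ) → ℝ) (u v : Pl → ℝ) (hu : E12_P W K χ u)
    (hv : E12_P W K χ v) : E12_P W K χ (u + v) := by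
  refine ⟨E12_add hu.1 hv.1, fun f hf => ?_⟩
  have h1 := hu.2 f hf
  have h2 := hv.2 (fun w => f w + lap u w) (E12_add hf (E12_lap hu.1))
  have h3 : JJ f (u + v) = JJ f u + JJ (fun z => f z + lap u z) v :=
    JJ_add hf.smooth.continuous hu.1.toCc hv.1.toCc
  have h4 : (fun w => f w + lap (u + v) w) = fun w => f w + lap u w + lap v w := by
    funext w
    have h5 : lap (u + v) w = lap u w + lap v w := lap_add hu.1.smooth hv.1.smooth w
    rw [h5, add_assoc]
  rw [h1, h2, h3, h4, ← mul_assoc, ← Real.exp_add]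
  congr 2
  ring

/-- Smooth partition of unity on the compact set `tsupport u`, subordinate to finitely many of the balls:
`u = ∑ ρ_i u`.  Induction on the number of pieces with `JJ_add`: after the pieces `u_1, …, u_k` the function is
`f + Δu_1 + … + Δu_k`, again a test function of `W`, and the exponents add up. -/
theorem shift_glue {W : Set Pl} (hW : IsOpen W) {K : ℝ} (χ : (Pl → ℝ) → ℝ)
    (h : ∀ z ∈ W, ∃ r > 0, ∀ u f, Tst W u → tsupport u ⊆ Metric.ball z r → Tst W f →
      χ f = Real.exp (-(K / 2 * JJ f u)) * χ (fun w => f w + lap u w))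
    {u f : Pl → ℝ} (hu : Tst W u) (hf : Tst W f) :
    χ f = Real.exp (-(K / 2 * JJ f u)) * χ (fun w => f w + lap u w) := by
  classical
  choose! r hr hP using h
  have hK : IsCompact (tsupport u) := hu.supp
  obtain ⟨t, ht, hcov⟩ := hK.elim_nhds_subcover (fun z => Metric.ball z (r z))
    (fun z hz => Metric.ball_mem_nhds z (hr z (hu.sub hz)))
  have hcov' : tsupport u ⊆ ⋃ i : t, Metric.ball (i : Pl) (r i) := by
    intro z hz
    obtain ⟨y, hy, hzy⟩ := Set.mem_iUnion₂.1 (hcov hz)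
    exact Set.mem_iUnion.2 ⟨⟨y, hy⟩, hzy⟩
  obtain ⟨ρ, hρ⟩ := SmoothPartitionOfUnity.exists_isSubordinate (modelWithCornersSelf ℝ Pl) (isClosed_tsupport u)
    (fun i : t => Metric.ball (i : Pl) (r i)) (fun i => Metric.isOpen_ball) hcov'
  have hsm : ∀ i : t, ContDiff ℝ (⊤ : ℕ∞) (fun z => ρ i z) := fun i => (ρ i).contMDiff.contDiff
  have hTst : ∀ i : t, Tst W (fun z => ρ i z * u z) := by
    intro i
    refine ⟨hu.toCc.mul_left (hsm i), ?_⟩
    exact (tsupport_mul_subset_right (f := fun z => ρ i z) (g := u)).trans hu.sub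
  have hpiece : ∀ i : t, E12_P W K χ (fun z => ρ i z * u z) := by
    intro i
    refine ⟨hTst i, fun f hf => ?_⟩
    refine hP (i : Pl) (hu.sub (ht i i.2)) _ f (hTst i) ?_ hf
    exact (tsupport_mul_subset_left (f := fun z => ρ i z) (g := u)).trans (hρ i)
  have hsum : (∑ i : t, fun z => ρ i z * u z) = u := by
    funext z
    rw [Finset.sum_apply, ← Finset.sum_mul]
    by_cases hz : z ∈ tsupport u
    · have h1 := ρ.sum_eq_one hz
      rw [finsum_eq_sum_of_fintype] at h1
      rw [h1, one_mul]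
    · rw [image_eq_zero_of_notMem_tsupport hz, mul_zero]
  have hall : E12_P W K χ (∑ i : t, fun z => ρ i z * u z) :=
    Finset.sum_induction _ (E12_P W K χ) (fun a b => E12_P_add W K χ a b) (E12_P_zero W K χ) (fun i _ => hpiece i)
  rw [hsum] at hall
  exact hall.2 f hf

end GF
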