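import Pool.Agent.Helper34.GF.F1
import Pool.Agent.Helper27.GF.Lm

/-!
E8.  Characters and moments.
-/

open MeasureTheory Filter Topology ProbabilityTheory

namespace GF

/-- the even moments of the standard normal law -/
noncomputable def gm (n : ℕ) : ℝ := ∫ x, x ^ (2 * n) ∂(gaussianReal 0 1)

/-- `gm n ≥ 0`, all moments converge (`gaussianReal` has exponential moments), the moments of variance `v` -/
theorem gm_facts (n : ℕ) : 0 ≤ gm n ∧ ∀ v : NNReal, Integrable (fun x : ℝ => x ^ n) (gaussianReal 0 v) ∧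
    ∫ x, x ^ (2 * n) ∂(gaussianReal 0 v) = gm n * (v : ℝ) ^ n := by
  refine ⟨integral_nonneg fun x => ?_, fun v => ⟨?_, ?_⟩⟩
  · show (0 : ℝ) ≤ x ^ (2 * n)
    rw [pow_mul]
    positivity
  · have h1 : MemLp (id : ℝ → ℝ) (n : ENNReal) (gaussianReal 0 v) := by
      have := memLp_id_gaussianReal (μ := 0) (v := v) (n : NNReal)
      simpa using this
    have h2 := h1.integrable_norm_pow'
    refine h2.mono' (by fun_prop) (Eventually.of_forall fun x => ?_)
    simp
  · have h1 : gaussianReal 0 v = (gaussianReal 0 1).map (fun x => (NNReal.sqrt v : ℝ) * x) := by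
      rw [gaussianReal_map_const_mul]
      congr 1
      · simp
      · ext
        simp
    rw [h1, integral_map (by fun_prop) (by fun_prop)]
    unfold gm
    rw [← integral_mul_const]
    refine integral_congr_ae (Eventually.of_forall fun x => ?_)
    show ((NNReal.sqrt v : ℝ) * x) ^ (2 * n) = x ^ (2 * n) * (v : ℝ) ^ n
    have h2 : ((NNReal.sqrt v : ℝ)) ^ 2 = v := by
      rw [Real.coe_sqrt]
      exact Real.sq_sqrt v.2
    rw [mul_pow, pow_mul (NNReal.sqrt v : ℝ), h2, mul_comm]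

private lemma E8_step (m : ℕ) (c : ℕ → ℝ) : ∃ c' : ℕ → ℝ, ∀ x : ℝ,
    (2 - 2 * Real.cos x) * (∑ k ∈ Finset.range m, c k * Real.cos (k * x)) =
      ∑ k ∈ Finset.range (m + 1), c' k * Real.cos (k * x) := by
  induction m with
  | zero => exact ⟨fun _ => 0, fun x => by simp⟩
  | succ m ih =>
    obtain ⟨c', hc'⟩ := ih
    have hex : ∃ j : ℕ, j < m + 2 ∧ ∀ x : ℝ, 2 * Real.cos x * Real.cos (m * x) =
        Real.cos ((m + 1 : ℕ) * x) + Real.cos (j * x) := by
      rcases m with _ | m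
      · refine ⟨1, by omega, fun x => ?_⟩
        simp
        ring
      · refine ⟨m, by omega, fun x => ?_⟩
        have e1 : ((m + 1 + 1 : ℕ) : ℝ) * x = ((m + 1 : ℕ) : ℝ) * x + x := by push_cast; ring
        have e2 : (m : ℝ) * x = ((m + 1 : ℕ) : ℝ) * x - x := by push_cast; ring
        rw [e1, e2, Real.cos_add, Real.cos_sub]
        ring
    obtain ⟨j, hj, hj2⟩ := hex
    refine ⟨fun k => (if k < m + 1 then c' k else 0) + (if k = m then 2 * c m else 0) -
      (if k = m + 1 then c m else 0) - (if k = j then c m else 0), fun x => ?_⟩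
    rw [Finset.sum_range_succ, mul_add, hc']
    simp only [sub_mul, add_mul, Finset.sum_add_distrib, Finset.sum_sub_distrib, ite_mul, zero_mul]
    rw [Finset.sum_ite_eq' (Finset.range (m + 1 + 1)) m, Finset.sum_ite_eq' (Finset.range (m + 1 + 1)) (m + 1),
      Finset.sum_ite_eq' (Finset.range (m + 1 + 1)) j, if_pos (by simp), if_pos (by simp),
      if_pos (Finset.mem_range.2 (by omega)), Finset.sum_range_succ _ (m + 1)]
    rw [if_neg (by omega)]
    have e3 : ∑ k ∈ Finset.range (m + 1), (if k < m + 1 then c' k * Real.cos (k * x) else 0) =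
        ∑ k ∈ Finset.range (m + 1), c' k * Real.cos (k * x) :=
      Finset.sum_congr rfl fun k hk => by rw [if_pos (Finset.mem_range.1 hk)]
    rw [e3]
    have := hj2 x
    linear_combination (-(c m)) * this

/-- `(2 - 2 cos θ)^n` is a combination of the functions `cos(k θ)`, `|k| ≤ n` -/
theorem cos_comb (n : ℕ) : ∃ c : ℕ → ℝ, ∀ x : ℝ,
    (2 - 2 * Real.cos x) ^ n = ∑ k ∈ Finset.range (n + 1), c k * Real.cos (k * x) := by
  induction n with
  | zero => exact ⟨fun _ => 1, fun x => by simp⟩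
  | succ n ih =>
    obtain ⟨c, hc⟩ := ih
    obtain ⟨c', hc'⟩ := E8_step (n + 1) c
    exact ⟨c', fun x => by rw [pow_succ', hc, hc']⟩

/-- `θ² - θ⁴/12 ≤ 2 - 2 cos θ ≤ θ²`, so `|(2 - 2 cos θ)^n - θ^(2n)| ≤ n θ^(2n+2)` -/
theorem cos_pow (n : ℕ) (x : ℝ) : |(2 - 2 * Real.cos x) ^ n - x ^ (2 * n)| ≤ n * x ^ (2 * n + 2) := by
  obtain ⟨a, ha⟩ : ∃ a, a = 2 - 2 * Real.cos x := ⟨_, rfl⟩
  obtain ⟨b, hb⟩ : ∃ b, b = x ^ 2 := ⟨_, rfl⟩
  have h0 : 0 ≤ a := by
    have := Real.cos_le_one x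
    rw [ha]; linarith
  have h1 : a ≤ b := by
    have := Real.one_sub_sq_div_two_le_cos (x := x)
    rw [ha, hb]; linarith
  have h2 : b - a ≤ b ^ 2 := by
    rcases le_total |x| 1 with hx | hx
    · have := Real.cos_bound hx
      rw [abs_le] at this
      have h3 : |x| ^ 4 = (x ^ 2) ^ 2 := by
        rw [← sq_abs x]; ring
      rw [h3, ← hb] at this
      have h4 := sq_nonneg b
      rw [ha]
      nlinarith [this.2]
    · have h3 : 1 ≤ b := by
        rw [hb, ← sq_abs]
        nlinarith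
      nlinarith
  have h3 : 0 ≤ b := h0.trans h1
  rw [← ha, show 2 * n + 2 = 2 * (n + 1) by ring, pow_mul, pow_mul, ← hb]
  have h4 : a ^ n ≤ b ^ n := pow_le_pow_left₀ h0 h1 n
  rw [abs_sub_comm, abs_of_nonneg (by linarith)]
  clear h4
  induction n with
  | zero => simp
  | succ n ih =>
    have h5 : a ^ n ≤ b ^ n := pow_le_pow_left₀ h0 h1 n
    have h6 : 0 ≤ a ^ n := pow_nonneg h0 n
    have h7 : (b - a) * a ^ n ≤ b ^ 2 * b ^ n := mul_le_mul h2 h5 h6 (sq_nonneg b)
    have h8 : b * (b ^ n - a ^ n) ≤ b * (n * b ^ (n + 1)) := mul_le_mul_of_nonneg_left ih h3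
    push_cast
    calc b ^ (n + 1) - a ^ (n + 1) = b * (b ^ n - a ^ n) + (b - a) * a ^ n := by ring
      _ ≤ b * (n * b ^ (n + 1)) + b ^ 2 * b ^ n := add_le_add h8 h7
      _ = (n + 1) * b ^ (n + 1 + 1) := by ring

end GF
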