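import Pool.Agent.Helper41.DV.E0
import Pool.Agent.Helper41.DV.E8
import Pool.Agent.Helper63.RP4.H0

/-!
E11.  The sandwich: what the probabilistic part has to deliver.
-/

open MeasureTheory Filter Topology ProbabilityTheory

namespace GF

open RP4 (V avg Om BdryPar)

/-- the pairing of a height function on `D` with `f`, mesh `δ` -/
noncomputable def prD (δ : ℝ) (f : Pl → ℝ) (D : Finset V) (h : V → ℤ) : ℝ :=
  δ ^ 2 * ∑ x ∈ D, f (δ * x.1, δ * x.2) * (h x : ℝ)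

/-- even moments of the pairing, zero boundary values on `D δ` -/
noncomputable def md (D : ℝ → Finset V) (f : Pl → ℝ) (n : ℕ) (δ : ℝ) : ℝ :=
  avg (Om (D δ)) (fun h => prD δ f (D δ) h ^ (2 * n))

/-- what the probabilistic part has to deliver for a domain `Ω`, an approximation `D` and a test function
`f ≥ 0`: environments from above and from below -/
def Sand (K : ℝ) (Ω : Set Pl) (D : ℝ → Finset V) (f : Pl → ℝ) : Prop :=
  ∃ C : ℕ → ℝ, ∀ ε > 0, ∀ U : Ultrafilter ℝ, (U : Filter ℝ) ≤ 𝓝[>] 0 →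
    (∃ (I : Type) (W : Set Pl) (M : Env I W K) (b : ℝ), IsOpen W ∧ Tst W f ∧ M.Wall f b ∧ b ≤ ε ∧
      En W f ≤ En Ω f + ε ∧ (∀ n, M.L (fun i => M.X f i ^ (2 * n)) ≤ C n) ∧
      ∀ n, ∀ η > 0, ∀ᶠ δ in (U : Filter ℝ), md D f n δ ≤ M.L (fun i => M.X f i ^ (2 * n)) + η) ∧
    (∃ (I : Type) (W : Set Pl) (M : Env I W K) (b : ℝ), IsOpen W ∧ Tst W f ∧ M.Wall f b ∧ b ≤ ε ∧
      En Ω f - ε ≤ En W f ∧ (∀ n, M.L (fun i => M.X f i ^ (2 * n)) ≤ C n) ∧
      ∀ n, ∀ η > 0, ∀ᶠ δ in (U : Filter ℝ), M.L (fun i => M.X f i ^ (2 * n)) - η ≤ md D f n δ)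

end GF
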