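import Pool.Agent.Helper41.DV.H2
import Pool.Agent.Helper41.DV.E11
import Pool.Agent.Helper33.DV.Ev5

/-!
H2b.  Point values and masses give the same moments in the limit.
-/

open Finset Filter Topology MeasureTheory

namespace DV

open RP4 (V Adj BdryPar Om dom avg bdry mass cell)
open GF.Lat (Xd win)
open GF (Pl Cc md)

/-- on `Om D` only the sites of `D` count -/
private lemma Xd_lin33 {D : Finset V} {h : V → ℤ} (hh : h ∈ Om D) (δ : ℝ) (f : Pl → ℝ) :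
    Xd δ f h = GF.lin D (mass δ f) h := by
  unfold Xd GF.lin
  refine tsum_eq_sum fun x hx => ?_
  rw [(RP4.mem_Om.1 hh).1.off x hx, Int.cast_zero, mul_zero]

/-- coordinates in a ball -/
private lemma pt_box33 {D : Finset V} {δ R : ℝ} (h : ∀ x ∈ D, ‖pt δ x‖ ≤ R) :
    ∀ x ∈ D, |δ * (x.1 : ℝ)| ≤ max R 0 ∧ |δ * (x.2 : ℝ)| ≤ max R 0 := by
  intro x hx
  have h1 := h x hx
  have h2 : ‖(pt δ x).1‖ ≤ ‖pt δ x‖ := norm_fst_le _
  have h3 : ‖(pt δ x).2‖ ≤ ‖pt δ x‖ := norm_snd_le _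
  exact ⟨(h2.trans h1).trans (le_max_left _ _), (h3.trans h1).trans (le_max_left _ _)⟩

/--
`prD δ f D h - Xd δ f h = ∑ x ∈ D, g x * h x` for `h ∈ Om D` (heights vanish outside of `D`), `g x = δ² f(δ x) - mass δ f x`,
`|g x| ≤ L δ³` (`f` is Lipschitz, the cell of `x` has area `δ²` and diameter `≤ 2 δ`) and `g x = 0` if the cell of `x`
does not meet the support, so `∑ |g x| ≤ C δ`; `MD.mdv` gives `avg (∑ g h)² ≤ C (2R/δ + 1)² (L δ³) (C δ) ≤ C' δ²`.
`|a^(2n) - b^(2n)| ≤ 2n |a - b| (|a|^(2n-1) + |b|^(2n-1))`, Cauchy–Schwarz and the bounds of all moments of `Xd` (`box_moments`)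
and of `prD` (the same proof, or from the one of `Xd` and the moments of `∑ g h` by `GF.moments`).
-/
theorem md_close {f : Pl → ℝ} (hf : Cc f) (R : ℝ) (n : ℕ) {D : ℝ → Finset V}
    (hD : ∀ᶠ δ in 𝓝[>] (0 : ℝ), BdryPar (D δ) 0 ∧ ∀ x ∈ D δ, ‖pt δ x‖ ≤ R) :
    Tendsto (fun δ => md D f n δ - avg (Om (D δ)) (fun h => Xd δ f h ^ (2 * n))) (𝓝[>] 0) (𝓝 0) := by
  have h1 := md_mass (hD.mono fun δ h => h.1) (le_max_right R 0)
    (hD.mono fun δ h => pt_box33 h.2) hf n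
  have h2 := h1.neg
  rw [neg_zero] at h2
  refine h2.congr fun δ => ?_
  rw [neg_sub]
  congr 1
  unfold RP4.avg
  congr 1
  refine Finset.sum_congr rfl fun h hh => ?_
  simp only [Xd_lin33 hh]
  rfl

end DV
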