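import Pool.Agent.Helper34.GF.N0

/-!
E4.  A positive functional on the smooth functions with compact support is a measure.
-/

open MeasureTheory Filter Topology

namespace GF

/-- The continuous function with compact support of a test function. -/
private noncomputable def E4_cc (f : Pl → ℝ) (hf : Cc f) : CompactlySupportedContinuousMap Pl ℝ where
  toFun := f
  continuous_toFun := hf.smooth.continuous
  hasCompactSupport' := hf.supp

private lemma E4_add {f g : Pl → ℝ} (hf : Cc f) (hg : Cc g) : Cc (fun z => f z + g z) :=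
  ⟨hf.smooth.add hg.smooth, hf.supp.add hg.supp⟩

private lemma E4_smul (c : ℝ) {f : Pl → ℝ} (hf : Cc f) : Cc (fun z => c * f z) :=
  ⟨contDiff_const.mul hf.smooth, hf.supp.mul_left⟩

private lemma E4_zero : Cc (fun _ : Pl => (0 : ℝ)) :=
  ⟨contDiff_const, HasCompactSupport.zero⟩

/-- The subspace of the smooth functions. -/
private def E4_sub : Submodule ℝ (CompactlySupportedContinuousMap Pl ℝ) where
  carrier := {φ | Cc (fun z => φ z)}
  add_mem' := by
    intro a b ha hb
    exact E4_add ha hb
  zero_mem' := E4_zero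
  smul_mem' := by
    intro c a ha
    exact E4_smul c ha

/-- The cone of the nonnegative functions. -/
private def E4_cone : PointedCone ℝ (CompactlySupportedContinuousMap Pl ℝ) where
  carrier := {φ | ∀ z, 0 ≤ φ z}
  add_mem' := by
    intro a b ha hb z
    exact add_nonneg (ha z) (hb z)
  zero_mem' := by
    intro z
    exact le_refl _
  smul_mem' := by
    intro c a ha z
    exact mul_nonneg c.2 (ha z)

/-- Every function of `C_c` is bounded by a smooth function with compact support. -/
private lemma E4_dom (φ : CompactlySupportedContinuousMap Pl ℝ) :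
    ∃ u : Pl → ℝ, Cc u ∧ ∀ z, 0 ≤ u z + φ z := by
  obtain ⟨R, hR⟩ := φ.hasCompactSupport.isCompact.isBounded.subset_closedBall (0 : Pl)
  obtain ⟨C, hC⟩ := φ.hasCompactSupport.exists_bound_of_continuous φ.continuous
  have hR' : 0 < max R 0 + 1 := by positivity
  let b : ContDiffBump (0 : Pl) := ⟨max R 0 + 1, max R 0 + 2, hR', by linarith⟩
  refine ⟨fun z => C * b z, ⟨contDiff_const.mul b.contDiff, b.hasCompactSupport.mul_left⟩, ?_⟩
  intro z
  have hC0 : 0 ≤ C := (norm_nonneg _).trans (hC z)
  by_cases hz : z ∈ tsupport φ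
  · have h1 : b z = 1 := by
      apply b.one_of_mem_closedBall
      have h2 := hR hz
      rw [Metric.mem_closedBall] at h2 ⊢
      exact h2.trans ((le_max_left _ _).trans (by linarith : max R 0 ≤ max R 0 + 1))
    have h3 := hC z
    rw [Real.norm_eq_abs] at h3
    have h4 := (abs_le.1 h3).1
    simp only [h1, mul_one]
    linarith
  · have h1 : φ z = 0 := image_eq_zero_of_notMem_tsupport hz
    rw [h1, add_zero]
    exact mul_nonneg hC0 b.nonneg

/-- Extend `T` from the subspace of smooth functions of `C_c(Pl, ℝ)` to all of `C_c(Pl, ℝ)` with the Riesz extension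
theorem (`riesz_extension`, cone of nonnegative functions; every `φ ∈ C_c` is at most a smooth cutoff times
`sup |φ|`), then the Riesz-Markov-Kakutani theorem (`RealRMK.integral_rieszMeasure`). -/
theorem exists_meas (T : (Pl → ℝ) → ℝ)
    (hadd : ∀ f g, Cc f → Cc g → T (fun z => f z + g z) = T f + T g)
    (hsmul : ∀ (c : ℝ) f, Cc f → T (fun z => c * f z) = c * T f)
    (hpos : ∀ f, Cc f → (∀ z, 0 ≤ f z) → 0 ≤ T f) :
    ∃ μ : Measure Pl, IsFiniteMeasureOnCompacts μ ∧ ∀ f, Cc f → T f = ∫ z, f z ∂μ := by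
  classical
  let f0 : E4_sub →ₗ[ℝ] ℝ :=
    { toFun := fun φ => T (fun z => φ.1 z)
      map_add' := fun a b => hadd _ _ a.2 b.2
      map_smul' := fun c a => hsmul c _ a.2 }
  let F : CompactlySupportedContinuousMap Pl ℝ →ₗ.[ℝ] ℝ := ⟨E4_sub, f0⟩
  obtain ⟨g, hg, hg0⟩ := riesz_extension E4_cone F
    (fun x hx => hpos _ x.2 hx)
    (fun y => by
      obtain ⟨u, hu, hu0⟩ := E4_dom y
      exact ⟨⟨E4_cc u hu, hu⟩, hu0⟩)
  let Λ : CompactlySupportedContinuousMap Pl ℝ →ₚ[ℝ] ℝ :=
    PositiveLinearMap.mk₀ g (fun x hx => hg0 x hx)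
  refine ⟨RealRMK.rieszMeasure Λ, ?_, ?_⟩
  · infer_instance
  · intro f hf
    have h1 := RealRMK.integral_rieszMeasure Λ (E4_cc f hf)
    have h2 : Λ (E4_cc f hf) = T f := hg ⟨E4_cc f hf, hf⟩
    rw [← h2, ← h1]
    rfl

end GF
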