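import Pool.Agent.Helper41.DV.E5

/-!
E5b.  The mollified measure: smoothness, Laplacian, Fubini.
-/

open MeasureTheory Filter Topology

namespace GF

open scoped Convolution Pointwise in
/-- `HasCompactSupport.contDiff_convolution_right` with `f = 1` (or differentiation under the integral) -/
theorem mol_smooth (μ : Measure Pl) [IsFiniteMeasureOnCompacts μ] {η : Pl → ℝ} (hη : Cc η) :
    ContDiff ℝ (⊤ : ℕ∞) (mol μ η) := by
  have h1 : mol μ η = (fun _ : Pl => (1 : ℝ)) ⋆[ContinuousLinearMap.mul ℝ ℝ, μ] η := by
    funext x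
    unfold mol convolution
    simp
  have h2 : LocallyIntegrable (fun _ : Pl => (1 : ℝ)) μ := continuous_const.locallyIntegrable
  rw [h1]
  exact hη.supp.contDiff_convolution_right (ContinuousLinearMap.mul ℝ ℝ) h2 hη.smooth

private lemma E5b_dir (μ : Measure Pl) [IsFiniteMeasureOnCompacts μ] {η : Pl → ℝ} (hη : Cc η) (v x : Pl) :
    fderiv ℝ (mol μ η) x v = mol μ (fun z => fderiv ℝ η z v) x := by
  have hη1 : ContDiff ℝ 1 η := hη.smooth.of_le (by exact_mod_cast le_top)
  have hfc : Continuous (fderiv ℝ η) := hη1.continuous_fderiv one_ne_zero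
  obtain ⟨C, hC⟩ := (hη.supp.fderiv (𝕜 := ℝ)).exists_bound_of_continuous hfc
  obtain ⟨R, hR⟩ := hη.supp.isCompact.isBounded.subset_closedBall (0 : Pl)
  set S : Set Pl := Metric.closedBall x (R + 1) with hS
  have hSc : IsCompact S := isCompact_closedBall x (R + 1)
  have hz : ∀ x' ∈ Metric.ball x 1, ∀ y, y ∉ S → fderiv ℝ η (x' - y) = 0 := by
    intro x' hx' y hy
    by_contra hne
    have h1 : x' - y ∈ tsupport η := by
      by_contra h2
      exact hne (image_eq_zero_of_notMem_tsupport (fun h3 => h2 (tsupport_fderiv_subset ℝ h3)))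
    have h2 := hR h1
    rw [mem_closedBall_zero_iff] at h2
    apply hy
    rw [hS, Metric.mem_closedBall, dist_eq_norm]
    rw [Metric.mem_ball, dist_eq_norm] at hx'
    have h3 : y - x = (x' - x) - (x' - y) := by abel
    rw [h3]
    have h4 := norm_sub_le (x' - x) (x' - y)
    linarith
  have hcont : ∀ x', Continuous fun y => η (x' - y) := fun x' =>
    hη.smooth.continuous.comp (continuous_const.sub continuous_id)
  have hint : ∀ x', Integrable (fun y => η (x' - y)) μ := fun x' =>
    (hcont x').integrable_of_hasCompactSupport (hη.supp.comp_homeomorph (Homeomorph.subLeft x'))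
  have key : HasFDerivAt (fun x' => ∫ y, η (x' - y) ∂μ) (∫ y, fderiv ℝ η (x - y) ∂μ) x := by
    refine hasFDerivAt_integral_of_dominated_of_fderiv_le (𝕜 := ℝ) (F := fun x' y => η (x' - y))
      (F' := fun x' y => fderiv ℝ η (x' - y)) (bound := S.indicator fun _ => C)
      (Metric.ball_mem_nhds x zero_lt_one) ?_ (hint x) ?_ ?_ ?_ ?_
    · exact Eventually.of_forall fun x' => (hcont x').aestronglyMeasurable
    · exact (hfc.comp (continuous_const.sub continuous_id)).aestronglyMeasurable
    · refine Eventually.of_forall fun y x' hx' => ?_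
      by_cases hy : y ∈ S
      · rw [Set.indicator_of_mem hy]
        exact hC _
      · rw [Set.indicator_of_notMem hy, hz x' hx' y hy, norm_zero]
    · rw [integrable_indicator_iff hSc.measurableSet]
      exact integrableOn_const hSc.measure_lt_top.ne
    · refine Eventually.of_forall fun y x' _ => ?_
      have h1 : HasFDerivAt η (fderiv ℝ η (x' - y)) (x' - y) :=
        (hη1.differentiable one_ne_zero (x' - y)).hasFDerivAt
      have h2 := h1.comp x' ((hasFDerivAt_id x').sub_const y)
      rw [ContinuousLinearMap.comp_id] at h2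
      exact h2
  have h5 : fderiv ℝ (mol μ η) x = ∫ y, fderiv ℝ η (x - y) ∂μ := key.fderiv
  have hint2 : Integrable (fun y => fderiv ℝ η (x - y)) μ :=
    (hfc.comp (continuous_const.sub continuous_id)).integrable_of_hasCompactSupport
      ((hη.supp.fderiv (𝕜 := ℝ)).comp_homeomorph (Homeomorph.subLeft x))
  rw [h5, ContinuousLinearMap.integral_apply hint2]
  rfl

private lemma E5b_cc {η : Pl → ℝ} (hη : Cc η) (v : Pl) : Cc (fun z => fderiv ℝ η z v) :=
  ⟨(hη.smooth.fderiv_right (m := (⊤ : ℕ∞)) le_rfl).clm_apply contDiff_const, hη.supp.fderiv_apply ℝ v⟩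

/-- `HasCompactSupport.hasFDerivAt_convolution_right`, twice -/
theorem lap_mol (μ : Measure Pl) [IsFiniteMeasureOnCompacts μ] {η : Pl → ℝ} (hη : Cc η) (x : Pl) :
    lap (mol μ η) x = mol μ (lap η) x := by
  have hx : dx (mol μ η) = mol μ (dx η) := funext fun y => E5b_dir μ hη (1, 0) y
  have hy : dy (mol μ η) = mol μ (dy η) := funext fun y => E5b_dir μ hη (0, 1) y
  have hxx : dx (mol μ (dx η)) x = mol μ (dx (dx η)) x := E5b_dir μ (E5b_cc hη (1, 0)) (1, 0) x
  have hyy : dy (mol μ (dy η)) x = mol μ (dy (dy η)) x := E5b_dir μ (E5b_cc hη (0, 1)) (0, 1) x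
  unfold lap
  rw [hx, hy, hxx, hyy]
  unfold mol
  have hint : ∀ g : Pl → ℝ, Cc g → Integrable (fun y => g (x - y)) μ := fun g hg =>
    (hg.smooth.continuous.comp (continuous_const.sub continuous_id)).integrable_of_hasCompactSupport
      (hg.supp.comp_homeomorph (Homeomorph.subLeft x))
  have i1 : Integrable (fun y => dx (dx η) (x - y)) μ := hint _ (E5b_cc (E5b_cc hη (1, 0)) (1, 0))
  have i2 : Integrable (fun y => dy (dy η) (x - y)) μ := hint _ (E5b_cc (E5b_cc hη (0, 1)) (0, 1))
  exact (integral_add i1 i2).symm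

open scoped Pointwise in
/-- Fubini for continuous functions with compact support (`μ` is locally finite, so sigma-finite;
the integrand vanishes outside of a compact set of the product) -/
theorem mol_fub (μ : Measure Pl) [IsFiniteMeasureOnCompacts μ] {η g : Pl → ℝ} (hη : Cc η) (hg : Continuous g)
    (hgc : HasCompactSupport g) : ∫ x, g x * mol μ η x = ∫ y, (∫ x, η (x - y) * g x) ∂μ := by
  have h1 : ∀ x, g x * mol μ η x = ∫ y, g x * η (x - y) ∂μ := by
    intro x
    unfold mol
    rw [integral_const_mul]
  simp only [h1]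
  have hc : Continuous (Function.uncurry fun x y : Pl => g x * η (x - y)) := by
    have h2 : Continuous fun p : Pl × Pl => g p.1 * η (p.1 - p.2) :=
      (hg.comp continuous_fst).mul (hη.smooth.continuous.comp (continuous_fst.sub continuous_snd))
    exact h2
  have hs : HasCompactSupport (Function.uncurry fun x y : Pl => g x * η (x - y)) := by
    have k1 : IsCompact (tsupport g) := hgc
    have k2 : IsCompact (tsupport η) := hη.supp
    have k3 : IsCompact (tsupport g + -tsupport η) := k1.add k2.neg
    refine HasCompactSupport.intro (k1.prod k3) ?_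
    rintro ⟨x, y⟩ hxy
    simp only [Function.uncurry_apply_pair]
    by_contra hne
    have h2 : g x ≠ 0 := fun h => hne (by rw [h, zero_mul])
    have h3 : η (x - y) ≠ 0 := fun h => hne (by rw [h, mul_zero])
    apply hxy
    refine ⟨subset_tsupport _ h2, ?_⟩
    refine Set.mem_add.2 ⟨x, subset_tsupport _ h2, -(x - y), ?_, ?_⟩
    · rw [Set.neg_mem_neg]
      exact subset_tsupport _ h3
    · simp only
      abel
  rw [integral_integral_swap_of_hasCompactSupport hc hs]
  refine integral_congr_ae (Eventually.of_forall fun y => ?_)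
  refine integral_congr_ae (Eventually.of_forall fun x => ?_)
  simp only
  ring

end GF
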