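import Pool.Agent.Helper41.DV.E12
import Pool.Agent.Helper27.GF.Lm

/-!
G0.  A sequence of states with approximate domain Markov property gives an environment.
-/

open MeasureTheory Filter Topology

namespace GF

/-- a sequence of limit states with one field: uniform moments, approximate domain Markov property for
functions with small support -/
structure SeqEnv (I : Type) (W : Set Pl) (K : ℝ) where
  M : ℕ → Lim I
  X : (Pl → ℝ) → I → ℝ
  ok_X : ∀ f, Cc f → ∀ j, (M j).Ok (X f)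
  mom : ∀ f, Cc f → ∀ n : ℕ, ∃ C : ℝ, ∀ j, (M j).L (fun i => |X f i| ^ n) ≤ C
  X_add : ∀ f g, Cc f → Cc g → ∀ i, X (fun z => f z + g z) i = X f i + X g i
  X_smul : ∀ (c : ℝ) f, Cc f → ∀ i, X (fun z => c * f z) i = c * X f i
  odd : ∀ f, Cc f → ∀ j, (M j).L (fun i => Real.sin (X f i)) = 0
  pos : ∀ f g, Cc f → Cc g → (∀ z, 0 ≤ f z) → (∀ z, 0 ≤ g z) → ∀ j, 0 ≤ (M j).L (fun i => X f i * X g i)
  shift : ∀ z ∈ W, ∃ r > 0, ∀ u f, Tst W u → tsupport u ⊆ Metric.ball z r → Tst W f → ∀ ε > 0,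
    ∀ᶠ j in atTop, |(M j).L (fun i => Real.cos (X f i)) - Real.exp (-(K / 2 * JJ f u)) *
      (M j).L (fun i => Real.cos (X (fun w => f w + lap u w) i))| ≤ ε

/-! ### the limit of a sequence of states -/

variable {I : Type}

/-- observables of the limit state -/
def OkN (M : ℕ → Lim I) (U : Filter ℕ) (A : ℕ × I → ℝ) : Prop :=
  ∀ n : ℕ, ∃ C : ℝ, ∀ᶠ j in U, (M j).Ok (fun i => A (j, i)) ∧ (M j).L (fun i => |A (j, i)| ^ n) ≤ C

/-- the limit functional -/
noncomputable def LN (M : ℕ → Lim I) (U : Filter ℕ) (A : ℕ × I → ℝ) : ℝ :=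
  limUnder U (fun j => (M j).L (fun i => A (j, i)))

variable {M : ℕ → Lim I} {U : Ultrafilter ℕ}

lemma OkN.tendsto {A : ℕ × I → ℝ} (hA : OkN M U A) :
    Tendsto (fun j => (M j).L (fun i => A (j, i))) U (𝓝 (LN M U A)) := by
  obtain ⟨C, hC⟩ := hA 1
  have h1 : ∀ᶠ j in (U : Filter ℕ), (M j).L (fun i => A (j, i)) ∈ Set.Icc (-C) C := by
    filter_upwards [hC] with j hj
    have h2 := (M j).abs_L_le _ hj.1
    simp only [pow_one] at hj
    exact abs_le.1 (h2.trans hj.2)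
  have h4 : Set.Icc (-C) C ∈ Ultrafilter.map (fun j => (M j).L (fun i => A (j, i))) U := h1
  obtain ⟨x, -, hx⟩ := isCompact_Icc.ultrafilter_le_nhds' _ h4
  exact tendsto_nhds_limUnder ⟨x, hx⟩

lemma OkN.ok {A : ℕ × I → ℝ} (hA : OkN M U A) : ∀ᶠ j in (U : Filter ℕ), (M j).Ok (fun i => A (j, i)) := by
  obtain ⟨C, hC⟩ := hA 0
  exact hC.mono fun j hj => hj.1

lemma OkN.add {A B : ℕ × I → ℝ} (hA : OkN M U A) (hB : OkN M U B) : OkN M U (fun i => A i + B i) := by
  intro k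
  obtain ⟨a, ha⟩ := hA k
  obtain ⟨b, hb⟩ := hB k
  refine ⟨2 ^ (k - 1) * (a + b), ?_⟩
  filter_upwards [ha, hb] with j h1 h2
  have hAk := (M j).ok_pow _ ((M j).ok_abs _ h1.1) k
  have hBk := (M j).ok_pow _ ((M j).ok_abs _ h2.1) k
  have hs := (M j).ok_add _ _ h1.1 h2.1
  refine ⟨hs, ?_⟩
  calc (M j).L (fun i => |A (j, i) + B (j, i)| ^ k)
      ≤ (M j).L (fun i => 2 ^ (k - 1) * (|A (j, i)| ^ k + |B (j, i)| ^ k)) := by
        refine (M j).L_mono _ _ ((M j).ok_pow _ ((M j).ok_abs _ hs) k)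
          ((M j).ok_smul _ _ ((M j).ok_add _ _ hAk hBk)) fun i => ?_
        exact (pow_le_pow_left₀ (abs_nonneg _) (abs_add_le _ _) k).trans
          (add_pow_le (abs_nonneg _) (abs_nonneg _) k)
    _ = 2 ^ (k - 1) * ((M j).L (fun i => |A (j, i)| ^ k) + (M j).L (fun i => |B (j, i)| ^ k)) := by
        rw [(M j).L_smul _ _ ((M j).ok_add _ _ hAk hBk), (M j).L_add _ _ hAk hBk]
    _ ≤ 2 ^ (k - 1) * (a + b) := by
        have := h1.2
        have := h2.2
        gcongr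

lemma OkN.mul {A B : ℕ × I → ℝ} (hA : OkN M U A) (hB : OkN M U B) : OkN M U (fun i => A i * B i) := by
  intro k
  obtain ⟨a, ha⟩ := hA (2 * k)
  obtain ⟨b, hb⟩ := hB (2 * k)
  refine ⟨a + b, ?_⟩
  filter_upwards [ha, hb] with j h1 h2
  have hAk := (M j).ok_pow _ ((M j).ok_abs _ h1.1) (2 * k)
  have hBk := (M j).ok_pow _ ((M j).ok_abs _ h2.1) (2 * k)
  have hs := (M j).ok_mul _ _ h1.1 h2.1
  refine ⟨hs, ?_⟩
  calc (M j).L (fun i => |A (j, i) * B (j, i)| ^ k)
      ≤ (M j).L (fun i => |A (j, i)| ^ (2 * k) + |B (j, i)| ^ (2 * k)) := by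
        refine (M j).L_mono _ _ ((M j).ok_pow _ ((M j).ok_abs _ hs) k)
          ((M j).ok_add _ _ hAk hBk) fun i => ?_
        rw [abs_mul, mul_pow, pow_mul' |A (j, i)| 2 k, pow_mul' |B (j, i)| 2 k]
        nlinarith [sq_nonneg (|A (j, i)| ^ k - |B (j, i)| ^ k), sq_nonneg (|A (j, i)| ^ k),
          sq_nonneg (|B (j, i)| ^ k)]
    _ = (M j).L (fun i => |A (j, i)| ^ (2 * k)) + (M j).L (fun i => |B (j, i)| ^ (2 * k)) :=
        (M j).L_add _ _ hAk hBk
    _ ≤ a + b := add_le_add h1.2 h2.2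

lemma OkN.of_abs_le {A B : ℕ × I → ℝ} (h : ∀ i, |A i| ≤ |B i|) (hB : OkN M U B) : OkN M U A := by
  intro k
  obtain ⟨b, hb⟩ := hB k
  refine ⟨b, hb.mono fun j h1 => ?_⟩
  have hA : (M j).Ok (fun i => A (j, i)) := (M j).ok_of_abs_le _ _ (fun i => h (j, i)) h1.1
  refine ⟨hA, le_trans ((M j).L_mono _ _ ((M j).ok_pow _ ((M j).ok_abs _ hA) k)
    ((M j).ok_pow _ ((M j).ok_abs _ h1.1) k) fun i => ?_) h1.2⟩
  exact pow_le_pow_left₀ (abs_nonneg _) (h _) k

lemma OkN.const (c : ℝ) : OkN M U (fun _ => c) := by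
  intro k
  refine ⟨|c| ^ k, Eventually.of_forall fun j => ⟨(M j).ok_const c, ?_⟩⟩
  exact ((M j).L_const (|c| ^ k)).le

lemma LN_eq {A : ℕ × I → ℝ} {c : ℝ}
    (h : Tendsto (fun j => (M j).L (fun i => A (j, i))) U (𝓝 c)) : LN M U A = c := h.limUnder_eq

/-- the limit state -/
noncomputable def limN (M : ℕ → Lim I) (U : Ultrafilter ℕ) : Lim (ℕ × I) where
  Ok := OkN M U
  L := LN M U
  ok_const := fun c => OkN.const c
  ok_add := fun _ _ hA hB => hA.add hB
  ok_mul := fun _ _ hA hB => hA.mul hB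
  ok_of_abs_le := fun _ _ h hB => OkN.of_abs_le h hB
  L_add := fun _ _ hA hB => LN_eq ((hA.tendsto.add hB.tendsto).congr' (by
    filter_upwards [hA.ok, hB.ok] with j h1 h2
    rw [(M j).L_add _ _ h1 h2]))
  L_smul := fun c _ hA => LN_eq ((hA.tendsto.const_mul c).congr' (by
    filter_upwards [hA.ok] with j h1
    rw [(M j).L_smul _ _ h1]))
  L_mono := fun _ _ hA hB h => le_of_tendsto_of_tendsto hA.tendsto hB.tendsto (by
    filter_upwards [hA.ok, hB.ok] with j h1 h2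
    exact (M j).L_mono _ _ h1 h2 fun i => h (j, i))
  L_one := LN_eq (tendsto_const_nhds.congr' (by
    filter_upwards with j
    rw [(M j).L_one]))

variable {W : Set Pl} {K : ℝ}

lemma SeqEnv.okN (S : SeqEnv I W K) (U : Ultrafilter ℕ) {f : Pl → ℝ} (hf : Cc f) :
    OkN S.M U (fun p => S.X f p.2) := by
  intro n
  obtain ⟨C, hC⟩ := S.mom f hf n
  exact ⟨C, Eventually.of_forall fun j => ⟨S.ok_X f hf j, hC j⟩⟩

/-- the environment of a sequence -/
theorem SeqEnv.toEnv (S : SeqEnv I W K) (hW : IsOpen W) : ∃ E : Env (ℕ × I) W K,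
    (∀ f, Cc f → ∀ (n : ℕ) (c : ℝ), (∀ᶠ j in atTop, (S.M j).L (fun i => S.X f i ^ n) ≤ c) →
      E.L (fun p => E.X f p ^ n) ≤ c) ∧
    (∀ f, Cc f → ∀ (n : ℕ) (c : ℝ), (∀ᶠ j in atTop, c ≤ (S.M j).L (fun i => S.X f i ^ n)) →
      c ≤ E.L (fun p => E.X f p ^ n)) ∧
    (∀ f g, Cc f → Cc g → ∀ c : ℝ, (∀ᶠ j in atTop, (S.M j).L (fun i => S.X f i * S.X g i) ≤ c) →
      E.L (fun p => E.X f p * E.X g p) ≤ c) := by
  obtain ⟨U, hU⟩ := Ultrafilter.exists_le (atTop : Filter ℕ)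
  have hcos : ∀ f, OkN S.M U (fun p => Real.cos (S.X f p.2)) := fun f =>
    OkN.of_abs_le (B := fun _ => 1) (fun i => by
      rw [abs_one]
      exact Real.abs_cos_le_one _) (OkN.const 1)
  have hsin : ∀ f, OkN S.M U (fun p => Real.sin (S.X f p.2)) := fun f =>
    OkN.of_abs_le (B := fun _ => 1) (fun i => by
      rw [abs_one]
      exact Real.abs_sin_le_one _) (OkN.const 1)
  let χ : (Pl → ℝ) → ℝ := fun f => LN S.M U (fun p => Real.cos (S.X f p.2))
  have hsh : ∀ u f, Tst W u → Tst W f → χ f = Real.exp (-(K / 2 * JJ f u)) *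
      χ (fun w => f w + lap u w) := by
    intro u f hu hf
    refine shift_glue hW χ (fun z hz => ?_) hu hf
    obtain ⟨r, hr, h⟩ := S.shift z hz
    refine ⟨r, hr, fun u f hu hus hf => ?_⟩
    have h1 := (hcos f).tendsto
    have h2 := ((hcos (fun w => f w + lap u w)).tendsto).const_mul (Real.exp (-(K / 2 * JJ f u)))
    have h3 := (h1.sub h2).abs
    have h4 : |LN S.M U (fun p => Real.cos (S.X f p.2)) - Real.exp (-(K / 2 * JJ f u)) *
        LN S.M U (fun p => Real.cos (S.X (fun w => f w + lap u w) p.2))| ≤ 0 := by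
      refine le_of_forall_pos_le_add fun ε hε => ?_
      rw [zero_add]
      exact le_of_tendsto h3 (hU (h u f hu hus hf ε hε))
    have h5 := abs_nonpos_iff.1 h4
    exact sub_eq_zero.1 h5
  have hodd : ∀ f, Cc f → LN S.M U (fun p => Real.sin (S.X f p.2)) = 0 := fun f hf =>
    LN_eq (tendsto_const_nhds.congr' (Eventually.of_forall fun j => (S.odd f hf j).symm))
  have hpow : ∀ f, Cc f → ∀ n : ℕ, OkN S.M U (fun p => S.X f p.2 ^ n) := fun f hf n =>
    (limN S.M U).ok_pow (fun p : ℕ × I => S.X f p.2) (S.okN U hf) n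
  refine ⟨{ toLim := limN S.M U
            X := fun f p => S.X f p.2
            ok_X := fun f hf => S.okN U hf
            X_add := fun f g hf hg p => S.X_add f g hf hg p.2
            X_smul := fun c f hf p => S.X_smul c f hf p.2
            odd := fun f hf => hodd f hf
            pos := fun f g hf hg h0 h1 => ge_of_tendsto ((S.okN U hf).mul (S.okN U hg)).tendsto
              (Eventually.of_forall fun j => S.pos f g hf hg h0 h1 j)
            shift := fun u f hu hf => hsh u f hu hf }, ?_, ?_, ?_⟩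
  · intro f hf n c h
    exact le_of_tendsto (hpow f hf n).tendsto (hU h)
  · intro f hf n c h
    exact ge_of_tendsto (hpow f hf n).tendsto (hU h)
  · intro f g hf hg c h
    exact le_of_tendsto ((S.okN U hf).mul (S.okN U hg)).tendsto (hU h)

end GF
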