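import Pool.Agent.Helper41.DV.E1

/-!
E3.  Two point functions of an environment from the shift of characters, `s → 0`.
-/

open MeasureTheory Filter Topology

namespace GF

variable {I : Type} {W : Set Pl} {K : ℝ}

lemma Env.ok_sq (M : Env I W K) {f : Pl → ℝ} (hf : Cc f) : M.Ok (fun i => M.X f i ^ 2) := by
  have h := M.ok_mul _ _ (M.ok_X f hf) (M.ok_X f hf)
  simpa [sq] using h

/-- `|cos x - (1 - x²/2)| ≤ x⁴` for all real `x` (`≤ x⁴/24`) -/
theorem cos_quad (x : ℝ) : |Real.cos x - (1 - x ^ 2 / 2)| ≤ x ^ 4 := by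
  have h1 := Real.one_sub_sq_div_two_le_cos (x := x)
  rcases le_or_gt |x| 1 with h | h
  · have h2 := Real.cos_bound h
    refine h2.trans ?_
    have h3 : |x| ^ 4 = x ^ 4 := by
      have : Even 4 := by decide
      exact this.pow_abs x
    rw [h3]
    have h4 : 0 ≤ x ^ 4 := by positivity
    nlinarith
  · rw [abs_of_nonneg (by linarith)]
    have h2 := Real.cos_le_one x
    have h3 : 1 ≤ x ^ 2 := by
      rw [← sq_abs]
      nlinarith [abs_nonneg x]
    nlinarith [sq_nonneg x]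

/-- `L cos (s A) = 1 - s² / 2 L A² + O(s⁴)` -/
private theorem E3_expand (M : Lim I) {A : I → ℝ} (hA : M.Ok A) (s : ℝ) :
    |M.L (fun i => Real.cos (s * A i)) - (1 - s ^ 2 / 2 * M.L (fun i => A i ^ 2))| ≤
      s ^ 4 * M.L (fun i => A i ^ 4) := by
  have hA2 := M.ok_pow A hA 2
  have hA4 := M.ok_pow A hA 4
  have hc : M.Ok (fun i => Real.cos (s * A i)) := M.ok_bdd _ 1 (fun i => Real.abs_cos_le_one _)
  have h1 : M.L (fun i => Real.cos (s * A i)) - (1 - s ^ 2 / 2 * M.L (fun i => A i ^ 2)) =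
      M.L (fun i => Real.cos (s * A i) - (1 - s ^ 2 / 2 * A i ^ 2)) := by
    have h2 : M.Ok (fun i => s ^ 2 / 2 * A i ^ 2) := M.ok_smul _ _ hA2
    rw [M.L_sub _ _ hc (M.ok_sub _ _ (M.ok_const 1) h2), M.L_sub _ _ (M.ok_const 1) h2, M.L_one,
      M.L_smul _ _ hA2]
  rw [h1, ← M.L_smul _ _ hA4]
  refine M.abs_L_le_of_le _ _ (M.ok_smul _ _ hA4) fun i => ?_
  have h3 := cos_quad (s * A i)
  have e1 : (s * A i) ^ 2 / 2 = s ^ 2 / 2 * A i ^ 2 := by ring
  have e2 : (s * A i) ^ 4 = s ^ 4 * A i ^ 4 := by ring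
  rwa [e1, e2] at h3

private theorem E3_one_sub (M : Lim I) {A : I → ℝ} (hA : M.Ok A) (s : ℝ) :
    |1 - M.L (fun i => Real.cos (s * A i))| ≤ s ^ 2 / 2 * M.L (fun i => A i ^ 2) := by
  have hA2 := M.ok_pow A hA 2
  have hc : M.Ok (fun i => Real.cos (s * A i)) := M.ok_bdd _ 1 (fun i => Real.abs_cos_le_one _)
  have h1 : 1 - M.L (fun i => Real.cos (s * A i)) = M.L (fun i => 1 - Real.cos (s * A i)) := by
    rw [M.L_sub _ _ (M.ok_const 1) hc, M.L_one]
  rw [h1, ← M.L_smul _ _ hA2]
  refine M.abs_L_le_of_le _ _ (M.ok_smul _ _ hA2) fun i => ?_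
  have h3 := Real.one_sub_sq_div_two_le_cos (x := s * A i)
  have h4 := Real.cos_le_one (s * A i)
  rw [abs_of_nonneg (by linarith)]
  have e1 : (s * A i) ^ 2 / 2 = s ^ 2 / 2 * A i ^ 2 := by ring
  rw [e1] at h3
  linarith

/-- comparison of the coefficients of `s²` -/
private theorem E3_coef (M : Lim I) {A B : I → ℝ} (hA : M.Ok A) (hB : M.Ok B) (c : ℝ)
    (h : ∀ s : ℝ, M.L (fun i => Real.cos (s * A i)) = Real.exp (-(c * s ^ 2)) * M.L (fun i => Real.cos (s * B i))) :
    M.L (fun i => A i ^ 2) = M.L (fun i => B i ^ 2) + 2 * c := by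
  set a := M.L (fun i => A i ^ 2) with ha
  set b := M.L (fun i => B i ^ 2) with hb
  set A4 := M.L (fun i => A i ^ 4) with hA4
  set B4 := M.L (fun i => B i ^ 4) with hB4
  have hb0 : 0 ≤ b := M.L_nonneg _ (M.ok_pow B hB 2) (fun i => sq_nonneg _)
  have hA40 : 0 ≤ A4 := M.L_nonneg _ (M.ok_pow A hA 4) (fun i => by positivity)
  have hB40 : 0 ≤ B4 := M.L_nonneg _ (M.ok_pow B hB 4) (fun i => by positivity)
  set D := -a / 2 + b / 2 + c with hD
  set C := A4 + c ^ 2 + |c| * (b / 2) + B4 with hC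
  have hC0 : 0 ≤ C := by positivity
  have key : ∀ q : ℝ, 0 < q → |c| * q ≤ 1 → |D| ≤ q * C := by
    intro q hq hcq
    have hs : Real.sqrt q ^ 2 = q := Real.sq_sqrt hq.le
    have hs4 : Real.sqrt q ^ 4 = q ^ 2 := by
      have : Real.sqrt q ^ 4 = (Real.sqrt q ^ 2) ^ 2 := by ring
      rw [this, hs]
    have h1 := E3_expand M hA (Real.sqrt q)
    have h2 := E3_expand M hB (Real.sqrt q)
    have h3 := E3_one_sub M hB (Real.sqrt q)
    have h4 := h (Real.sqrt q)
    rw [hs, hs4] at h1 h2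
    rw [hs] at h3 h4
    set α := M.L (fun i => Real.cos (Real.sqrt q * A i)) with hα
    set β := M.L (fun i => Real.cos (Real.sqrt q * B i)) with hβ
    have hβ1 : |β| ≤ 1 := by
      have h5 := M.abs_L_le_of_le (fun i => Real.cos (Real.sqrt q * B i)) (fun _ => 1) (M.ok_const 1)
        (fun i => Real.abs_cos_le_one _)
      rwa [M.L_one] at h5
    have hexp : |Real.exp (-(c * q)) - 1 - -(c * q)| ≤ (-(c * q)) ^ 2 := by
      refine Real.abs_exp_sub_one_sub_id_le ?_
      rw [abs_neg, abs_mul, abs_of_pos hq]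
      exact hcq
    set e := Real.exp (-(c * q)) with he
    have h6 : q * D = -(α - (1 - q / 2 * a)) + (e - 1 - -(c * q)) * β + c * q * (1 - β) +
        (β - (1 - q / 2 * b)) := by
      rw [h4, hD]
      ring
    have h7 : |q * D| ≤ q ^ 2 * A4 + (-(c * q)) ^ 2 * 1 + |c| * q * (q / 2 * b) + q ^ 2 * B4 := by
      rw [h6]
      refine (abs_add_le _ _).trans (add_le_add ((abs_add_le _ _).trans (add_le_add
        ((abs_add_le _ _).trans (add_le_add ?_ ?_)) ?_)) h2)
      · rw [abs_neg]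
        exact h1
      · rw [abs_mul]
        exact mul_le_mul hexp hβ1 (abs_nonneg _) (sq_nonneg _)
      · rw [abs_mul, abs_mul, abs_of_pos hq]
        exact mul_le_mul_of_nonneg_left h3 (by positivity)
    rw [abs_mul, abs_of_pos hq] at h7
    have h8 : q * |D| ≤ q * (q * C) := by
      refine h7.trans (le_of_eq ?_)
      rw [hC]
      ring
    exact le_of_mul_le_mul_left h8 hq
  have hD0 : D = 0 := by
    by_contra hne
    have hpos : 0 < |D| := abs_pos.2 hne
    have hq : 0 < min (1 / (|c| + 1)) (|D| / (2 * (C + 1))) := by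
      refine lt_min ?_ ?_ <;> positivity
    have h1 := key _ hq (by
      have h2 : min (1 / (|c| + 1)) (|D| / (2 * (C + 1))) ≤ 1 / (|c| + 1) := min_le_left _ _
      have h3 : |c| * min (1 / (|c| + 1)) (|D| / (2 * (C + 1))) ≤ |c| * (1 / (|c| + 1)) :=
        mul_le_mul_of_nonneg_left h2 (abs_nonneg c)
      refine h3.trans ?_
      rw [mul_one_div, div_le_one (by positivity)]
      linarith)
    have h2 : min (1 / (|c| + 1)) (|D| / (2 * (C + 1))) * C ≤ |D| / (2 * (C + 1)) * C :=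
      mul_le_mul_of_nonneg_right (min_le_right _ _) hC0
    have h3 : |D| / (2 * (C + 1)) * C < |D| := by
      rw [div_mul_eq_mul_div, div_lt_iff₀ (by positivity)]
      nlinarith
    linarith
  rw [hD] at hD0
  linarith

/-- `L cos(s X f) = 1 - s²/2 L X_f² + O(s⁴)` for `f` and for `f + Δu`, and `exp(-(K/2) s² J) = 1 - s² K J/2 + O(s⁴)`, in
`shift` for `s f`, `s u` (`JJ_smul`); `lap (s u) = s lap u` is `energyFacts.lap_smul` -/
theorem Env.two_shift (M : Env I W K) {u f : Pl → ℝ} (hu : Tst W u) (hf : Tst W f) :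
    M.L (fun i => M.X f i ^ 2) = M.L (fun i => M.X (fun z => f z + lap u z) i ^ 2) + K * JJ f u := by
  have hlap : Cc (lap u) := (energyFacts.ne_lap u hu.toCc).toCc
  have hfl : Cc (fun z => f z + lap u z) := ⟨hf.smooth.add hlap.smooth, hf.supp.add hlap.supp⟩
  have h := E3_coef M.toLim (M.ok_X f hf.toCc) (M.ok_X _ hfl) (K / 2 * JJ f u) (fun s => ?_)
  · rw [h]
    ring
  · have hsu : Tst W (fun z => s * u z) := by
      refine ⟨⟨contDiff_const.mul hu.smooth, hu.supp.mul_left⟩, ?_⟩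
      exact (closure_mono (Function.support_mul_subset_right (fun _ => s) u)).trans hu.sub
    have hsf : Tst W (fun z => s * f z) := by
      refine ⟨⟨contDiff_const.mul hf.smooth, hf.supp.mul_left⟩, ?_⟩
      exact (closure_mono (Function.support_mul_subset_right (fun _ => s) f)).trans hf.sub
    have h1 := M.shift _ _ hsu hsf
    rw [JJ_smul s f hu.toCc, energyFacts.lap_smul s u hu.toCc] at h1
    have e1 : (fun z => s * f z + s * lap u z) = fun z => s * (f z + lap u z) := by
      funext z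
      ring
    rw [e1] at h1
    have e2 : (fun i => Real.cos (M.X (fun z => s * f z) i)) = fun i => Real.cos (s * M.X f i) := by
      funext i
      rw [M.X_smul s f hf.toCc]
    have e3 : (fun i => Real.cos (M.X (fun z => s * (f z + lap u z)) i)) =
        fun i => Real.cos (s * M.X (fun z => f z + lap u z) i) := by
      funext i
      rw [M.X_smul s _ hfl]
    rw [e2, e3] at h1
    rw [h1]
    congr 2
    ring

/-- expand the square in `two_shift`, and subtract the case `f = 0` -/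
theorem Env.cov_lap (M : Env I W K) {u f : Pl → ℝ} (hu : Tst W u) (hf : Tst W f) :
    M.L (fun i => M.X f i * M.X (lap u) i) = -(K * ∫ z, f z * u z) := by
  have hlap : Cc (lap u) := (energyFacts.ne_lap u hu.toCc).toCc
  have hXf := M.ok_X f hf.toCc
  have hXl := M.ok_X _ hlap
  have h1 := M.two_shift hu hf
  have h0 := M.two_shift hu (tst_zero W)
  have e00 : (fun z : Pl => (0 : ℝ) + lap u z) = lap u := by
    funext z
    exact zero_add _
  rw [e00] at h0
  have hX0 : ∀ i, M.X (fun _ => 0) i = 0 := by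
    intro i
    have h2 := M.X_smul 0 (fun _ => 0) (tst_zero W).toCc i
    have e : (fun z : Pl => (0 : ℝ) * (fun _ : Pl => (0 : ℝ)) z) = fun _ => 0 := by
      funext z
      exact zero_mul _
    rw [e, zero_mul] at h2
    exact h2
  have e1 : (fun i => M.X (fun _ => 0) i ^ 2) = fun _ => 0 := by
    funext i
    rw [hX0 i]
    ring
  rw [e1, M.toLim.L_zero] at h0
  have hJ0 : JJ (fun _ => 0) u = -dir u := by
    unfold JJ
    simp
  rw [hJ0] at h0
  have hJ : JJ f u = 2 * (∫ z, f z * u z) - dir u := rfl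
  rw [hJ] at h1
  have e2 : (fun i => M.X (fun z => f z + lap u z) i ^ 2) =
      fun i => M.X f i ^ 2 + (2 * (M.X f i * M.X (lap u) i) + M.X (lap u) i ^ 2) := by
    funext i
    rw [M.X_add f (lap u) hf.toCc hlap]
    ring
  have hok1 := M.ok_mul _ _ hXf hXl
  have hok2 : M.Ok (fun i => 2 * (M.X f i * M.X (lap u) i)) := M.toLim.ok_smul 2 _ hok1
  rw [e2, M.L_add _ _ (M.ok_sq hf.toCc) (M.ok_add _ _ hok2 (M.ok_sq hlap)),
    M.L_add _ _ hok2 (M.ok_sq hlap), M.L_smul 2 _ hok1] at h1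
  linarith

end GF
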