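import Pool.Agent.Helper41.DV.G0
import Pool.Agent.Helper41.DV.E11

/-!
G1.  `Sand` from sequences of states.
-/

open MeasureTheory Filter Topology ProbabilityTheory

namespace GF

open RP4 (V avg Om BdryPar)

/-- what the probabilistic part has to deliver, with sequences of states (the sizes of the small blocks tend
to zero along the sequence); `s = 1`: from above, `s = -1`: from below -/
def Side (s : ℝ) (K : ℝ) (Ω : Set Pl) (D : ℝ → Finset V) (f : Pl → ℝ) (C : ℕ → ℝ) (ε : ℝ) (U : Ultrafilter ℝ) : Prop :=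
  ∃ (I : Type) (W Q : Set Pl) (S : SeqEnv I W K) (b : ℝ), IsOpen W ∧ Tst W f ∧ 0 ≤ b ∧ b ≤ ε ∧
    IsCompact Q ∧ Q ⊆ W ∧ s * En W f ≤ s * En Ω f + ε ∧
    (∀ η, Tst (W \ Q) η → (∀ z, 0 ≤ η z) →
      ∀ᶠ j in atTop, (S.M j).L (fun i => S.X f i * S.X η i) ≤ b * ∫ z, η z) ∧
    (∀ n, ∀ᶠ j in atTop, (S.M j).L (fun i => S.X f i ^ (2 * n)) ≤ C n) ∧
    ∀ n, ∀ᶠ j in atTop, ∀ η > 0, ∀ᶠ δ in (U : Filter ℝ),
      s * md D f n δ ≤ s * (S.M j).L (fun i => S.X f i ^ (2 * n)) + η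

/-- `Sand` with sequences of states -/
def SandS (K : ℝ) (Ω : Set Pl) (D : ℝ → Finset V) (f : Pl → ℝ) : Prop :=
  ∃ C : ℕ → ℝ, ∀ ε > 0, ∀ U : Ultrafilter ℝ, (U : Filter ℝ) ≤ 𝓝[>] 0 →
    Side 1 K Ω D f C ε U ∧ Side (-1) K Ω D f C ε U

lemma md_nonneg (D : ℝ → Finset V) (f : Pl → ℝ) (n : ℕ) (δ : ℝ) : 0 ≤ md D f n δ := by
  unfold md avg
  refine div_nonneg (Finset.sum_nonneg fun h _ => ?_) (Nat.cast_nonneg _)
  rw [pow_mul]
  positivity

/-- the sequence of states is replaced by its limit -/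
theorem sand_of_seq {K : ℝ} {Ω : Set Pl} {D : ℝ → Finset V} {f : Pl → ℝ} (h : SandS K Ω D f) :
    Sand K Ω D f := by
  obtain ⟨C, hC⟩ := h
  refine ⟨C, fun ε hε U hU => ?_⟩
  obtain ⟨⟨I₁, W₁, Q₁, S₁, b₁, o₁, t₁, z₁, e₁, c₁, q₁, n₁, w₁, m₁, l₁⟩,
    ⟨I₂, W₂, Q₂, S₂, b₂, o₂, t₂, z₂, e₂, c₂, q₂, n₂, w₂, m₂, l₂⟩⟩ := hC ε hε U hU
  constructor
  · obtain ⟨E, hle, hge, hpr⟩ := S₁.toEnv o₁
    refine ⟨ℕ × I₁, W₁, E, b₁, o₁, t₁, ⟨z₁, Q₁, c₁, q₁, fun η hη h0 => ?_⟩, e₁, by linarith,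
      fun n => hle f t₁.toCc (2 * n) (C n) (m₁ n), fun n η hη => ?_⟩
    · exact hpr f η t₁.toCc hη.toCc _ (w₁ η hη h0)
    · -- the limit of the moments along the ultrafilter is at most each of the states
      have key : ∀ c : ℝ, (∀ᶠ δ in (U : Filter ℝ), c ≤ md D f n δ) →
          c ≤ E.L (fun p => E.X f p ^ (2 * n)) := by
        intro c hc
        refine hge f t₁.toCc (2 * n) c ?_
        filter_upwards [l₁ n] with j hj
        refine le_of_forall_pos_le_add fun η hη => ?_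
        obtain ⟨δ, h1, h2⟩ := (hc.and (hj η hη)).exists
        linarith
      by_contra hcon
      rw [← Ultrafilter.eventually_not] at hcon
      have h2 := key (E.L (fun p => E.X f p ^ (2 * n)) + η) (hcon.mono fun δ hδ => (not_le.1 hδ).le)
      linarith
  · obtain ⟨E, hle, hge, hpr⟩ := S₂.toEnv o₂
    refine ⟨ℕ × I₂, W₂, E, b₂, o₂, t₂, ⟨z₂, Q₂, c₂, q₂, fun η hη h0 => ?_⟩, e₂, by linarith,
      fun n => hle f t₂.toCc (2 * n) (C n) (m₂ n), fun n η hη => ?_⟩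
    · exact hpr f η t₂.toCc hη.toCc _ (w₂ η hη h0)
    · have key : ∀ c : ℝ, (∀ᶠ δ in (U : Filter ℝ), md D f n δ ≤ c) →
          E.L (fun p => E.X f p ^ (2 * n)) ≤ c := by
        intro c hc
        refine hle f t₂.toCc (2 * n) c ?_
        filter_upwards [l₂ n] with j hj
        refine le_of_forall_pos_le_add fun η hη => ?_
        obtain ⟨δ, h1, h2⟩ := (hc.and (hj η hη)).exists
        linarith
      by_contra hcon
      rw [← Ultrafilter.eventually_not] at hcon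
      have h2 := key (E.L (fun p => E.X f p ^ (2 * n)) - η) (hcon.mono fun δ hδ => (not_le.1 hδ).le)
      linarith

end GF
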