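import Pool.Agent.Helper41.DV.E14
import Pool.Agent.Helper41.DV.G1
import Pool.Agent.Helper33.DV.Ev4
import Pool.Agent.Helper27.GF.Lm
import Pool.Agent.Helper83.DV.Gm

/-!
H3.  The two halves of the sandwich and the lower half from a sequence of weights.
-/

open MeasureTheory Filter Topology

namespace GF

open RP4 (V avg Om BdryPar Deloc)
open GF.Lat (Xd)
open DV (qt SeqDat)

/-- the lower half of the sandwich, all moments -/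
def LoV (K : ℝ) (Ω : Set Pl) (D : ℝ → Finset V) (f : Pl → ℝ) (C : ℕ → ℝ) (ε : ℝ) (U : Ultrafilter ℝ) : Prop :=
  ∃ (I : Type) (W : Set Pl) (M : Env I W K), Tst W f ∧
    M.L (fun i => M.X f i ^ 2) ≤ K * En W f + ε ∧
    En Ω f - ε ≤ En W f ∧ (∀ n, M.L (fun i => M.X f i ^ (2 * n)) ≤ C n) ∧
    ∀ n, ∀ η > 0, ∀ᶠ δ in (U : Filter ℝ), M.L (fun i => M.X f i ^ (2 * n)) - η ≤ md D f n δ

lemma LoV.loN {K : ℝ} {Ω : Set Pl} {D : ℝ → Finset V} {f : Pl → ℝ} {C : ℕ → ℝ} {ε : ℝ} {U : Ultrafilter ℝ}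
    (h : LoV K Ω D f C ε U) (hε : 0 < ε) (n : ℕ) : LoN K Ω D f n C ε U := by
  obtain ⟨I, W, M, h1, h2, h3, h4, h5⟩ := h
  exact ⟨I, W, M, h1, h2, h3, h4, h5 n ε hε⟩

theorem sandV_of_halves {K : ℝ} {Ω : Set Pl} {D : ℝ → Finset V} {f : Pl → ℝ}
    (hu : ∀ n, ∃ C : ℕ → ℝ, ∀ ε > 0, ∀ U : Ultrafilter ℝ, (U : Filter ℝ) ≤ 𝓝[>] 0 → UpN K Ω D f n C ε U)
    (hl : ∃ C : ℕ → ℝ, ∀ ε > 0, ∀ U : Ultrafilter ℝ, (U : Filter ℝ) ≤ 𝓝[>] 0 → LoV K Ω D f C ε U) :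
    SandV K Ω D f := by
  obtain ⟨C, h⟩ := hl
  exact fun n => ⟨hu n, C, fun ε hε U hU => (h ε hε U hU).loN hε n⟩

/-- the lower half from a sequence of weights -/
theorem loV_of_seqDat (hd : Deloc) {U₀ : Ultrafilter ℝ} (hU₀ : (U₀ : Filter ℝ) ≤ 𝓝[>] 0) {K : ℝ} (hK : 0 < K)
    {Ω W Q : Set Pl} {D : ℝ → Finset V} {f : Pl → ℝ} {C : ℕ → ℝ} {ε b : ℝ} {F : ℕ → ℝ → (V → ℤ) → ℝ}
    (hW : IsOpen W) (hf : Tst W f) (hf0 : ∀ z, 0 ≤ f z) (hQ : IsCompact Q) (hQW : Q ⊆ W)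
    (hEn : En Ω f - ε ≤ En W f) (hS : SeqDat U₀ W K F) (hb0 : 0 ≤ b) (hb : b * ∫ z, f z ≤ ε)
    (hwall : ∀ η, Tst (W \ Q) η → (∀ z, 0 ≤ η z) → ∀ᶠ j in atTop, ∀ᶠ δ in (U₀ : Filter ℝ),
      qt (F j) (fun δ h => Xd δ f h * Xd δ η h) δ ≤ b * ∫ z, η z)
    (hmom : ∀ n, ∀ᶠ j in atTop, ∀ᶠ δ in (U₀ : Filter ℝ), qt (F j) (fun δ h => Xd δ f h ^ (2 * n)) δ ≤ C n)
    (hmd : ∀ n, ∀ᶠ j in atTop, ∀ η > 0, ∀ᶠ δ in (U₀ : Filter ℝ),
      qt (F j) (fun δ h => Xd δ f h ^ (2 * n)) δ ≤ md D f n δ + η) :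
    LoV K Ω D f C ε U₀ := by
  obtain ⟨S, -, hle, -, hpr⟩ := hS.seqEnv hd hU₀
  obtain ⟨E, hEle, hEge, hEpr⟩ := S.toEnv hW
  have hwE : E.Wall f b := ⟨hb0, Q, hQ, hQW, fun η hη h0 => by
    refine hEpr f η hf.toCc hη.toCc _ ?_
    filter_upwards [hwall η hη h0] with j hj
    exact hpr f η hf.toCc hη.toCc j _ hj⟩
  have hup := E.upper hW hK hf hf0 hwE
  refine ⟨ℕ × GF.Lat.Ix, W, E, hf, by linarith, hEn, fun n => ?_, fun n η hη => ?_⟩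
  · refine hEle f hf.toCc (2 * n) (C n) ?_
    filter_upwards [hmom n] with j hj
    exact hle f hf.toCc (2 * n) j (C n) hj
  · -- the moments of the environment are below every eventual upper bound of `md`
    have key : ∀ c : ℝ, (∀ᶠ δ in (U₀ : Filter ℝ), md D f n δ ≤ c) →
        E.L (fun p => E.X f p ^ (2 * n)) ≤ c := by
      intro c hc
      refine hEle f hf.toCc (2 * n) c ?_
      filter_upwards [hmd n] with j hj
      refine le_of_forall_pos_le_add fun η hη => ?_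
      refine hle f hf.toCc (2 * n) j (c + η) ?_
      filter_upwards [hj η hη, hc] with δ h1 h2
      linarith
    by_contra hcon
    rw [← Ultrafilter.eventually_not] at hcon
    have h2 := key (E.L (fun p => E.X f p ^ (2 * n)) - η) (hcon.mono fun δ hδ => (not_le.1 hδ).le)
    linarith

end GF
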