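import Pool.Agent.Helper75.GF.LatFld
import Pool.Agent.Helper34.GF.F6

/-!
H5.  The constant of the whole plane is positive.
-/

open Filter Topology

namespace GF

open RP4 (V avg Om dom Deloc elen gfun)

theorem Kc_pos (hd : Deloc) : 0 < Kc hd := by
  obtain ⟨K, a, hK, ha, hlog, -, -⟩ := KP.core_pos
  have h1 : ∀ x : V, a x 0 = gfun x := by
    intro x
    have h2 := RP4.gfun_lim hd 0 x
    rw [sub_zero] at h2
    have := RP4.dom_neBot
    exact tendsto_nhds_unique (ha x 0) h2
  have h3 := Kc_log hd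
  have h4 : ∀ ε > 0, |Kc hd / Real.pi - K / Real.pi| ≤ ε := by
    intro ε hε
    obtain ⟨R, hR, h5⟩ := hlog ε hε
    have h6 : ∀ᶠ x : V in cofinite, |gfun x / Real.log (Real.sqrt ((x.1 : ℝ) ^ 2 + (x.2 : ℝ) ^ 2)) -
        K / Real.pi| ≤ ε := by
      have hfin : {x : V | elen x < R}.Finite := by
        obtain ⟨N, hN⟩ := exists_nat_ge R
        refine ((Set.finite_Icc (-(N : ℤ)) N).prod (Set.finite_Icc (-(N : ℤ)) N)).subset ?_
        intro x hx
        have hx' : Real.sqrt ((x.1 : ℝ) ^ 2 + (x.2 : ℝ) ^ 2) < N := lt_of_lt_of_le hx hN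
        have hb : ∀ t : ℝ, t ^ 2 ≤ (x.1 : ℝ) ^ 2 + (x.2 : ℝ) ^ 2 → |t| ≤ N := by
          intro t ht
          rw [← Real.sqrt_sq_eq_abs]
          exact (Real.sqrt_le_sqrt ht).trans hx'.le
        have h7 := abs_le.1 (hb x.1 (by nlinarith [sq_nonneg (x.2 : ℝ)]))
        have h8 := abs_le.1 (hb x.2 (by nlinarith [sq_nonneg (x.1 : ℝ)]))
        refine ⟨Set.mem_Icc.2 ⟨?_, ?_⟩, Set.mem_Icc.2 ⟨?_, ?_⟩⟩
        · exact_mod_cast h7.1
        · exact_mod_cast h7.2
        · exact_mod_cast h8.1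
        · exact_mod_cast h8.2
      have h9 : ∀ᶠ x : V in cofinite, x ∉ {x : V | elen x < R} := hfin.eventually_cofinite_notMem
      filter_upwards [h9] with x hx
      have hx' : R ≤ elen (x - 0) := by
        rw [sub_zero]
        by_contra hlt
        exact hx (not_le.1 hlt)
      have h10 := h5 x 0 hx'
      rw [h1 x, sub_zero] at h10
      exact h10
    have h11 := (h3.sub_const (K / Real.pi)).abs
    exact le_of_tendsto h11 h6
  have h12 : Kc hd / Real.pi = K / Real.pi := by
    have h13 : |Kc hd / Real.pi - K / Real.pi| ≤ 0 := le_of_forall_pos_le_add fun ε hε => by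
      rw [zero_add]
      exact h4 ε hε
    have := abs_nonpos_iff.1 h13
    linarith
  have h14 : 0 < Kc hd / Real.pi := by
    rw [h12]
    positivity
  by_contra hcon
  rw [not_lt] at hcon
  have := div_nonpos_of_nonpos_of_nonneg hcon Real.pi_pos.le
  linarith

end GF
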