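import Pool.Agent.Helper41.DV.H1
import Pool.Agent.Helper41.DV.H2b
import Pool.Agent.Helper41.DV.H3
import Pool.Agent.Helper41.DV.H5
import Pool.Agent.Helper78.SW.Qt

/-!
H4.  The lower half of the sandwich from families of blocks on the frontiers of polyominoes, the outer lattice
domains and the decay of the covariance at the boundary.
-/

open Finset Filter Topology MeasureTheory Metric

namespace DV

open RP4 (V Adj BdryPar Om dom avg bdry mass cell Deloc core Conn)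
open GF.Lat (Xd win)
open GF (Pl Cc Tst En JJ Kc LoV md)
open SW (iw)

/-- INPUT (events): a sequence of families of decreasing events near the frontier of `P`, which give an
environment on the interior of `P` and separate `P` from the outside -/
structure LoFam (K : ℝ) (P : Set Pl) (U₀ : Ultrafilter ℝ) (F : ℕ → ℝ → (V → ℤ) → Prop) : Prop where
  sd : SeqDat U₀ (interior P) K (fun j δ => iw (F j δ))
  dec : ∀ j, ∀ᶠ δ in (U₀ : Filter ℝ), Dec (F j δ)
  blk : ∀ a > 0, ∀ᶠ j in atTop, ∀ᶠ δ in (U₀ : Filter ℝ), ∀ g, F j δ g → ∀ x v, pt δ x ∈ P →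
    (∀ p ∈ frontier P, a ≤ dist (pt δ x) p) → pt δ v ∉ P → ¬ Conn g x v

/-- INPUT (outer domain) -/
def OutDom (P : Set Pl) : Prop := ∃ τ₀ > 0, ∀ τ, 0 < τ → τ < τ₀ → ∀ᶠ δ in 𝓝[>] (0 : ℝ),
  ∃ D' : Finset V, LG.SC D' ∧ (∀ x, pt δ x ∈ cthickening τ P → x ∈ core D') ∧
    ∀ x ∈ D', pt δ x ∈ cthickening (3 * τ) P

/-- INPUT (inner polyominoes) -/
def InnPol (Ω : Set Pl) : Prop := ∀ K₀, IsCompact K₀ → K₀ ⊆ Ω → ∃ (k : ℕ) (S : Finset (ℤ × ℤ)) (ρ : ℝ), 0 < ρ ∧
  K₀ ⊆ pol k S ∧ cthickening ρ (pol k S) ⊆ Ω ∧ IsConnected (pol k S)ᶜ ∧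
  ∀ x ∈ K₀, ∀ p ∈ frontier (pol k S), ρ ≤ dist x p

/-! ### geometry -/

/-- the energy is almost attained on every neighbourhood of a compact set -/
theorem En_near {Ω : Set Pl} (hb : Bornology.IsBounded Ω) {f : Pl → ℝ} (hf : Tst Ω f) {ε : ℝ} (hε : 0 < ε) :
    ∃ K₀, IsCompact K₀ ∧ K₀ ⊆ Ω ∧ tsupport f ⊆ K₀ ∧ ∀ W, K₀ ⊆ W → W ⊆ Ω → En Ω f - ε ≤ En W f := by
  have hne : {a | ∃ u, Tst Ω u ∧ a = JJ f u}.Nonempty := ⟨_, _, GF.tst_zero Ω, rfl⟩
  have h1 : En Ω f - ε < sSup {a | ∃ u, Tst Ω u ∧ a = JJ f u} := by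
    show En Ω f - ε < En Ω f
    linarith
  obtain ⟨a, ⟨u, hu, rfl⟩, h2⟩ := exists_lt_of_lt_csSup hne h1
  refine ⟨tsupport u ∪ tsupport f, IsCompact.union hu.supp hf.supp, Set.union_subset hu.sub hf.sub,
    Set.subset_union_right, fun W hW hWΩ => ?_⟩
  refine h2.le.trans (le_csSup (GF.bdd_JJ (hb.subset hWΩ) hf.toCc) ⟨u, ⟨hu.toCc, ?_⟩, rfl⟩)
  exact Set.subset_union_left.trans hW

/-- a point of the frontier of a polyomino lies in a square which does not belong to it -/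
lemma frontier_cel {k : ℕ} {S : Finset (ℤ × ℤ)} {p : Pl} (hp : p ∈ frontier (pol k S)) :
    ∃ i, i ∉ S ∧ p ∈ cel k i := by
  classical
  by_contra hcon
  push Not at hcon
  -- all squares which contain `p` belong to `S`; the other squares near `p` form a closed set
  obtain ⟨i₀, hi₀⟩ := exists_cel k p
  set N : Finset (ℤ × ℤ) := (Finset.Icc (i₀.1 - 2) (i₀.1 + 2) ×ˢ Finset.Icc (i₀.2 - 2) (i₀.2 + 2)) \ S with hN
  have hcl : IsClosed (pol k N) := pol_closed k N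
  have hpN : p ∉ pol k N := by
    intro h
    unfold pol at h
    rw [Set.mem_iUnion₂] at h
    obtain ⟨i, hi, hpi⟩ := h
    rw [hN, Finset.mem_sdiff] at hi
    exact hcon i hi.2 hpi
  have h2k : (0 : ℝ) < 1 / 2 ^ k := by positivity
  have hU : (pol k N)ᶜ ∩ ball p (1 / 2 ^ k) ∈ 𝓝 p :=
    inter_mem (hcl.isOpen_compl.mem_nhds hpN) (ball_mem_nhds p h2k)
  have hsub : (pol k N)ᶜ ∩ ball p (1 / 2 ^ k) ⊆ pol k S := by
    rintro q ⟨hq, hqp⟩
    obtain ⟨j, hj⟩ := exists_cel k q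
    by_cases hjS : j ∈ S
    · exact cel_subset_pol hjS hj
    · exfalso
      refine hq (cel_subset_pol (i := j) ?_ hj)
      rw [hN, Finset.mem_sdiff, Finset.mem_product, Finset.mem_Icc, Finset.mem_Icc]
      refine ⟨?_, hjS⟩
      -- the indices are close
      have hco : ∀ (x y : ℝ) (a b : ℤ), gx k a ≤ x → x ≤ gx k (a + 1) → gx k b ≤ y → y ≤ gx k (b + 1) →
          |y - x| < 1 / 2 ^ k → a - 2 ≤ b ∧ b ≤ a + 2 := by
        intro x y a b h1 h2 h3 h4 h5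
        rw [abs_lt] at h5
        unfold gx at h1 h2 h3 h4
        have hk : (0 : ℝ) < 2 ^ k := by positivity
        rw [div_le_iff₀ hk] at h1 h3
        rw [le_div_iff₀ hk] at h2 h4
        have e : (1 : ℝ) / 2 ^ k * 2 ^ k = 1 := by field_simp
        have h6 : y * 2 ^ k - x * 2 ^ k < 1 := by
          have := mul_lt_mul_of_pos_right h5.2 hk
          rw [e, sub_mul] at this
          exact this
        have h7 : -1 < y * 2 ^ k - x * 2 ^ k := by
          have := mul_lt_mul_of_pos_right h5.1 hk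
          rw [neg_mul, e, sub_mul] at this
          exact this
        push_cast at h2 h4
        constructor
        · have : (a : ℝ) - 2 < b + 1 := by linarith
          have h8 : ((a - 2 : ℤ) : ℝ) < ((b + 1 : ℤ) : ℝ) := by
            push_cast
            exact this
          have := Int.cast_lt.1 h8
          omega
        · have : (b : ℝ) < a + 2 + 1 := by linarith
          have h8 : ((b : ℤ) : ℝ) < ((a + 2 + 1 : ℤ) : ℝ) := by
            push_cast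
            exact this
          have := Int.cast_lt.1 h8
          omega
      rw [mem_ball, Prod.dist_eq, max_lt_iff, Real.dist_eq, Real.dist_eq] at hqp
      unfold cel at hi₀ hj
      rw [Set.mem_prod, Set.mem_Icc, Set.mem_Icc] at hi₀ hj
      exact ⟨hco p.1 q.1 i₀.1 j.1 hi₀.1.1 hi₀.1.2 hj.1.1 hj.1.2 hqp.1,
        hco p.2 q.2 i₀.2 j.2 hi₀.2.1 hi₀.2.2 hj.2.1 hj.2.2 hqp.2⟩
  exact hp.2 (mem_interior_iff_mem_nhds.2 (mem_of_superset hU hsub))

/-- outside of a polyomino: near every point of the frontier there is a point far from the polyomino -/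
theorem pol_out (k : ℕ) (S : Finset (ℤ × ℤ)) {τ : ℝ} (hτ : 0 < τ) (hτ' : τ ≤ 1 / (8 * 2 ^ k)) :
    ∀ p ∈ frontier (pol k S), ∃ q, dist q p ≤ 4 * τ ∧ ∀ x ∈ pol k S, 4 * τ ≤ dist x q := by
  intro p hp
  obtain ⟨i, hiS, hpi⟩ := frontier_cel hp
  have hw : ∀ a : ℤ, gx k a + 8 * τ ≤ gx k (a + 1) := by
    intro a
    have h1 := gx_succ_sub k a
    have h2 : 8 * τ ≤ 1 / 2 ^ k := by
      have h3 : (1 : ℝ) / (8 * 2 ^ k) = 1 / 2 ^ k / 8 := by
        field_simp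
      rw [h3] at hτ'
      linarith
    linarith
  have hcl : ∀ (x : ℝ) (a : ℤ), gx k a ≤ x → x ≤ gx k (a + 1) → ∃ y, |y - x| ≤ 4 * τ ∧ gx k a + 4 * τ ≤ y ∧
      y ≤ gx k (a + 1) - 4 * τ := by
    intro x a h1 h2
    have h3 := hw a
    refine ⟨max (gx k a + 4 * τ) (min x (gx k (a + 1) - 4 * τ)), ?_, le_max_left _ _, ?_⟩
    · rw [abs_le]
      constructor
      · have h4 : min x (gx k (a + 1) - 4 * τ) ≤ max (gx k a + 4 * τ) (min x (gx k (a + 1) - 4 * τ)) :=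
          le_max_right _ _
        have h5 : x - 4 * τ ≤ min x (gx k (a + 1) - 4 * τ) := le_min (by linarith) (by linarith)
        linarith
      · have h4 : max (gx k a + 4 * τ) (min x (gx k (a + 1) - 4 * τ)) ≤ x + 4 * τ :=
          max_le (by linarith) ((min_le_left _ _).trans (by linarith))
        linarith
    · exact max_le (by linarith) (min_le_right _ _)
  unfold cel at hpi
  rw [Set.mem_prod, Set.mem_Icc, Set.mem_Icc] at hpi
  obtain ⟨y₁, a1, a2, a3⟩ := hcl p.1 i.1 hpi.1.1 hpi.1.2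
  obtain ⟨y₂, b1, b2, b3⟩ := hcl p.2 i.2 hpi.2.1 hpi.2.2
  refine ⟨(y₁, y₂), ?_, fun x hx => ?_⟩
  · rw [Prod.dist_eq, max_le_iff, Real.dist_eq, Real.dist_eq]
    exact ⟨a1, b1⟩
  · unfold pol at hx
    rw [Set.mem_iUnion₂] at hx
    obtain ⟨j, hjS, hj⟩ := hx
    have hij : j ≠ i := fun h => hiS (h ▸ hjS)
    unfold cel at hj
    rw [Set.mem_prod, Set.mem_Icc, Set.mem_Icc] at hj
    -- grid coordinates are increasing
    have hmono : ∀ a b : ℤ, a ≤ b → gx k a ≤ gx k b := by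
      intro a b hab
      unfold gx
      have : (a : ℝ) ≤ b := by exact_mod_cast hab
      gcongr
    have hco : ∀ (x y : ℝ) (a b : ℤ), b ≠ a → gx k b ≤ x → x ≤ gx k (b + 1) → gx k a + 4 * τ ≤ y →
        y ≤ gx k (a + 1) - 4 * τ → 4 * τ ≤ |x - y| := by
      intro x y a b hab h1 h2 h3 h4
      rcases lt_or_gt_of_ne hab with h | h
      · have h5 := hmono (b + 1) a (by omega)
        have h6 : y - x ≤ |x - y| := by
          rw [abs_sub_comm]
          exact le_abs_self _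
        linarith
      · have h5 := hmono (a + 1) b (by omega)
        have h6 : x - y ≤ |x - y| := le_abs_self _
        linarith
    rw [Prod.dist_eq, Real.dist_eq, Real.dist_eq]
    by_cases h1 : j.1 = i.1
    · have h2 : j.2 ≠ i.2 := fun h2 => hij (Prod.ext h1 h2)
      exact (hco x.2 y₂ i.2 j.2 h2 hj.2.1 hj.2.2 b2 b3).trans (le_max_right _ _)
    · exact (hco x.1 y₁ i.1 j.1 h1 hj.1.1 hj.1.2 a2 a3).trans (le_max_left _ _)

/-- every point is close to a site -/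
lemma site_near {δ : ℝ} (hδ : 0 < δ) (q : Pl) : ∃ v : V, dist (pt δ v) q ≤ δ := by
  refine ⟨(⌊q.1 / δ⌋, ⌊q.2 / δ⌋), ?_⟩
  have h : ∀ t : ℝ, |δ * (⌊t / δ⌋ : ℝ) - t| ≤ δ := by
    intro t
    have h1 := Int.floor_le (t / δ)
    have h2 := Int.lt_floor_add_one (t / δ)
    rw [le_div_iff₀ hδ] at h1
    rw [div_lt_iff₀ hδ] at h2
    rw [abs_le]
    constructor <;> nlinarith
  unfold pt
  rw [Prod.dist_eq, max_le_iff, Real.dist_eq, Real.dist_eq]
  exact ⟨h q.1, h q.2⟩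

/-- a compact set inside the interior has a positive distance from the frontier -/
lemma far_of_compact {P T : Set Pl} (hT : IsCompact T) (hTP : T ⊆ interior P) :
    ∃ a > 0, ∀ y ∈ T, ∀ p ∈ frontier P, a ≤ dist y p := by
  have hd : Disjoint T (frontier P) := by
    rw [Set.disjoint_left]
    exact fun x hx hp => hp.2 (hTP hx)
  obtain ⟨a, ha, h⟩ := hd.exists_thickenings hT isClosed_frontier
  refine ⟨a, ha, fun y hy p hp => ?_⟩
  by_contra hlt
  push Not at hlt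
  have h1 : y ∈ thickening a (frontier P) := by
    rw [mem_thickening_iff]
    exact ⟨p, hp, hlt⟩
  exact Set.disjoint_left.1 h (self_subset_thickening ha _ hy) h1

/-! ### the upper sandwich for the families -/

theorem LoFam.upper (hd : Deloc) {U₀ : Ultrafilter ℝ} (hU₀ : (U₀ : Filter ℝ) ≤ 𝓝[>] 0) {K : ℝ} {P : Set Pl}
    {F : ℕ → ℝ → (V → ℤ) → Prop} (h : LoFam K P U₀ F) {n : ℕ} (g : Fin n → Pl → ℝ)
    (hg : ∀ i, Tst (interior P) (g i)) (hg0 : ∀ i z, 0 ≤ g i z) :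
    ∀ᶠ j in atTop, ∀ᶠ δ in (U₀ : Filter ℝ), ∀ D' : Finset V, BdryPar D' 0 →
      (∀ v, pt δ v ∈ P → v ∈ core D') →
      qt (fun δ => iw (F j δ)) (fun δ h => ∏ i, Xd δ (g i) h) δ ≤ avg (Om D') (fun h => ∏ i, Xd δ (g i) h) := by
  classical
  -- a common distance from the frontier and a common box
  obtain ⟨a, ha, hfar⟩ : ∃ a > 0, ∀ i, ∀ y ∈ tsupport (g i), ∀ p ∈ frontier P, a ≤ dist y p := by
    have h1 : ∀ i, ∃ a > 0, ∀ y ∈ tsupport (g i), ∀ p ∈ frontier P, a ≤ dist y p := fun i =>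
      far_of_compact (hg i).supp (hg i).sub
    choose a ha hfar using h1
    rcases Nat.eq_zero_or_pos n with hn | hn
    · subst hn
      exact ⟨1, one_pos, fun i => i.elim0⟩
    · have : Nonempty (Fin n) := ⟨⟨0, hn⟩⟩
      obtain ⟨i₀, hi₀⟩ := Finite.exists_min a
      exact ⟨a i₀, ha i₀, fun i y hy p hp => (hi₀ i).trans (hfar i y hy p hp)⟩
  obtain ⟨R, hR, hbox⟩ : ∃ R : ℝ, 0 ≤ R ∧ ∀ i z, g i z ≠ 0 → |z.1| ≤ R ∧ |z.2| ≤ R := by
    have h1 : ∀ i, ∃ R : ℝ, 0 < R ∧ ∀ z, g i z ≠ 0 → |z.1| ≤ R ∧ |z.2| ≤ R := fun i =>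
      GF.Lat.cc_box (hg i).toCc
    choose R hR hbox using h1
    refine ⟨∑ i, R i, Finset.sum_nonneg fun i _ => (hR i).le, fun i z hz => ?_⟩
    have h2 : R i ≤ ∑ i, R i := Finset.single_le_sum (fun i _ => (hR i).le) (Finset.mem_univ i)
    exact ⟨(hbox i z hz).1.trans h2, (hbox i z hz).2.trans h2⟩
  filter_upwards [h.blk (a / 2) (by positivity)] with j hj
  have hpos : ∀ᶠ δ in (U₀ : Filter ℝ), 0 < δ := hU₀ self_mem_nhdsWithin
  have hsm : ∀ᶠ δ in (U₀ : Filter ℝ), δ < a / 2 := hU₀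
    (mem_nhdsWithin_of_mem_nhds (gt_mem_nhds (half_pos ha)))
  filter_upwards [hj, hpos, hsm, h.dec j, (h.sd.wd j).pin, (h.sd.wd j).pos] with δ h1 h2 h3 h4 h5 h6
    D' hD' hP
  obtain ⟨s, hs⟩ := h5
  refine SW.qt_upper hd hD' h4 hs h6 h2 hR hbox hg0 fun q hq i x hx v hv hc => ?_
  obtain ⟨h7, h8⟩ := SW.site_in (P := P) (a := a / 2) h2 (by positivity) (f := g i)
    (fun y hy => ⟨interior_subset ((hg i).sub (subset_tsupport _ hy)), fun p hp => by
      have := hfar i y (subset_tsupport _ hy) p hp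
      linarith⟩) hx
  exact h1 q hq x v h7 h8 (fun h9 => hv (hP v h9)) hc

/-- sites of a polyomino inside `Ω` are interior points of the approximating domains -/
lemma core_of_inner {Ω : Set Pl} {D : ℝ → Finset V} (hin : ∀ Q, IsCompact Q → Q ⊆ Ω →
      ∀ᶠ δ in 𝓝[>] (0 : ℝ), ∀ x, pt δ x ∈ Q → x ∈ D δ) {P : Set Pl} (hP : IsCompact P) {ρ : ℝ} (hρ : 0 < ρ)
    (hPΩ : cthickening ρ P ⊆ Ω) : ∀ᶠ δ in 𝓝[>] (0 : ℝ), ∀ v, pt δ v ∈ P → v ∈ core (D δ) := by
  have hpos : ∀ᶠ δ in 𝓝[>] (0 : ℝ), 0 < δ := self_mem_nhdsWithin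
  have hsm : ∀ᶠ δ in 𝓝[>] (0 : ℝ), δ < ρ := mem_nhdsWithin_of_mem_nhds (gt_mem_nhds hρ)
  filter_upwards [hin _ hP.cthickening hPΩ, hpos, hsm] with δ h1 h2 h3 v hv
  rw [SW.mem_core]
  refine ⟨h1 v (self_subset_cthickening P hv), fun hb => ?_⟩
  obtain ⟨-, u, huv, hu⟩ := RP4.mem_bdry.1 hb
  refine hu (h1 u (mem_cthickening_of_dist_le _ _ _ _ hv ?_))
  have h4 := pt_dist (δ := δ) huv
  rw [abs_of_pos h2] at h4
  linarith

/-- **The lower half of the sandwich.** -/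
theorem lo_half (hd : Deloc) {Ω : Set Pl} (hΩb : Bornology.IsBounded Ω) {D : ℝ → Finset V}
    (hpar : ∀ᶠ δ in 𝓝[>] (0 : ℝ), BdryPar (D δ) 0) {R : ℝ}
    (hR : ∀ᶠ δ in 𝓝[>] (0 : ℝ), ∀ x ∈ D δ, ‖pt δ x‖ ≤ R)
    (hin : ∀ Q, IsCompact Q → Q ⊆ Ω → ∀ᶠ δ in 𝓝[>] (0 : ℝ), ∀ x, pt δ x ∈ Q → x ∈ D δ)
    (hpol : InnPol Ω) (hout : ∀ k S, IsConnected (pol k S)ᶜ → OutDom (pol k S))
    (hfam : ∀ k S (U₀ : Ultrafilter ℝ), (U₀ : Filter ℝ) ≤ 𝓝[>] 0 → ∃ F, LoFam (Kc hd) (pol k S) U₀ F)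
    (hdec : ∃ C a : ℝ, 0 ≤ C ∧ 0 < a ∧ Decay C a) {f : Pl → ℝ} (hf : Tst Ω f) (hf0 : ∀ z, 0 ≤ f z) :
    ∃ C : ℕ → ℝ, ∀ ε > 0, ∀ U : Ultrafilter ℝ, (U : Filter ℝ) ≤ 𝓝[>] 0 → LoV (Kc hd) Ω D f C ε U := by
  classical
  have hmo : ∀ n, ∃ C : ℝ, ∀ᶠ δ in 𝓝[>] (0 : ℝ), ∀ D : Finset V, BdryPar D 0 → (∀ x ∈ D, ‖pt δ x‖ ≤ R) →
      avg (Om D) (fun h => Xd δ f h ^ (2 * n)) ≤ C := fun n => box_moments hf.toCc R n
  choose C hC using hmo
  refine ⟨C, fun ε hε U hU => ?_⟩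
  obtain ⟨K₀, hK₀, hK₀Ω, hfK₀, hEn⟩ := En_near hΩb hf hε
  obtain ⟨k, S, ρ, hρ, hKP, hPΩ, hcon, hfar⟩ := hpol K₀ hK₀ hK₀Ω
  set P := pol k S with hPdef
  have hPc : IsCompact P := pol_compact k S
  have hPcl : IsClosed P := hPc.isClosed
  have hint : ∀ x ∈ P, (∀ p ∈ frontier P, x ≠ p) → x ∈ interior P := by
    intro x hx h
    by_contra hxi
    exact h x ⟨subset_closure hx, hxi⟩ rfl
  have hKW : K₀ ⊆ interior P := fun x hx => hint x (hKP hx) fun p hp hxp => by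
    have := hfar x hx p hp
    rw [hxp, dist_self] at this
    linarith
  have hWΩ : interior P ⊆ Ω := interior_subset.trans ((self_subset_cthickening P).trans hPΩ)
  have hfW : Tst (interior P) f := ⟨hf.toCc, hfK₀.trans hKW⟩
  obtain ⟨F, hF⟩ := hfam k S U hU
  obtain ⟨C₁, a, hC₁, ha, hdec⟩ := hdec
  obtain ⟨τ₀, hτ₀, hout⟩ := hout k S hcon
  set J : ℝ := ∫ z, f z with hJ
  have hJ0 : 0 ≤ J := integral_nonneg hf0
  -- the choice of `τ`
  obtain ⟨τ, hτ, hττ₀, hτk, hτρ, hτε⟩ : ∃ τ : ℝ, 0 < τ ∧ τ < τ₀ ∧ τ ≤ 1 / (8 * 2 ^ k) ∧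
      2 * (10 * τ) ≤ ρ / 2 ∧ C₁ * (2 * (10 * τ) / (ρ / 2)) ^ a * J * J ≤ ε := by
    have h1 : Tendsto (fun τ : ℝ => C₁ * (2 * (10 * τ) / (ρ / 2)) ^ a * J * J) (𝓝[>] 0) (𝓝 0) := by
      have h2 : Tendsto (fun τ : ℝ => 2 * (10 * τ) / (ρ / 2)) (𝓝[>] 0) (𝓝 0) := by
        have h3 : Continuous fun τ : ℝ => 2 * (10 * τ) / (ρ / 2) := by fun_prop
        have h4 := (h3.tendsto 0).mono_left (nhdsWithin_le_nhds (s := Set.Ioi (0 : ℝ)))
        simpa using h4
      have h3 := (Real.continuousAt_rpow_const 0 a (Or.inr ha.le)).tendsto.comp h2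
      have h4 := ((h3.const_mul C₁).mul_const J).mul_const J
      rw [Real.zero_rpow ha.ne', mul_zero, zero_mul, zero_mul] at h4
      exact h4
    have e1 : ∀ᶠ τ in 𝓝[>] (0 : ℝ), C₁ * (2 * (10 * τ) / (ρ / 2)) ^ a * J * J < ε :=
      h1.eventually (gt_mem_nhds hε)
    have e2 : ∀ᶠ τ in 𝓝[>] (0 : ℝ), 0 < τ := self_mem_nhdsWithin
    have hk : (0 : ℝ) < 1 / (8 * 2 ^ k) := by positivity
    have e3 : ∀ c : ℝ, 0 < c → ∀ᶠ τ in 𝓝[>] (0 : ℝ), τ < c := fun c hc =>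
      mem_nhdsWithin_of_mem_nhds (gt_mem_nhds hc)
    obtain ⟨τ, h5, h6, h7, h8, h9⟩ :=
      (e1.and (e2.and ((e3 τ₀ hτ₀).and ((e3 _ hk).and (e3 (ρ / 40) (by positivity)))))).exists
    exact ⟨τ, h6, h7, h8.le, by linarith, h5.le⟩
  -- the outer domains
  obtain ⟨D', hD'⟩ := (hout τ hτ hττ₀).choice
  have hIpos : ∀ᶠ δ in 𝓝[>] (0 : ℝ), 0 < δ := self_mem_nhdsWithin
  have hIsm : ∀ c : ℝ, 0 < c → ∀ᶠ δ in 𝓝[>] (0 : ℝ), δ < c := fun c hc =>
    mem_nhdsWithin_of_mem_nhds (gt_mem_nhds hc)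
  -- the compact set
  set Q : Set Pl := P ∩ {x | ∀ p ∈ frontier P, τ ≤ dist x p} with hQ
  have hQc : IsCompact Q := by
    refine hPc.inter_right ?_
    have : {x : Pl | ∀ p ∈ frontier P, τ ≤ dist x p} = ⋂ (p : Pl) (_ : p ∈ frontier P), {x : Pl | τ ≤ dist x p} := by
      ext z
      simp
    rw [this]
    exact isClosed_iInter fun p => isClosed_iInter fun _ => isClosed_le continuous_const (by fun_prop)
  have hQW : Q ⊆ interior P := fun x hx => hint x hx.1 fun p hp hxp => by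
    have := hx.2 p hp
    rw [hxp, dist_self] at this
    linarith
  have hcore := core_of_inner hin hPc hρ hPΩ
  -- the even powers
  have hpow : ∀ n, ∀ᶠ j in atTop, ∀ᶠ δ in (U : Filter ℝ),
      qt (fun δ => iw (F j δ)) (fun δ h => Xd δ f h ^ (2 * n)) δ ≤ avg (Om (D δ)) (fun h => Xd δ f h ^ (2 * n)) := by
    intro n
    have h1 := hF.upper hd hU (fun _ : Fin (2 * n) => f) (fun _ => hfW) (fun _ => hf0)
    simp only [Finset.prod_const, Finset.card_univ, Fintype.card_fin] at h1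
    filter_upwards [h1] with j hj
    filter_upwards [hj, hU hpar, hU hcore] with δ h2 h3 h4
    exact h2 (D δ) h3 h4
  refine GF.loV_of_seqDat hd hU (GF.Kc_pos hd) isOpen_interior hfW hf0 hQc hQW
    (hEn _ hKW hWΩ) hF.sd (b := C₁ * (2 * (10 * τ) / (ρ / 2)) ^ a * J) (by positivity) hτε ?_ ?_ ?_
  · -- the wall
    intro η hη hη0
    have hηW : Tst (interior P) η := hη.mono Set.sdiff_subset
    have h1 := hF.upper hd hU ![f, η] (fun i => by
      fin_cases i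
      · exact hfW
      · exact hηW) (fun i => by
      fin_cases i
      · exact hf0
      · exact hη0)
    simp only [Fin.prod_univ_two, Matrix.cons_val_zero, Matrix.cons_val_one] at h1
    have hsup : ∀ w, η w ≠ 0 → w ∈ P ∧ ∃ p ∈ frontier P, dist w p < τ := by
      intro w hw
      obtain ⟨h2, h3⟩ := hη.sub (subset_tsupport _ hw)
      refine ⟨interior_subset h2, ?_⟩
      by_contra hcon
      push Not at hcon
      exact h3 ⟨interior_subset h2, hcon⟩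
    have h2 := wall_bound (τ := 10 * τ) (d := ρ / 2) hC₁ hdec (hD'.mono fun δ h => h.1) hf.toCc hη.toCc hf0 hη0
      (by positivity) hτρ (fun y w hy hw => by
        obtain ⟨-, p, hp, hwp⟩ := hsup w hw
        have h3 := hfar y (hfK₀ (subset_tsupport _ hy)) p hp
        have h4 := dist_triangle y w p
        linarith) (by
        filter_upwards [hD', hIpos, hIsm τ hτ] with δ h3 h4 h5 x w hw hxw
        obtain ⟨-, p, hp, hwp⟩ := hsup w hw
        obtain ⟨q, hq, hqP⟩ := pol_out k S hτ hτk p hp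
        obtain ⟨v, hv⟩ := site_near h4 q
        refine ⟨v, fun hvD => ?_, ?_⟩
        · have h6 := h3.2.2 v hvD
          rw [hPc.cthickening_eq_biUnion_closedBall (by positivity), Set.mem_iUnion₂] at h6
          obtain ⟨y, hy, hyv⟩ := h6
          rw [mem_closedBall] at hyv
          have h7 := hqP y hy
          have h8 := dist_triangle y (pt δ v) q
          rw [dist_comm y (pt δ v)] at h8
          linarith
        · have h6 := dist_triangle (pt δ x) w (pt δ v)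
          have h7 := dist_triangle w p (pt δ v)
          have h8 := dist_triangle p q (pt δ v)
          rw [dist_comm p q, dist_comm q (pt δ v)] at h8
          linarith)
    filter_upwards [h1] with j hj
    filter_upwards [hj, hU h2, hU hD'] with δ h3 h4 h5
    exact (h3 (D' δ) h5.1.par fun v hv => h5.2.1 v (self_subset_cthickening P hv)).trans h4
  · intro n
    filter_upwards [hpow n] with j hj
    filter_upwards [hj, hU (hC n), hU hpar, hU hR] with δ h1 h2 h3 h4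
    exact h1.trans (h2 (D δ) h3 h4)
  · intro n
    filter_upwards [hpow n] with j hj η hη
    have h1 := (Metric.tendsto_nhds.1 (md_close hf.toCc R n (D := D) (hpar.and hR))) η hη
    filter_upwards [hj, hU h1] with δ h2 h3
    rw [Real.dist_eq, sub_zero] at h3
    have := (abs_lt.1 h3).1
    linarith

end DV
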