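import Pool.Agent.Helper41.DV.E0
import Pool.Agent.Helper97.EN.Calc

/-!
E1.  Calculus of the Dirichlet energy (`EN` of Helper97/EN/Calc.lean has integration by parts; the definitions of
`EN.dx`, `EN.dy`, `EN.lap` unfold to those of `GF`).
-/

open MeasureTheory Filter Topology

namespace GF

lemma dir_nonneg (u : Pl → ℝ) : 0 ≤ dir u :=
  integral_nonneg fun _ => add_nonneg (sq_nonneg _) (sq_nonneg _)

private lemma E1_dx_s {u : Pl → ℝ} (hu : ContDiff ℝ (⊤ : ℕ∞) u) : ContDiff ℝ (⊤ : ℕ∞) (dx u) :=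
  EN.dx_smooth hu

private lemma E1_dy_s {u : Pl → ℝ} (hu : ContDiff ℝ (⊤ : ℕ∞) u) : ContDiff ℝ (⊤ : ℕ∞) (dy u) :=
  EN.dy_smooth hu

private lemma E1_dx_c {u : Pl → ℝ} (hu : HasCompactSupport u) : HasCompactSupport (dx u) :=
  EN.dx_supp hu

private lemma E1_dy_c {u : Pl → ℝ} (hu : HasCompactSupport u) : HasCompactSupport (dy u) :=
  EN.dy_supp hu

private lemma E1_px {φ u : Pl → ℝ} (hφ : ContDiff ℝ (⊤ : ℕ∞) φ) (hu : ContDiff ℝ (⊤ : ℕ∞) u)
    (hc : HasCompactSupport u) : ∫ z, φ z * dx u z = -∫ z, dx φ z * u z :=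
  EN.parts_x hφ hu hc

private lemma E1_py {φ u : Pl → ℝ} (hφ : ContDiff ℝ (⊤ : ℕ∞) φ) (hu : ContDiff ℝ (⊤ : ℕ∞) u)
    (hc : HasCompactSupport u) : ∫ z, φ z * dy u z = -∫ z, dy φ z * u z :=
  EN.parts_y hφ hu hc

private lemma E1_lap_s {u : Pl → ℝ} (hu : ContDiff ℝ (⊤ : ℕ∞) u) : ContDiff ℝ (⊤ : ℕ∞) (lap u) :=
  EN.lap_smooth hu

/-- continuous times continuous with compact support -/
private lemma E1_int {f u : Pl → ℝ} (hf : Continuous f) (hu : Continuous u) (hc : HasCompactSupport u) :
    Integrable (fun z => f z * u z) :=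
  (hf.mul hu).integrable_of_hasCompactSupport hc.mul_left

private lemma E1_diff {u : Pl → ℝ} (hu : Cc u) (z : Pl) : DifferentiableAt ℝ u z :=
  hu.smooth.differentiable (by simp) z

private lemma E1_dx_add {u v : Pl → ℝ} (hu : Cc u) (hv : Cc v) (z : Pl) :
    dx (fun z => u z + v z) z = dx u z + dx v z := by
  simp only [dx]
  rw [fderiv_fun_add (E1_diff hu z) (E1_diff hv z)]
  rfl

private lemma E1_dy_add {u v : Pl → ℝ} (hu : Cc u) (hv : Cc v) (z : Pl) :
    dy (fun z => u z + v z) z = dy u z + dy v z := by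
  simp only [dy]
  rw [fderiv_fun_add (E1_diff hu z) (E1_diff hv z)]
  rfl

private lemma E1_dx_sub {u v : Pl → ℝ} (hu : Cc u) (hv : Cc v) (z : Pl) :
    dx (fun z => u z - v z) z = dx u z - dx v z := by
  simp only [dx]
  rw [fderiv_fun_sub (E1_diff hu z) (E1_diff hv z)]
  rfl

private lemma E1_dy_sub {u v : Pl → ℝ} (hu : Cc u) (hv : Cc v) (z : Pl) :
    dy (fun z => u z - v z) z = dy u z - dy v z := by
  simp only [dy]
  rw [fderiv_fun_sub (E1_diff hu z) (E1_diff hv z)]
  rfl

private lemma E1_dx_smul (c : ℝ) {u : Pl → ℝ} (hu : Cc u) (z : Pl) :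
    dx (fun z => c * u z) z = c * dx u z := by
  simp only [dx]
  rw [fderiv_const_mul (E1_diff hu z)]
  rfl

private lemma E1_dy_smul (c : ℝ) {u : Pl → ℝ} (hu : Cc u) (z : Pl) :
    dy (fun z => c * u z) z = c * dy u z := by
  simp only [dy]
  rw [fderiv_const_mul (E1_diff hu z)]
  rfl

/-- integrability of the bilinear density -/
private lemma E1_intB {u v : Pl → ℝ} (hu : Cc u) (hv : Cc v) :
    Integrable (fun z => dx u z * dx v z + dy u z * dy v z) :=
  (E1_int (E1_dx_s hu.smooth).continuous (E1_dx_s hv.smooth).continuous (E1_dx_c hv.supp)).add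
    (E1_int (E1_dy_s hu.smooth).continuous (E1_dy_s hv.smooth).continuous (E1_dy_c hv.supp))

private lemma E1_intD {u : Pl → ℝ} (hu : Cc u) :
    Integrable (fun z => dx u z ^ 2 + dy u z ^ 2) := by
  refine (E1_intB hu hu).congr (Eventually.of_forall fun z => ?_)
  simp only [sq]

/-- the bilinear form by parts -/
private lemma E1_B_eq {u v : Pl → ℝ} (hu : Cc u) (hv : Cc v) :
    ∫ z, (dx u z * dx v z + dy u z * dy v z) = -∫ z, lap u z * v z := by
  have i1 := E1_int (E1_dx_s hu.smooth).continuous (E1_dx_s hv.smooth).continuous (E1_dx_c hv.supp)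
  have i2 := E1_int (E1_dy_s hu.smooth).continuous (E1_dy_s hv.smooth).continuous (E1_dy_c hv.supp)
  have i3 := E1_int (E1_dx_s (E1_dx_s hu.smooth)).continuous hv.smooth.continuous hv.supp
  have i4 := E1_int (E1_dy_s (E1_dy_s hu.smooth)).continuous hv.smooth.continuous hv.supp
  rw [integral_add i1 i2, E1_px (E1_dx_s hu.smooth) hv.smooth hv.supp,
    E1_py (E1_dy_s hu.smooth) hv.smooth hv.supp]
  have h : ∫ z, lap u z * v z = (∫ z, dx (dx u) z * v z) + ∫ z, dy (dy u) z * v z := by
    rw [← integral_add i3 i4]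
    refine integral_congr_ae (Eventually.of_forall fun z => ?_)
    simp only [lap]
    ring
  rw [h]
  ring

/-- `EN.parts_x`, `EN.parts_y` -/
theorem dir_eq {u : Pl → ℝ} (hu : Cc u) : dir u = -∫ z, u z * lap u z := by
  have h := E1_B_eq hu hu
  have h1 : dir u = ∫ z, (dx u z * dx u z + dy u z * dy u z) := by
    unfold dir
    refine integral_congr_ae (Eventually.of_forall fun z => ?_)
    simp only [sq]
  rw [h1, h]
  congr 1
  refine integral_congr_ae (Eventually.of_forall fun z => ?_)
  simp only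
  ring

theorem dir_smul (c : ℝ) {u : Pl → ℝ} (hu : Cc u) : dir (fun z => c * u z) = c ^ 2 * dir u := by
  unfold dir
  rw [← integral_const_mul]
  refine integral_congr_ae (Eventually.of_forall fun z => ?_)
  simp only [E1_dx_smul c hu, E1_dy_smul c hu]
  ring

/-- energy of a sum -/
private lemma E1_dir_add {u v : Pl → ℝ} (hu : Cc u) (hv : Cc v) :
    dir (fun z => u z + v z) = dir u + dir v - 2 * ∫ z, lap u z * v z := by
  have h : dir (fun z => u z + v z) =
      ∫ z, ((dx u z ^ 2 + dy u z ^ 2) + ((dx v z ^ 2 + dy v z ^ 2) +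
        2 * (dx u z * dx v z + dy u z * dy v z))) := by
    unfold dir
    refine integral_congr_ae (Eventually.of_forall fun z => ?_)
    simp only [E1_dx_add hu hv, E1_dy_add hu hv]
    ring
  have i : Integrable (fun z => (dx v z ^ 2 + dy v z ^ 2) +
      2 * (dx u z * dx v z + dy u z * dy v z)) := (E1_intD hv).add ((E1_intB hu hv).const_mul 2)
  rw [h, integral_add (E1_intD hu) i,
    integral_add (E1_intD hv) ((E1_intB hu hv).const_mul 2), integral_const_mul, E1_B_eq hu hv]
  unfold dir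
  ring

private lemma E1_dir_sub {u v : Pl → ℝ} (hu : Cc u) (hv : Cc v) :
    dir (fun z => u z - v z) = dir u + dir v + 2 * ∫ z, lap u z * v z := by
  have h : dir (fun z => u z - v z) =
      ∫ z, ((dx u z ^ 2 + dy u z ^ 2) + ((dx v z ^ 2 + dy v z ^ 2) +
        (-2) * (dx u z * dx v z + dy u z * dy v z))) := by
    unfold dir
    refine integral_congr_ae (Eventually.of_forall fun z => ?_)
    simp only [E1_dx_sub hu hv, E1_dy_sub hu hv]
    ring
  have i : Integrable (fun z => (dx v z ^ 2 + dy v z ^ 2) +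
      (-2) * (dx u z * dx v z + dy u z * dy v z)) := (E1_intD hv).add ((E1_intB hu hv).const_mul (-2))
  rw [h, integral_add (E1_intD hu) i,
    integral_add (E1_intD hv) ((E1_intB hu hv).const_mul (-2)), integral_const_mul, E1_B_eq hu hv]
  unfold dir
  ring

/-- parallelogram law -/
theorem dir_par {u v : Pl → ℝ} (hu : Cc u) (hv : Cc v) :
    dir (fun z => u z + v z) + dir (fun z => u z - v z) = 2 * dir u + 2 * dir v := by
  rw [E1_dir_add hu hv, E1_dir_sub hu hv]
  ring

theorem JJ_smul (c : ℝ) (f : Pl → ℝ) {u : Pl → ℝ} (hu : Cc u) :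
    JJ (fun z => c * f z) (fun z => c * u z) = c ^ 2 * JJ f u := by
  unfold JJ
  rw [dir_smul c hu]
  have h : ∫ z, c * f z * (c * u z) = c ^ 2 * ∫ z, f z * u z := by
    rw [← integral_const_mul]
    refine integral_congr_ae (Eventually.of_forall fun z => ?_)
    simp only
    ring
  rw [h]
  ring

private lemma E1_cc_add {u v : Pl → ℝ} (hu : Cc u) (hv : Cc v) : Cc (fun z => u z + v z) :=
  ⟨hu.smooth.add hv.smooth, hu.supp.add hv.supp⟩

private lemma E1_cc_sub {u v : Pl → ℝ} (hu : Cc u) (hv : Cc v) : Cc (fun z => u z - v z) := by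
  refine ⟨hu.smooth.sub hv.smooth, ?_⟩
  have h : HasCompactSupport (fun z => -v z) := hv.supp.neg
  have h2 := hu.supp.add h
  have h3 : (fun z => u z - v z) = u + fun z => -v z := by
    funext z
    simp only [Pi.add_apply]
    ring
  rw [h3]
  exact h2

/-- `J_{f+g}(u) + J_{f-g}(v) = 2 J_f((u+v)/2) + 2 J_g((u-v)/2)` (the integrals `∫ f u` converge: continuous with
compact support) -/
theorem JJ_par {f g u v : Pl → ℝ} (hf : Continuous f) (hg : Continuous g) (hu : Cc u) (hv : Cc v) :
    JJ (fun z => f z + g z) u + JJ (fun z => f z - g z) v =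
      2 * JJ f (fun z => 1 / 2 * (u z + v z)) + 2 * JJ g (fun z => 1 / 2 * (u z - v z)) := by
  unfold JJ
  rw [dir_smul (1 / 2) (E1_cc_add hu hv), dir_smul (1 / 2) (E1_cc_sub hu hv)]
  have hp := dir_par hu hv
  have iu1 := E1_int hf hu.smooth.continuous hu.supp
  have iu2 := E1_int hg hu.smooth.continuous hu.supp
  have iv1 := E1_int hf hv.smooth.continuous hv.supp
  have iv2 := E1_int hg hv.smooth.continuous hv.supp
  have e1 : ∫ z, (f z + g z) * u z = (∫ z, f z * u z) + ∫ z, g z * u z := by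
    rw [← integral_add iu1 iu2]
    refine integral_congr_ae (Eventually.of_forall fun z => ?_)
    simp only
    ring
  have e2 : ∫ z, (f z - g z) * v z = (∫ z, f z * v z) - ∫ z, g z * v z := by
    rw [← integral_sub iv1 iv2]
    refine integral_congr_ae (Eventually.of_forall fun z => ?_)
    simp only
    ring
  have e3 : ∫ z, f z * (1 / 2 * (u z + v z)) = 1 / 2 * ((∫ z, f z * u z) + ∫ z, f z * v z) := by
    rw [← integral_add iu1 iv1, ← integral_const_mul]
    refine integral_congr_ae (Eventually.of_forall fun z => ?_)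
    simp only
    ring
  have e4 : ∫ z, g z * (1 / 2 * (u z - v z)) = 1 / 2 * ((∫ z, g z * u z) - ∫ z, g z * v z) := by
    rw [← integral_sub iu2 iv2, ← integral_const_mul]
    refine integral_congr_ae (Eventually.of_forall fun z => ?_)
    simp only
    ring
  rw [e1, e2, e3, e4]
  linarith

/-- exponents of two successive shifts add up: `J_f(u+v) = J_f(u) + J_{f+Δu}(v)` -/
theorem JJ_add {f u v : Pl → ℝ} (hf : Continuous f) (hu : Cc u) (hv : Cc v) :
    JJ f (fun z => u z + v z) = JJ f u + JJ (fun z => f z + lap u z) v := by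
  unfold JJ
  rw [E1_dir_add hu hv]
  have iu1 := E1_int hf hu.smooth.continuous hu.supp
  have iv1 := E1_int hf hv.smooth.continuous hv.supp
  have iv2 := E1_int (E1_lap_s hu.smooth).continuous hv.smooth.continuous hv.supp
  have e1 : ∫ z, f z * (u z + v z) = (∫ z, f z * u z) + ∫ z, f z * v z := by
    rw [← integral_add iu1 iv1]
    refine integral_congr_ae (Eventually.of_forall fun z => ?_)
    simp only
    ring
  have e2 : ∫ z, (f z + lap u z) * v z = (∫ z, f z * v z) + ∫ z, lap u z * v z := by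
    rw [← integral_add iv1 iv2]
    refine integral_congr_ae (Eventually.of_forall fun z => ?_)
    simp only
    ring
  rw [e1, e2]
  ring

end GF
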