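import Pool.Agent.Helper41.DV.E2
import Pool.Agent.Helper41.DV.E8

/-!
E10.  From the even moments for nonnegative test functions to the joint law.
-/

open MeasureTheory Filter Topology ProbabilityTheory

namespace GF

/-- a limit state for a domain: the even moments are Gaussian for nonnegative test functions -/
structure DSt (I : Type) (Ω : Set Pl) (K : ℝ) extends Lim I where
  X : (Pl → ℝ) → I → ℝ
  ok_X : ∀ f, Tst Ω f → Ok (X f)
  X_add : ∀ f g, Tst Ω f → Tst Ω g → ∀ i, X (fun z => f z + g z) i = X f i + X g i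
  X_smul : ∀ (c : ℝ) f, Tst Ω f → ∀ i, X (fun z => c * f z) i = c * X f i
  odd : ∀ f, Tst Ω f → L (fun i => Real.sin (X f i)) = 0
  mom : ∀ f, Tst Ω f → (∀ z, 0 ≤ f z) → ∀ n : ℕ, L (fun i => X f i ^ (2 * n)) = gm n * (K * En Ω f) ^ n

theorem E10_sub {Ω S : Set Pl} {u : Pl → ℝ} (hS : IsClosed S) (hSW : S ⊆ Ω) (h : ∀ z, z ∉ S → u z = 0) :
    tsupport u ⊆ Ω :=
  (closure_minimal (fun z hz => by
    by_contra hc
    exact hz (h z hc)) hS).trans hSW

theorem E10_add {Ω : Set Pl} {f g : Pl → ℝ} (hf : Tst Ω f) (hg : Tst Ω g) : Tst Ω (fun z => f z + g z) := by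
  refine ⟨N4a_cc_add hf.toCc hg.toCc, ?_⟩
  refine E10_sub (S := tsupport f ∪ tsupport g) ((isClosed_tsupport f).union (isClosed_tsupport g))
    (Set.union_subset hf.sub hg.sub) fun z hz => ?_
  have h1 : z ∉ tsupport f := fun h => hz (Or.inl h)
  have h2 : z ∉ tsupport g := fun h => hz (Or.inr h)
  rw [image_eq_zero_of_notMem_tsupport h1, image_eq_zero_of_notMem_tsupport h2, add_zero]

theorem E10_smul {Ω : Set Pl} {f : Pl → ℝ} (c : ℝ) (hf : Tst Ω f) : Tst Ω (fun z => c * f z) := by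
  refine ⟨N4a_cc_smul c hf.toCc, ?_⟩
  refine E10_sub (S := tsupport f) (isClosed_tsupport f) hf.sub fun z hz => ?_
  rw [image_eq_zero_of_notMem_tsupport hz, mul_zero]

theorem E10_sum {Ω : Set Pl} {m : ℕ} (F : Fin m → Pl → ℝ) (t : Fin m → ℝ) (hF : ∀ j, Tst Ω (F j))
    (s : Finset (Fin m)) : Tst Ω (fun z => ∑ j ∈ s, t j * F j z) := by
  classical
  induction s using Finset.induction_on with
  | empty => simpa using tst_zero Ω
  | insert a s ha ih =>
    have := E10_add (E10_smul (t a) (hF a)) ih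
    simpa [Finset.sum_insert ha] using this

/-- sums and multiples of test functions (`energyFacts`-free, elementary) -/
theorem tst_ops {Ω : Set Pl} {f g : Pl → ℝ} (hf : Tst Ω f) (hg : Tst Ω g) (c : ℝ) :
    Tst Ω (fun z => f z + g z) ∧ Tst Ω (fun z => f z - g z) ∧ Tst Ω (fun z => c * f z) ∧
      ∀ {m : ℕ} (F : Fin m → Pl → ℝ) (t : Fin m → ℝ), (∀ j, Tst Ω (F j)) → Tst Ω (fun z => ∑ j, t j * F j z) := by
  refine ⟨E10_add hf hg, ?_, E10_smul c hf, fun F t hF => E10_sum F t hF Finset.univ⟩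
  have h := E10_add hf (E10_smul (-1) hg)
  have he : (fun z => f z - g z) = fun z => f z + -1 * g z := by
    funext z
    ring
  rw [he]
  exact h

/-- a cutoff: `χ ≥ 0` in `C_c^∞(Ω)` with `|f| ≤ c χ` -/
theorem exists_dom {Ω : Set Pl} (hΩ : IsOpen Ω) {f : Pl → ℝ} (hf : Tst Ω f) :
    ∃ (χ : Pl → ℝ) (c : ℝ), 0 ≤ c ∧ Tst Ω χ ∧ (∀ z, 0 ≤ χ z) ∧ ∀ z, |f z| ≤ c * χ z := by
  have hK : IsCompact (tsupport f) := hf.supp
  have key : ∃ χ : Pl → ℝ, Tst Ω χ ∧ (∀ z, 0 ≤ χ z) ∧ ∀ z ∈ tsupport f, 1 / 2 ≤ χ z := by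
    refine hK.induction_on (p := fun s => ∃ χ : Pl → ℝ, Tst Ω χ ∧ (∀ z, 0 ≤ χ z) ∧ ∀ z ∈ s, 1 / 2 ≤ χ z)
      ?_ ?_ ?_ ?_
    · exact ⟨fun _ => 0, tst_zero Ω, fun _ => le_rfl, fun z hz => hz.elim⟩
    · rintro s t hst ⟨χ, h1, h2, h3⟩
      exact ⟨χ, h1, h2, fun z hz => h3 z (hst hz)⟩
    · rintro s t ⟨χ, h1, h2, h3⟩ ⟨ψ, k1, k2, k3⟩
      refine ⟨fun z => χ z + ψ z, E10_add h1 k1, fun z => add_nonneg (h2 z) (k2 z), fun z hz => ?_⟩
      rcases hz with hz | hz
      · have := h3 z hz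
        have := k2 z
        linarith
      · have := k3 z hz
        have := h2 z
        linarith
    · intro x hx
      obtain ⟨ψ, h1, h2, h3, h4, h5⟩ := exists_contDiff_tsupport_subset (E := Pl) (n := (⊤ : ℕ∞))
        (hΩ.mem_nhds (hf.sub hx))
      have hev : ∀ᶠ z in 𝓝 x, 1 / 2 < ψ z := by
        refine h3.continuous.continuousAt.eventually_const_lt ?_
        rw [h5]
        norm_num
      refine ⟨{z | 1 / 2 < ψ z}, mem_nhdsWithin_of_mem_nhds hev, ψ, ⟨⟨h3, h2⟩, h1⟩, fun z => ?_, fun z hz => ?_⟩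
      · exact (h4 ⟨z, rfl⟩).1
      · exact le_of_lt hz
  obtain ⟨χ, h1, h2, h3⟩ := key
  obtain ⟨C, hC⟩ := hf.smooth.continuous.bounded_above_of_compact_support hf.supp
  have hC0 : 0 ≤ C := (norm_nonneg _).trans (hC 0)
  refine ⟨χ, 2 * C, by positivity, h1, h2, fun z => ?_⟩
  by_cases hz : z ∈ tsupport f
  · have := h3 z hz
    have h4 := hC z
    rw [Real.norm_eq_abs] at h4
    nlinarith
  · rw [image_eq_zero_of_notMem_tsupport hz, abs_zero]
    exact mul_nonneg (by positivity) (h2 z)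

/-- functions of polynomial growth of observables are observables -/
lemma ok_poly' {I : Type} (M : Lim I) {m : ℕ} (Y : Fin m → I → ℝ) (hY : ∀ j, M.Ok (Y j))
    (φ : EuclideanSpace ℝ (Fin m) → ℝ)
    (hg : ∃ (C : ℝ) (k : ℕ), ∀ x, |φ x| ≤ C * (1 + ‖x‖) ^ k) : M.Ok (fun i => φ (vec Y i)) := by
  obtain ⟨C, k, hC⟩ := hg
  have hS : ∀ s : Finset (Fin m), M.Ok (fun i => ∑ j ∈ s, |Y j i|) := by
    classical
    intro s
    induction s using Finset.induction_on with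
    | empty => simpa using M.ok_const 0
    | insert a s ha ih =>
      simp only [Finset.sum_insert ha]
      exact M.ok_add _ _ (M.ok_abs _ (hY a)) ih
  have h1 : M.Ok (fun i => C * (1 + ∑ j, |Y j i|) ^ k) :=
    M.ok_smul C _ (M.ok_pow _ (M.ok_add _ _ (M.ok_const 1) (hS _)) k)
  refine M.ok_of_abs_le _ _ (fun i => ?_) h1
  have hn : ‖vec Y i‖ ≤ ∑ j, |Y j i| := by
    have h2 : vec Y i = ∑ j, (Y j i) • (EuclideanSpace.basisFun (Fin m) ℝ j) := by
      have := (EuclideanSpace.basisFun (Fin m) ℝ).sum_repr (vec Y i)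
      rw [← this]
      refine Finset.sum_congr rfl fun j _ => ?_
      rfl
    rw [h2]
    refine (norm_sum_le _ _).trans (Finset.sum_le_sum fun j _ => ?_)
    rw [norm_smul, Real.norm_eq_abs, (EuclideanSpace.basisFun (Fin m) ℝ).norm_eq_one, mul_one]
  have hC0 : 0 ≤ C := by
    have := (abs_nonneg _).trans (hC 0)
    simpa using this
  have h3 : (0 : ℝ) ≤ ∑ j, |Y j i| := Finset.sum_nonneg fun j _ => abs_nonneg _
  refine (hC _).trans ((mul_le_mul_of_nonneg_left (pow_le_pow_left₀ (by positivity)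
    (by linarith) k) hC0).trans (le_abs_self _))

end GF
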