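import Pool.Agent.Helper41.DV.E10

/-!
E10b.  Moments for signed test functions.
-/

open MeasureTheory Filter Topology ProbabilityTheory

namespace GF

variable {I : Type} {Ω : Set Pl} {K : ℝ}

private lemma E10b_gm_one : gm 1 = 1 := by
  have h1 : Var[id; gaussianReal 0 1] = ((1 : NNReal) : ℝ) := variance_id_gaussianReal
  rw [variance_eq_integral aemeasurable_id] at h1
  have h2 : ∫ x, (id x : ℝ) ∂(gaussianReal 0 1) = 0 := by
    simp
  rw [h2] at h1
  unfold gm
  simpa using h1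

private lemma E10b_poly (M : Lim I) {A B : I → ℝ} (hA : M.Ok A) (hB : M.Ok B) (m : ℕ) :
    ∃ p : Polynomial ℝ, ∀ s : ℝ, p.eval s = M.L (fun i => (A i + s * B i) ^ m) := by
  refine ⟨∑ k ∈ Finset.range (m + 1), Polynomial.C ((m.choose k : ℝ) *
    M.L (fun i => A i ^ k * B i ^ (m - k))) * Polynomial.X ^ (m - k), fun s => ?_⟩
  have h1 : (fun i => (A i + s * B i) ^ m) = fun i => ∑ k ∈ Finset.range (m + 1),
      (s ^ (m - k) * (m.choose k : ℝ)) * (A i ^ k * B i ^ (m - k)) := by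
    funext i
    rw [add_pow]
    refine Finset.sum_congr rfl fun k _ => ?_
    rw [mul_pow]
    ring
  rw [h1, M.L_sum (Finset.range (m + 1)) (fun k i => (s ^ (m - k) * (m.choose k : ℝ)) *
    (A i ^ k * B i ^ (m - k))) fun k _ => M.ok_smul _ _ (M.ok_mul _ _ (M.ok_pow _ hA _) (M.ok_pow _ hB _)),
    Polynomial.eval_finsetSum]
  refine Finset.sum_congr rfl fun k _ => ?_
  rw [M.L_smul _ _ (M.ok_mul _ _ (M.ok_pow _ hA _) (M.ok_pow _ hB _))]
  simp only [Polynomial.eval_mul, Polynomial.eval_C, Polynomial.eval_pow, Polynomial.eval_X]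
  ring

/-- Signed test functions.  `g = f + c χ ≥ 0`.  The polynomial `p(s) = L (X_g + s X_χ)^(2n)` is
`gm n (K En(g + s χ))^n` for `s ≥ 0`; `En(g + s χ)` is the quadratic polynomial `L (X_g + s X_χ)²/K` for `s ≥ 0`
(`mom` with `n = 1`, `gm 1 = 1`), and by the parallelogram law (`En_par` for `g`, `s χ`, `En_smul`) also for `s ≤ 0`.
So `p(s) = gm n (K En(g + s χ))^n` is an identity of polynomials; put `s = -c`. -/
theorem DSt.mom' (M : DSt I Ω K) (hK : 0 < K) (hΩ : IsOpen Ω) (hb : Bornology.IsBounded Ω) {f : Pl → ℝ}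
    (hf : Tst Ω f) (n : ℕ) : M.L (fun i => M.X f i ^ (2 * n)) = gm n * (K * En Ω f) ^ n := by
  obtain ⟨χ, c, hc, hχ, hχ0, hfχ⟩ := exists_dom hΩ hf
  obtain ⟨g, hgdef⟩ : ∃ g : Pl → ℝ, g = fun z => f z + c * χ z := ⟨_, rfl⟩
  have hcχ : Tst Ω (fun z => c * χ z) := E10_smul c hχ
  have hg : Tst Ω g := by
    rw [hgdef]
    exact E10_add hf hcχ
  have hg0 : ∀ z, 0 ≤ g z := by
    intro z
    rw [hgdef]
    have := neg_abs_le (f z)
    have := hfχ z
    show 0 ≤ f z + c * χ z
    linarith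
  have okg := M.ok_X g hg
  have okχ := M.ok_X χ hχ
  -- the test functions on the line
  have hline : ∀ s : ℝ, Tst Ω (fun z => g z + s * χ z) := fun s => E10_add hg (E10_smul s hχ)
  have hX : ∀ s : ℝ, ∀ i, M.X (fun z => g z + s * χ z) i = M.X g i + s * M.X χ i := by
    intro s i
    rw [M.X_add g _ hg (E10_smul s hχ) i, M.X_smul s χ hχ i]
  have hpos : ∀ s : ℝ, 0 ≤ s → ∀ m : ℕ, M.L (fun i => (M.X g i + s * M.X χ i) ^ (2 * m)) =
      gm m * (K * En Ω (fun z => g z + s * χ z)) ^ m := by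
    intro s hs m
    have h := M.mom _ (hline s) (fun z => add_nonneg (hg0 z) (mul_nonneg hs (hχ0 z))) m
    simp only [hX s] at h
    exact h
  -- the energy is a quadratic polynomial
  obtain ⟨b, hbdef⟩ : ∃ b, b = 2 * M.L (fun i => M.X g i * M.X χ i) / K := ⟨_, rfl⟩
  have hq0 : ∀ s : ℝ, 0 ≤ s → En Ω (fun z => g z + s * χ z) = En Ω g + b * s + En Ω χ * s ^ 2 := by
    intro s hs
    have h1 := hpos s hs 1
    have h2 := M.mom g hg hg0 1
    have h3 := M.mom χ hχ hχ0 1
    rw [E10b_gm_one, one_mul, pow_one, mul_one] at h1 h2 h3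
    have h4 : (fun i => (M.X g i + s * M.X χ i) ^ 2) =
        fun i => (M.X g i ^ 2 + (2 * s) * (M.X g i * M.X χ i)) + s ^ 2 * (M.X χ i ^ 2) := by
      funext i
      ring
    have o1 := M.toLim.ok_pow _ okg 2
    have o2 := M.toLim.ok_pow _ okχ 2
    have o3 := M.ok_mul _ _ okg okχ
    rw [h4, M.L_add _ _ (M.ok_add _ _ o1 (M.toLim.ok_smul _ _ o3)) (M.toLim.ok_smul _ _ o2),
      M.L_add _ _ o1 (M.toLim.ok_smul _ _ o3), M.L_smul _ _ o3, M.L_smul _ _ o2, h2, h3] at h1
    have h5 : K * b = 2 * M.L (fun i => M.X g i * M.X χ i) := by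
      rw [hbdef]
      field_simp
    have h6 : K * En Ω (fun z => g z + s * χ z) = K * (En Ω g + b * s + En Ω χ * s ^ 2) := by
      rw [← h1]
      linear_combination (-s) * h5
    exact mul_left_cancel₀ hK.ne' h6
  have hq : ∀ s : ℝ, En Ω (fun z => g z + s * χ z) = En Ω g + b * s + En Ω χ * s ^ 2 := by
    intro s
    rcases le_total 0 s with hs | hs
    · exact hq0 s hs
    · have h1 := hq0 (-s) (by linarith)
      have h2 := En_par hb hg.toCc (E10_smul s hχ).toCc
      rw [En_smul hb s hχ.toCc] at h2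
      have h3 : (fun z => g z - s * χ z) = fun z => g z + -s * χ z := by
        funext z
        ring
      rw [h3, h1] at h2
      linarith
  -- identity of polynomials
  obtain ⟨p, hp⟩ := E10b_poly M.toLim okg okχ (2 * n)
  obtain ⟨r, hr⟩ : ∃ r : Polynomial ℝ, r = Polynomial.C (gm n) * (Polynomial.C K * (Polynomial.C (En Ω g) +
    Polynomial.C b * Polynomial.X + Polynomial.C (En Ω χ) * Polynomial.X ^ 2)) ^ n := ⟨_, rfl⟩
  have hre : ∀ s : ℝ, r.eval s = gm n * (K * En Ω (fun z => g z + s * χ z)) ^ n := by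
    intro s
    rw [hq s, hr]
    simp
  have hpr : p = r := by
    refine Polynomial.eq_of_infinite_eval_eq p r ((Set.Ici_infinite (0 : ℝ)).mono fun s hs => ?_)
    show p.eval s = r.eval s
    rw [hp s, hre s]
    exact hpos s hs n
  have h1 := hp (-c)
  rw [hpr, hre (-c)] at h1
  have h2 : (fun z => g z + -c * χ z) = f := by
    funext z
    rw [hgdef]
    ring
  have h3 : ∀ i, M.X g i + -c * M.X χ i = M.X f i := by
    intro i
    rw [← hX (-c) i, h2]
  rw [h2] at h1
  simp only [h3] at h1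
  exact h1.symm

end GF
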