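import Pool.Agent.Helper41.DV.E8

/-!
E8c.  Gaussian moments give Gaussian characters.
-/

open MeasureTheory Filter Topology ProbabilityTheory

namespace GF

private lemma E8c_mono (f g f' g' : ℝ → ℝ) (hf : ∀ x, HasDerivAt f (f' x) x)
    (hg : ∀ x, HasDerivAt g (g' x) x) (h0 : f 0 = 0) (h0' : g 0 = 0)
    (h : ∀ x, 0 ≤ x → |f' x| ≤ g' x) (x : ℝ) (hx : 0 ≤ x) : |f x| ≤ g x := by
  have h1 : MonotoneOn (fun y => g y - f y) (Set.Ici (0 : ℝ)) := by
    refine monotoneOn_of_deriv_nonneg (convex_Ici 0) ?_ ?_ ?_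
    · exact fun y _ => ((hg y).sub (hf y)).continuousAt.continuousWithinAt
    · exact fun y _ => ((hg y).sub (hf y)).differentiableAt.differentiableWithinAt
    · intro y hy
      rw [interior_Ici] at hy
      have h2 : deriv (fun y => g y - f y) y = g' y - f' y := ((hg y).sub (hf y)).deriv
      rw [h2]
      have := (abs_le.1 (h y (le_of_lt hy))).2
      linarith
  have h2 : MonotoneOn (fun y => g y + f y) (Set.Ici (0 : ℝ)) := by
    refine monotoneOn_of_deriv_nonneg (convex_Ici 0) ?_ ?_ ?_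
    · exact fun y _ => ((hg y).add (hf y)).continuousAt.continuousWithinAt
    · exact fun y _ => ((hg y).add (hf y)).differentiableAt.differentiableWithinAt
    · intro y hy
      rw [interior_Ici] at hy
      have h2 : deriv (fun y => g y + f y) y = g' y + f' y := ((hg y).add (hf y)).deriv
      rw [h2]
      have := (abs_le.1 (h y (le_of_lt hy))).1
      linarith
  have h3 := h1 (Set.mem_Ici.2 le_rfl) (Set.mem_Ici.2 hx) hx
  have h4 := h2 (Set.mem_Ici.2 le_rfl) (Set.mem_Ici.2 hx) hx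
  simp only [h0, h0'] at h3 h4
  rw [abs_le]
  constructor <;> linarith

private noncomputable def E8c_C (N : ℕ) (x : ℝ) : ℝ :=
  ∑ k ∈ Finset.range N, (-1 : ℝ) ^ k * (x ^ (2 * k) / ((2 * k).factorial : ℝ))

private noncomputable def E8c_S (N : ℕ) (x : ℝ) : ℝ :=
  ∑ k ∈ Finset.range N, (-1 : ℝ) ^ k * (x ^ (2 * k + 1) / ((2 * k + 1).factorial : ℝ))

private lemma E8c_pow (m : ℕ) (x : ℝ) :
    HasDerivAt (fun y : ℝ => y ^ (m + 1) / ((m + 1).factorial : ℝ)) (x ^ m / (m.factorial : ℝ)) x := by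
  have h1 := (hasDerivAt_pow (m + 1) x).div_const (((m + 1).factorial : ℕ) : ℝ)
  refine h1.congr_deriv ?_
  rw [Nat.add_sub_cancel, Nat.factorial_succ, Nat.cast_mul]
  have h2 : ((m + 1 : ℕ) : ℝ) ≠ 0 := by positivity
  have h3 : ((m.factorial : ℕ) : ℝ) ≠ 0 := by positivity
  field_simp

private lemma E8c_S_deriv (N : ℕ) (x : ℝ) : HasDerivAt (E8c_S N) (E8c_C N x) x := by
  unfold E8c_S E8c_C
  have h := HasDerivAt.fun_sum (u := Finset.range N)
    (A := fun k (y : ℝ) => (-1 : ℝ) ^ k * (y ^ (2 * k + 1) / ((2 * k + 1).factorial : ℝ)))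
    (A' := fun k => (-1 : ℝ) ^ k * (x ^ (2 * k) / ((2 * k).factorial : ℝ))) (x := x)
    (fun k _ => (E8c_pow (2 * k) x).const_mul _)
  exact h

private lemma E8c_C_deriv (N : ℕ) (x : ℝ) : HasDerivAt (E8c_C (N + 1)) (-E8c_S N x) x := by
  have h0 : E8c_C (N + 1) = fun y => (∑ k ∈ Finset.range N,
      (-1 : ℝ) ^ (k + 1) * (y ^ (2 * k + 1 + 1) / ((2 * k + 1 + 1).factorial : ℝ))) + 1 := by
    funext y
    unfold E8c_C
    rw [Finset.sum_range_succ']
    congr 1
    simp
  rw [h0]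
  have h := HasDerivAt.fun_sum (u := Finset.range N)
    (A := fun k (y : ℝ) => (-1 : ℝ) ^ (k + 1) * (y ^ (2 * k + 1 + 1) / ((2 * k + 1 + 1).factorial : ℝ)))
    (A' := fun k => (-1 : ℝ) ^ (k + 1) * (x ^ (2 * k + 1) / ((2 * k + 1).factorial : ℝ))) (x := x)
    (fun k _ => (E8c_pow (2 * k + 1) x).const_mul _)
  refine (h.add_const 1).congr_deriv ?_
  unfold E8c_S
  rw [← Finset.sum_neg_distrib]
  refine Finset.sum_congr rfl fun k _ => ?_
  ring

private lemma E8c_taylor (N : ℕ) :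
    (∀ x : ℝ, 0 ≤ x → |Real.cos x - E8c_C N x| ≤ x ^ (2 * N) / ((2 * N).factorial : ℝ)) ∧
    (∀ x : ℝ, 0 ≤ x → |Real.sin x - E8c_S N x| ≤ x ^ (2 * N + 1) / ((2 * N + 1).factorial : ℝ)) := by
  induction N with
  | zero =>
    constructor
    · intro x _
      simpa [E8c_C] using Real.abs_cos_le_one x
    · intro x hx
      have h := Real.abs_sin_le_abs (x := x)
      rw [abs_of_nonneg hx] at h
      simpa [E8c_S] using h
  | succ N ih =>
    have hc : ∀ x : ℝ, 0 ≤ x → |Real.cos x - E8c_C (N + 1) x| ≤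
        x ^ (2 * (N + 1)) / ((2 * (N + 1)).factorial : ℝ) := by
      have h1 := E8c_mono (fun x => Real.cos x - E8c_C (N + 1) x)
        (fun x => x ^ (2 * N + 1 + 1) / ((2 * N + 1 + 1).factorial : ℝ))
        (fun x => -Real.sin x - (-E8c_S N x)) (fun x => x ^ (2 * N + 1) / ((2 * N + 1).factorial : ℝ))
        (fun x => (Real.hasDerivAt_cos x).sub (E8c_C_deriv N x)) (fun x => E8c_pow (2 * N + 1) x)
        (by
          have h2 : E8c_C (N + 1) 0 = 1 := by
            unfold E8c_C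
            rw [Finset.sum_range_succ']
            simp
          simp [h2]) (by simp)
        (fun x hx => by
          have h3 := ih.2 x hx
          rw [← abs_neg] at h3
          convert h3 using 2
          ring)
      intro x hx
      exact h1 x hx
    refine ⟨hc, ?_⟩
    have h1 := E8c_mono (fun x => Real.sin x - E8c_S (N + 1) x)
      (fun x => x ^ (2 * (N + 1) + 1) / ((2 * (N + 1) + 1).factorial : ℝ))
      (fun x => Real.cos x - E8c_C (N + 1) x) (fun x => x ^ (2 * (N + 1)) / ((2 * (N + 1)).factorial : ℝ))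
      (fun x => (Real.hasDerivAt_sin x).sub (E8c_S_deriv (N + 1) x)) (fun x => E8c_pow (2 * (N + 1)) x)
      (by
        have h2 : E8c_S (N + 1) 0 = 0 := by
          unfold E8c_S
          exact Finset.sum_eq_zero fun k _ => by simp
        simp [h2]) (by simp)
      (fun x hx => hc x hx)
    intro x hx
    exact h1 x hx

private lemma E8c_cos (N : ℕ) (x : ℝ) :
    |Real.cos x - E8c_C N x| ≤ x ^ (2 * N) / ((2 * N).factorial : ℝ) := by
  have h := (E8c_taylor N).1 |x| (abs_nonneg x)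
  have h1 : E8c_C N |x| = E8c_C N x := by
    unfold E8c_C
    refine Finset.sum_congr rfl fun k _ => ?_
    rw [pow_mul, sq_abs, ← pow_mul]
  rw [Real.cos_abs, h1, pow_mul, sq_abs, ← pow_mul] at h
  exact h

private lemma E8c_gauss (v : NNReal) :
    ∫ x, Real.cos x ∂(gaussianReal 0 v) = Real.exp (-((v : ℝ) / 2)) := by
  have h := charFun_gaussianReal (μ := 0) (v := v) 1
  rw [charFun_apply_real] at h
  have hint : Integrable (fun x : ℝ => Complex.exp ((1 : ℝ) * x * Complex.I)) (gaussianReal 0 v) := by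
    refine Integrable.of_bound (C := 1) ?_ (Eventually.of_forall fun x => ?_)
    · refine Continuous.aestronglyMeasurable ?_
      fun_prop
    · rw [← Complex.ofReal_mul, Complex.norm_exp_ofReal_mul_I]
  have h1 := congrArg Complex.re h
  have h2 := integral_re hint
  simp only [RCLike.re_to_complex] at h2
  rw [← h2] at h1
  have h3 : ∀ x : ℝ, (Complex.exp ((1 : ℝ) * x * Complex.I)).re = Real.cos x := by
    intro x
    rw [← Complex.ofReal_mul, Complex.exp_ofReal_mul_I_re, one_mul]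
  simp only [h3] at h1
  rw [h1]
  have h4 : Complex.exp ((1 : ℝ) * (0 : ℝ) * Complex.I - (v : ℂ) * (1 : ℝ) ^ 2 / 2) =
      ((Real.exp (-((v : ℝ) / 2)) : ℝ) : ℂ) := by
    rw [Complex.ofReal_exp]
    congr 1
    push_cast
    ring
  rw [h4, Complex.ofReal_re]

/-- Taylor polynomials of `cos` (`|cos x - ∑_{k<N} (-1)^k x^(2k)/(2k)!| ≤ x^(2N)/(2N)!`) for the law of `Y` and for
`gaussianReal 0 v`: the polynomials have the same mean, and `∫ x^(2N) dG_v/(2N)! → 0` since the sum over `N` is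
`∫ cosh dG_v < ∞`. -/
theorem cos_of_mom {I : Type} (M : Lim I) {Y : I → ℝ} (hY : M.Ok Y) {v : ℝ} (hv : 0 ≤ v)
    (h : ∀ n, M.L (fun i => Y i ^ (2 * n)) = gm n * v ^ n) :
    M.L (fun i => Real.cos (Y i)) = Real.exp (-(v / 2)) := by
  obtain ⟨w, rfl⟩ : ∃ w : NNReal, (w : ℝ) = v := ⟨⟨v, hv⟩, rfl⟩
  have hmom : ∀ n, ∫ x, x ^ (2 * n) ∂(gaussianReal 0 w) = gm n * (w : ℝ) ^ n := fun n =>
    ((gm_facts n).2 w).2
  have hmi : ∀ n, Integrable (fun x : ℝ => x ^ (2 * n)) (gaussianReal 0 w) := fun n =>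
    ((gm_facts (2 * n)).2 w).1
  -- the error terms
  set a : ℕ → ℝ := fun N => gm N * (w : ℝ) ^ N / ((2 * N).factorial : ℝ) with ha
  have ha0 : ∀ N, 0 ≤ a N := fun N =>
    div_nonneg (mul_nonneg (gm_facts N).1 (pow_nonneg hv N)) (Nat.cast_nonneg _)
  have haI : ∀ N, ∫ x, x ^ (2 * N) / ((2 * N).factorial : ℝ) ∂(gaussianReal 0 w) = a N := by
    intro N
    rw [integral_div, hmom]
  have hcosh : Integrable (fun x : ℝ => Real.cosh x) (gaussianReal 0 w) := by
    have h1 := integrable_exp_mul_gaussianReal (μ := 0) (v := w) 1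
    have h2 := integrable_exp_mul_gaussianReal (μ := 0) (v := w) (-1)
    have h3 := (h1.add h2).div_const 2
    refine h3.congr (Eventually.of_forall fun x => ?_)
    simp [Real.cosh_eq]
  have hsum : Summable a := by
    refine summable_of_sum_range_le (c := ∫ x, Real.cosh x ∂(gaussianReal 0 w)) ha0 fun n => ?_
    have h1 : ∑ N ∈ Finset.range n, a N =
        ∫ x, ∑ N ∈ Finset.range n, x ^ (2 * N) / ((2 * N).factorial : ℝ) ∂(gaussianReal 0 w) := by
      rw [integral_finsetSum _ fun N _ => (hmi N).div_const _]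
      exact Finset.sum_congr rfl fun N _ => (haI N).symm
    rw [h1]
    refine integral_mono (integrable_finsetSum _ fun N _ => (hmi N).div_const _) hcosh fun x => ?_
    refine sum_le_hasSum _ (fun N _ => ?_) (Real.hasSum_cosh x)
    rw [pow_mul]
    positivity
  have hlim : Tendsto a atTop (𝓝 0) := hsum.tendsto_atTop_zero
  -- the comparison
  have hL : ∀ N, |M.L (fun i => Real.cos (Y i)) -
      ∑ k ∈ Finset.range N, (-1 : ℝ) ^ k * (gm k * (w : ℝ) ^ k / ((2 * k).factorial : ℝ))| ≤ a N := by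
    intro N
    have hok : ∀ k, M.Ok (fun i => (-1 : ℝ) ^ k * (1 / ((2 * k).factorial : ℝ)) * Y i ^ (2 * k)) :=
      fun k => M.ok_smul _ _ (M.ok_pow Y hY (2 * k))
    have hC : M.Ok (fun i => ∑ k ∈ Finset.range N,
        (-1 : ℝ) ^ k * (1 / ((2 * k).factorial : ℝ)) * Y i ^ (2 * k)) :=
      M.ok_sum _ _ fun k _ => hok k
    have hcos : M.Ok (fun i => Real.cos (Y i)) := M.ok_bdd _ 1 fun i => Real.abs_cos_le_one _
    have h1 : M.L (fun i => ∑ k ∈ Finset.range N,
        (-1 : ℝ) ^ k * (1 / ((2 * k).factorial : ℝ)) * Y i ^ (2 * k)) =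
        ∑ k ∈ Finset.range N, (-1 : ℝ) ^ k * (gm k * (w : ℝ) ^ k / ((2 * k).factorial : ℝ)) := by
      rw [M.L_sum _ _ fun k _ => hok k]
      refine Finset.sum_congr rfl fun k _ => ?_
      rw [M.L_smul _ _ (M.ok_pow Y hY (2 * k)), h k]
      ring
    rw [← h1, ← M.L_sub _ _ hcos hC]
    have h2 : M.L (fun i => 1 / ((2 * N).factorial : ℝ) * Y i ^ (2 * N)) = a N := by
      rw [M.L_smul _ _ (M.ok_pow Y hY (2 * N)), h N]
      simp only [ha]
      ring
    rw [← h2]
    refine M.abs_L_le_of_le _ _ (M.ok_smul _ _ (M.ok_pow Y hY (2 * N))) fun i => ?_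
    have h3 := E8c_cos N (Y i)
    have h4 : E8c_C N (Y i) = ∑ k ∈ Finset.range N,
        (-1 : ℝ) ^ k * (1 / ((2 * k).factorial : ℝ)) * Y i ^ (2 * k) := by
      unfold E8c_C
      refine Finset.sum_congr rfl fun k _ => ?_
      ring
    rw [← h4]
    refine h3.trans (le_of_eq ?_)
    ring
  have hG : ∀ N, |∫ x, Real.cos x ∂(gaussianReal 0 w) -
      ∑ k ∈ Finset.range N, (-1 : ℝ) ^ k * (gm k * (w : ℝ) ^ k / ((2 * k).factorial : ℝ))| ≤ a N := by
    intro N
    have hcos : Integrable (fun x : ℝ => Real.cos x) (gaussianReal 0 w) := by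
      refine Integrable.of_bound (C := 1) Real.continuous_cos.aestronglyMeasurable
        (Eventually.of_forall fun x => ?_)
      exact Real.abs_cos_le_one x
    have hCi : Integrable (fun x : ℝ => E8c_C N x) (gaussianReal 0 w) := by
      unfold E8c_C
      exact integrable_finsetSum _ fun k _ => ((hmi k).div_const _).const_mul _
    have h1 : ∫ x, E8c_C N x ∂(gaussianReal 0 w) =
        ∑ k ∈ Finset.range N, (-1 : ℝ) ^ k * (gm k * (w : ℝ) ^ k / ((2 * k).factorial : ℝ)) := by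
      unfold E8c_C
      rw [integral_finsetSum _ fun k _ => ((hmi k).div_const _).const_mul _]
      refine Finset.sum_congr rfl fun k _ => ?_
      rw [integral_const_mul, haI]
    rw [← h1, ← integral_sub hcos hCi, ← haI N, ← Real.norm_eq_abs]
    refine norm_integral_le_of_norm_le ((hmi N).div_const _) (Eventually.of_forall fun x => ?_)
    rw [Real.norm_eq_abs]
    exact E8c_cos N x
  rw [← E8c_gauss w]
  have hdist : ∀ N, |M.L (fun i => Real.cos (Y i)) - ∫ x, Real.cos x ∂(gaussianReal 0 w)| ≤ 2 * a N := by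
    intro N
    have h1 := abs_le.1 (hL N)
    have h2 := abs_le.1 (hG N)
    rw [abs_le]
    constructor <;> linarith [h1.1, h1.2, h2.1, h2.2]
  have hfin : |M.L (fun i => Real.cos (Y i)) - ∫ x, Real.cos x ∂(gaussianReal 0 w)| ≤ 2 * 0 :=
    ge_of_tendsto' (hlim.const_mul 2) hdist
  rw [mul_zero] at hfin
  exact sub_eq_zero.1 (abs_nonpos_iff.1 hfin)

end GF
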