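import Pool.Agent.Helper41.DV.E10b
import Pool.Agent.Helper41.DV.E8c

/-!
E10c.  Covariances and characters for signed test functions.
-/

open MeasureTheory Filter Topology ProbabilityTheory

namespace GF

variable {I : Type} {Ω : Set Pl} {K : ℝ}

/-- the covariance matrix -/
noncomputable def gramD {m : ℕ} (K : ℝ) (Ω : Set Pl) (f : Fin m → Pl → ℝ) : Matrix (Fin m) (Fin m) ℝ :=
  Matrix.of fun i j => K * Gr Ω (f i) (f j)

private lemma E10c_gm_one : gm 1 = 1 := by
  have h1 : Var[id; gaussianReal 0 1] = ((1 : NNReal) : ℝ) := variance_id_gaussianReal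
  rw [variance_eq_integral aemeasurable_id] at h1
  have h2 : ∫ x, (id x : ℝ) ∂(gaussianReal 0 1) = 0 := by
    simp
  rw [h2] at h1
  unfold gm
  simpa using h1

private lemma E10c_sq (M : DSt I Ω K) (hK : 0 < K) (hΩ : IsOpen Ω) (hb : Bornology.IsBounded Ω) {f : Pl → ℝ}
    (hf : Tst Ω f) : M.L (fun i => M.X f i ^ 2) = K * En Ω f := by
  have h := M.mom' hK hΩ hb hf 1
  rw [E10c_gm_one, one_mul, pow_one, mul_one] at h
  exact h

/-- `mom'` for `n = 1` (`gm 1 = 1`): `L (X_f ± X_g)² = K En(f ± g)` -/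
theorem DSt.two (M : DSt I Ω K) (hK : 0 < K) (hΩ : IsOpen Ω) (hb : Bornology.IsBounded Ω) {f g : Pl → ℝ}
    (hf : Tst Ω f) (hg : Tst Ω g) : M.L (fun i => M.X f i * M.X g i) = K * Gr Ω f g := by
  obtain ⟨hs, hd, -, -⟩ := tst_ops hf hg 1
  have hng : Tst Ω (fun z => (-1) * g z) := (tst_ops hg hg (-1)).2.2.1
  have hXs : ∀ i, M.X (fun z => f z + g z) i = M.X f i + M.X g i := M.X_add f g hf hg
  have hXd : ∀ i, M.X (fun z => f z - g z) i = M.X f i - M.X g i := by
    intro i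
    have h1 : (fun z => f z - g z) = fun z => f z + (-1) * g z := by
      funext z
      ring
    rw [h1, M.X_add f _ hf hng i, M.X_smul (-1) g hg i]
    ring
  have e1 := E10c_sq M hK hΩ hb hs
  have e2 := E10c_sq M hK hΩ hb hd
  simp only [hXs] at e1
  simp only [hXd] at e2
  have okf := M.ok_X f hf
  have okg := M.ok_X g hg
  have okp : M.Ok (fun i => (M.X f i + M.X g i) ^ 2) :=
    M.toLim.ok_pow _ (M.ok_add _ _ okf okg) 2
  have okm : M.Ok (fun i => (M.X f i - M.X g i) ^ 2) :=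
    M.toLim.ok_pow _ (M.toLim.ok_sub _ _ okf okg) 2
  have h3 := M.toLim.L_sub _ _ okp okm
  rw [e1, e2] at h3
  have h4 : (fun i => (M.X f i + M.X g i) ^ 2 - (M.X f i - M.X g i) ^ 2) =
      fun i => 4 * (M.X f i * M.X g i) := by
    funext i
    ring
  rw [h4, M.L_smul 4 _ (M.ok_mul _ _ okf okg)] at h3
  unfold Gr
  linarith

/-- `cos_of_mom` and `mom'` -/
theorem DSt.char (M : DSt I Ω K) (hK : 0 < K) (hΩ : IsOpen Ω) (hb : Bornology.IsBounded Ω) {f : Pl → ℝ}
    (hf : Tst Ω f) : M.L (fun i => Real.cos (M.X f i)) = Real.exp (-(K * En Ω f / 2)) :=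
  cos_of_mom M.toLim (M.ok_X f hf) (mul_nonneg hK.le (En_nonneg hb hf.toCc)) fun n => M.mom' hK hΩ hb hf n

end GF
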