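import Pool.Agent.Helper41.DV.E10c

/-!
E10d.  The joint law in a limit state.
-/

open MeasureTheory Filter Topology ProbabilityTheory

namespace GF

variable {I : Type} {Ω : Set Pl} {K : ℝ}

theorem E10d_X_sum (M : DSt I Ω K) {m : ℕ} (f : Fin m → Pl → ℝ) (hf : ∀ j, Tst Ω (f j))
    (t : Fin m → ℝ) (i : I) (s : Finset (Fin m)) :
    M.X (fun z => ∑ j ∈ s, t j * f j z) i = ∑ j ∈ s, t j * M.X (f j) i := by
  classical
  induction s using Finset.induction_on with
  | empty =>
    have := M.X_smul 0 (fun _ => 0) (tst_zero Ω) i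
    simpa using this
  | insert a s ha ih =>
    have h1 := M.X_add _ _ (E10_smul (t a) (hf a)) (E10_sum f t hf s) i
    rw [M.X_smul _ _ (hf a), ih] at h1
    rw [Finset.sum_insert ha, ← h1]
    congr 1
    funext z
    rw [Finset.sum_insert ha]

theorem E10d_Gr_self (hb : Bornology.IsBounded Ω) {F : Pl → ℝ} (hF : Tst Ω F) : Gr Ω F F = En Ω F := by
  have h1 := En_smul hb 2 hF.toCc
  have h2 := En_smul hb 0 hF.toCc
  have e1 : (fun z => F z + F z) = fun z => 2 * F z := by
    funext z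
    ring
  have e2 : (fun z => F z - F z) = fun z => 0 * F z := by
    funext z
    ring
  unfold Gr
  rw [e1, e2, h1, h2]
  ring

theorem E10d_two_sum (M : DSt I Ω K) (hK : 0 < K) (hΩ : IsOpen Ω) (hb : Bornology.IsBounded Ω) {m : ℕ}
    (f : Fin m → Pl → ℝ) (hf : ∀ j, Tst Ω (f j)) (t : Fin m → ℝ) :
    K * En Ω (fun z => ∑ j, t j * f j z) = ∑ i, ∑ j, t i * t j * (K * Gr Ω (f i) (f j)) := by
  have hF : Tst Ω (fun z => ∑ j, t j * f j z) := E10_sum f t hf _
  rw [← E10d_Gr_self hb hF, ← M.two hK hΩ hb hF hF]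
  have h1 : (fun i => M.X (fun z => ∑ j, t j * f j z) i * M.X (fun z => ∑ j, t j * f j z) i) =
      fun i => ∑ a, ∑ b, (t a * t b) * (M.X (f a) i * M.X (f b) i) := by
    funext i
    rw [E10d_X_sum M f hf t i Finset.univ, Finset.sum_mul_sum]
    refine Finset.sum_congr rfl fun a _ => Finset.sum_congr rfl fun b _ => ?_
    ring
  have hab : ∀ a b, M.Ok (fun i => M.X (f a) i * M.X (f b) i) := fun a b =>
    M.ok_mul _ _ (M.ok_X _ (hf a)) (M.ok_X _ (hf b))
  have hab' : ∀ a b, M.Ok (fun i => (t a * t b) * (M.X (f a) i * M.X (f b) i)) := fun a b =>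
    M.toLim.ok_smul _ _ (hab a b)
  rw [h1, M.toLim.L_sum Finset.univ (fun a i => ∑ b, (t a * t b) * (M.X (f a) i * M.X (f b) i))
    (fun a _ => M.toLim.ok_sum Finset.univ (fun b i => (t a * t b) * (M.X (f a) i * M.X (f b) i))
      (fun b _ => hab' a b))]
  refine Finset.sum_congr rfl fun a _ => ?_
  rw [M.toLim.L_sum Finset.univ (fun b i => (t a * t b) * (M.X (f a) i * M.X (f b) i)) (fun b _ => hab' a b)]
  refine Finset.sum_congr rfl fun b _ => ?_
  rw [M.L_smul _ _ (hab a b), M.two hK hΩ hb (hf a) (hf b)]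

theorem E10d_psd (M : DSt I Ω K) (hK : 0 < K) (hΩ : IsOpen Ω) (hb : Bornology.IsBounded Ω) {m : ℕ}
    (f : Fin m → Pl → ℝ) (hf : ∀ j, Tst Ω (f j)) : (gramD K Ω f).PosSemidef := by
  refine ⟨?_, fun x => ?_⟩
  · ext i j
    simp only [Matrix.conjTranspose_apply, gramD, Matrix.of_apply, star_trivial]
    rw [← M.two hK hΩ hb (hf j) (hf i), ← M.two hK hΩ hb (hf i) (hf j)]
    congr 1
    funext a
    ring
  · have hF : Tst Ω (fun z => ∑ j, x j * f j z) := E10_sum f (fun j => x j) hf _
    have h1 : 0 ≤ M.L (fun i => M.X (fun z => ∑ j, x j * f j z) i * M.X (fun z => ∑ j, x j * f j z) i) :=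
      M.toLim.L_nonneg _ (M.ok_mul _ _ (M.ok_X _ hF) (M.ok_X _ hF)) (fun i => mul_self_nonneg _)
    rw [M.two hK hΩ hb hF hF, E10d_Gr_self hb hF, E10d_two_sum M hK hΩ hb f hf (fun j => x j)] at h1
    rw [Finsupp.sum_fintype _ _ (fun i => by simp)]
    refine h1.trans (le_of_eq ?_)
    refine Finset.sum_congr rfl fun i _ => ?_
    rw [Finsupp.sum_fintype _ _ (fun j => by simp)]
    refine Finset.sum_congr rfl fun j _ => ?_
    simp only [gramD, Matrix.of_apply, star_trivial]
    ring

/-- the characteristic function of the law -/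
theorem E10d_trig (M : DSt I Ω K) (hK : 0 < K) (hΩ : IsOpen Ω) (hb : Bornology.IsBounded Ω) {m : ℕ}
    (f : Fin m → Pl → ℝ) (hf : ∀ j, Tst Ω (f j)) (t : Fin m → ℝ) :
    M.L (fun i => Real.cos (∑ j, t j * M.X (f j) i)) =
        Real.exp (-((∑ i, ∑ j, t i * t j * (K * Gr Ω (f i) (f j))) / 2)) ∧
      M.L (fun i => Real.sin (∑ j, t j * M.X (f j) i)) = 0 := by
  have hF : Tst Ω (fun z => ∑ j, t j * f j z) := E10_sum f t hf _
  have hX : ∀ i, ∑ j, t j * M.X (f j) i = M.X (fun z => ∑ j, t j * f j z) i := fun i =>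
    (E10d_X_sum M f hf t i Finset.univ).symm
  simp only [hX]
  constructor
  · rw [M.char hK hΩ hb hF, E10d_two_sum M hK hΩ hb f hf t]
  · exact M.odd _ hF

/-- as `gram_psd` and `law_gauss_poly` in `Helper34/GF/F1.lean` (`exists_law`, characteristic functions) -/
theorem DSt.law (M : DSt I Ω K) (hK : 0 < K) (hΩ : IsOpen Ω) (hb : Bornology.IsBounded Ω) {m : ℕ}
    (f : Fin m → Pl → ℝ) (hf : ∀ j, Tst Ω (f j)) :
    (gramD K Ω f).PosSemidef ∧ ∀ φ : EuclideanSpace ℝ (Fin m) → ℝ, Continuous φ →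
      (∃ (C : ℝ) (k : ℕ), ∀ x, |φ x| ≤ C * (1 + ‖x‖) ^ k) →
      Integrable φ (multivariateGaussian 0 (gramD K Ω f)) ∧
        M.L (fun i => φ (vec (fun j => M.X (f j)) i)) = ∫ x, φ x ∂(multivariateGaussian 0 (gramD K Ω f)) := by
  have hpsd := E10d_psd M hK hΩ hb f hf
  refine ⟨hpsd, fun φ hφ hg => ?_⟩
  obtain ⟨ν, hν, hL⟩ := exists_law M.toLim (fun j => M.X (f j)) (fun j => M.ok_X _ (hf j))
  have hinner : ∀ x t : EuclideanSpace ℝ (Fin m), inner ℝ x t = ∑ j, t j * x j := by
    intro x t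
    simp [PiLp.inner_apply]
  have hcont : ∀ t : EuclideanSpace ℝ (Fin m),
      Continuous (fun x : EuclideanSpace ℝ (Fin m) => ∑ j, t j * x j) := by
    intro t
    fun_prop
  have key : ν = multivariateGaussian 0 (gramD K Ω f) := by
    refine Measure.ext_of_charFun ?_
    funext t
    obtain ⟨h1, h2⟩ := E10d_trig M hK hΩ hb f hf (fun j => t j)
    have hc := (hL (fun x => Real.cos (∑ j, t j * x j)) (Real.continuous_cos.comp (hcont t))
      ⟨1, 0, fun x => by simpa using Real.abs_cos_le_one _⟩).2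
    have hs := (hL (fun x => Real.sin (∑ j, t j * x j)) (Real.continuous_sin.comp (hcont t))
      ⟨1, 0, fun x => by simpa using Real.abs_sin_le_one _⟩).2
    have hvec : ∀ i, ∑ j, t j * (vec (fun j => M.X (f j)) i) j = ∑ j, t j * M.X (f j) i := fun i => rfl
    simp only [hvec] at hc hs
    rw [h1] at hc
    rw [h2] at hs
    have hint : Integrable (fun x : EuclideanSpace ℝ (Fin m) =>
        Complex.exp (((∑ j, t j * x j : ℝ) : ℂ) * Complex.I)) ν := by
      refine Integrable.of_bound (C := 1) ?_ (Eventually.of_forall fun x => ?_)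
      · refine Continuous.aestronglyMeasurable ?_
        exact Complex.continuous_exp.comp
          ((Complex.continuous_ofReal.comp (hcont t)).mul continuous_const)
      · rw [Complex.norm_exp_ofReal_mul_I]
    rw [charFun_multivariateGaussian hpsd, charFun_apply]
    simp only [hinner]
    have hgauss : Complex.exp (((∑ j, t j * (0 : EuclideanSpace ℝ (Fin m)) j : ℝ) : ℂ) * Complex.I -
        ((t ⬝ᵥ (gramD K Ω f).mulVec t : ℝ) : ℂ) / 2) =
        ((Real.exp (-((∑ i, ∑ j, t i * t j * (K * Gr Ω (f i) (f j))) / 2)) : ℝ) : ℂ) := by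
      rw [Complex.ofReal_exp]
      congr 1
      have h3 : t ⬝ᵥ (gramD K Ω f).mulVec t =
          ∑ i, ∑ j, t i * t j * (K * Gr Ω (f i) (f j)) := by
        simp only [dotProduct, Matrix.mulVec, gramD, Matrix.of_apply]
        refine Finset.sum_congr rfl fun i _ => ?_
        rw [Finset.mul_sum]
        refine Finset.sum_congr rfl fun j _ => ?_
        ring
      rw [h3]
      simp
    apply Complex.ext
    · have h4 := integral_re hint
      simp only [RCLike.re_to_complex] at h4
      rw [← h4]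
      simp only [Complex.exp_ofReal_mul_I_re]
      rw [← hc]
      have h5 := congrArg Complex.re hgauss
      rw [Complex.ofReal_re] at h5
      rw [← h5]
      simp
    · have h4 := integral_im hint
      simp only [RCLike.im_to_complex] at h4
      rw [← h4]
      simp only [Complex.exp_ofReal_mul_I_im]
      rw [← hs]
      have h5 := congrArg Complex.im hgauss
      rw [Complex.ofReal_im] at h5
      rw [← h5]
      simp
  rw [← key]
  exact hL φ hφ hg

end GF
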