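import Pool.Agent.Helper41.DV.E7b

/-!
E11a.  Step (9) for multiples.
-/

open MeasureTheory Filter Topology
open scoped Pointwise

namespace GF

private lemma E11a_cc (t : ℝ) {u : Pl → ℝ} (hu : Cc u) : Cc (fun z => t * u z) :=
  ⟨contDiff_const.mul hu.smooth, hu.supp.mul_left⟩

private lemma E11a_tst {W : Set Pl} (t : ℝ) {u : Pl → ℝ} (hu : Tst W u) : Tst W (fun z => t * u z) :=
  ⟨E11a_cc t hu.toCc, (closure_mono (Function.support_mul_subset_right (fun _ => t) u)).trans hu.sub⟩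

private lemma E11a_dir0 : dir (fun _ : Pl => (0 : ℝ)) = 0 := by
  have h := dir_smul 0 (u := fun _ : Pl => (0 : ℝ)) ⟨contDiff_const, HasCompactSupport.zero⟩
  simpa using h

private lemma E11a_En (W : Set Pl) {f : Pl → ℝ} (t : ℝ) (ht : 0 ≤ t) :
    En W (fun z => t * f z) = t ^ 2 * En W f := by
  rcases ht.eq_or_lt with h0 | h0
  · subst h0
    have h1 : ∀ u, Tst W u → JJ (fun z => 0 * f z) u ≤ 0 := by
      intro u _
      unfold JJ
      simp only [zero_mul, integral_zero, mul_zero, zero_sub]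
      exact neg_nonpos.2 (dir_nonneg u)
    have h2 : JJ (fun z => 0 * f z) (fun _ => 0) = 0 := by
      unfold JJ
      simp only [zero_mul, integral_zero, mul_zero, E11a_dir0, sub_zero]
    have h3 : IsGreatest {a | ∃ u, Tst W u ∧ a = JJ (fun z => 0 * f z) u} 0 := by
      refine ⟨⟨fun _ => 0, tst_zero W, h2.symm⟩, ?_⟩
      rintro a ⟨u, hu, rfl⟩
      exact h1 u hu
    unfold En
    rw [h3.csSup_eq]
    ring
  · have h1 : {a | ∃ u, Tst W u ∧ a = JJ (fun z => t * f z) u} =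
        t ^ 2 • {a | ∃ u, Tst W u ∧ a = JJ f u} := by
      ext a
      rw [Set.mem_smul_set]
      constructor
      · rintro ⟨u, hu, rfl⟩
        refine ⟨JJ f (fun z => t⁻¹ * u z), ⟨_, E11a_tst t⁻¹ hu, rfl⟩, ?_⟩
        rw [smul_eq_mul, ← JJ_smul t f (E11a_cc t⁻¹ hu.toCc)]
        congr 1
        funext z
        rw [← mul_assoc, mul_inv_cancel₀ h0.ne', one_mul]
      · rintro ⟨b, ⟨u, hu, rfl⟩, rfl⟩
        refine ⟨fun z => t * u z, E11a_tst t hu, ?_⟩
        rw [smul_eq_mul, ← JJ_smul t f hu.toCc]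
    unfold En
    rw [h1, Real.sSup_smul_of_nonneg (by positivity)]
    rfl

/-- step (9) for all multiples of `f`: `Wall` for `s f`, `s ≥ 0`, with `s b`, `En_W(s f) = s² En_W(f)` (no boundedness of
`W` needed: `JJ_smul` and `sSup`), `cos` even -/
theorem Env.nine_all {I : Type} {W : Set Pl} {K : ℝ} (M : Env I W K) (hW : IsOpen W) (hK : 0 < K) {f : Pl → ℝ}
    (hf : Tst W f) (h0 : ∀ z, 0 ≤ f z) {b : ℝ} (hb : M.Wall f b) (s : ℝ) :
    |M.L (fun i => Real.cos (s * M.X f i)) - Real.exp (-(s ^ 2 * (K * En W f) / 2))| ≤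
      b * (∫ z, f z) / 2 * s ^ 2 := by
  have ht : 0 ≤ |s| := abs_nonneg s
  have hg : Tst W (fun z => |s| * f z) := E11a_tst _ hf
  obtain ⟨hb0, Q, hQ, hQW, hbd⟩ := hb
  have hwall : M.Wall (fun z => |s| * f z) (|s| * b) := by
    refine ⟨mul_nonneg ht hb0, Q, hQ, hQW, fun η hη hη0 => ?_⟩
    have e : (fun i => M.X (fun z => |s| * f z) i * M.X η i) = fun i => |s| * (M.X f i * M.X η i) := by
      funext i
      rw [M.X_smul _ f hf.toCc i]
      ring
    rw [e, M.L_smul _ _ (M.ok_mul _ _ (M.ok_X f hf.toCc) (M.ok_X η hη.toCc)), mul_assoc]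
    exact mul_le_mul_of_nonneg_left (hbd η hη hη0) ht
  have h := M.nine hW hK hg (fun z => mul_nonneg ht (h0 z)) hwall
  rw [E11a_En W _ ht, sq_abs, integral_const_mul] at h
  have e1 : (fun i => Real.cos (M.X (fun z => |s| * f z) i)) = fun i => Real.cos (s * M.X f i) := by
    funext i
    rw [M.X_smul _ f hf.toCc i]
    rcases abs_choice s with h1 | h1
    · rw [h1]
    · rw [h1, neg_mul, Real.cos_neg]
  rw [e1] at h
  have e2 : K * (s ^ 2 * En W f) / 2 = s ^ 2 * (K * En W f) / 2 := by ring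
  rw [e2] at h
  refine h.trans (le_of_eq ?_)
  have e3 : |s| * b * (|s| * ∫ z, f z) / 2 = |s| ^ 2 * (b * (∫ z, f z) / 2) := by ring
  rw [e3, sq_abs]
  ring

end GF
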