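import Pool.Agent.Helper41.DV.E2a

/-!
E2.  Properties of the energy in an open set.
-/

open MeasureTheory Filter Topology

namespace GF

theorem le_En {W : Set Pl} (hW : Bornology.IsBounded W) {f : Pl → ℝ} (hf : Cc f) {u : Pl → ℝ} (hu : Tst W u) :
    JJ f u ≤ En W f :=
  le_csSup (bdd_JJ hW hf) ⟨u, hu, rfl⟩

private lemma E2_ne (W : Set Pl) (f : Pl → ℝ) : Set.Nonempty {a | ∃ u, Tst W u ∧ a = JJ f u} :=
  ⟨_, _, tst_zero W, rfl⟩

private lemma E2_dir_zero : dir (fun _ : Pl => (0 : ℝ)) = 0 := by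
  have h : (fun z : Pl => dx (fun _ : Pl => (0 : ℝ)) z ^ 2 + dy (fun _ : Pl => (0 : ℝ)) z ^ 2) = fun _ => 0 := by
    funext z
    simp [dx, dy]
  unfold dir
  rw [h]
  simp

private lemma E2_JJ_zero (f : Pl → ℝ) : JJ f (fun _ => 0) = 0 := by
  unfold JJ
  rw [E2_dir_zero]
  simp

private lemma E2_smul {W : Set Pl} {u : Pl → ℝ} (c : ℝ) (hu : Tst W u) : Tst W (fun z => c * u z) :=
  ⟨⟨contDiff_const.mul hu.smooth, hu.supp.mul_left⟩,
    (closure_mono (Function.support_mul_subset_right (fun _ => c) u)).trans hu.sub⟩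

private lemma E2_add {W : Set Pl} {u v : Pl → ℝ} (hu : Tst W u) (hv : Tst W v) :
    Tst W (fun z => u z + v z) :=
  ⟨⟨hu.smooth.add hv.smooth, hu.supp.add hv.supp⟩,
    (tsupport_add u v).trans (Set.union_subset hu.sub hv.sub)⟩

private lemma E2_sub {W : Set Pl} {u v : Pl → ℝ} (hu : Tst W u) (hv : Tst W v) :
    Tst W (fun z => u z - v z) := by
  have h := E2_add hu (E2_smul (-1) hv)
  have e : (fun z => u z - v z) = fun z => u z + -1 * v z := by
    funext z
    ring
  rw [e]
  exact h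

private lemma E2_cc_smul {u : Pl → ℝ} (c : ℝ) (hu : Cc u) : Cc (fun z => c * u z) :=
  ⟨contDiff_const.mul hu.smooth, hu.supp.mul_left⟩

private lemma E2_cc_add {u v : Pl → ℝ} (hu : Cc u) (hv : Cc v) : Cc (fun z => u z + v z) :=
  ⟨hu.smooth.add hv.smooth, hu.supp.add hv.supp⟩

private lemma E2_cc_sub {u v : Pl → ℝ} (hu : Cc u) (hv : Cc v) : Cc (fun z => u z - v z) := by
  have h := E2_cc_add hu (E2_cc_smul (-1) hv)
  have e : (fun z => u z - v z) = fun z => u z + -1 * v z := by
    funext z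
    ring
  rw [e]
  exact h

theorem En_nonneg {W : Set Pl} (hW : Bornology.IsBounded W) {f : Pl → ℝ} (hf : Cc f) : 0 ≤ En W f := by
  have h := le_En hW hf (tst_zero W)
  rwa [E2_JJ_zero] at h

theorem En_mono {W W' : Set Pl} (hW : W ⊆ W') (hW' : Bornology.IsBounded W') {f : Pl → ℝ} (hf : Cc f) :
    En W f ≤ En W' f := by
  refine csSup_le (E2_ne W f) ?_
  rintro a ⟨u, hu, rfl⟩
  exact le_En hW' hf (hu.mono hW)

theorem En_le {W : Set Pl} {f : Pl → ℝ} {c : ℝ} (h : ∀ u, Tst W u → JJ f u ≤ c) : En W f ≤ c := by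
  refine csSup_le (E2_ne W f) ?_
  rintro a ⟨u, hu, rfl⟩
  exact h u hu

/-- `JJ_smul` -/
theorem En_smul {W : Set Pl} (hW : Bornology.IsBounded W) (c : ℝ) {f : Pl → ℝ} (hf : Cc f) :
    En W (fun z => c * f z) = c ^ 2 * En W f := by
  rcases eq_or_ne c 0 with rfl | hc
  · have h0 : En W (fun z => (0 : ℝ) * f z) ≤ 0 := by
      refine En_le fun u _ => ?_
      have h := dir_nonneg u
      unfold JJ
      simp only [zero_mul, integral_zero, mul_zero, zero_sub]
      linarith
    have h1 : 0 ≤ En W (fun z => (0 : ℝ) * f z) := En_nonneg hW (E2_cc_smul 0 hf)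
    rw [le_antisymm h0 h1]
    simp
  · have hc2 : 0 < c ^ 2 := by positivity
    refine le_antisymm ?_ ?_
    · refine En_le fun u hu => ?_
      have h1 : JJ (fun z => c * f z) u = c ^ 2 * JJ f (fun z => c⁻¹ * u z) := by
        rw [← JJ_smul c f (E2_smul c⁻¹ hu).toCc]
        congr 1
        funext z
        field_simp
      rw [h1]
      exact mul_le_mul_of_nonneg_left (le_En hW hf (E2_smul c⁻¹ hu)) hc2.le
    · have h2 : En W f ≤ En W (fun z => c * f z) / c ^ 2 := by
        refine En_le fun u hu => ?_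
        rw [le_div_iff₀ hc2, mul_comm, ← JJ_smul c f hu.toCc]
        exact le_En hW (E2_cc_smul c hf) (E2_smul c hu)
      rw [le_div_iff₀ hc2] at h2
      linarith

private lemma E2_par_le {W : Set Pl} (hW : Bornology.IsBounded W) {f g : Pl → ℝ} (hf : Cc f) (hg : Cc g) :
    En W (fun z => f z + g z) + En W (fun z => f z - g z) ≤ 2 * En W f + 2 * En W g := by
  have key : ∀ u v, Tst W u → Tst W v →
      JJ (fun z => f z + g z) u + JJ (fun z => f z - g z) v ≤ 2 * En W f + 2 * En W g := by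
    intro u v hu hv
    rw [JJ_par hf.smooth.continuous hg.smooth.continuous hu.toCc hv.toCc]
    have h1 := le_En hW hf (E2_smul (1 / 2) (E2_add hu hv))
    have h2 := le_En hW hg (E2_smul (1 / 2) (E2_sub hu hv))
    linarith
  have h1 : ∀ v, Tst W v →
      En W (fun z => f z + g z) ≤ 2 * En W f + 2 * En W g - JJ (fun z => f z - g z) v := by
    intro v hv
    refine En_le fun u hu => ?_
    have := key u v hu hv
    linarith
  have h2 : En W (fun z => f z - g z) ≤ 2 * En W f + 2 * En W g - En W (fun z => f z + g z) := by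
    refine En_le fun v hv => ?_
    have := h1 v hv
    linarith
  linarith

/-- parallelogram law, from `JJ_par` (near maximisers; `≤` and then the same for `(f+g)/2`, `(f-g)/2`) -/
theorem En_par {W : Set Pl} (hW : Bornology.IsBounded W) {f g : Pl → ℝ} (hf : Cc f) (hg : Cc g) :
    En W (fun z => f z + g z) + En W (fun z => f z - g z) = 2 * En W f + 2 * En W g := by
  have h1 := E2_par_le hW hf hg
  have h2 := E2_par_le hW (E2_cc_add hf hg) (E2_cc_sub hf hg)
  have e1 : (fun z => f z + g z + (f z - g z)) = fun z => 2 * f z := by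
    funext z
    ring
  have e2 : (fun z => f z + g z - (f z - g z)) = fun z => 2 * g z := by
    funext z
    ring
  rw [e1, e2, En_smul hW 2 hf, En_smul hW 2 hg] at h2
  linarith

/-- inner approximation: a near maximiser has compact support -/
theorem En_inner {W : Set Pl} {f : Pl → ℝ} {ε : ℝ} (hε : 0 < ε) :
    ∃ Q : Set Pl, IsCompact Q ∧ Q ⊆ W ∧ ∀ W' : Set Pl, Bornology.IsBounded W' → Q ⊆ W' → Cc f →
      En W f - ε ≤ En W' f := by
  have hlt : En W f - ε < sSup {a | ∃ u, Tst W u ∧ a = JJ f u} := by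
    have : En W f = sSup {a | ∃ u, Tst W u ∧ a = JJ f u} := rfl
    linarith
  obtain ⟨a, ⟨u, hu, rfl⟩, ha⟩ := exists_lt_of_lt_csSup (E2_ne W f) hlt
  refine ⟨tsupport u, hu.supp, hu.sub, fun W' hW' hQ hf => ?_⟩
  exact ha.le.trans (le_En hW' hf ⟨hu.toCc, hQ⟩)

end GF
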