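import Pool.Agent.Helper41.DV.E8

/-!
E8b.  Characters close to Gaussian ones give moments close to Gaussian ones.
-/

open MeasureTheory Filter Topology ProbabilityTheory

namespace GF

private lemma E8b_intcos (v : NNReal) (t : ℝ) : Integrable (fun x : ℝ => Real.cos (t * x)) (gaussianReal 0 v) := by
  refine (integrable_const (1 : ℝ)).mono' (by fun_prop) (Eventually.of_forall fun x => ?_)
  rw [Real.norm_eq_abs]
  exact Real.abs_cos_le_one _

private lemma E8b_cos (v : NNReal) (t : ℝ) :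
    ∫ x, Real.cos (t * x) ∂(gaussianReal 0 v) = Real.exp (-(t ^ 2 * (v : ℝ) / 2)) := by
  have h := charFun_gaussianReal (μ := 0) (v := v) t
  rw [charFun_apply_real] at h
  have h1 := congrArg Complex.re h
  have h2 : Integrable (fun x : ℝ => Complex.exp ((t : ℂ) * x * Complex.I)) (gaussianReal 0 v) := by
    refine (integrable_const (1 : ℝ)).mono' (by fun_prop) (Eventually.of_forall fun x => ?_)
    rw [← Complex.ofReal_mul, Complex.norm_exp_ofReal_mul_I]
  have h3 : (∫ x, Complex.exp ((t : ℂ) * x * Complex.I) ∂(gaussianReal 0 v)).re =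
      ∫ x, Real.cos (t * x) ∂(gaussianReal 0 v) := by
    rw [← RCLike.re_eq_complex_re, ← integral_re h2]
    refine integral_congr_ae (Eventually.of_forall fun x => ?_)
    show (Complex.exp ((t : ℂ) * x * Complex.I)).re = Real.cos (t * x)
    rw [← Complex.ofReal_mul, Complex.exp_ofReal_mul_I_re]
  rw [h3] at h1
  rw [h1]
  have h4 : ((t : ℂ) * ((0 : ℝ) : ℂ) * Complex.I - ((v : ℝ) : ℂ) * (t : ℂ) ^ 2 / 2) =
      ((-(t ^ 2 * (v : ℝ) / 2) : ℝ) : ℂ) := by
    push_cast
    ring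
  rw [h4, Complex.exp_ofReal_re]

/--
Quantitative: characters close to Gaussian characters give moments close to the Gaussian moments.
Proof: `P(x) = ((2 - 2 cos(s x))/s²)^n`.  `|P(x) - x^(2n)| ≤ n s² x^(2n+2)` (`cos_pow` for `s x`), so
`|L Y^(2n) - L P(Y)| ≤ n s² C` and `|∫ x^(2n) dG_v - ∫ P dG_v| ≤ n s² gm (n+1) V^(n+1)`;
`|L P(Y) - ∫ P dG_v| ≤ s^(-2n) ∑ |c k| β (k s)²` (`cos_comb`, `∫ cos(t x) dG_v = exp(-t² v/2)` from `charFun_gaussianReal`).
Choose `s` first, then `β`.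
-/
theorem mom_of_char (n : ℕ) (C V : ℝ) {ε : ℝ} (hε : 0 < ε) : ∃ β > 0, ∀ {I : Type} (M : Lim I) (Y : I → ℝ),
    M.Ok Y → M.L (fun i => Y i ^ (2 * n + 2)) ≤ C → ∀ v, 0 ≤ v → v ≤ V →
    (∀ s : ℝ, |M.L (fun i => Real.cos (s * Y i)) - Real.exp (-(s ^ 2 * v / 2))| ≤ β * s ^ 2) →
    |M.L (fun i => Y i ^ (2 * n)) - gm n * v ^ n| ≤ ε := by
  obtain ⟨c, hc⟩ := cos_comb n
  have hgm := (gm_facts (n + 1)).1
  set A : ℝ := n * (|C| + gm (n + 1) * |V| ^ (n + 1)) with hA
  have hA0 : 0 ≤ A := by positivity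
  set s : ℝ := Real.sqrt (ε / (2 * (A + 1))) with hs
  have hs0 : 0 < s := Real.sqrt_pos.2 (by positivity)
  have hs2 : s ^ 2 = ε / (2 * (A + 1)) := Real.sq_sqrt (by positivity)
  have hsA : s ^ 2 * A ≤ ε / 2 := by
    rw [hs2, div_mul_eq_mul_div, div_le_iff₀ (by positivity)]
    nlinarith
  set B : ℝ := ∑ k ∈ Finset.range (n + 1), |c k| * (k * s) ^ 2 with hB
  have hB0 : 0 ≤ B := Finset.sum_nonneg fun k _ => by positivity
  have hsn : 0 < s ^ (2 * n) := by positivity
  refine ⟨ε * s ^ (2 * n) / (2 * (B + 1)), by positivity, ?_⟩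
  intro I M Y hY hC v hv hvV hchar
  set β : ℝ := ε * s ^ (2 * n) / (2 * (B + 1)) with hβ
  have hβB : β * B ≤ s ^ (2 * n) * (ε / 2) := by
    rw [hβ, div_mul_eq_mul_div, div_le_iff₀ (by positivity)]
    nlinarith [mul_pos hε hsn]
  have okp : ∀ m : ℕ, M.Ok (fun i => Y i ^ m) := fun m => M.ok_pow Y hY m
  have okc : ∀ k : ℕ, M.Ok (fun i => Real.cos (k * (s * Y i))) := fun k =>
    M.ok_bdd _ 1 fun i => Real.abs_cos_le_one _
  have okP : M.Ok (fun i => (2 - 2 * Real.cos (s * Y i)) ^ n) := by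
    have h1 : (fun i => (2 - 2 * Real.cos (s * Y i)) ^ n) =
        fun i => ∑ k ∈ Finset.range (n + 1), c k * Real.cos (k * (s * Y i)) := by
      funext i
      exact hc _
    rw [h1]
    exact M.ok_sum _ _ fun k _ => M.ok_smul _ _ (okc k)
  -- the functional side
  have h1 : |s ^ (2 * n) * M.L (fun i => Y i ^ (2 * n)) - M.L (fun i => (2 - 2 * Real.cos (s * Y i)) ^ n)| ≤
      n * s ^ (2 * n + 2) * |C| := by
    rw [← M.L_smul _ _ (okp _), ← M.L_sub _ _ (M.ok_smul _ _ (okp _)) okP]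
    refine (M.abs_L_le_of_le _ (fun i => n * s ^ (2 * n + 2) * Y i ^ (2 * n + 2)) (M.ok_smul _ _ (okp _))
      fun i => ?_).trans ?_
    · have h2 := cos_pow n (s * Y i)
      rw [abs_sub_comm] at h2
      rw [mul_pow, mul_pow] at h2
      refine h2.trans (le_of_eq ?_)
      ring
    · rw [M.L_smul _ _ (okp _)]
      exact mul_le_mul_of_nonneg_left (hC.trans (le_abs_self C)) (by positivity)
  -- the Gaussian side
  obtain ⟨w, hw⟩ : ∃ w : NNReal, (w : ℝ) = v := ⟨⟨v, hv⟩, rfl⟩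
  have hint : ∀ m : ℕ, Integrable (fun x : ℝ => x ^ m) (gaussianReal 0 w) := fun m => ((gm_facts m).2 w).1
  have hintc : ∀ k : ℕ, Integrable (fun x : ℝ => Real.cos (k * (s * x))) (gaussianReal 0 w) := by
    intro k
    have h2 := E8b_intcos w (k * s)
    simpa only [mul_assoc] using h2
  have hPeq : (fun x : ℝ => (2 - 2 * Real.cos (s * x)) ^ n) =
      fun x => ∑ k ∈ Finset.range (n + 1), c k * Real.cos (k * (s * x)) := by
    funext x
    exact hc _
  have hintP : Integrable (fun x : ℝ => (2 - 2 * Real.cos (s * x)) ^ n) (gaussianReal 0 w) := by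
    rw [hPeq]
    exact integrable_finsetSum _ fun k _ => (hintc k).const_mul _
  have h2 : |s ^ (2 * n) * (gm n * v ^ n) - ∫ x, (2 - 2 * Real.cos (s * x)) ^ n ∂(gaussianReal 0 w)| ≤
      n * s ^ (2 * n + 2) * (gm (n + 1) * |V| ^ (n + 1)) := by
    have e1 : gm n * v ^ n = ∫ x, x ^ (2 * n) ∂(gaussianReal 0 w) := by
      rw [((gm_facts n).2 w).2, hw]
    have e2 : gm (n + 1) * v ^ (n + 1) = ∫ x, x ^ (2 * n + 2) ∂(gaussianReal 0 w) := by
      rw [← hw, ← ((gm_facts (n + 1)).2 w).2]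
      rfl
    rw [e1, ← integral_const_mul, ← integral_sub ((hint _).const_mul _) hintP]
    refine (abs_integral_le_integral_abs).trans ?_
    have e3 : ∫ x, |s ^ (2 * n) * x ^ (2 * n) - (2 - 2 * Real.cos (s * x)) ^ n| ∂(gaussianReal 0 w) ≤
        ∫ x, n * s ^ (2 * n + 2) * x ^ (2 * n + 2) ∂(gaussianReal 0 w) := by
      refine integral_mono ((((hint _).const_mul _).sub hintP).abs) ((hint _).const_mul _) fun x => ?_
      have h2 := cos_pow n (s * x)
      rw [abs_sub_comm, mul_pow, mul_pow] at h2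
      refine h2.trans (le_of_eq ?_)
      ring
    refine e3.trans ?_
    rw [integral_const_mul, ← e2]
    have e4 : v ^ (n + 1) ≤ |V| ^ (n + 1) := pow_le_pow_left₀ hv (hvV.trans (le_abs_self V)) _
    exact mul_le_mul_of_nonneg_left (mul_le_mul_of_nonneg_left e4 hgm) (by positivity)
  -- the characters
  have h3 : |M.L (fun i => (2 - 2 * Real.cos (s * Y i)) ^ n) -
      ∫ x, (2 - 2 * Real.cos (s * x)) ^ n ∂(gaussianReal 0 w)| ≤ β * B := by
    have e1 : M.L (fun i => (2 - 2 * Real.cos (s * Y i)) ^ n) =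
        ∑ k ∈ Finset.range (n + 1), c k * M.L (fun i => Real.cos (k * (s * Y i))) := by
      have e2 : (fun i => (2 - 2 * Real.cos (s * Y i)) ^ n) =
          fun i => ∑ k ∈ Finset.range (n + 1), c k * Real.cos (k * (s * Y i)) := by
        funext i
        exact hc _
      rw [e2, M.L_sum _ _ fun k _ => M.ok_smul _ _ (okc k)]
      exact Finset.sum_congr rfl fun k _ => M.L_smul _ _ (okc k)
    have e3 : ∫ x, (2 - 2 * Real.cos (s * x)) ^ n ∂(gaussianReal 0 w) =
        ∑ k ∈ Finset.range (n + 1), c k * Real.exp (-((k * s) ^ 2 * v / 2)) := by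
      rw [hPeq, integral_finsetSum _ fun k _ => (hintc k).const_mul _]
      refine Finset.sum_congr rfl fun k _ => ?_
      rw [integral_const_mul]
      congr 1
      have e4 := E8b_cos w (k * s)
      rw [hw] at e4
      rw [← e4]
      refine integral_congr_ae (Eventually.of_forall fun x => ?_)
      simp only [mul_assoc]
    rw [e1, e3, ← Finset.sum_sub_distrib]
    refine (Finset.abs_sum_le_sum_abs _ _).trans ?_
    rw [hB, Finset.mul_sum]
    refine Finset.sum_le_sum fun k _ => ?_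
    rw [← mul_sub, abs_mul]
    have e5 := hchar (k * s)
    have e6 : (fun i => Real.cos (k * (s * Y i))) = fun i => Real.cos (k * s * Y i) := by
      funext i
      rw [mul_assoc]
    rw [e6]
    calc |c k| * |M.L (fun i => Real.cos (k * s * Y i)) - Real.exp (-((k * s) ^ 2 * v / 2))|
        ≤ |c k| * (β * (k * s) ^ 2) := mul_le_mul_of_nonneg_left e5 (abs_nonneg _)
      _ = β * (|c k| * (k * s) ^ 2) := by ring
  -- conclusion
  have h4 : |s ^ (2 * n) * (M.L (fun i => Y i ^ (2 * n)) - gm n * v ^ n)| ≤ s ^ (2 * n) * ε := by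
    have e1 : s ^ (2 * n) * (M.L (fun i => Y i ^ (2 * n)) - gm n * v ^ n) =
        (s ^ (2 * n) * M.L (fun i => Y i ^ (2 * n)) - M.L (fun i => (2 - 2 * Real.cos (s * Y i)) ^ n)) +
        (M.L (fun i => (2 - 2 * Real.cos (s * Y i)) ^ n) -
          ∫ x, (2 - 2 * Real.cos (s * x)) ^ n ∂(gaussianReal 0 w)) -
        (s ^ (2 * n) * (gm n * v ^ n) - ∫ x, (2 - 2 * Real.cos (s * x)) ^ n ∂(gaussianReal 0 w)) := by ring
    rw [e1]
    refine (abs_sub _ _).trans ((add_le_add ((abs_add_le _ _).trans (add_le_add h1 h3)) h2).trans ?_)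
    have e2 : n * s ^ (2 * n + 2) * |C| + n * s ^ (2 * n + 2) * (gm (n + 1) * |V| ^ (n + 1)) =
        s ^ (2 * n) * (s ^ 2 * A) := by
      rw [hA]
      ring
    have e3 : s ^ (2 * n) * (s ^ 2 * A) ≤ s ^ (2 * n) * (ε / 2) := mul_le_mul_of_nonneg_left hsA hsn.le
    linarith
  rw [abs_mul, abs_of_pos hsn] at h4
  exact le_of_mul_le_mul_left h4 hsn

end GF
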