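import Pool.Agent.Helper41.DV.E11
import Pool.Agent.Helper41.DV.E11a
import Pool.Agent.Helper41.DV.E8b
import Pool.Agent.Helper41.DV.E2

/-!
E11b.  Convergence of the even moments for nonnegative test functions.
-/

open MeasureTheory Filter Topology ProbabilityTheory

namespace GF

open RP4 (V avg Om BdryPar)

private lemma E11b_En_nonneg (W : Set Pl) (f : Pl → ℝ) : 0 ≤ En W f := by
  refine Real.sSup_nonneg' ⟨0, ⟨fun _ => 0, tst_zero W, ?_⟩, le_rfl⟩
  have h1 : ∀ z, dx (fun _ : Pl => (0 : ℝ)) z = 0 := by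
    intro z
    simp [dx]
  have h2 : ∀ z, dy (fun _ : Pl => (0 : ℝ)) z = 0 := by
    intro z
    simp [dy]
  simp [JJ, dir, h1, h2]

/-- `mom_of_char` (with `Env.nine_all`, `V = max (K (En Ω f + 1)) (C 1)`, `K En_W f ≤ L X_f² ≤ C 1`), for every
ultrafilter (`tendsto_iff_ultrafilter`) -/
theorem mom_of_sand {K : ℝ} (hK : 0 < K) {Ω : Set Pl} (hb : Bornology.IsBounded Ω) {D : ℝ → Finset V}
    {f : Pl → ℝ} (hf : Tst Ω f) (h0 : ∀ z, 0 ≤ f z) (h : Sand K Ω D f) (n : ℕ) :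
    Tendsto (md D f n) (𝓝[>] (0 : ℝ)) (𝓝 (gm n * (K * En Ω f) ^ n)) := by
  obtain ⟨C, hC⟩ := h
  rw [tendsto_iff_ultrafilter]
  intro U hU
  have hE0 : 0 ≤ En Ω f := E11b_En_nonneg Ω f
  have hgm : 0 ≤ gm n := (gm_facts n).1
  -- the auxiliary function
  have hgc : Continuous (fun x : ℝ => gm n * (K * max x 0) ^ n) := by fun_prop
  have hgE : gm n * (K * max (En Ω f) 0) ^ n = gm n * (K * En Ω f) ^ n := by
    rw [max_eq_left hE0]
  have hgm_mono : ∀ x y : ℝ, x ≤ y → gm n * (K * max x 0) ^ n ≤ gm n * (K * max y 0) ^ n := by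
    intro x y hxy
    have h1 : max x 0 ≤ max y 0 := max_le_max hxy le_rfl
    have h2 : 0 ≤ K * max x 0 := mul_nonneg hK.le (le_max_right _ _)
    have h3 : K * max x 0 ≤ K * max y 0 := mul_le_mul_of_nonneg_left h1 hK.le
    exact mul_le_mul_of_nonneg_left (pow_le_pow_left₀ h2 h3 n) hgm
  have hI : 0 ≤ ∫ z, f z := integral_nonneg h0
  rw [Metric.tendsto_nhds]
  intro e he
  -- parameters
  obtain ⟨δ, hδ, hδg⟩ := Metric.continuous_iff.1 hgc (En Ω f) (e / 4) (by linarith)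
  obtain ⟨β, hβ, hm⟩ := mom_of_char n (C (n + 1)) (max (K * (En Ω f + 1)) (C 1)) (ε := e / 4)
    (by linarith)
  set I0 : ℝ := ∫ z, f z with hI0
  set ε : ℝ := min (min 1 (δ / 2)) (β / (I0 + 1)) with hεdef
  have hε : 0 < ε := lt_min (lt_min one_pos (by linarith)) (div_pos hβ (by linarith))
  have hε1 : ε ≤ 1 := (min_le_left _ _).trans (min_le_left _ _)
  have hεδ : ε ≤ δ / 2 := (min_le_left _ _).trans (min_le_right _ _)
  have hεβ : ε * (I0 + 1) ≤ β := by
    have h1 : ε ≤ β / (I0 + 1) := min_le_right _ _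
    rwa [le_div_iff₀ (by linarith)] at h1
  -- what an environment gives
  have key : ∀ (I : Type) (W : Set Pl) (M : Env I W K) (b : ℝ), IsOpen W → Tst W f → M.Wall f b →
      b ≤ ε → (∀ n, M.L (fun i => M.X f i ^ (2 * n)) ≤ C n) →
      |M.L (fun i => M.X f i ^ (2 * n)) - gm n * (K * En W f) ^ n| ≤ e / 4 := by
    intro I W M b hW hfW hb hbε hCM
    have hE : 0 ≤ En W f := E11b_En_nonneg W f
    have hup : K * En W f ≤ C 1 := by
      have h1 := (M.lower hK hfW).2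
      have h2 := hCM 1
      simp only [mul_one] at h2
      exact h1.trans h2
    refine hm M.toLim (M.X f) (M.ok_X f hfW.toCc) ?_ (K * En W f) (mul_nonneg hK.le hE)
      (hup.trans (le_max_right _ _)) ?_
    · have h1 := hCM (n + 1)
      have h2 : 2 * (n + 1) = 2 * n + 2 := by ring
      rwa [h2] at h1
    · intro s
      refine (M.nine_all hW hK hfW h0 hb s).trans ?_
      refine mul_le_mul_of_nonneg_right ?_ (sq_nonneg s)
      have hb0 : 0 ≤ b := hb.1
      have h1 : b * I0 ≤ ε * (I0 + 1) := mul_le_mul hbε (by linarith) hI hε.le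
      have h2 : 0 ≤ b * I0 := mul_nonneg hb0 hI
      linarith
  obtain ⟨⟨I1, W1, M1, b1, hW1, hf1, hwall1, hb1, hE1, hC1, hu⟩,
    ⟨I2, W2, M2, b2, hW2, hf2, hwall2, hb2, hE2, hC2, hl⟩⟩ := hC ε hε U hU
  have hk1 := abs_le.1 (key I1 W1 M1 b1 hW1 hf1 hwall1 hb1 hC1)
  have hk2 := abs_le.1 (key I2 W2 M2 b2 hW2 hf2 hwall2 hb2 hC2)
  have hp1 : En W1 f = max (En W1 f) 0 := (max_eq_left (E11b_En_nonneg W1 f)).symm
  have hp2 : En W2 f = max (En W2 f) 0 := (max_eq_left (E11b_En_nonneg W2 f)).symm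
  have hm1 := hgm_mono _ _ hE1
  have hm2 := hgm_mono _ _ hE2
  have hd1 := hδg (En Ω f + ε) (by
    rw [Real.dist_eq, add_sub_cancel_left, abs_of_pos hε]; linarith)
  have hd2 := hδg (En Ω f - ε) (by
    rw [Real.dist_eq, sub_sub_cancel_left, abs_neg, abs_of_pos hε]; linarith)
  rw [Real.dist_eq] at hd1 hd2
  simp only [hgE] at hd1 hd2
  have hd1' := abs_lt.1 hd1
  have hd2' := abs_lt.1 hd2
  rw [← hp1] at hm1
  rw [← hp2] at hm2
  filter_upwards [hu n (e / 4) (by linarith), hl n (e / 4) (by linarith)] with d h1 h2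
  rw [Real.dist_eq, abs_lt]
  constructor <;> linarith

end GF
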