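import Pool.Agent.Helper27.GF.Ax

/-!
E9.  Ultrafilter limits of averages over finite sets.
-/

open MeasureTheory Filter Topology

namespace GF

variable {P α : Type}

/-- average over `S p` -/
noncomputable def evS (S : P → Finset α) (p : P) (A : P × α → ℝ) : ℝ := (∑ g ∈ S p, A (p, g)) / (S p).card

/-- observables: all moments are eventually bounded -/
def OkS (S : P → Finset α) (U : Filter P) (A : P × α → ℝ) : Prop :=
  ∀ k : ℕ, ∃ C : ℝ, ∀ᶠ p in U, evS S p (fun i => |A i| ^ k) ≤ C

/-- the limit functional -/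
noncomputable def LS (S : P → Finset α) (U : Filter P) (A : P × α → ℝ) : ℝ := limUnder U (fun p => evS S p A)

variable {S : P → Finset α}

lemma evS_add (p : P) (A B : P × α → ℝ) : evS S p (fun i => A i + B i) = evS S p A + evS S p B := by
  unfold evS
  rw [Finset.sum_add_distrib, add_div]

lemma evS_smul (p : P) (c : ℝ) (A : P × α → ℝ) : evS S p (fun i => c * A i) = c * evS S p A := by
  unfold evS
  rw [← Finset.mul_sum, mul_div_assoc]

lemma evS_mono (p : P) {A B : P × α → ℝ} (h : ∀ g ∈ S p, A (p, g) ≤ B (p, g)) : evS S p A ≤ evS S p B := by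
  unfold evS
  exact div_le_div_of_nonneg_right (Finset.sum_le_sum h) (Nat.cast_nonneg _)

lemma evS_const {p : P} (hp : (S p).Nonempty) (c : ℝ) : evS S p (fun _ => c) = c := by
  unfold evS
  rw [Finset.sum_const, nsmul_eq_mul]
  have h : ((S p).card : ℝ) ≠ 0 := by
    exact_mod_cast (Finset.card_pos.2 hp).ne'
  field_simp

lemma OkS.const {U : Filter P} (hU : ∀ᶠ p in U, (S p).Nonempty) (c : ℝ) : OkS S U (fun _ => c) := by
  intro k
  refine ⟨|c| ^ k, hU.mono fun p hp => ?_⟩
  exact (evS_const hp (|c| ^ k)).le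

lemma OkS.add {U : Filter P} {A B : P × α → ℝ} (hA : OkS S U A) (hB : OkS S U B) :
    OkS S U (fun i => A i + B i) := by
  intro k
  obtain ⟨a, ha⟩ := hA k
  obtain ⟨b, hb⟩ := hB k
  refine ⟨2 ^ (k - 1) * (a + b), ?_⟩
  filter_upwards [ha, hb] with p h1 h2
  calc evS S p (fun i => |A i + B i| ^ k)
      ≤ evS S p (fun i => 2 ^ (k - 1) * (|A i| ^ k + |B i| ^ k)) := by
        refine evS_mono p fun g _ => ?_
        exact (pow_le_pow_left₀ (abs_nonneg _) (abs_add_le _ _) k).trans
          (add_pow_le (abs_nonneg _) (abs_nonneg _) k)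
    _ = 2 ^ (k - 1) * (evS S p (fun i => |A i| ^ k) + evS S p (fun i => |B i| ^ k)) := by
        rw [evS_smul p (2 ^ (k - 1)) (fun i => |A i| ^ k + |B i| ^ k),
          evS_add p (fun i => |A i| ^ k) (fun i => |B i| ^ k)]
    _ ≤ 2 ^ (k - 1) * (a + b) := by gcongr

lemma OkS.mul {U : Filter P} {A B : P × α → ℝ} (hA : OkS S U A) (hB : OkS S U B) :
    OkS S U (fun i => A i * B i) := by
  intro k
  obtain ⟨a, ha⟩ := hA (2 * k)
  obtain ⟨b, hb⟩ := hB (2 * k)
  refine ⟨a + b, ?_⟩
  filter_upwards [ha, hb] with p h1 h2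
  calc evS S p (fun i => |A i * B i| ^ k)
      ≤ evS S p (fun i => |A i| ^ (2 * k) + |B i| ^ (2 * k)) := by
        refine evS_mono p fun g _ => ?_
        rw [abs_mul, mul_pow, pow_mul' |A (p, g)| 2 k, pow_mul' |B (p, g)| 2 k]
        nlinarith [sq_nonneg (|A (p, g)| ^ k - |B (p, g)| ^ k), sq_nonneg (|A (p, g)| ^ k),
          sq_nonneg (|B (p, g)| ^ k)]
    _ = evS S p (fun i => |A i| ^ (2 * k)) + evS S p (fun i => |B i| ^ (2 * k)) :=
        evS_add p (fun i => |A i| ^ (2 * k)) (fun i => |B i| ^ (2 * k))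
    _ ≤ a + b := by gcongr

lemma OkS.of_abs_le {U : Filter P} {A B : P × α → ℝ} (h : ∀ i, |A i| ≤ |B i|) (hB : OkS S U B) :
    OkS S U A := by
  intro k
  obtain ⟨b, hb⟩ := hB k
  refine ⟨b, hb.mono fun p h1 => ?_⟩
  refine le_trans (evS_mono p fun g _ => ?_) h1
  exact pow_le_pow_left₀ (abs_nonneg _) (h _) k

/-- along an ultrafilter the bounded function `p ↦ evS S p A` converges -/
lemma LS_tendsto {U : Ultrafilter P} {A : P × α → ℝ} (hA : OkS S U A) :
    Tendsto (fun p => evS S p A) U (𝓝 (LS S U A)) := by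
  obtain ⟨C, hC⟩ := hA 1
  have h1 : ∀ᶠ p in (U : Filter P), evS S p A ∈ Set.Icc (-C) C := by
    filter_upwards [hC] with p hp
    have h2 : evS S p A ≤ evS S p (fun i => |A i| ^ 1) := evS_mono p fun g _ => by
      rw [pow_one]; exact le_abs_self _
    have h3 : evS S p (fun i => -1 * A i) ≤ evS S p (fun i => |A i| ^ 1) := evS_mono p fun g _ => by
      rw [pow_one, neg_one_mul]; exact neg_le_abs _
    rw [evS_smul] at h3
    constructor <;> linarith
  have h4 : Set.Icc (-C) C ∈ Ultrafilter.map (fun p => evS S p A) U := h1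
  obtain ⟨x, -, hx⟩ := isCompact_Icc.ultrafilter_le_nhds' _ h4
  exact tendsto_nhds_limUnder ⟨x, hx⟩

lemma LS_eq {U : Ultrafilter P} {A : P × α → ℝ} {c : ℝ}
    (h : Tendsto (fun p => evS S p A) U (𝓝 c)) : LS S U A = c := h.limUnder_eq

/-- the positive normalised functional of an ultrafilter -/
noncomputable def limS (S : P → Finset α) (U : Ultrafilter P) (hU : ∀ᶠ p in (U : Filter P), (S p).Nonempty) :
    Lim (P × α) where
  Ok := OkS S U
  L := LS S U
  ok_const := fun c => OkS.const hU c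
  ok_add := fun _ _ hA hB => hA.add hB
  ok_mul := fun _ _ hA hB => hA.mul hB
  ok_of_abs_le := fun _ _ h hB => OkS.of_abs_le h hB
  L_add := fun _ _ hA hB => LS_eq (((LS_tendsto hA).add (LS_tendsto hB)).congr fun p => by rw [evS_add])
  L_smul := fun c _ hA => LS_eq (((LS_tendsto hA).const_mul c).congr fun p => by rw [evS_smul])
  L_mono := fun _ _ hA hB h =>
    le_of_tendsto_of_tendsto' (LS_tendsto hA) (LS_tendsto hB) fun p => evS_mono p fun g _ => h _
  L_one := LS_eq (tendsto_const_nhds.congr' (by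
    filter_upwards [hU] with p hp
    rw [evS_const hp]))

lemma limS_tendsto (U : Ultrafilter P) (hU : ∀ᶠ p in (U : Filter P), (S p).Nonempty) {A : P × α → ℝ}
    (hA : (limS S U hU).Ok A) : Tendsto (fun p => evS S p A) U (𝓝 ((limS S U hU).L A)) := LS_tendsto hA

end GF
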