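import Pool.Agent.Helper41.DV.E11
import Pool.Agent.Helper41.DV.E9
import Pool.Agent.Helper41.DV.E10d
import Pool.Agent.Helper63.RP4.A02
import Pool.Agent.Helper63.RP4.A03s

/-!
E11c.  Convergence of the joint laws from the convergence of the moments.
-/

open MeasureTheory Filter Topology ProbabilityTheory

namespace GF

open RP4 (V avg Om BdryPar)

private lemma E11c_add (δ : ℝ) (f g : Pl → ℝ) (D : Finset V) (h : V → ℤ) :
    prD δ (fun z => f z + g z) D h = prD δ f D h + prD δ g D h := by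
  unfold prD
  rw [← mul_add, ← Finset.sum_add_distrib]
  congr 1
  refine Finset.sum_congr rfl fun x _ => ?_
  ring

private lemma E11c_smul (δ c : ℝ) (f : Pl → ℝ) (D : Finset V) (h : V → ℤ) :
    prD δ (fun z => c * f z) D h = c * prD δ f D h := by
  unfold prD
  have h1 : (∑ x ∈ D, c * f (δ * x.1, δ * x.2) * (h x : ℝ)) =
      c * ∑ x ∈ D, f (δ * x.1, δ * x.2) * (h x : ℝ) := by
    rw [Finset.mul_sum]
    refine Finset.sum_congr rfl fun x _ => ?_
    ring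
  rw [h1]
  ring

private lemma E11c_neg (δ : ℝ) (f : Pl → ℝ) (D : Finset V) (h : V → ℤ) :
    prD δ f D (-h) = -prD δ f D h := by
  unfold prD
  rw [← mul_neg, ← Finset.sum_neg_distrib]
  congr 1
  refine Finset.sum_congr rfl fun x _ => ?_
  rw [Pi.neg_apply]
  push_cast
  ring

/-- the field of the limit state -/
private noncomputable def E11c_X (D : ℝ → Finset V) (f : Pl → ℝ) (i : ℝ × (V → ℤ)) : ℝ :=
  prD i.1 f (D i.1) i.2

private lemma E11c_ok {K : ℝ} {Ω : Set Pl} {D : ℝ → Finset V} {U : Filter ℝ} (hU : U ≤ 𝓝[>] 0)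
    (hne : ∀ᶠ δ in U, (Om (D δ)).Nonempty)
    (hmom : ∀ f, Tst Ω f → (∀ z, 0 ≤ f z) → ∀ n,
      Tendsto (md D f n) (𝓝[>] (0 : ℝ)) (𝓝 (gm n * (K * En Ω f) ^ n)))
    {f : Pl → ℝ} (hf : Tst Ω f) (h0 : ∀ z, 0 ≤ f z) :
    OkS (fun δ => Om (D δ)) U (E11c_X D f) := by
  intro k
  refine ⟨1 + (gm k * (K * En Ω f) ^ k + 1), ?_⟩
  have h1 := (hmom f hf h0 k).mono_left hU
  have h2 := h1.eventually_lt_const (lt_add_one (gm k * (K * En Ω f) ^ k))
  filter_upwards [h2, hne] with p hp hp2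
  have h3 : evS (fun δ => Om (D δ)) p (fun i => |E11c_X D f i| ^ k) ≤
      evS (fun δ => Om (D δ)) p (fun i => (fun _ => (1 : ℝ)) i + (fun i => E11c_X D f i ^ (2 * k)) i) := by
    refine evS_mono p fun g _ => ?_
    show |E11c_X D f (p, g)| ^ k ≤ 1 + E11c_X D f (p, g) ^ (2 * k)
    have h4 : E11c_X D f (p, g) ^ (2 * k) = (|E11c_X D f (p, g)| ^ k) ^ 2 := by
      rw [← pow_mul, mul_comm k 2, pow_mul, pow_mul, sq_abs]
    rw [h4]
    nlinarith [sq_nonneg (|E11c_X D f (p, g)| ^ k - 1 / 2)]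
  refine h3.trans ?_
  rw [evS_add]
  have h6 : evS (fun δ => Om (D δ)) p (fun _ => (1 : ℝ)) = 1 := evS_const (S := fun δ => Om (D δ)) hp2 1
  have h5 : evS (fun δ => Om (D δ)) p (fun i => E11c_X D f i ^ (2 * k)) = md D f k p := rfl
  rw [h5, h6]
  linarith

/-- the limit state of an ultrafilter -/
private noncomputable def E11c_st {K : ℝ} {Ω : Set Pl} (hΩ : IsOpen Ω)
    {D : ℝ → Finset V} (U : Ultrafilter ℝ) (hU : (U : Filter ℝ) ≤ 𝓝[>] 0)
    (hne : ∀ᶠ δ in (U : Filter ℝ), (Om (D δ)).Nonempty)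
    (hmom : ∀ f, Tst Ω f → (∀ z, 0 ≤ f z) → ∀ n,
      Tendsto (md D f n) (𝓝[>] (0 : ℝ)) (𝓝 (gm n * (K * En Ω f) ^ n))) :
    DSt (ℝ × (V → ℤ)) Ω K where
  toLim := limS (fun δ => Om (D δ)) U hne
  X := E11c_X D
  ok_X := by
    intro f hf
    obtain ⟨χ, c, hc, hχ, hχ0, hle⟩ := exists_dom hΩ hf
    have h1 : Tst Ω (fun z => f z + c * χ z) := E10_add hf (E10_smul c hχ)
    have h2 : OkS (fun δ => Om (D δ)) (U : Filter ℝ) (E11c_X D (fun z => f z + c * χ z)) :=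
      E11c_ok hU hne hmom h1 fun z => by
        have := neg_abs_le (f z)
        have := hle z
        linarith
    have h3 : OkS (fun δ => Om (D δ)) (U : Filter ℝ) (E11c_X D χ) := E11c_ok hU hne hmom hχ hχ0
    have h4 := (limS (fun δ => Om (D δ)) U hne).ok_sub _ _ h2
      ((limS (fun δ => Om (D δ)) U hne).ok_smul c _ h3)
    have h5 : (fun i => E11c_X D (fun z => f z + c * χ z) i - c * E11c_X D χ i) = E11c_X D f := by
      funext i
      unfold E11c_X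
      rw [E11c_add, E11c_smul]
      ring
    rw [h5] at h4
    exact h4
  X_add := fun f g _ _ i => E11c_add _ f g _ _
  X_smul := fun c f _ i => E11c_smul _ c f _ _
  odd := by
    intro f _
    refine LS_eq ?_
    refine tendsto_const_nhds.congr fun p => ?_
    have h1 := RP4.avg_neg_Om (D := D p) (fun h => Real.sin (prD p f (D p) h))
    have h2 : evS (fun δ => Om (D δ)) p (fun i => Real.sin (E11c_X D f i)) =
        avg (Om (D p)) (fun h => Real.sin (prD p f (D p) h)) := rfl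
    have h3 : avg (Om (D p)) (fun h => Real.sin (prD p f (D p) (-h))) =
        -avg (Om (D p)) (fun h => Real.sin (prD p f (D p) h)) := by
      unfold RP4.avg
      rw [← neg_div, ← Finset.sum_neg_distrib]
      congr 1
      refine Finset.sum_congr rfl fun h _ => ?_
      show Real.sin (prD p f (D p) (-h)) = -Real.sin (prD p f (D p) h)
      rw [E11c_neg, Real.sin_neg]
    rw [h2]
    rw [h3] at h1
    linarith
  mom := by
    intro f hf h0 n
    exact LS_eq ((hmom f hf h0 n).mono_left hU)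

/-- For every ultrafilter finer than `𝓝[>] 0` the state `limS (fun δ => Om (D δ))` with `X f (δ, h) = prD δ f (D δ) h` is a
`DSt` (`Ok` for signed `f` by `exists_dom`: `f = (f + c χ) - c χ`; `odd`: symmetry `h ↦ -h` of `Om (D δ)`), then
`DSt.law`, `tendsto_iff_ultrafilter`, `ok_poly'`. -/
theorem law_of_mom {K : ℝ} (hK : 0 < K) {Ω : Set Pl} (hΩ : IsOpen Ω) (hb : Bornology.IsBounded Ω)
    {D : ℝ → Finset V} (hD : ∀ᶠ δ in 𝓝[>] (0 : ℝ), BdryPar (D δ) 0)
    (hmom : ∀ f, Tst Ω f → (∀ z, 0 ≤ f z) → ∀ n,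
      Tendsto (md D f n) (𝓝[>] (0 : ℝ)) (𝓝 (gm n * (K * En Ω f) ^ n)))
    {m : ℕ} (f : Fin m → Pl → ℝ) (hf : ∀ j, Tst Ω (f j)) :
    (gramD K Ω f).PosSemidef ∧ ∀ φ : EuclideanSpace ℝ (Fin m) → ℝ, Continuous φ →
      (∃ (C : ℝ) (k : ℕ), ∀ x, |φ x| ≤ C * (1 + ‖x‖) ^ k) →
      Integrable φ (multivariateGaussian 0 (gramD K Ω f)) ∧
        Tendsto (fun δ => avg (Om (D δ)) (fun h => φ (WithLp.toLp 2 fun j => prD δ (f j) (D δ) h)))
          (𝓝[>] (0 : ℝ)) (𝓝 (∫ x, φ x ∂(multivariateGaussian 0 (gramD K Ω f)))) := by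
  have hne : ∀ᶠ δ in 𝓝[>] (0 : ℝ), (Om (D δ)).Nonempty := hD.mono fun δ h => RP4.Om_nonempty h
  have key : ∀ U : Ultrafilter ℝ, (U : Filter ℝ) ≤ 𝓝[>] 0 →
      (gramD K Ω f).PosSemidef ∧ ∀ φ : EuclideanSpace ℝ (Fin m) → ℝ, Continuous φ →
      (∃ (C : ℝ) (k : ℕ), ∀ x, |φ x| ≤ C * (1 + ‖x‖) ^ k) →
      Integrable φ (multivariateGaussian 0 (gramD K Ω f)) ∧
        Tendsto (fun δ => avg (Om (D δ)) (fun h => φ (WithLp.toLp 2 fun j => prD δ (f j) (D δ) h)))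
          (U : Filter ℝ) (𝓝 (∫ x, φ x ∂(multivariateGaussian 0 (gramD K Ω f)))) := by
    intro U hU
    obtain ⟨h1, h2⟩ := (E11c_st hΩ U hU (hne.filter_mono hU) hmom).law hK hΩ hb f hf
    refine ⟨h1, fun φ hφ hg => ?_⟩
    obtain ⟨h3, h4⟩ := h2 φ hφ hg
    refine ⟨h3, ?_⟩
    rw [← h4]
    exact limS_tendsto U (hne.filter_mono hU) (ok_poly' (E11c_st hΩ U hU (hne.filter_mono hU) hmom).toLim
      (fun j => (E11c_st hΩ U hU (hne.filter_mono hU) hmom).X (f j))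
      (fun j => (E11c_st hΩ U hU (hne.filter_mono hU) hmom).ok_X _ (hf j)) φ hg)
  have hU0 := key (Ultrafilter.of (𝓝[>] (0 : ℝ))) (Ultrafilter.of_le _)
  refine ⟨hU0.1, fun φ hφ hg => ⟨(hU0.2 φ hφ hg).1, ?_⟩⟩
  rw [tendsto_iff_ultrafilter]
  intro U hU
  exact ((key U hU).2 φ hφ hg).2

end GF
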