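import Pool.Agent.Helper41.DV.E11b
import Pool.Agent.Helper41.DV.E11c

/-!
E11d.  The continuum part in one statement.
-/

open MeasureTheory Filter Topology ProbabilityTheory

namespace GF

open RP4 (V avg Om BdryPar)

/-- the continuum part in one statement -/
theorem law_of_sand {K : ℝ} (hK : 0 < K) {Ω : Set Pl} (hΩ : IsOpen Ω) (hb : Bornology.IsBounded Ω)
    {D : ℝ → Finset V} (hD : ∀ᶠ δ in 𝓝[>] (0 : ℝ), BdryPar (D δ) 0)
    (h : ∀ f, Tst Ω f → (∀ z, 0 ≤ f z) → Sand K Ω D f)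
    {m : ℕ} (f : Fin m → Pl → ℝ) (hf : ∀ j, Tst Ω (f j)) :
    (gramD K Ω f).PosSemidef ∧ ∀ φ : EuclideanSpace ℝ (Fin m) → ℝ, Continuous φ →
      (∃ (C : ℝ) (k : ℕ), ∀ x, |φ x| ≤ C * (1 + ‖x‖) ^ k) →
      Integrable φ (multivariateGaussian 0 (gramD K Ω f)) ∧
        Tendsto (fun δ => avg (Om (D δ)) (fun h => φ (WithLp.toLp 2 fun j => prD δ (f j) (D δ) h)))
          (𝓝[>] (0 : ℝ)) (𝓝 (∫ x, φ x ∂(multivariateGaussian 0 (gramD K Ω f)))) :=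
  law_of_mom hK hΩ hb hD (fun f hf h0 n => mom_of_sand hK hb hf h0 (h f hf h0) n) f hf

end GF
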