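import Pool.Agent.Helper41.DV.E1

/-!
E6.  The truncation function.
-/

open MeasureTheory Filter Topology

namespace GF

/-- smooth, zero for `t ≤ 0`, slope in `[0, 1]`, at least `t - ε` -/
noncomputable def psi (ε t : ℝ) : ℝ := t * expNegInvGlue (t / ε)

private lemma E6_nonpos (ε : ℝ) (hε : 0 < ε) (t : ℝ) (ht : t ≤ 0) : psi ε t = 0 := by
  unfold psi
  rw [expNegInvGlue.zero_of_nonpos (div_nonpos_of_nonpos_of_nonneg ht hε.le), mul_zero]

private lemma E6_pos (ε : ℝ) (hε : 0 < ε) (t : ℝ) (ht : 0 < t) :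
    psi ε t = t * Real.exp (-(ε / t)) := by
  unfold psi expNegInvGlue
  rw [if_neg (not_le.2 (div_pos ht hε)), inv_div]

/-- for `t > 0`: `ψ = t exp(-ε/t)`, `ψ' = exp(-x)(1 + x) ≤ 1`, `x = ε/t`, and `exp(-x) ≥ 1 - x` -/
theorem psi_facts {ε : ℝ} (hε : 0 < ε) : ContDiff ℝ (⊤ : ℕ∞) (psi ε) ∧ (∀ t ≤ 0, psi ε t = 0) ∧
    (∀ t, 0 ≤ psi ε t) ∧ (∀ t, t - ε ≤ psi ε t) ∧ (∀ t ≥ 0, psi ε t ≤ t) ∧
    (∀ t, 0 ≤ deriv (psi ε) t ∧ deriv (psi ε) t ≤ 1) := by
  have h0 : ∀ t ≤ 0, psi ε t = 0 := E6_nonpos ε hε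
  have h1 : ∀ t, 0 < t → psi ε t = t * Real.exp (-(ε / t)) := E6_pos ε hε
  have hnn : ∀ t, 0 ≤ psi ε t := by
    intro t
    rcases le_or_gt t 0 with ht | ht
    · rw [h0 t ht]
    · rw [h1 t ht]
      exact mul_nonneg ht.le (Real.exp_pos _).le
  refine ⟨?_, h0, hnn, ?_, ?_, ?_⟩
  · exact contDiff_id.mul (expNegInvGlue.contDiff.comp (contDiff_id.div_const ε))
  · intro t
    rcases le_or_gt t 0 with ht | ht
    · rw [h0 t ht]; linarith
    · rw [h1 t ht]
      have h2 := Real.add_one_le_exp (-(ε / t))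
      have h3 : t * (-(ε / t) + 1) ≤ t * Real.exp (-(ε / t)) := mul_le_mul_of_nonneg_left h2 ht.le
      have h4 : t * (-(ε / t) + 1) = t - ε := by field_simp; ring
      linarith
  · intro t ht
    rcases ht.lt_or_eq with ht | ht
    · rw [h1 t ht]
      have h2 : Real.exp (-(ε / t)) ≤ 1 := Real.exp_le_one_iff.2 (by
        have := div_pos hε ht
        linarith)
      calc t * Real.exp (-(ε / t)) ≤ t * 1 := mul_le_mul_of_nonneg_left h2 ht.le
        _ = t := mul_one t
    · rw [← ht, h0 0 le_rfl]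
  · intro t
    rcases le_or_gt t 0 with ht | ht
    · have hm : IsLocalMin (psi ε) t := by
        apply Filter.Eventually.of_forall
        intro s
        rw [h0 t ht]
        exact hnn s
      rw [hm.deriv_eq_zero]
      exact ⟨le_rfl, zero_le_one⟩
    · have hev : psi ε =ᶠ[𝓝 t] fun s => s * Real.exp (-(ε / s)) := by
        filter_upwards [lt_mem_nhds ht] with s hs
        exact h1 s hs
      have hd1 : HasDerivAt (fun s : ℝ => -(ε / s)) (ε / t ^ 2) t := by
        have h := ((hasDerivAt_inv ht.ne').const_mul ε).neg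
        have he : -(ε * -(t ^ 2)⁻¹) = ε / t ^ 2 := by ring
        rw [he] at h
        refine h.congr_of_eventuallyEq ?_
        exact Filter.Eventually.of_forall fun s => by
          simp [div_eq_mul_inv]
      have hd : HasDerivAt (fun s : ℝ => s * Real.exp (-(ε / s)))
          (1 * Real.exp (-(ε / t)) + t * (Real.exp (-(ε / t)) * (ε / t ^ 2))) t :=
        (hasDerivAt_id t).mul hd1.exp
      rw [hev.deriv_eq, hd.deriv]
      have he : 1 * Real.exp (-(ε / t)) + t * (Real.exp (-(ε / t)) * (ε / t ^ 2)) =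
          Real.exp (-(ε / t)) * (1 + ε / t) := by
        field_simp
      rw [he]
      have hx : 0 < ε / t := div_pos hε ht
      constructor
      · exact mul_nonneg (Real.exp_pos _).le (by linarith)
      · have h2 := Real.add_one_le_exp (ε / t)
        calc Real.exp (-(ε / t)) * (1 + ε / t)
            ≤ Real.exp (-(ε / t)) * Real.exp (ε / t) :=
              mul_le_mul_of_nonneg_left (by linarith) (Real.exp_pos _).le
          _ = 1 := by rw [← Real.exp_add]; simp

end GF
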