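import Pool.Agent.Helper41.DV.E2
import Pool.Agent.Helper41.DV.E6
import Pool.Agent.Helper27.GF.Cal2

/-!
E13.  The energy form and the Green function.
-/

open MeasureTheory Filter Topology

namespace GF

/-- `U` solves `-Δ U = f` in `Ω` with zero boundary values -/
structure Pot (Ω : Set Pl) (f U : Pl → ℝ) : Prop where
  cont : Continuous U
  zero : ∀ z ∉ Ω, U z = 0
  smooth : ContDiffOn ℝ (⊤ : ℕ∞) U Ω
  lap : ∀ z ∈ Ω, -lap U z = f z

/-- a smooth function which agrees with `U` near a compact set -/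
private lemma E13_ext {Ω K : Set Pl} (hΩ : IsOpen Ω) (hK : IsCompact K) (hKΩ : K ⊆ Ω) {U : Pl → ℝ}
    (hU : ContDiffOn ℝ (⊤ : ℕ∞) U Ω) :
    ∃ w : Pl → ℝ, ContDiff ℝ (⊤ : ℕ∞) w ∧ ∃ O : Set Pl, IsOpen O ∧ K ⊆ O ∧ ∀ z ∈ O, w z = U z := by
  obtain ⟨χ, hχ, -, hχΩ, O, hO, hKO, hO1⟩ := exists_cutoff K Ω hK hΩ hKΩ
  refine ⟨fun z => χ z * U z, ?_, O, hO, hKO, fun z hz => by
    show χ z * U z = U z
    rw [hO1 z hz, one_mul]⟩
  rw [contDiff_iff_contDiffAt]
  intro z
  by_cases hz : z ∈ Ω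
  · exact (hχ.smooth.contDiffAt).mul (hU.contDiffAt (hΩ.mem_nhds hz))
  · have h0 : (fun z => χ z * U z) =ᶠ[𝓝 z] fun _ => 0 := by
      have hz' : z ∉ tsupport χ := fun h => hz (hχΩ h)
      filter_upwards [(isClosed_tsupport χ).isOpen_compl.mem_nhds hz'] with y hy
      rw [image_eq_zero_of_notMem_tsupport hy, zero_mul]
    exact contDiffAt_const.congr_of_eventuallyEq h0

private lemma E13_dx_congr {w U : Pl → ℝ} {z : Pl} (h : w =ᶠ[𝓝 z] U) : dx w z = dx U z := by
  rw [dx, dx, h.fderiv_eq]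

private lemma E13_dy_congr {w U : Pl → ℝ} {z : Pl} (h : w =ᶠ[𝓝 z] U) : dy w z = dy U z := by
  rw [dy, dy, h.fderiv_eq]

private lemma E13_lap_congr {w U : Pl → ℝ} {z : Pl} (h : w =ᶠ[𝓝 z] U) : lap w z = lap U z := by
  have h1 : dx w =ᶠ[𝓝 z] dx U := by
    filter_upwards [h.eventuallyEq_nhds] with y hy using E13_dx_congr hy
  have h2 : dy w =ᶠ[𝓝 z] dy U := by
    filter_upwards [h.eventuallyEq_nhds] with y hy using E13_dy_congr hy
  rw [lap, lap, E13_dx_congr h1, E13_dy_congr h2]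

private lemma E13_off {v : Pl → ℝ} {z : Pl} (hz : z ∉ tsupport v) : v =ᶠ[𝓝 z] fun _ => 0 := by
  filter_upwards [(isClosed_tsupport v).isOpen_compl.mem_nhds hz] with y hy
  exact image_eq_zero_of_notMem_tsupport hy

private lemma E13_lap_off {v : Pl → ℝ} {z : Pl} (hz : z ∉ tsupport v) : lap v z = 0 := by
  rw [E13_lap_congr (E13_off hz)]
  have h1 : dx (fun _ : Pl => (0 : ℝ)) = fun _ => 0 := by
    funext y
    simp [dx]
  have h2 : dy (fun _ : Pl => (0 : ℝ)) = fun _ => 0 := by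
    funext y
    simp [dy]
  rw [lap, h1, h2]
  simp [dx, dy]

private lemma E13_dx_off {v : Pl → ℝ} {z : Pl} (hz : z ∉ tsupport v) : dx v z = 0 := by
  rw [E13_dx_congr (E13_off hz)]
  simp [dx]

private lemma E13_dy_off {v : Pl → ℝ} {z : Pl} (hz : z ∉ tsupport v) : dy v z = 0 := by
  rw [E13_dy_congr (E13_off hz)]
  simp [dy]

/-- `∫ f v` by the extension `w` -/
private lemma E13_int {Ω O : Set Pl} (hO : IsOpen O) {f U w v : Pl → ℝ} (hU : Pot Ω f U)
    (hv : Tst Ω v) (hvO : tsupport v ⊆ O) (hw : ∀ z ∈ O, w z = U z) :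
    ∫ z, f z * v z = -∫ z, lap w z * v z := by
  rw [← integral_neg]
  refine integral_congr_ae (Eventually.of_forall fun z => ?_)
  simp only
  by_cases hz : z ∈ tsupport v
  · have h1 : w =ᶠ[𝓝 z] U := by
      filter_upwards [hO.mem_nhds (hvO hz)] with y hy using hw y hy
    rw [E13_lap_congr h1, ← hU.lap z (hv.sub hz)]
    ring
  · rw [image_eq_zero_of_notMem_tsupport hz]
    simp

/-- first form: `∫ f v = -∫ U Δv` -/
private lemma E13_green {Ω : Set Pl} (hΩ : IsOpen Ω) {f U v : Pl → ℝ} (hU : Pot Ω f U)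
    (hv : Tst Ω v) : ∫ z, f z * v z = -∫ z, U z * lap v z := by
  obtain ⟨w, hw, O, hO, hKO, hwU⟩ := E13_ext hΩ hv.supp hv.sub hU.smooth
  have h1 : ∫ z, w z * lap v z = ∫ z, lap w z * v z := EN.parts_lap hw hv.smooth hv.supp
  rw [E13_int hO hU hv hKO hwU, ← h1]
  congr 1
  refine integral_congr_ae (Eventually.of_forall fun z => ?_)
  simp only
  by_cases hz : z ∈ tsupport v
  · rw [hwU z (hKO hz)]
  · rw [E13_lap_off hz, mul_zero, mul_zero]

private lemma E13_psi0 {ε : ℝ} (hε : 0 < ε) {s : ℝ} (hs : s ≤ 0) : deriv (psi ε) s = 0 := by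
  obtain ⟨ps, p0, pn, pl, pu, pd⟩ := psi_facts hε
  have hm : IsLocalMin (psi ε) s := by
    apply Filter.Eventually.of_forall
    intro t
    rw [p0 s hs]
    exact pn t
  exact hm.deriv_eq_zero

private noncomputable def E13_phi (ε t : ℝ) : ℝ := psi ε (t - ε) - psi ε (-t - ε)

private lemma E13_phi_smooth {ε : ℝ} (hε : 0 < ε) : ContDiff ℝ (⊤ : ℕ∞) (E13_phi ε) := by
  have ps := (psi_facts hε).1
  exact (ps.comp (contDiff_id.sub contDiff_const)).sub (ps.comp (contDiff_id.neg.sub contDiff_const))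

private lemma E13_phi_deriv {ε : ℝ} (hε : 0 < ε) (t : ℝ) :
    ∃ d, HasDerivAt (E13_phi ε) d t ∧ 0 ≤ d ∧ d ≤ 1 := by
  obtain ⟨ps, p0, pn, pl, pu, pd⟩ := psi_facts hε
  have hd : ∀ s, HasDerivAt (psi ε) (deriv (psi ε) s) s := fun s =>
    ((ps.differentiable (by simp)) s).hasDerivAt
  have h1 : HasDerivAt (fun t => psi ε (t - ε)) (deriv (psi ε) (t - ε)) t :=
    (hd (t - ε)).comp_sub_const t ε
  have h3 : HasDerivAt (fun t : ℝ => -t - ε) (-1) t := (hasDerivAt_neg' t).sub_const ε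
  have h2 : HasDerivAt (fun t => psi ε (-t - ε)) (deriv (psi ε) (-t - ε) * (-1)) t :=
    HasDerivAt.comp (h₂ := psi ε) (h := fun t : ℝ => -t - ε) t (hd (-t - ε)) h3
  refine ⟨_, h1.sub h2, ?_, ?_⟩
  · have := (pd (t - ε)).1
    have := (pd (-t - ε)).1
    linarith
  · rcases le_total t 0 with ht | ht
    · rw [E13_psi0 hε (by linarith : t - ε ≤ 0)]
      have := (pd (-t - ε)).2
      linarith
    · rw [E13_psi0 hε (by linarith : -t - ε ≤ 0)]
      have := (pd (t - ε)).2
      linarith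

private lemma E13_phi_zero {ε : ℝ} (hε : 0 < ε) {t : ℝ} (ht : |t| ≤ ε) : E13_phi ε t = 0 := by
  obtain ⟨ps, p0, pn, pl, pu, pd⟩ := psi_facts hε
  have h := abs_le.1 ht
  rw [E13_phi, p0 _ (by linarith [h.2]), p0 _ (by linarith [h.1]), sub_zero]

private lemma E13_phi_near {ε : ℝ} (hε : 0 < ε) (t : ℝ) : |E13_phi ε t - t| ≤ 2 * ε := by
  obtain ⟨ps, p0, pn, pl, pu, pd⟩ := psi_facts hε
  rw [E13_phi, abs_le]
  rcases le_total t 0 with ht | ht
  · rw [p0 (t - ε) (by linarith)]
    have h1 := pl (-t - ε)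
    have h2 := pn (-t - ε)
    rcases le_total (-t - ε) 0 with h3 | h3
    · rw [p0 _ h3]
      constructor <;> linarith
    · have h4 := pu _ h3
      constructor <;> linarith
  · rw [p0 (-t - ε) (by linarith)]
    have h1 := pl (t - ε)
    have h2 := pn (t - ε)
    rcases le_total (t - ε) 0 with h3 | h3
    · rw [p0 _ h3]
      constructor <;> linarith
    · have h4 := pu _ h3
      constructor <;> linarith

private lemma E13_alg {d a c x y : ℝ} (hd0 : 0 ≤ d) (hd1 : d ≤ 1) (hx : x = d * a) (hy : y = d * c) :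
    x ^ 2 + y ^ 2 ≤ a * x + c * y := by
  subst hx hy
  have h : a * (d * a) + c * (d * c) - ((d * a) ^ 2 + (d * c) ^ 2) = (d * (1 - d)) * (a ^ 2 + c ^ 2) := by
    ring
  have h2 : 0 ≤ (d * (1 - d)) * (a ^ 2 + c ^ 2) := by
    have : 0 ≤ 1 - d := by linarith
    positivity
  linarith

/--
Truncation of a potential.  `V = φ(U)` with `φ(t) = ψ_ε(t - ε) - ψ_ε(-t - ε)` (`psi_facts`: odd, slope in `[0,1]`, zero for
`|t| ≤ ε`, `|φ(t) - t| ≤ 2 ε`).  `{|U| ≥ ε}` is a compact subset of `Ω` (closed since `U` is continuous, in `Ω`, bounded), so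
`V` is a test function.  `∫ F V = ∫ ∇U·∇V ≥ ∫ |∇V|²` since `|∇V|² = φ'² |∇U|² ≤ φ' |∇U|² = ∇U·∇V`; for a test
function `u`: `∫ f u = ∫ ∇u·∇U = -∫ U Δu`, so `|∫ f u + ∫ V Δu| ≤ 2 ε ∫ |Δu|`.  (For the integrations by parts
multiply `U` by a cutoff which is one near the support of the test function.)
-/
theorem pot_trunc {Ω : Set Pl} (hΩ : IsOpen Ω) (hb : Bornology.IsBounded Ω) {f U : Pl → ℝ} (hf : Cc f)
    (hU : Pot Ω f U) {ε : ℝ} (hε : 0 < ε) :
    ∃ V, Tst Ω V ∧ (∀ z, |V z - U z| ≤ 2 * ε) ∧ dir V ≤ ∫ z, f z * V z ∧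
      ∀ u, Tst Ω u → |(∫ z, f z * u z) + ∫ z, V z * lap u z| ≤ 2 * ε * ∫ z, |lap u z| := by
  classical
  obtain ⟨ps, p0, pn, pl, pu, pd⟩ := psi_facts hε
  set V : Pl → ℝ := fun z => E13_phi ε (U z) with hV
  set K : Set Pl := {z | ε ≤ |U z|} with hKdef
  have hKcl : IsClosed K := isClosed_le continuous_const hU.cont.abs
  have hKΩ : K ⊆ Ω := by
    intro z hz
    by_contra h
    have h1 : ε ≤ |U z| := hz
    rw [hU.zero z h, abs_zero] at h1
    linarith
  have hKc : IsCompact K := Metric.isCompact_of_isClosed_isBounded hKcl (hb.subset hKΩ)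
  have hV0 : ∀ z ∉ K, V z = 0 := by
    intro z hz
    have h1 : |U z| ≤ ε := le_of_lt (not_le.1 hz)
    exact E13_phi_zero hε h1
  have hVoff : ∀ z ∉ K, V =ᶠ[𝓝 z] fun _ => 0 := fun z hz => by
    filter_upwards [hKcl.isOpen_compl.mem_nhds hz] with y hy using hV0 y hy
  have hVs : ContDiff ℝ (⊤ : ℕ∞) V := by
    rw [contDiff_iff_contDiffAt]
    intro z
    by_cases hz : z ∈ Ω
    · exact (E13_phi_smooth hε).contDiffAt.comp z (hU.smooth.contDiffAt (hΩ.mem_nhds hz))
    · exact contDiffAt_const.congr_of_eventuallyEq (hVoff z fun h => hz (hKΩ h))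
  have hVt : tsupport V ⊆ K := by
    refine closure_minimal (fun z hz => ?_) hKcl
    by_contra h
    exact hz (hV0 z h)
  have hVc : HasCompactSupport V := hKc.of_isClosed_subset (isClosed_tsupport V) hVt
  have hVT : Tst Ω V := ⟨⟨hVs, hVc⟩, hVt.trans hKΩ⟩
  refine ⟨V, hVT, fun z => E13_phi_near hε (U z), ?_, ?_⟩
  · obtain ⟨w, hw, O, hO, hKO, hwU⟩ := E13_ext hΩ hVc hVT.sub hU.smooth
    have wx : ContDiff ℝ (⊤ : ℕ∞) (dx w) := EN.dx_smooth hw
    have wy : ContDiff ℝ (⊤ : ℕ∞) (dy w) := EN.dy_smooth hw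
    have Vx : ContDiff ℝ (⊤ : ℕ∞) (dx V) := EN.dx_smooth hVs
    have Vy : ContDiff ℝ (⊤ : ℕ∞) (dy V) := EN.dy_smooth hVs
    have Vcx : HasCompactSupport (dx V) := EN.dx_supp hVc
    have Vcy : HasCompactSupport (dy V) := EN.dy_supp hVc
    have i1 : Integrable fun z => dx w z * dx V z :=
      (wx.continuous.mul Vx.continuous).integrable_of_hasCompactSupport Vcx.mul_left
    have i2 : Integrable fun z => dy w z * dy V z :=
      (wy.continuous.mul Vy.continuous).integrable_of_hasCompactSupport Vcy.mul_left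
    have j1 : Integrable fun z => dx V z ^ 2 := by
      have : Integrable fun z => dx V z * dx V z :=
        (Vx.continuous.mul Vx.continuous).integrable_of_hasCompactSupport Vcx.mul_left
      simpa only [sq] using this
    have j2 : Integrable fun z => dy V z ^ 2 := by
      have : Integrable fun z => dy V z * dy V z :=
        (Vy.continuous.mul Vy.continuous).integrable_of_hasCompactSupport Vcy.mul_left
      simpa only [sq] using this
    have k1 : Integrable fun z => dx (dx w) z * V z :=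
      ((show ContDiff ℝ (⊤ : ℕ∞) (dx (dx w)) from EN.dx_smooth wx).continuous.mul
        hVs.continuous).integrable_of_hasCompactSupport hVc.mul_left
    have k2 : Integrable fun z => dy (dy w) z * V z :=
      ((show ContDiff ℝ (⊤ : ℕ∞) (dy (dy w)) from EN.dy_smooth wy).continuous.mul
        hVs.continuous).integrable_of_hasCompactSupport hVc.mul_left
    have p1 : ∫ z, dx w z * dx V z = -∫ z, dx (dx w) z * V z := EN.parts_x wx hVs hVc
    have p2 : ∫ z, dy w z * dy V z = -∫ z, dy (dy w) z * V z := EN.parts_y wy hVs hVc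
    have hpt : ∀ z, dx V z ^ 2 + dy V z ^ 2 ≤ dx w z * dx V z + dy w z * dy V z := by
      intro z
      by_cases hz : z ∈ tsupport V
      · obtain ⟨d, hd, hd0, hd1⟩ := E13_phi_deriv hε (w z)
        have hwd : HasFDerivAt w (fderiv ℝ w z) z := (hw.differentiable (by simp) z).hasFDerivAt
        have hcomp : HasFDerivAt (fun z => E13_phi ε (w z)) (d • fderiv ℝ w z) z :=
          HasDerivAt.comp_hasFDerivAt (h₂ := E13_phi ε) (f := w) z hd hwd
        have heq : V =ᶠ[𝓝 z] fun z => E13_phi ε (w z) := by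
          filter_upwards [hO.mem_nhds (hKO hz)] with y hy
          rw [hV, hwU y hy]
        refine E13_alg hd0 hd1 ?_ ?_
        · rw [E13_dx_congr heq, dx, hcomp.fderiv]
          rfl
        · rw [E13_dy_congr heq, dy, hcomp.fderiv]
          rfl
      · rw [E13_dx_off hz, E13_dy_off hz]
        simp
    calc dir V ≤ ∫ z, (dx w z * dx V z + dy w z * dy V z) := integral_mono (j1.add j2) (i1.add i2) hpt
      _ = -∫ z, lap w z * V z := by
          rw [integral_add i1 i2, p1, p2]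
          have h : ∫ z, lap w z * V z = (∫ z, dx (dx w) z * V z) + ∫ z, dy (dy w) z * V z := by
            rw [← integral_add k1 k2]
            refine integral_congr_ae (Eventually.of_forall fun z => ?_)
            simp only [lap]
            ring
          rw [h]
          ring
      _ = ∫ z, f z * V z := (E13_int hO hU hVT hKO hwU).symm
  · intro u hu
    have hlc : Continuous (lap u) := (EN.lap_smooth hu.smooth).continuous
    have hls : HasCompactSupport (lap u) := EN.lap_supp hu.supp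
    have i1 : Integrable fun z => U z * lap u z :=
      (hU.cont.mul hlc).integrable_of_hasCompactSupport hls.mul_left
    have i2 : Integrable fun z => V z * lap u z :=
      (hVs.continuous.mul hlc).integrable_of_hasCompactSupport hls.mul_left
    have i3 : Integrable fun z => |lap u z| := (hlc.integrable_of_hasCompactSupport hls).abs
    have h1 : (∫ z, f z * u z) + ∫ z, V z * lap u z = ∫ z, (V z * lap u z - U z * lap u z) := by
      rw [integral_sub i2 i1, E13_green hΩ hU hu]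
      ring
    rw [h1, ← integral_const_mul]
    rw [← Real.norm_eq_abs]
    refine (norm_integral_le_integral_norm _).trans ?_
    refine integral_mono (i2.sub i1).norm (i3.const_mul _) fun z => ?_
    simp only [Real.norm_eq_abs]
    rw [← sub_mul, abs_mul]
    exact mul_le_mul_of_nonneg_right (E13_phi_near hε (U z)) (abs_nonneg _)

end GF
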