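import Pool.Agent.Helper41.DV.E13

/-!
E13b.  The energy is the integral against the potential.
-/

open MeasureTheory Filter Topology

namespace GF

private lemma E13b_dir_sub {u V : Pl → ℝ} (hu : Cc u) (hV : Cc V) :
    0 ≤ dir u + 2 * (∫ z, V z * lap u z) + dir V := by
  have hv : Cc (fun z => (-1) * V z) :=
    ⟨contDiff_const.mul hV.smooth, hV.supp.mul_left⟩
  have h := JJ_add (f := fun _ => (0 : ℝ)) continuous_const hu hv
  have e1 : ∀ w : Pl → ℝ, JJ (fun _ => (0 : ℝ)) w = -dir w := by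
    intro w
    unfold JJ
    simp
  have e2 : JJ (fun z => (0 : ℝ) + lap u z) (fun z => (-1) * V z) =
      -2 * (∫ z, V z * lap u z) - dir V := by
    unfold JJ
    rw [dir_smul (-1) hV]
    have e3 : ∫ z, ((0 : ℝ) + lap u z) * ((-1) * V z) = -∫ z, V z * lap u z := by
      rw [← integral_neg]
      refine integral_congr_ae (Eventually.of_forall fun z => ?_)
      show ((0 : ℝ) + lap u z) * ((-1) * V z) = -(V z * lap u z)
      ring
    rw [e3]
    ring
  rw [e1, e1, e2] at h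
  have h2 := dir_nonneg (fun z => u z + (-1) * V z)
  linarith

private lemma E13b_close {f U V : Pl → ℝ} (hf : Cc f) (hU : Continuous U) (hV : Continuous V) {ε : ℝ}
    (h : ∀ z, |V z - U z| ≤ 2 * ε) :
    |(∫ z, f z * V z) - ∫ z, f z * U z| ≤ 2 * ε * ∫ z, |f z| := by
  have i1 : Integrable fun z => f z * V z :=
    (hf.smooth.continuous.mul hV).integrable_of_hasCompactSupport hf.supp.mul_right
  have i2 : Integrable fun z => f z * U z :=
    (hf.smooth.continuous.mul hU).integrable_of_hasCompactSupport hf.supp.mul_right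
  have i3 : Integrable fun z => |f z| :=
    (hf.smooth.continuous.integrable_of_hasCompactSupport hf.supp).abs
  rw [← integral_sub i1 i2]
  calc |∫ z, (f z * V z - f z * U z)| ≤ ∫ z, |f z * V z - f z * U z| :=
        abs_integral_le_integral_abs
    _ ≤ ∫ z, 2 * ε * |f z| := by
        refine integral_mono (i1.sub i2).abs (i3.const_mul _) fun z => ?_
        show |f z * V z - f z * U z| ≤ 2 * ε * |f z|
        rw [← mul_sub, abs_mul, mul_comm]
        exact mul_le_mul_of_nonneg_right (h z) (abs_nonneg _)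
    _ = 2 * ε * ∫ z, |f z| := integral_const_mul _ _

/--
`≥`: `JJ f V ≥ ∫ f V ≥ ∫ f U - 2 ε ∫ |f|`.
`≤`: `dir (u - V) ≥ 0` gives `JJ f u ≤ 2 ∫ f u + 2 ∫ V Δu + dir V ≤ 4 ε ∫ |Δu| + ∫ f V`.
-/
theorem En_pot {Ω : Set Pl} (hΩ : IsOpen Ω) (hb : Bornology.IsBounded Ω) {f U : Pl → ℝ} (hf : Tst Ω f)
    (hU : Pot Ω f U) : En Ω f = ∫ z, f z * U z := by
  have hF : 0 ≤ ∫ z, |f z| := integral_nonneg fun _ => abs_nonneg _
  refine le_antisymm (En_le fun u hu => ?_) ?_
  · have hL : 0 ≤ ∫ z, |lap u z| := integral_nonneg fun _ => abs_nonneg _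
    refine le_of_forall_pos_le_add fun ε hε => ?_
    have hC : 0 < 4 * (∫ z, |lap u z|) + 2 * (∫ z, |f z|) + 1 := by linarith
    obtain ⟨V, hV1, hV2, hV3, hV4⟩ := pot_trunc hΩ hb hf.toCc hU (div_pos hε hC)
    have h1 := E13b_dir_sub hu.toCc hV1.toCc
    have h2 := abs_le.1 (hV4 u hu)
    have h3 := abs_le.1 (E13b_close hf.toCc hU.cont hV1.toCc.smooth.continuous hV2)
    have h4 : ε / (4 * (∫ z, |lap u z|) + 2 * (∫ z, |f z|) + 1) *
        (4 * (∫ z, |lap u z|) + 2 * (∫ z, |f z|)) ≤ ε := by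
      rw [div_mul_eq_mul_div, div_le_iff₀ hC]
      nlinarith
    unfold JJ
    nlinarith [h2.2, h3.2]
  · refine le_of_forall_pos_le_add fun ε hε => ?_
    have hC : 0 < 2 * (∫ z, |f z|) + 1 := by linarith
    obtain ⟨V, hV1, hV2, hV3, -⟩ := pot_trunc hΩ hb hf.toCc hU (div_pos hε hC)
    have h3 := abs_le.1 (E13b_close hf.toCc hU.cont hV1.toCc.smooth.continuous hV2)
    have h4 : ε / (2 * (∫ z, |f z|) + 1) * (2 * (∫ z, |f z|)) ≤ ε := by
      rw [div_mul_eq_mul_div, div_le_iff₀ hC]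
      nlinarith
    have h5 := le_En hb hf.toCc hV1
    unfold JJ at h5
    nlinarith [h3.1]

end GF
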