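import Pool.Agent.Helper41.DV.E11b
import Pool.Agent.Helper41.DV.E11c

/-!
E14.  The general form of the sandwich: the environments enter only through the inequality
`L X_f² ≤ K En_W(f) + ε`.
-/

open MeasureTheory Filter Topology ProbabilityTheory
open scoped Pointwise

namespace GF

open RP4 (V avg Om BdryPar)

/-- the upper half of the sandwich, moment of order `2 n` -/
def UpN (K : ℝ) (Ω : Set Pl) (D : ℝ → Finset V) (f : Pl → ℝ) (n : ℕ) (C : ℕ → ℝ) (ε : ℝ) (U : Ultrafilter ℝ) :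
    Prop :=
  ∃ (I : Type) (W : Set Pl) (M : Env I W K), Tst W f ∧
    M.L (fun i => M.X f i ^ 2) ≤ K * En W f + ε ∧
    En W f ≤ En Ω f + ε ∧ (∀ m, M.L (fun i => M.X f i ^ (2 * m)) ≤ C m) ∧
    ∀ᶠ δ in (U : Filter ℝ), md D f n δ ≤ M.L (fun i => M.X f i ^ (2 * n)) + ε

/-- the lower half of the sandwich, moment of order `2 n` -/
def LoN (K : ℝ) (Ω : Set Pl) (D : ℝ → Finset V) (f : Pl → ℝ) (n : ℕ) (C : ℕ → ℝ) (ε : ℝ) (U : Ultrafilter ℝ) :
    Prop :=
  ∃ (I : Type) (W : Set Pl) (M : Env I W K), Tst W f ∧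
    M.L (fun i => M.X f i ^ 2) ≤ K * En W f + ε ∧
    En Ω f - ε ≤ En W f ∧ (∀ m, M.L (fun i => M.X f i ^ (2 * m)) ≤ C m) ∧
    ∀ᶠ δ in (U : Filter ℝ), M.L (fun i => M.X f i ^ (2 * n)) - ε ≤ md D f n δ

/-- what the probabilistic part has to deliver, general form -/
def SandV (K : ℝ) (Ω : Set Pl) (D : ℝ → Finset V) (f : Pl → ℝ) : Prop :=
  ∀ n : ℕ,
    (∃ C : ℕ → ℝ, ∀ ε > 0, ∀ U : Ultrafilter ℝ, (U : Filter ℝ) ≤ 𝓝[>] 0 → UpN K Ω D f n C ε U) ∧
    ∃ C : ℕ → ℝ, ∀ ε > 0, ∀ U : Ultrafilter ℝ, (U : Filter ℝ) ≤ 𝓝[>] 0 → LoN K Ω D f n C ε U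

private lemma E14_tst {W : Set Pl} (t : ℝ) {u : Pl → ℝ} (hu : Tst W u) : Tst W (fun z => t * u z) :=
  ⟨⟨contDiff_const.mul hu.smooth, hu.supp.mul_left⟩,
    (closure_mono (Function.support_mul_subset_right (fun _ => t) u)).trans hu.sub⟩

private lemma E14_En_nonneg (W : Set Pl) (f : Pl → ℝ) : 0 ≤ En W f := by
  refine Real.sSup_nonneg' ⟨0, ⟨fun _ => 0, tst_zero W, ?_⟩, le_rfl⟩
  have h1 : ∀ z, dx (fun _ : Pl => (0 : ℝ)) z = 0 := by
    intro z
    simp [dx]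
  have h2 : ∀ z, dy (fun _ : Pl => (0 : ℝ)) z = 0 := by
    intro z
    simp [dy]
  simp [JJ, dir, h1, h2]

private lemma E14_cc (t : ℝ) {u : Pl → ℝ} (hu : Cc u) : Cc (fun z => t * u z) :=
  ⟨contDiff_const.mul hu.smooth, hu.supp.mul_left⟩

/-- multiples: `En_W(s f) = s² En_W(f)` for all real `s`, no boundedness of `W` needed -/
theorem En_smul' (W : Set Pl) (f : Pl → ℝ) (s : ℝ) : En W (fun z => s * f z) = s ^ 2 * En W f := by
  have hdir0 : dir (fun _ : Pl => (0 : ℝ)) = 0 := by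
    simp [dir, dx, dy]
  rcases eq_or_ne s 0 with h0 | h0
  · subst h0
    have h3 : IsGreatest {a | ∃ u, Tst W u ∧ a = JJ (fun z => 0 * f z) u} 0 := by
      refine ⟨⟨fun _ => 0, tst_zero W, ?_⟩, ?_⟩
      · unfold JJ
        simp only [zero_mul, integral_zero, mul_zero, hdir0, sub_zero]
      · rintro a ⟨u, hu, rfl⟩
        unfold JJ
        simp only [zero_mul, integral_zero, mul_zero, zero_sub]
        exact neg_nonpos.2 (dir_nonneg u)
    unfold En
    rw [h3.csSup_eq]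
    ring
  · have h1 : {a | ∃ u, Tst W u ∧ a = JJ (fun z => s * f z) u} =
        s ^ 2 • {a | ∃ u, Tst W u ∧ a = JJ f u} := by
      ext a
      rw [Set.mem_smul_set]
      constructor
      · rintro ⟨u, hu, rfl⟩
        refine ⟨JJ f (fun z => s⁻¹ * u z), ⟨_, E14_tst s⁻¹ hu, rfl⟩, ?_⟩
        rw [smul_eq_mul, ← JJ_smul s f (E14_cc s⁻¹ hu.toCc)]
        congr 1
        funext z
        rw [← mul_assoc, mul_inv_cancel₀ h0, one_mul]
      · rintro ⟨b, ⟨u, hu, rfl⟩, rfl⟩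
        refine ⟨fun z => s * u z, E14_tst s hu, ?_⟩
        rw [smul_eq_mul, ← JJ_smul s f hu.toCc]
    unfold En
    rw [h1, Real.sSup_smul_of_nonneg (by positivity)]
    rfl

/-- characters of all multiples -/
theorem Env.char_all {I : Type} {W : Set Pl} {K : ℝ} (M : Env I W K) (hK : 0 < K) {f : Pl → ℝ}
    (hf : Tst W f) (s : ℝ) :
    |M.L (fun i => Real.cos (s * M.X f i)) - Real.exp (-(s ^ 2 * (K * En W f) / 2))| ≤
      (M.L (fun i => M.X f i ^ 2) - K * En W f) / 2 * s ^ 2 := by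
  have h := M.char hK (E14_tst s hf)
  have e1 : (fun i => Real.cos (M.X (fun z => s * f z) i)) = fun i => Real.cos (s * M.X f i) := by
    funext i
    rw [M.X_smul s f hf.toCc i]
  have e2 : (fun i => M.X (fun z => s * f z) i ^ 2) = fun i => s ^ 2 * M.X f i ^ 2 := by
    funext i
    rw [M.X_smul s f hf.toCc i]
    ring
  rw [e1, e2, M.L_smul _ _ (M.ok_sq hf.toCc), En_smul'] at h
  have e3 : K * (s ^ 2 * En W f) / 2 = s ^ 2 * (K * En W f) / 2 := by ring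
  rw [e3] at h
  refine h.trans (le_of_eq ?_)
  ring

/-- the moments of an environment with almost maximal variance -/
private lemma E14_key {K : ℝ} (hK : 0 < K) {f : Pl → ℝ} (n : ℕ) (C : ℕ → ℝ) {e : ℝ} (he : 0 < e) :
    ∃ β > 0, ∀ ε, 0 < ε → ε ≤ β → ∀ (I : Type) (W : Set Pl) (M : Env I W K), Tst W f →
      M.L (fun i => M.X f i ^ 2) ≤ K * En W f + ε → (∀ m, M.L (fun i => M.X f i ^ (2 * m)) ≤ C m) →
      |M.L (fun i => M.X f i ^ (2 * n)) - gm n * (K * En W f) ^ n| ≤ e := by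
  obtain ⟨β, hβ, hm⟩ := mom_of_char n (C (n + 1)) (C 1) (ε := e) he
  refine ⟨β, hβ, fun ε hε hεβ I W M hfW hb hCM => ?_⟩
  have hE : 0 ≤ En W f := E14_En_nonneg W f
  have hup : K * En W f ≤ C 1 := by
    have h1 := (M.lower hK hfW).2
    have h2 := hCM 1
    simp only [mul_one] at h2
    exact h1.trans h2
  refine hm M.toLim (M.X f) (M.ok_X f hfW.toCc) ?_ (K * En W f) (mul_nonneg hK.le hE) hup ?_
  · have h1 := hCM (n + 1)
    have h2 : 2 * (n + 1) = 2 * n + 2 := by ring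
    rwa [h2] at h1
  · intro s
    refine (M.char_all hK hfW s).trans ?_
    refine mul_le_mul_of_nonneg_right ?_ (sq_nonneg s)
    linarith

private lemma E14_mono {K : ℝ} (hK : 0 < K) (n : ℕ) (x y : ℝ) (hxy : x ≤ y) :
    gm n * (K * max x 0) ^ n ≤ gm n * (K * max y 0) ^ n := by
  have hgm : 0 ≤ gm n := (gm_facts n).1
  have h1 : max x 0 ≤ max y 0 := max_le_max hxy le_rfl
  have h2 : 0 ≤ K * max x 0 := mul_nonneg hK.le (le_max_right _ _)
  have h3 : K * max x 0 ≤ K * max y 0 := mul_le_mul_of_nonneg_left h1 hK.le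
  exact mul_le_mul_of_nonneg_left (pow_le_pow_left₀ h2 h3 n) hgm

/-- upper bound of the even moments -/
theorem le_of_upN {K : ℝ} (hK : 0 < K) {Ω : Set Pl} {D : ℝ → Finset V} {f : Pl → ℝ} {n : ℕ}
    (h : ∃ C : ℕ → ℝ, ∀ ε > 0, ∀ U : Ultrafilter ℝ, (U : Filter ℝ) ≤ 𝓝[>] 0 → UpN K Ω D f n C ε U) {e : ℝ}
    (he : 0 < e) : ∀ᶠ δ in 𝓝[>] (0 : ℝ), md D f n δ ≤ gm n * (K * En Ω f) ^ n + e := by
  obtain ⟨C, hC⟩ := h
  have hE0 : 0 ≤ En Ω f := E14_En_nonneg Ω f
  have hgc : Continuous (fun x : ℝ => gm n * (K * max x 0) ^ n) := by fun_prop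
  have hgE : gm n * (K * max (En Ω f) 0) ^ n = gm n * (K * En Ω f) ^ n := by
    rw [max_eq_left hE0]
  obtain ⟨δ, hδ, hδg⟩ := Metric.continuous_iff.1 hgc (En Ω f) (e / 4) (by linarith)
  obtain ⟨β, hβ, key⟩ := E14_key hK (f := f) n C (e := e / 4) (by linarith)
  obtain ⟨ε, hε, hεδ, hεβ, hεe⟩ : ∃ ε : ℝ, 0 < ε ∧ ε < δ ∧ ε ≤ β ∧ ε ≤ e / 4 := by
    refine ⟨min (δ / 2) (min β (e / 4)), by positivity, ?_, ?_, ?_⟩
    · exact (min_le_left _ _).trans_lt (by linarith)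
    · exact (min_le_right _ _).trans (min_le_left _ _)
    · exact (min_le_right _ _).trans (min_le_right _ _)
  refine Filter.mem_iff_ultrafilter.2 fun U hU => ?_
  obtain ⟨I, W, M, hfW, hb, hEW, hCM, hu⟩ := hC ε hε U hU
  have hk := (abs_le.1 (key ε hε hεβ I W M hfW hb hCM)).2
  have hp : En W f = max (En W f) 0 := (max_eq_left (E14_En_nonneg W f)).symm
  have hm := E14_mono hK n _ _ hEW
  rw [← hp] at hm
  have hd := hδg (En Ω f + ε) (by
    rw [Real.dist_eq, add_sub_cancel_left, abs_of_pos hε]; exact hεδ)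
  rw [Real.dist_eq] at hd
  simp only [hgE] at hd
  have hd' := (abs_lt.1 hd).2
  filter_upwards [hu] with d h1
  linarith

/-- lower bound of the even moments -/
theorem ge_of_loN {K : ℝ} (hK : 0 < K) {Ω : Set Pl} {D : ℝ → Finset V} {f : Pl → ℝ} {n : ℕ}
    (h : ∃ C : ℕ → ℝ, ∀ ε > 0, ∀ U : Ultrafilter ℝ, (U : Filter ℝ) ≤ 𝓝[>] 0 → LoN K Ω D f n C ε U) {e : ℝ}
    (he : 0 < e) : ∀ᶠ δ in 𝓝[>] (0 : ℝ), gm n * (K * En Ω f) ^ n - e ≤ md D f n δ := by
  obtain ⟨C, hC⟩ := h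
  have hE0 : 0 ≤ En Ω f := E14_En_nonneg Ω f
  have hgc : Continuous (fun x : ℝ => gm n * (K * max x 0) ^ n) := by fun_prop
  have hgE : gm n * (K * max (En Ω f) 0) ^ n = gm n * (K * En Ω f) ^ n := by
    rw [max_eq_left hE0]
  obtain ⟨δ, hδ, hδg⟩ := Metric.continuous_iff.1 hgc (En Ω f) (e / 4) (by linarith)
  obtain ⟨β, hβ, key⟩ := E14_key hK (f := f) n C (e := e / 4) (by linarith)
  obtain ⟨ε, hε, hεδ, hεβ, hεe⟩ : ∃ ε : ℝ, 0 < ε ∧ ε < δ ∧ ε ≤ β ∧ ε ≤ e / 4 := by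
    refine ⟨min (δ / 2) (min β (e / 4)), by positivity, ?_, ?_, ?_⟩
    · exact (min_le_left _ _).trans_lt (by linarith)
    · exact (min_le_right _ _).trans (min_le_left _ _)
    · exact (min_le_right _ _).trans (min_le_right _ _)
  refine Filter.mem_iff_ultrafilter.2 fun U hU => ?_
  obtain ⟨I, W, M, hfW, hb, hEW, hCM, hu⟩ := hC ε hε U hU
  have hk := (abs_le.1 (key ε hε hεβ I W M hfW hb hCM)).1
  have hp : En W f = max (En W f) 0 := (max_eq_left (E14_En_nonneg W f)).symm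
  have hm := E14_mono hK n _ _ hEW
  rw [← hp] at hm
  have hd := hδg (En Ω f - ε) (by
    rw [Real.dist_eq, sub_sub_cancel_left, abs_neg, abs_of_pos hε]; exact hεδ)
  rw [Real.dist_eq] at hd
  simp only [hgE] at hd
  have hd' := (abs_lt.1 hd).1
  filter_upwards [hu] with d h1
  linarith

/-- convergence of the even moments for nonnegative test functions -/
theorem mom_of_sandV {K : ℝ} (hK : 0 < K) {Ω : Set Pl} {D : ℝ → Finset V}
    {f : Pl → ℝ} (h : SandV K Ω D f) (n : ℕ) :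
    Tendsto (md D f n) (𝓝[>] (0 : ℝ)) (𝓝 (gm n * (K * En Ω f) ^ n)) := by
  rw [Metric.tendsto_nhds]
  intro e he
  filter_upwards [le_of_upN hK (h n).1 (half_pos he), ge_of_loN hK (h n).2 (half_pos he)] with δ h1 h2
  rw [Real.dist_eq, abs_lt]
  constructor <;> linarith

/-- the continuum part in one statement, general form -/
theorem law_of_sandV {K : ℝ} (hK : 0 < K) {Ω : Set Pl} (hΩ : IsOpen Ω) (hb : Bornology.IsBounded Ω)
    {D : ℝ → Finset V} (hD : ∀ᶠ δ in 𝓝[>] (0 : ℝ), BdryPar (D δ) 0)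
    (h : ∀ f, Tst Ω f → (∀ z, 0 ≤ f z) → SandV K Ω D f)
    {m : ℕ} (f : Fin m → Pl → ℝ) (hf : ∀ j, Tst Ω (f j)) :
    (gramD K Ω f).PosSemidef ∧ ∀ φ : EuclideanSpace ℝ (Fin m) → ℝ, Continuous φ →
      (∃ (C : ℝ) (k : ℕ), ∀ x, |φ x| ≤ C * (1 + ‖x‖) ^ k) →
      Integrable φ (multivariateGaussian 0 (gramD K Ω f)) ∧
        Tendsto (fun δ => avg (Om (D δ)) (fun h => φ (WithLp.toLp 2 fun j => prD δ (f j) (D δ) h)))
          (𝓝[>] (0 : ℝ)) (𝓝 (∫ x, φ x ∂(multivariateGaussian 0 (gramD K Ω f)))) :=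
  law_of_mom hK hΩ hb hD (fun f hf h0 n => mom_of_sandV hK (h f hf h0) n) f hf

/-- comparison for an average of functionals: if near the boundary of `W` the average of the covariances with
`f` is at most `b`, then one of the environments has `L X_f² ≤ K En_W(f) + b ∫ f` -/
theorem upper_avg {N : ℕ} (hN : 0 < N) {I : Fin N → Type} {W : Set Pl} {K : ℝ} (M : ∀ j, Env (I j) W K)
    (hW : IsOpen W) (hK : 0 < K) {f : Pl → ℝ} (hf : Tst W f) (h0 : ∀ z, 0 ≤ f z) {b : ℝ} (hb : 0 ≤ b)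
    {Q : Set Pl} (hQ : IsCompact Q) (hQW : Q ⊆ W)
    (hbd : ∀ η, Tst (W \ Q) η → (∀ z, 0 ≤ η z) →
      ∑ j, (M j).L (fun i => (M j).X f i * (M j).X η i) ≤ N * (b * ∫ z, η z)) :
    ∃ j, (M j).L (fun i => (M j).X f i ^ 2) ≤ K * En W f + b * ∫ z, f z := by
  have hN' : (0 : ℝ) < N := by exact_mod_cast hN
  set T : (Pl → ℝ) → ℝ := fun g => (∑ j, (M j).L (fun i => (M j).X f i * (M j).X g i)) / N with hT
  obtain ⟨μ, hμ, hTμ⟩ := exists_meas T
    (fun g h hg hh => by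
      simp only [hT]
      rw [← add_div, ← Finset.sum_add_distrib]
      congr 1
      refine Finset.sum_congr rfl fun j _ => ?_
      have e : (fun i => (M j).X f i * (M j).X (fun z => g z + h z) i) =
          fun i => (M j).X f i * (M j).X g i + (M j).X f i * (M j).X h i := by
        funext i
        rw [(M j).X_add g h hg hh i]
        ring
      rw [e]
      exact (M j).L_add _ _ ((M j).ok_mul _ _ ((M j).ok_X f hf.toCc) ((M j).ok_X g hg))
        ((M j).ok_mul _ _ ((M j).ok_X f hf.toCc) ((M j).ok_X h hh)))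
    (fun c g hg => by
      simp only [hT]
      rw [← mul_div_assoc, Finset.mul_sum]
      congr 1
      refine Finset.sum_congr rfl fun j _ => ?_
      have e : (fun i => (M j).X f i * (M j).X (fun z => c * g z) i) =
          fun i => c * ((M j).X f i * (M j).X g i) := by
        funext i
        rw [(M j).X_smul c g hg i]
        ring
      rw [e]
      exact (M j).L_smul c _ ((M j).ok_mul _ _ ((M j).ok_X f hf.toCc) ((M j).ok_X g hg)))
    (fun g hg hg0 => div_nonneg (Finset.sum_nonneg fun j _ => (M j).pos f g hf.toCc hg h0 hg0) hN'.le)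
  have h1 : ∫ z, f z ∂μ ≤ K * En W f + b * ∫ z, f z := by
    refine cmp_meas μ hW hK hf h0 (fun φ hφ => ?_) hb hQ hQW (fun η hη hη0 => ?_)
      ((M ⟨0, hN⟩).lower hK hf).1
    · rw [← hTμ (lap φ) ⟨EN.lap_smooth hφ.smooth, EN.lap_supp hφ.supp⟩]
      simp only [hT]
      rw [Finset.sum_congr rfl fun j _ => (M j).cov_lap hφ hf]
      simp only [Finset.sum_const, Finset.card_univ, Fintype.card_fin, nsmul_eq_mul]
      field_simp
    · rw [← hTμ η hη.toCc]
      simp only [hT]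
      rw [div_le_iff₀ hN', mul_comm]
      exact hbd η hη hη0
  rw [← hTμ f hf.toCc] at h1
  simp only [hT] at h1
  rw [div_le_iff₀ hN'] at h1
  by_contra hcon
  push Not at hcon
  have h2 : ∑ _j : Fin N, (K * En W f + b * ∫ z, f z) <
      ∑ j, (M j).L (fun i => (M j).X f i * (M j).X f i) := by
    refine Finset.sum_lt_sum_of_nonempty ⟨⟨0, hN⟩, Finset.mem_univ _⟩ fun j _ => ?_
    have := hcon j
    simp only [sq] at this
    exact this
  simp only [Finset.sum_const, Finset.card_univ, Fintype.card_fin, nsmul_eq_mul] at h2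
  linarith [mul_comm (N : ℝ) (K * En W f + b * ∫ z, f z)]

/-- the form with walls -/
theorem sandV_of_sand {K : ℝ} (hK : 0 < K) {Ω : Set Pl} {D : ℝ → Finset V} {f : Pl → ℝ}
    (h0 : ∀ z, 0 ≤ f z) (h : Sand K Ω D f) : SandV K Ω D f := by
  obtain ⟨C, hC⟩ := h
  have hI : 0 ≤ ∫ z, f z := integral_nonneg h0
  have main : ∀ n, ∀ ε > 0, ∀ U : Ultrafilter ℝ, (U : Filter ℝ) ≤ 𝓝[>] 0 →
      UpN K Ω D f n C ε U ∧ LoN K Ω D f n C ε U := by
    intro n ε hε U hU
    set ε' : ℝ := min ε (ε / ((∫ z, f z) + 1)) with hε'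
    have hp : 0 < ε' := lt_min hε (div_pos hε (by linarith))
    have h1 : ε' ≤ ε := min_le_left _ _
    have h2 : ε' * ((∫ z, f z) + 1) ≤ ε := by
      have := min_le_right ε (ε / ((∫ z, f z) + 1))
      rwa [← hε', le_div_iff₀ (by linarith)] at this
    have key : ∀ (b : ℝ), b ≤ ε' → b * ∫ z, f z ≤ ε := by
      intro b hb
      have h3 : b * ∫ z, f z ≤ ε' * ∫ z, f z := mul_le_mul_of_nonneg_right hb hI
      nlinarith
    obtain ⟨⟨I1, W1, M1, b1, hW1, hf1, hwall1, hb1, hE1, hC1, hu⟩,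
      ⟨I2, W2, M2, b2, hW2, hf2, hwall2, hb2, hE2, hC2, hl⟩⟩ := hC ε' hp U hU
    refine ⟨⟨I1, W1, M1, hf1, ?_, by linarith, hC1, hu n ε hε⟩,
      ⟨I2, W2, M2, hf2, ?_, by linarith, hC2, hl n ε hε⟩⟩
    · have := M1.upper hW1 hK hf1 h0 hwall1
      have := key b1 hb1
      linarith
    · have := M2.upper hW2 hK hf2 h0 hwall2
      have := key b2 hb2
      linarith
  exact fun n => ⟨⟨C, fun ε hε U hU => (main n ε hε U hU).1⟩, ⟨C, fun ε hε U hU => (main n ε hε U hU).2⟩⟩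

end GF
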