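import Pool.Agent.Helper41.DV.E1

/-!
E2a.  The energy is finite in bounded sets.
-/

open MeasureTheory Filter Topology

namespace GF

private lemma E2a_dx_cont {u : Pl → ℝ} (hu : Cc u) : Continuous (dx u) :=
  (EN.dx_smooth hu.smooth).continuous

private lemma E2a_dy_cont {u : Pl → ℝ} (hu : Cc u) : Continuous (dy u) :=
  (EN.dy_smooth hu.smooth).continuous

private lemma E2a_dx_supp {u : Pl → ℝ} (hu : Cc u) : HasCompactSupport (dx u) :=
  EN.dx_supp hu.supp

private lemma E2a_dy_supp {u : Pl → ℝ} (hu : Cc u) : HasCompactSupport (dy u) :=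
  EN.dy_supp hu.supp

/-- squares of continuous functions of compact support are integrable -/
private lemma E2a_sq_int {g : Pl → ℝ} (hg : Continuous g) (hs : HasCompactSupport g) :
    Integrable (fun z => g z ^ 2) := by
  have h : Integrable (fun z => g z * g z) :=
    (hg.mul hg).integrable_of_hasCompactSupport hs.mul_left
  refine h.congr (Eventually.of_forall fun z => ?_)
  simp only [sq]

/-- `∫ u² = -∫ 2 x u ∂₁u` -/
private lemma E2a_parts {u : Pl → ℝ} (hu : Cc u) :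
    ∫ z : Pl, u z ^ 2 = ∫ z : Pl, -(2 * z.1 * u z * dx u z) := by
  have hsm : ContDiff ℝ (⊤ : ℕ∞) (fun z : Pl => u z * u z) := hu.smooth.mul hu.smooth
  have hsu : HasCompactSupport (fun z : Pl => u z * u z) := hu.supp.mul_left
  have hφ : ContDiff ℝ (⊤ : ℕ∞) (fun z : Pl => z.1) := contDiff_fst
  have h := EN.parts_x hφ hsm hsu
  have e1 : ∀ z : Pl, EN.dx (fun z : Pl => z.1) z = 1 := by
    intro z
    have : fderiv ℝ (fun z : Pl => z.1) z = ContinuousLinearMap.fst ℝ ℝ ℝ := fderiv_fst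
    simp [EN.dx, this]
  have e2 : ∀ z : Pl, EN.dx (fun z : Pl => u z * u z) z = 2 * u z * dx u z := by
    intro z
    have hd : DifferentiableAt ℝ u z := hu.smooth.differentiable (by simp) z
    have : fderiv ℝ (fun z : Pl => u z * u z) z = u z • fderiv ℝ u z + u z • fderiv ℝ u z :=
      fderiv_fun_mul hd hd
    simp only [EN.dx, this, dx, ContinuousLinearMap.add_apply, ContinuousLinearMap.smul_apply, smul_eq_mul]
    ring
  rw [integral_neg]
  have h1 : ∫ z : Pl, z.1 * EN.dx (fun z : Pl => u z * u z) z = ∫ z : Pl, 2 * z.1 * u z * dx u z := by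
    refine integral_congr_ae (Eventually.of_forall fun z => ?_)
    simp only [e2]
    ring
  have h2 : ∫ z : Pl, EN.dx (fun z : Pl => z.1) z * (u z * u z) = ∫ z : Pl, u z ^ 2 := by
    refine integral_congr_ae (Eventually.of_forall fun z => ?_)
    simp only [e1]
    ring
  rw [← h1, h, h2, neg_neg]

/-- Poincare inequality: `u(x,y)² ≤ 2R ∫ (∂₁u)²(t,y) dt` for `u` supported in `[-R,R]²`, hence `∫ u² ≤ 4R² dir u` -/
theorem poincare {R : ℝ} (hR : 0 ≤ R) {u : Pl → ℝ} (hu : Cc u)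
    (hs : ∀ z : Pl, u z ≠ 0 → |z.1| ≤ R ∧ |z.2| ≤ R) : ∫ z, u z ^ 2 ≤ 4 * R ^ 2 * dir u := by
  have iu : Integrable (fun z => u z ^ 2) := E2a_sq_int hu.smooth.continuous hu.supp
  have ix : Integrable (fun z => dx u z ^ 2) := E2a_sq_int (E2a_dx_cont hu) (E2a_dx_supp hu)
  have iy : Integrable (fun z => dy u z ^ 2) := E2a_sq_int (E2a_dy_cont hu) (E2a_dy_supp hu)
  have im : Integrable (fun z : Pl => -(2 * z.1 * u z * dx u z)) := by
    have hc : Continuous (fun z : Pl => -(2 * z.1 * u z * dx u z)) := by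
      have c1 := E2a_dx_cont hu
      have c2 := hu.smooth.continuous
      fun_prop
    refine hc.integrable_of_hasCompactSupport ?_
    have h1 : HasCompactSupport (fun z : Pl => (2 * z.1 * u z) * dx u z) := (E2a_dx_supp hu).mul_left
    exact h1.neg
  have hpt : ∀ z : Pl, -(2 * z.1 * u z * dx u z) ≤ 1 / 2 * u z ^ 2 + 2 * R ^ 2 * dx u z ^ 2 := by
    intro z
    by_cases h0 : u z = 0
    · rw [h0]
      have : 0 ≤ 2 * R ^ 2 * dx u z ^ 2 := by positivity
      nlinarith [this]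
    · have hz := (hs z h0).1
      have hz2 : z.1 ^ 2 ≤ R ^ 2 := by
        rw [← sq_abs z.1]
        exact pow_le_pow_left₀ (abs_nonneg _) hz 2
      have h1 : 0 ≤ (u z + 2 * z.1 * dx u z) ^ 2 := sq_nonneg _
      have h2 : z.1 ^ 2 * dx u z ^ 2 ≤ R ^ 2 * dx u z ^ 2 :=
        mul_le_mul_of_nonneg_right hz2 (sq_nonneg _)
      nlinarith [h1, h2]
  have hI : ∫ z : Pl, u z ^ 2 ≤ ∫ z : Pl, (1 / 2 * u z ^ 2 + 2 * R ^ 2 * dx u z ^ 2) := by
    rw [E2a_parts hu]
    exact integral_mono im ((iu.const_mul _).add (ix.const_mul _)) hpt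
  have hsplit : ∫ z : Pl, (1 / 2 * u z ^ 2 + 2 * R ^ 2 * dx u z ^ 2) =
      1 / 2 * (∫ z : Pl, u z ^ 2) + 2 * R ^ 2 * (∫ z : Pl, dx u z ^ 2) := by
    rw [integral_add (iu.const_mul _) (ix.const_mul _), integral_const_mul, integral_const_mul]
  have hdir : dir u = (∫ z : Pl, dx u z ^ 2) + ∫ z : Pl, dy u z ^ 2 := by
    unfold dir
    exact integral_add ix iy
  have hy : 0 ≤ ∫ z : Pl, dy u z ^ 2 := integral_nonneg fun _ => sq_nonneg _
  rw [hsplit] at hI
  have hR2 : 0 ≤ 4 * R ^ 2 * ∫ z : Pl, dy u z ^ 2 := by positivity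
  rw [hdir]
  nlinarith [hI, hR2]

/-- from `poincare`: `2 ∫ f u - dir u ≤ 4R² ∫ f²` -/
theorem bdd_JJ {W : Set Pl} (hW : Bornology.IsBounded W) {f : Pl → ℝ} (hf : Cc f) :
    BddAbove {a | ∃ u, Tst W u ∧ a = JJ f u} := by
  obtain ⟨R₀, hR₀⟩ := hW.subset_closedBall (0 : Pl)
  set R : ℝ := max R₀ 1 with hRdef
  have hR1 : 1 ≤ R := le_max_right _ _
  have hRpos : 0 < R := lt_of_lt_of_le one_pos hR1
  refine ⟨4 * R ^ 2 * ∫ z, f z ^ 2, ?_⟩
  rintro a ⟨u, hu, rfl⟩
  have hs : ∀ z : Pl, u z ≠ 0 → |z.1| ≤ R ∧ |z.2| ≤ R := by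
    intro z hz
    have hzW : z ∈ W := hu.sub (subset_tsupport u hz)
    have hzB := hR₀ hzW
    rw [Metric.mem_closedBall, dist_zero_right] at hzB
    have hzR : ‖z‖ ≤ R := hzB.trans (le_max_left _ _)
    constructor
    · exact (Real.norm_eq_abs z.1 ▸ norm_fst_le z).trans hzR
    · exact (Real.norm_eq_abs z.2 ▸ norm_snd_le z).trans hzR
  have hP := poincare hRpos.le hu.toCc hs
  have iu : Integrable (fun z => u z ^ 2) := E2a_sq_int hu.smooth.continuous hu.supp
  have iF : Integrable (fun z => f z ^ 2) := E2a_sq_int hf.smooth.continuous hf.supp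
  have ifu : Integrable (fun z => f z * u z) :=
    (hf.smooth.continuous.mul hu.smooth.continuous).integrable_of_hasCompactSupport hu.supp.mul_left
  have hpt : ∀ z : Pl, 2 * (f z * u z) ≤ 4 * R ^ 2 * f z ^ 2 + 1 / (4 * R ^ 2) * u z ^ 2 := by
    intro z
    have h1 : 0 ≤ (2 * R * f z - 1 / (2 * R) * u z) ^ 2 := sq_nonneg _
    have h2 : (2 * R * f z - 1 / (2 * R) * u z) ^ 2 =
        4 * R ^ 2 * f z ^ 2 + 1 / (4 * R ^ 2) * u z ^ 2 - 2 * (f z * u z) := by
      field_simp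
      ring
    linarith
  have hI : ∫ z : Pl, 2 * (f z * u z) ≤ ∫ z : Pl, (4 * R ^ 2 * f z ^ 2 + 1 / (4 * R ^ 2) * u z ^ 2) :=
    integral_mono (ifu.const_mul _) ((iF.const_mul _).add (iu.const_mul _)) hpt
  rw [integral_const_mul, integral_add (iF.const_mul _) (iu.const_mul _), integral_const_mul,
    integral_const_mul] at hI
  have hq : 1 / (4 * R ^ 2) * (∫ z : Pl, u z ^ 2) ≤ dir u := by
    have h4 : 0 < 4 * R ^ 2 := by positivity
    calc 1 / (4 * R ^ 2) * (∫ z : Pl, u z ^ 2) ≤ 1 / (4 * R ^ 2) * (4 * R ^ 2 * dir u) :=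
          mul_le_mul_of_nonneg_left hP (by positivity)
      _ = dir u := by
          field_simp
  unfold JJ
  linarith

end GF
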