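import Pool.Agent.Helper41.DV.E3

/-!
E3b.  Lower bound for the variance, characters close to the Gaussian ones.
-/

open MeasureTheory Filter Topology

namespace GF

variable {I : Type} {W : Set Pl} {K : ℝ}

private lemma E3b_cc {f u : Pl → ℝ} (hf : Tst W f) (hu : Tst W u) : Cc (fun z => f z + lap u z) :=
  ⟨hf.smooth.add (EN.lap_smooth hu.smooth), hf.supp.add (EN.lap_supp hu.supp)⟩

private lemma E3b_zero (f : Pl → ℝ) : JJ f (fun _ => 0) = 0 := by
  have h1 : dir (fun _ => (0 : ℝ)) = 0 := by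
    simp [dir, dx, dy]
  simp only [JJ, h1, mul_zero, integral_zero, sub_zero]

private lemma E3b_key (M : Env I W K) (hK : 0 < K) {f : Pl → ℝ} (hf : Tst W f) :
    ∀ a ∈ {a | ∃ u, Tst W u ∧ a = JJ f u}, a ≤ M.L (fun i => M.X f i ^ 2) / K := by
  rintro a ⟨u, hu, rfl⟩
  rw [le_div_iff₀ hK]
  have h := M.two_shift hu hf
  have h2 := M.toLim.L_nonneg _ (M.ok_sq (E3b_cc hf hu)) (fun i => sq_nonneg _)
  linarith

private lemma E3b_ne (W : Set Pl) (f : Pl → ℝ) : {a | ∃ u, Tst W u ∧ a = JJ f u}.Nonempty :=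
  ⟨_, fun _ => 0, tst_zero W, rfl⟩

private lemma E3b_cos (M : Env I W K) {g : Pl → ℝ} (hg : Cc g) :
    M.L (fun i => Real.cos (M.X g i)) ≤ 1 ∧
      1 - M.L (fun i => M.X g i ^ 2) / 2 ≤ M.L (fun i => Real.cos (M.X g i)) := by
  have hok : M.Ok (fun i => Real.cos (M.X g i)) :=
    M.toLim.ok_bdd _ 1 (fun i => Real.abs_cos_le_one _)
  have h2 := M.ok_sq hg
  constructor
  · have h := M.toLim.L_mono _ (fun _ => 1) hok (M.toLim.ok_const 1) (fun i => Real.cos_le_one _)
    rwa [M.toLim.L_one] at h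
  · have hB : M.Ok (fun i => (1 / 2 : ℝ) * M.X g i ^ 2) := M.toLim.ok_smul _ _ h2
    have h := M.toLim.L_mono (fun i => 1 - 1 / 2 * M.X g i ^ 2) _
      (M.toLim.ok_sub _ _ (M.toLim.ok_const 1) hB) hok (fun i => by
        have := Real.one_sub_sq_div_two_le_cos (x := M.X g i)
        linarith)
    rw [M.toLim.L_sub _ _ (M.toLim.ok_const 1) hB, M.toLim.L_one, M.toLim.L_smul _ _ h2] at h
    linarith

/-- `≤` from `two_shift`; in particular the supremum is finite -/
theorem Env.lower (M : Env I W K) (hK : 0 < K) {f : Pl → ℝ} (hf : Tst W f) :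
    BddAbove {a | ∃ u, Tst W u ∧ a = JJ f u} ∧ K * En W f ≤ M.L (fun i => M.X f i ^ 2) := by
  refine ⟨⟨_, E3b_key M hK hf⟩, ?_⟩
  have h := csSup_le (E3b_ne W f) (E3b_key M hK hf)
  rw [le_div_iff₀ hK] at h
  unfold En
  linarith

/-- `shift`: `L cos X_f = exp(-(K/2) J_f(u)) L cos X_{f+Δu}`, `1 - L X_{f+Δu}²/2 ≤ L cos X_{f+Δu} ≤ 1`,
`L X_{f+Δu}² = L X_f² - K J_f(u)` (`two_shift`); supremum over `u` -/
theorem Env.char (M : Env I W K) (hK : 0 < K) {f : Pl → ℝ} (hf : Tst W f) :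
    |M.L (fun i => Real.cos (M.X f i)) - Real.exp (-(K * En W f / 2))| ≤
      (M.L (fun i => M.X f i ^ 2) - K * En W f) / 2 := by
  obtain ⟨hb, hl⟩ := M.lower hK hf
  obtain ⟨a, -, ha, hmem⟩ := exists_seq_tendsto_sSup (E3b_ne W f) hb
  have he : sSup {a | ∃ u, Tst W u ∧ a = JJ f u} = En W f := rfl
  rw [he] at ha
  have he0 : 0 ≤ En W f := le_csSup hb ⟨fun _ => 0, tst_zero W, (E3b_zero f).symm⟩
  have both : ∀ n, M.L (fun i => Real.cos (M.X f i)) ≤ Real.exp (-(K * a n / 2)) ∧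
      Real.exp (-(K * a n / 2)) * (1 - (M.L (fun i => M.X f i ^ 2) - K * a n) / 2) ≤
        M.L (fun i => Real.cos (M.X f i)) := by
    intro n
    obtain ⟨u, hu, hun⟩ := hmem n
    have h1 := M.shift u f hu hf
    have h2 := M.two_shift hu hf
    obtain ⟨h3, h4⟩ := E3b_cos M (E3b_cc hf hu)
    have e1 : -(K / 2 * JJ f u) = -(K * a n / 2) := by
      rw [hun]
      ring
    rw [e1] at h1
    have hp : 0 < Real.exp (-(K * a n / 2)) := Real.exp_pos _
    constructor
    · rw [h1]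
      calc Real.exp (-(K * a n / 2)) * M.L (fun i => Real.cos (M.X (fun z => f z + lap u z) i))
          ≤ Real.exp (-(K * a n / 2)) * 1 := mul_le_mul_of_nonneg_left h3 hp.le
        _ = Real.exp (-(K * a n / 2)) := mul_one _
    · rw [h1]
      refine mul_le_mul_of_nonneg_left ?_ hp.le
      rw [← hun] at h2
      linarith
  have hc : Tendsto (fun n => Real.exp (-(K * a n / 2))) atTop (𝓝 (Real.exp (-(K * En W f / 2)))) :=
    (Real.continuous_exp.tendsto _).comp (((ha.const_mul K).div_const 2).neg)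
  have hd : Tendsto (fun n => 1 - (M.L (fun i => M.X f i ^ 2) - K * a n) / 2) atTop
      (𝓝 (1 - (M.L (fun i => M.X f i ^ 2) - K * En W f) / 2)) :=
    ((((ha.const_mul K).const_sub _).div_const 2).const_sub 1)
  have up := ge_of_tendsto' hc (fun n => (both n).1)
  have lo := le_of_tendsto' (hc.mul hd) (fun n => (both n).2)
  have h1 : Real.exp (-(K * En W f / 2)) ≤ 1 := by
    apply Real.exp_le_one_iff.2
    have := mul_nonneg hK.le he0
    linarith
  have h0 : 0 < Real.exp (-(K * En W f / 2)) := Real.exp_pos _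
  rw [abs_le]
  constructor
  · nlinarith
  · linarith

end GF
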