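import Pool.Agent.Helper41.DV.E0

/-!
E5.  Mollification of a measure of the plane.
-/

open MeasureTheory Filter Topology

namespace GF

/-- mollifiers of radius `r` -/
structure Mol (r : ℝ) (η : Pl → ℝ) : Prop extends Cc η where
  nonneg : ∀ z, 0 ≤ η z
  int : ∫ z, η z = 1
  even : ∀ z, η (-z) = η z
  small : ∀ z, η z ≠ 0 → ‖z‖ < r

/-- `ContDiffBump` at the origin, `ContDiffBump.normed` -/
theorem exists_mol {r : ℝ} (hr : 0 < r) : ∃ η, Mol r η := by
  let f : ContDiffBump (0 : Pl) := ⟨r / 4, r / 2, by positivity, by linarith⟩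
  refine ⟨f.normed volume, ⟨⟨f.contDiff_normed, f.hasCompactSupport_normed⟩, f.nonneg_normed,
    f.integral_normed, f.normed_neg, fun z hz => ?_⟩⟩
  have h : z ∈ Function.support (f.normed volume) := hz
  rw [f.support_normed_eq, Metric.mem_ball, dist_zero_right] at h
  have h2 : f.rOut = r / 2 := rfl
  linarith

/-- the mollified measure -/
noncomputable def mol (μ : Measure Pl) (η : Pl → ℝ) (x : Pl) : ℝ := ∫ y, η (x - y) ∂μ

private lemma E5_fd {F : Pl → ℝ} (hF : Differentiable ℝ F) (x y v : Pl) :
    fderiv ℝ (fun y => F (x - y)) y v = -fderiv ℝ F (x - y) v := by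
  have h := (hF (x - y)).hasFDerivAt.comp y ((hasFDerivAt_id y).const_sub x)
  have e : (fun y => F (x - y)) = F ∘ (fun y => x - y) := rfl
  rw [e]
  rw [show fderiv ℝ (F ∘ fun y => x - y) y = _ from h.fderiv]
  simp

private lemma E5_diff {F : Pl → ℝ} (hF : ContDiff ℝ (⊤ : ℕ∞) F) (v : Pl) :
    Differentiable ℝ (fun z => fderiv ℝ F z v) := by
  have h : ContDiff ℝ (⊤ : ℕ∞) (fderiv ℝ F) := hF.fderiv_right (by simp)
  exact (h.clm_apply contDiff_const).differentiable (by simp)

private lemma E5_fd2 {F : Pl → ℝ} (hF : ContDiff ℝ (⊤ : ℕ∞) F) (x y v : Pl) :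
    fderiv ℝ (fun z => fderiv ℝ (fun y => F (x - y)) z v) y v =
      fderiv ℝ (fun z => fderiv ℝ F z v) (x - y) v := by
  have e : (fun z => fderiv ℝ (fun y => F (x - y)) z v) =
      fun z => (fun z => -fderiv ℝ F z v) (x - z) := by
    funext z
    exact E5_fd (hF.differentiable (by simp)) x z v
  have hd : Differentiable ℝ (fun z => -fderiv ℝ F z v) := fun z => ((E5_diff hF v) z).neg
  rw [e, E5_fd hd x y v, fderiv_fun_neg]
  simp

/-- translated mollifiers are test functions of `W` if the ball is in `W`; the Laplacian commutes with `y ↦ x - y` -/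
theorem mol_tst {W : Set Pl} {r : ℝ} {η : Pl → ℝ} (hη : Mol r η) {x : Pl} (hx : Metric.closedBall x r ⊆ W) :
    Tst W (fun y => η (x - y)) ∧ lap (fun y => η (x - y)) = fun y => lap η (x - y) := by
  have hs : Function.support (fun y => η (x - y)) ⊆ Metric.closedBall x r := by
    intro y hy
    have h := hη.small (x - y) hy
    rw [Metric.mem_closedBall, dist_comm, dist_eq_norm]
    exact h.le
  refine ⟨⟨⟨hη.smooth.comp (contDiff_const.sub contDiff_id),
    HasCompactSupport.of_support_subset_isCompact (isCompact_closedBall x r) hs⟩, ?_⟩, ?_⟩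
  · exact (closure_minimal hs Metric.isClosed_closedBall).trans hx
  · funext y
    show fderiv ℝ (fun z => fderiv ℝ (fun y => η (x - y)) z (1, 0)) y (1, 0) +
        fderiv ℝ (fun z => fderiv ℝ (fun y => η (x - y)) z (0, 1)) y (0, 1) =
      fderiv ℝ (fun z => fderiv ℝ η z (1, 0)) (x - y) (1, 0) +
        fderiv ℝ (fun z => fderiv ℝ η z (0, 1)) (x - y) (0, 1)
    rw [E5_fd2 hη.smooth, E5_fd2 hη.smooth]

theorem mol_nonneg (μ : Measure Pl) {r : ℝ} {η : Pl → ℝ} (hη : Mol r η) (x : Pl) : 0 ≤ mol μ η x :=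
  integral_nonneg fun _ => hη.nonneg _

/-- uniform continuity of `g` -/
theorem mol_approx {g : Pl → ℝ} (hg : Continuous g) (hgc : HasCompactSupport g) {ε : ℝ} (hε : 0 < ε) :
    ∃ r₀ > 0, ∀ r ≤ r₀, ∀ η, Mol r η → ∀ y,
      |(∫ x, η (x - y) * g x) - g y| ≤ ε ∧ |(∫ x, g x * η (y - x)) - g y| ≤ ε := by
  have hu : UniformContinuous g := hgc.uniformContinuous_of_continuous hg
  rw [Metric.uniformContinuous_iff] at hu
  obtain ⟨δ, hδ, h⟩ := hu ε hε
  refine ⟨δ, hδ, fun r hr η hη y => ?_⟩
  have h1 : |(∫ x, η (x - y) * g x) - g y| ≤ ε := by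
    have hc : Continuous η := hη.smooth.continuous
    have hi : Integrable (fun x => η (x - y)) :=
      (hc.integrable_of_hasCompactSupport hη.supp).comp_sub_right y
    have hone : ∫ x, η (x - y) = 1 := by
      rw [integral_sub_right_eq_self (fun x => η x) y]
      exact hη.int
    have hcg : Continuous (fun x => η (x - y) * g x) :=
      (hc.comp (continuous_id.sub continuous_const)).mul hg
    have hig : Integrable (fun x => η (x - y) * g x) :=
      hcg.integrable_of_hasCompactSupport hgc.mul_left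
    have e1 : (∫ x, η (x - y) * g x) - g y = ∫ x, η (x - y) * (g x - g y) := by
      have e2 : (fun x => η (x - y) * (g x - g y)) =
          fun x => η (x - y) * g x - η (x - y) * g y := by
        funext x
        ring
      rw [e2, integral_sub hig (hi.mul_const _), integral_mul_const, hone, one_mul]
    rw [e1]
    have e3 : ∫ x, η (x - y) * ε = ε := by
      rw [integral_mul_const, hone, one_mul]
    rw [← e3, ← Real.norm_eq_abs]
    refine (norm_integral_le_integral_norm _).trans ?_
    refine integral_mono_of_nonneg (Eventually.of_forall fun _ => norm_nonneg _)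
      (hi.mul_const _) (Eventually.of_forall fun x => ?_)
    show ‖η (x - y) * (g x - g y)‖ ≤ η (x - y) * ε
    rw [norm_mul, Real.norm_of_nonneg (hη.nonneg _)]
    rcases eq_or_ne (η (x - y)) 0 with h0 | h0
    · rw [h0, zero_mul, zero_mul]
    · refine mul_le_mul_of_nonneg_left ?_ (hη.nonneg _)
      have h2 : dist x y < δ := by
        rw [dist_eq_norm]
        exact (hη.small _ h0).trans_le hr
      have h3 := h h2
      rw [dist_eq_norm] at h3
      exact h3.le
  refine ⟨h1, ?_⟩
  have e : (∫ x, g x * η (y - x)) = ∫ x, η (x - y) * g x := by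
    congr 1
    funext x
    rw [← hη.even (y - x), neg_sub, mul_comm]
  rw [e]
  exact h1

end GF
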