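import Pool.Agent.Helper41.DV.E6

/-!
E6b.  The test function `ψ(q - b)/K`.
-/

open MeasureTheory Filter Topology

namespace GF

private lemma E6b_deriv {K b ε : ℝ} (hε : 0 < ε) {q : Pl → ℝ} (hq : ContDiff ℝ (⊤ : ℕ∞) q) (z v : Pl) :
    fderiv ℝ (fun z => psi ε (q z - b) / K) z v = deriv (psi ε) (q z - b) * fderiv ℝ q z v / K := by
  have h1 : HasFDerivAt (fun z => q z - b) (fderiv ℝ q z) z :=
    ((hq.differentiable (by simp)) z).hasFDerivAt.sub_const b
  have h2 : HasDerivAt (psi ε) (deriv (psi ε) (q z - b)) (q z - b) :=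
    (((psi_facts hε).1.differentiable (by simp)) _).hasDerivAt
  have h3 : HasFDerivAt (fun z => psi ε (q z - b)) (deriv (psi ε) (q z - b) • fderiv ℝ q z) z :=
    HasDerivAt.comp_hasFDerivAt (h₂ := psi ε) (f := fun z => q z - b) z h2 h1
  have h4 : HasFDerivAt (fun z => psi ε (q z - b) / K)
      (K⁻¹ • (deriv (psi ε) (q z - b) • fderiv ℝ q z)) z := by
    have := h3.const_mul K⁻¹
    refine this.congr_of_eventuallyEq (Eventually.of_forall fun x => ?_)
    simp only [div_eq_inv_mul]
  rw [h4.fderiv]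
  simp only [smul_apply, smul_eq_mul]
  ring

private lemma E6b_alg {K d a c x y : ℝ} (hK : 0 < K) (hd0 : 0 ≤ d) (hd1 : d ≤ 1)
    (hx : x = d * a / K) (hy : y = d * c / K) :
    x ^ 2 + y ^ 2 ≤ K⁻¹ * (a * x + c * y) := by
  subst hx hy
  have h : K⁻¹ * (a * (d * a / K) + c * (d * c / K)) - ((d * a / K) ^ 2 + (d * c / K) ^ 2) =
      (d * (1 - d)) * (a ^ 2 + c ^ 2) / K ^ 2 := by
    field_simp
  have h2 : 0 ≤ (d * (1 - d)) * (a ^ 2 + c ^ 2) / K ^ 2 := by
    have : 0 ≤ 1 - d := by linarith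
    positivity
  linarith

/-- `u = ψ_ε(q - b)/K` on `W`, `0` outside.  On the open set `Qᶜ` it is `0`, on the open set `W` it is smooth, so
`tsupport u ⊆ Q`.  `|∇u|² = ψ'² |∇q|²/K² ≤ ψ' |∇q|²/K² = ∇q·∇u/K` pointwise, and
`∫ ∇q·∇u = -∫ u Δq = K ∫ F u` (`EN.parts_x`, `EN.parts_y`). -/
theorem key_test {K b ε : ℝ} (hK : 0 < K) (hb : 0 ≤ b) (hε : 0 < ε) {W Q : Set Pl} (hW : IsOpen W)
    (hQ : IsCompact Q) (hQW : Q ⊆ W) {q F : Pl → ℝ} (hq : ContDiff ℝ (⊤ : ℕ∞) q) (hq0 : ∀ z, 0 ≤ q z)
    (hqb : ∀ z ∈ W \ Q, q z ≤ b) (hlap : ∀ z ∈ W, lap q z = -(K * F z)) :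
    ∃ u, Tst W u ∧ (∀ z, 0 ≤ u z) ∧ (∀ z ∉ Q, u z = 0) ∧ (∀ z, K * u z ≤ q z) ∧
      (∀ z ∈ W, q z - b - ε ≤ K * u z) ∧ dir u ≤ ∫ z, F z * u z := by
  classical
  obtain ⟨ps, p0, pn, pl, pu, pd⟩ := psi_facts hε
  set V : Pl → ℝ := fun z => psi ε (q z - b) / K with hV
  have hVs : ContDiff ℝ (⊤ : ℕ∞) V := (ps.comp (hq.sub contDiff_const)).div_const K
  set u : Pl → ℝ := fun z => if z ∈ W then V z else 0 with hu
  have hQc : IsOpen Qᶜ := hQ.isClosed.isOpen_compl
  have uW : ∀ z ∈ W, u z = V z := fun z hz => if_pos hz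
  have uQ : ∀ z ∉ Q, u z = 0 := by
    intro z hz
    by_cases hzW : z ∈ W
    · rw [uW z hzW, hV]
      simp only
      rw [p0 _ (by linarith [hqb z ⟨hzW, hz⟩]), zero_div]
    · exact if_neg hzW
  have eW : ∀ z ∈ W, u =ᶠ[𝓝 z] V := fun z hz => by
    filter_upwards [hW.mem_nhds hz] with y hy using uW y hy
  have eQ : ∀ z ∉ Q, u =ᶠ[𝓝 z] fun _ => 0 := fun z hz => by
    filter_upwards [hQc.mem_nhds hz] with y hy using uQ y hy
  have us : ContDiff ℝ (⊤ : ℕ∞) u := by
    rw [contDiff_iff_contDiffAt]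
    intro z
    by_cases hz : z ∈ W
    · exact hVs.contDiffAt.congr_of_eventuallyEq (eW z hz)
    · exact contDiffAt_const.congr_of_eventuallyEq (eQ z fun h => hz (hQW h))
  have ut : tsupport u ⊆ Q := by
    refine closure_minimal (fun z hz => ?_) hQ.isClosed
    by_contra h
    exact hz (uQ z h)
  have uc : HasCompactSupport u := hQ.of_isClosed_subset (isClosed_tsupport u) ut
  have u0 : ∀ z, 0 ≤ u z := by
    intro z
    by_cases hz : z ∈ W
    · rw [uW z hz]
      exact div_nonneg (pn _) hK.le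
    · exact (uQ z fun h => hz (hQW h)).ge
  have uK : ∀ z ∈ W, K * u z = psi ε (q z - b) := by
    intro z hz
    rw [uW z hz, hV]
    simp only
    field_simp
  refine ⟨u, ⟨⟨us, uc⟩, ut.trans hQW⟩, u0, uQ, ?_, ?_, ?_⟩
  · intro z
    by_cases hz : z ∈ W
    · rw [uK z hz]
      rcases le_total (q z - b) 0 with h | h
      · rw [p0 _ h]
        exact hq0 z
      · linarith [pu _ h]
    · rw [uQ z fun h => hz (hQW h), mul_zero]
      exact hq0 z
  · intro z hz
    rw [uK z hz]
    exact pl _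
  · have hpt : ∀ z, dx u z ^ 2 + dy u z ^ 2 ≤ K⁻¹ * (dx q z * dx u z + dy q z * dy u z) := by
      intro z
      by_cases hz : z ∈ W
      · refine E6b_alg hK (pd (q z - b)).1 (pd (q z - b)).2 ?_ ?_
        · rw [dx, (eW z hz).fderiv_eq, hV, E6b_deriv hε hq z]
          rfl
        · rw [dy, (eW z hz).fderiv_eq, hV, E6b_deriv hε hq z]
          rfl
      · have h := (eQ z fun h => hz (hQW h)).fderiv_eq (𝕜 := ℝ)
        have h1 : dx u z = 0 := by rw [dx, h]; simp
        have h2 : dy u z = 0 := by rw [dy, h]; simp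
        rw [h1, h2]
        simp
    have ux : ContDiff ℝ (⊤ : ℕ∞) (dx u) := EN.dx_smooth us
    have uy : ContDiff ℝ (⊤ : ℕ∞) (dy u) := EN.dy_smooth us
    have ucx : HasCompactSupport (dx u) := EN.dx_supp uc
    have ucy : HasCompactSupport (dy u) := EN.dy_supp uc
    have qx : ContDiff ℝ (⊤ : ℕ∞) (dx q) := EN.dx_smooth hq
    have qy : ContDiff ℝ (⊤ : ℕ∞) (dy q) := EN.dy_smooth hq
    have i1 : Integrable fun z => dx q z * dx u z :=
      (qx.continuous.mul ux.continuous).integrable_of_hasCompactSupport ucx.mul_left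
    have i2 : Integrable fun z => dy q z * dy u z :=
      (qy.continuous.mul uy.continuous).integrable_of_hasCompactSupport ucy.mul_left
    have j1 : Integrable fun z => dx u z ^ 2 := by
      have : Integrable fun z => dx u z * dx u z :=
        (ux.continuous.mul ux.continuous).integrable_of_hasCompactSupport ucx.mul_left
      simpa only [sq] using this
    have j2 : Integrable fun z => dy u z ^ 2 := by
      have : Integrable fun z => dy u z * dy u z :=
        (uy.continuous.mul uy.continuous).integrable_of_hasCompactSupport ucy.mul_left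
      simpa only [sq] using this
    have k1 : Integrable fun z => dx (dx q) z * u z :=
      ((show ContDiff ℝ (⊤ : ℕ∞) (dx (dx q)) from EN.dx_smooth qx).continuous.mul
        us.continuous).integrable_of_hasCompactSupport uc.mul_left
    have k2 : Integrable fun z => dy (dy q) z * u z :=
      ((show ContDiff ℝ (⊤ : ℕ∞) (dy (dy q)) from EN.dy_smooth qy).continuous.mul
        us.continuous).integrable_of_hasCompactSupport uc.mul_left
    have p1 : ∫ z, dx q z * dx u z = -∫ z, dx (dx q) z * u z := EN.parts_x qx us uc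
    have p2 : ∫ z, dy q z * dy u z = -∫ z, dy (dy q) z * u z := EN.parts_y qy us uc
    calc dir u ≤ ∫ z, K⁻¹ * (dx q z * dx u z + dy q z * dy u z) :=
          integral_mono (j1.add j2) ((i1.add i2).const_mul _) hpt
      _ = K⁻¹ * ∫ z, -(dx (dx q) z * u z + dy (dy q) z * u z) := by
          rw [integral_const_mul, integral_add i1 i2, p1, p2, integral_neg, integral_add k1 k2]
          ring
      _ = K⁻¹ * ∫ z, K * (F z * u z) := by
          congr 1
          refine integral_congr_ae (Eventually.of_forall fun z => ?_)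
          simp only
          by_cases hz : z ∈ W
          · have h := hlap z hz
            rw [lap] at h
            have : dx (dx q) z * u z + dy (dy q) z * u z = -(K * F z) * u z := by
              rw [← h]; ring
            rw [this]
            ring
          · rw [uQ z fun h => hz (hQW h)]
            simp
      _ = ∫ z, F z * u z := by
          rw [integral_const_mul, ← mul_assoc, inv_mul_cancel₀ hK.ne', one_mul]

end GF
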