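import Pool.Agent.Helper41.DV.E5b
import Pool.Agent.Helper41.DV.E6b

/-!
E7.  The comparison lemma.
-/

open MeasureTheory Filter Topology

namespace GF

private theorem E7_conv_cont {f η : Pl → ℝ} (hf : Continuous f) (hη : Cc η) :
    Continuous (fun x => ∫ z, f z * η (x - z)) := by
  have h := hη.supp.continuous_convolution_right (ContinuousLinearMap.lsmul ℝ ℝ) (μ := volume)
    hf.locallyIntegrable hη.smooth.continuous
  exact h

private theorem E7_int_sub (η : Pl → ℝ) (x : Pl) : ∫ z, η (x - z) = ∫ z, η z :=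
  integral_sub_left_eq_self η volume x

/--
Comparison lemma.  A positive measure `μ` with `Δμ = -K f` in `W` (`f ≥ 0`) and density at most `b` near the
boundary of `W` has `∫ f dμ ≤ K En_W(f) + b ∫ f`.

Proof.  Replace `Q` by `Q ∪ tsupport f`.  Let `r` be small, `W' = (cthickening r Wᶜ)ᶜ` (open; `closedBall x r ⊆ W` for
`x ∈ W'`), `Q' = cthickening r Q` (compact, contained in `W'` for small `r`, `IsCompact.exists_cthickening_subset_open`),
`η` a mollifier of radius `r`, `q = mol μ η`, `F x = ∫ f y η(x-y) dy`.  For `x ∈ W' \ Q'` the ball is in `W \ Q`, so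
`q x ≤ b` (`mol_tst`, `hbd`, `∫ η = 1`); for `x ∈ W'` `lap q x = -K F x` (`lap_mol`, `mol_tst`, `hlap`).  `key_test` for
`W'`, `Q'`, `ε` gives `u`, a test function of `W`, and
`K En_W(f) ≥ K JJ f u ≥ 2 K ∫ f u - K ∫ F u = K ∫ f u + K ∫ (f-F) u ≥ ∫ f (q - b - ε) - sup|f - F| ∫_{Q'} q`.
`∫_{Q'} q ≤ ∫ g q ≤ μ(Z) ` for a cutoff `g ≥ 1_{Q'}` and a fixed compact `Z` (`mol_fub`), `∫ f q ≥ ∫ f dμ - ω μ(Z)`
(`mol_fub`, `mol_approx`).  Let `r → 0`, `ε → 0`.
-/
theorem cmp_meas (μ : Measure Pl) [IsFiniteMeasureOnCompacts μ] {W : Set Pl} (hW : IsOpen W) {K : ℝ}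
    (hK : 0 < K) {f : Pl → ℝ} (hf : Tst W f) (h0 : ∀ z, 0 ≤ f z)
    (hlap : ∀ φ, Tst W φ → ∫ z, lap φ z ∂μ = -(K * ∫ z, f z * φ z)) {b : ℝ} (hb : 0 ≤ b) {Q : Set Pl}
    (hQ : IsCompact Q) (hQW : Q ⊆ W)
    (hbd : ∀ η, Tst (W \ Q) η → (∀ z, 0 ≤ η z) → ∫ z, η z ∂μ ≤ b * ∫ z, η z)
    (hbdd : BddAbove {a | ∃ u, Tst W u ∧ a = JJ f u}) :
    ∫ z, f z ∂μ ≤ K * En W f + b * ∫ z, f z := by
  have hfs : HasCompactSupport f := hf.supp
  have hfc : Continuous f := hf.smooth.continuous
  obtain ⟨Q₁, hQ₁⟩ : ∃ Q₁ : Set Pl, Q₁ = Q ∪ tsupport f := ⟨_, rfl⟩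
  have hQ1c : IsCompact Q₁ := by
    rw [hQ₁]
    exact hQ.union hfs
  have hQ1W : Q₁ ⊆ W := by
    rw [hQ₁]
    exact Set.union_subset hQW hf.sub
  have hQ1Q : Q ⊆ Q₁ := by
    rw [hQ₁]
    exact Set.subset_union_left
  have hQ1f : tsupport f ⊆ Q₁ := by
    rw [hQ₁]
    exact Set.subset_union_right
  obtain ⟨δ, hδ, hdis⟩ := (Set.disjoint_compl_right_iff_subset.2 hQ1W).exists_cthickenings hQ1c
    hW.isClosed_compl
  have hKδ : IsCompact (Metric.cthickening δ Q₁) := hQ1c.cthickening
  obtain ⟨g, hg1, -, hgc, hg01⟩ := exists_continuous_one_zero_of_isCompact hKδ isClosed_empty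
    (Set.disjoint_empty _)
  obtain ⟨Z, hZd⟩ : ∃ Z : Set Pl, Z = Metric.cthickening 1 (tsupport f ∪ tsupport g) := ⟨_, rfl⟩
  have hZ : IsCompact Z := by
    rw [hZd]
    exact (IsCompact.union hfs hgc).cthickening
  have hZμ : μ Z < ⊤ := hZ.measure_lt_top
  have main : ∀ ω > 0, ∫ z, f z ∂μ ≤
      K * En W f + b * (∫ z, f z) + ω * ((∫ z, f z) + 2 * μ.real Z) := by
    intro ω hω
    obtain ⟨r₁, hr₁, happ⟩ := mol_approx hfc hfs hω
    obtain ⟨r, hr, hrr, hrδ, hr1⟩ : ∃ r : ℝ, 0 < r ∧ r ≤ r₁ ∧ r ≤ δ ∧ r ≤ 1 :=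
      ⟨min r₁ (min δ 1), lt_min hr₁ (lt_min hδ one_pos), min_le_left _ _,
        (min_le_right _ _).trans (min_le_left _ _), (min_le_right _ _).trans (min_le_right _ _)⟩
    obtain ⟨η, hη⟩ := exists_mol hr
    have happ' := happ r hrr η hη
    have hηc : Cc η := hη.toCc
    -- the open set
    obtain ⟨W', hW'⟩ : ∃ W' : Set Pl, W' = (Metric.cthickening r Wᶜ)ᶜ := ⟨_, rfl⟩
    have hW'o : IsOpen W' := by
      rw [hW']
      exact Metric.isClosed_cthickening.isOpen_compl
    have hball : ∀ x ∈ W', Metric.closedBall x r ⊆ W := by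
      intro x hx y hy
      by_contra hyW
      rw [hW'] at hx
      refine hx (Metric.mem_cthickening_of_dist_le x y r _ hyW ?_)
      rw [dist_comm]
      exact hy
    have hW'W : W' ⊆ W := fun x hx => hball x hx (Metric.mem_closedBall_self hr.le)
    -- the compact set
    obtain ⟨Q', hQ'⟩ : ∃ Q' : Set Pl, Q' = Metric.cthickening r Q₁ := ⟨_, rfl⟩
    have hQ'c : IsCompact Q' := by
      rw [hQ']
      exact hQ1c.cthickening
    have hQ'δ : Q' ⊆ Metric.cthickening δ Q₁ := by
      rw [hQ']
      exact Metric.cthickening_mono hrδ _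
    have hQ'W' : Q' ⊆ W' := by
      intro x hx
      rw [hW']
      intro hx'
      exact Set.disjoint_left.1 hdis (hQ'δ hx) (Metric.cthickening_mono hrδ _ hx')
    have hQ1Q' : Q₁ ⊆ Q' := by
      rw [hQ']
      exact Metric.self_subset_cthickening _
    have hball2 : ∀ x ∈ W', x ∉ Q' → Metric.closedBall x r ⊆ W \ Q := by
      intro x hx hxQ y hy
      refine ⟨hball x hx hy, fun hyQ => hxQ ?_⟩
      rw [hQ']
      refine Metric.mem_cthickening_of_dist_le x y r _ (hQ1Q hyQ) ?_
      rw [dist_comm]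
      exact hy
    -- the mollified measure
    have hq : ContDiff ℝ (⊤ : ℕ∞) (mol μ η) := mol_smooth μ hηc
    have hq0 : ∀ z, 0 ≤ mol μ η z := mol_nonneg μ hη
    have hqb : ∀ z ∈ W' \ Q', mol μ η z ≤ b := by
      rintro x ⟨hx, hxQ⟩
      have h1 := hbd _ (mol_tst hη (hball2 x hx hxQ)).1 (fun z => hη.nonneg _)
      rw [E7_int_sub, hη.int, mul_one] at h1
      exact h1
    obtain ⟨F, hF⟩ : ∃ F : Pl → ℝ, F = fun x => ∫ z, f z * η (x - z) := ⟨_, rfl⟩
    have hFc : Continuous F := by
      rw [hF]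
      exact E7_conv_cont hfc hηc
    have hlapq : ∀ z ∈ W', lap (mol μ η) z = -(K * F z) := by
      intro x hx
      have h1 := mol_tst hη (hball x hx)
      have h2 := hlap _ h1.1
      rw [h1.2] at h2
      rw [lap_mol μ hηc x, hF]
      exact h2
    obtain ⟨u, hu, hu0, huQ, huq, huq', hdir⟩ := key_test hK hb hω hW'o hQ'c hQ'W' hq hq0 hqb hlapq
    have huW : Tst W u := hu.mono hW'W
    have huc : Continuous u := hu.smooth.continuous
    have hus : HasCompactSupport u := hu.supp
    -- energy
    have hEn : JJ f u ≤ En W f := le_csSup hbdd ⟨u, huW, rfl⟩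
    have hqc : Continuous (mol μ η) := hq.continuous
    have hgcont : Continuous g := g.continuous
    -- integrability
    have i1 : Integrable (fun x => f x * mol μ η x) :=
      (hfc.mul hqc).integrable_of_hasCompactSupport hfs.mul_right
    have i2 : Integrable (fun x => f x * (K * u x)) :=
      (hfc.mul (continuous_const.mul huc)).integrable_of_hasCompactSupport hfs.mul_right
    have i3 : Integrable (fun x => F x * (K * u x)) :=
      (hFc.mul (continuous_const.mul huc)).integrable_of_hasCompactSupport (hus.mul_left.mul_left)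
    have i4 : Integrable (fun x => g x * mol μ η x) :=
      (hgcont.mul hqc).integrable_of_hasCompactSupport hgc.mul_right
    have i5 : Integrable f := hfc.integrable_of_hasCompactSupport hfs
    -- first bound
    have b1 : ∫ x, f x * (mol μ η x - b - ω) ≤ ∫ x, f x * (K * u x) := by
      refine integral_mono ?_ i2 fun x => ?_
      · have : (fun x => f x * (mol μ η x - b - ω)) = fun x => f x * mol μ η x - (b + ω) * f x := by
          funext x
          ring
        rw [this]
        exact i1.sub (i5.const_mul _)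
      · by_cases hx : f x = 0
        · simp only [hx, zero_mul, le_refl]
        · have hxQ : x ∈ Q' := hQ1Q' (hQ1f (subset_tsupport f hx))
          exact mul_le_mul_of_nonneg_left (huq' x (hQ'W' hxQ)) (h0 x)
    have b1' : ∫ x, f x * (mol μ η x - b - ω) = (∫ x, f x * mol μ η x) - (b + ω) * ∫ x, f x := by
      have : (fun x => f x * (mol μ η x - b - ω)) = fun x => f x * mol μ η x - (b + ω) * f x := by
        funext x
        ring
      rw [this, integral_sub i1 (i5.const_mul _), integral_const_mul]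
    -- second bound
    have hFf : ∀ x, |F x - f x| ≤ ω := by
      intro x
      rw [hF]
      exact (happ' x).2
    have b2 : (∫ x, F x * (K * u x)) - ∫ x, f x * (K * u x) ≤ ω * ∫ x, g x * mol μ η x := by
      rw [← integral_sub i3 i2, ← integral_const_mul]
      refine integral_mono (i3.sub i2) (i4.const_mul _) fun x => ?_
      have hKu : 0 ≤ K * u x := mul_nonneg hK.le (hu0 x)
      have h1 : F x * (K * u x) - f x * (K * u x) ≤ ω * (K * u x) := by
        rw [← sub_mul]
        exact mul_le_mul_of_nonneg_right ((le_abs_self _).trans (hFf x)) hKu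
      refine h1.trans (mul_le_mul_of_nonneg_left ?_ hω.le)
      by_cases hx : x ∈ Q'
      · have h2 : g x = 1 := hg1 (hQ'δ hx)
        rw [h2, one_mul]
        exact huq x
      · rw [huQ x hx, mul_zero]
        exact mul_nonneg (hg01 x).1 (hq0 x)
    -- third bound
    have hout : ∀ k : Pl → ℝ, (∀ x, k x ≠ 0 → x ∈ tsupport f ∪ tsupport g) → ∀ y ∉ Z,
        (∫ x, η (x - y) * k x) = 0 := by
      intro k hk y hy
      have : (fun x => η (x - y) * k x) = fun _ => 0 := by
        funext x
        by_contra hx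
        have h1 : η (x - y) ≠ 0 := left_ne_zero_of_mul hx
        have h2 : k x ≠ 0 := right_ne_zero_of_mul hx
        refine hy ?_
        rw [hZd]
        refine Metric.mem_cthickening_of_dist_le y x 1 _ (hk x h2) ?_
        rw [dist_comm, dist_eq_norm]
        exact (hη.small _ h1).le.trans hr1
      rw [this]
      exact integral_zero _ _
    have iZ : ∀ c : ℝ, Integrable (Z.indicator fun _ => c) μ := fun c =>
      (integrable_indicator_iff hZ.measurableSet).2 (integrableOn_const hZμ.ne)
    have eZ : ∀ c : ℝ, ∫ y, Z.indicator (fun _ => c) y ∂μ = c * μ.real Z := by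
      intro c
      rw [integral_indicator hZ.measurableSet, setIntegral_const, smul_eq_mul, mul_comm]
    have b3 : ∫ x, g x * mol μ η x ≤ μ.real Z := by
      rw [mol_fub μ hηc hgcont hgc]
      have h1 : ∫ y, Z.indicator (fun _ => (1 : ℝ)) y ∂μ = μ.real Z := by
        rw [eZ, one_mul]
      rw [← h1]
      refine integral_mono_of_nonneg (Eventually.of_forall fun y => ?_) (iZ 1)
        (Eventually.of_forall fun y => ?_)
      · exact integral_nonneg fun x => mul_nonneg (hη.nonneg _) (hg01 x).1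
      · show (∫ x, η (x - y) * g x) ≤ Z.indicator (fun _ => (1 : ℝ)) y
        by_cases hy : y ∈ Z
        · rw [Set.indicator_of_mem hy]
          have h2 : ∫ x, η (x - y) = 1 := by
            rw [integral_sub_right_eq_self η y, hη.int]
          rw [← h2]
          refine integral_mono_of_nonneg (Eventually.of_forall fun x => ?_) ?_
            (Eventually.of_forall fun x => ?_)
          · exact mul_nonneg (hη.nonneg _) (hg01 x).1
          · exact ((hηc.smooth.continuous.integrable_of_hasCompactSupport hηc.supp)).comp_sub_right y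
          · exact mul_le_of_le_one_right (hη.nonneg _) (hg01 x).2
        · rw [Set.indicator_of_notMem hy]
          refine (hout g (fun x hx => Or.inr (subset_tsupport g hx)) y hy).le
    -- fourth bound
    have hGF : (fun y => ∫ x, η (x - y) * f x) = F := by
      rw [hF]
      funext y
      congr 1
      funext x
      rw [mul_comm, ← hη.even (x - y), neg_sub]
    have hF0 : ∀ y ∉ Z, F y = 0 := by
      intro y hy
      rw [← hGF]
      exact hout f (fun x hx => Or.inl (subset_tsupport f hx)) y hy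
    have hf0 : ∀ y ∉ Z, f y = 0 := by
      intro y hy
      by_contra hfy
      refine hy ?_
      rw [hZd]
      exact Metric.self_subset_cthickening _ (Or.inl (subset_tsupport f hfy))
    have hFs : HasCompactSupport F := HasCompactSupport.intro hZ hF0
    have i6 : Integrable F μ := hFc.integrable_of_hasCompactSupport hFs
    have i7 : Integrable f μ := hfc.integrable_of_hasCompactSupport hfs
    have b4 : (∫ x, f x ∂μ) - ω * μ.real Z ≤ ∫ x, f x * mol μ η x := by
      rw [mol_fub μ hηc hfc hfs, hGF, sub_le_iff_le_add, ← sub_le_iff_le_add', ← integral_sub i7 i6, ← eZ]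
      refine integral_mono (i7.sub i6) (iZ ω) fun y => ?_
      show f y - F y ≤ Z.indicator (fun _ => ω) y
      by_cases hy : y ∈ Z
      · rw [Set.indicator_of_mem hy]
        have := hFf y
        rw [abs_sub_comm] at this
        exact (le_abs_self _).trans this
      · rw [Set.indicator_of_notMem hy, hF0 y hy, hf0 y hy, sub_zero]
    -- conclusion
    have e1 : ∫ x, f x * (K * u x) = K * ∫ x, f x * u x := by
      rw [← integral_const_mul]
      congr 1
      funext x
      ring
    have e2 : ∫ x, F x * (K * u x) = K * ∫ x, F x * u x := by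
      rw [← integral_const_mul]
      congr 1
      funext x
      ring
    have hJ : K * (2 * (∫ z, f z * u z) - dir u) ≤ K * En W f := mul_le_mul_of_nonneg_left hEn hK.le
    have hD : K * dir u ≤ K * ∫ z, F z * u z := mul_le_mul_of_nonneg_left hdir hK.le
    have b3' : ω * (∫ x, g x * mol μ η x) ≤ ω * μ.real Z := mul_le_mul_of_nonneg_left b3 hω.le
    rw [e1] at b1 b2
    rw [e2] at b2
    rw [b1'] at b1
    nlinarith
  by_contra hlt
  rw [not_le] at hlt
  have hf0 : 0 ≤ ∫ z, f z := integral_nonneg h0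
  have hC : 0 ≤ (∫ z, f z) + 2 * μ.real Z := by positivity
  have hm := main (((∫ z, f z ∂μ) - (K * En W f + b * ∫ z, f z)) / (2 * (((∫ z, f z) + 2 * μ.real Z) + 1)))
    (div_pos (sub_pos.2 hlt) (by positivity))
  have h1 : ((∫ z, f z ∂μ) - (K * En W f + b * ∫ z, f z)) / (2 * (((∫ z, f z) + 2 * μ.real Z) + 1)) *
      ((∫ z, f z) + 2 * μ.real Z) ≤ ((∫ z, f z ∂μ) - (K * En W f + b * ∫ z, f z)) / 2 := by
    rw [div_mul_eq_mul_div, div_le_div_iff₀ (by positivity) two_pos]
    have h2 : 0 < (∫ z, f z ∂μ) - (K * En W f + b * ∫ z, f z) := sub_pos.2 hlt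
    nlinarith
  linarith

end GF
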