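import Pool.Agent.Helper41.DV.E3b
import Pool.Agent.Helper41.DV.E4
import Pool.Agent.Helper41.DV.E7

/-!
E7b.  Step (9).
-/

open MeasureTheory Filter Topology

namespace GF

variable {I : Type} {W : Set Pl} {K : ℝ}

/-- `exists_meas` for `T g = L(X f * X g)` (`L` linear on `Ok` functions, `pos`), `Env.cov_lap`, `cmp_meas` -/
theorem Env.upper (M : Env I W K) (hW : IsOpen W) (hK : 0 < K) {f : Pl → ℝ} (hf : Tst W f)
    (h0 : ∀ z, 0 ≤ f z) {b : ℝ} (hb : M.Wall f b) :
    M.L (fun i => M.X f i ^ 2) ≤ K * En W f + b * ∫ z, f z := by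
  obtain ⟨hb0, Q, hQ, hQW, hbd⟩ := hb
  obtain ⟨μ, hμ, hT⟩ := exists_meas (fun g => M.L (fun i => M.X f i * M.X g i))
    (fun g h hg hh => by
      have e : (fun i => M.X f i * M.X (fun z => g z + h z) i) =
          fun i => M.X f i * M.X g i + M.X f i * M.X h i := by
        funext i
        rw [M.X_add g h hg hh i]
        ring
      simp only [e]
      exact M.L_add _ _ (M.ok_mul _ _ (M.ok_X f hf.toCc) (M.ok_X g hg))
        (M.ok_mul _ _ (M.ok_X f hf.toCc) (M.ok_X h hh)))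
    (fun c g hg => by
      have e : (fun i => M.X f i * M.X (fun z => c * g z) i) =
          fun i => c * (M.X f i * M.X g i) := by
        funext i
        rw [M.X_smul c g hg i]
        ring
      simp only [e]
      exact M.L_smul c _ (M.ok_mul _ _ (M.ok_X f hf.toCc) (M.ok_X g hg)))
    (fun g hg hg0 => M.pos f g hf.toCc hg h0 hg0)
  have h1 : M.L (fun i => M.X f i ^ 2) = ∫ z, f z ∂μ := by
    rw [← hT f hf.toCc]
    simp only [sq]
  rw [h1]
  refine cmp_meas μ hW hK hf h0 (fun φ hφ => ?_) hb0 hQ hQW (fun η hη hη0 => ?_) (M.lower hK hf).1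
  · rw [← hT (lap φ) ⟨EN.lap_smooth hφ.smooth, EN.lap_supp hφ.supp⟩]
    exact M.cov_lap hφ hf
  · rw [← hT η hη.toCc]
    exact hbd η hη hη0

/-- step (9) -/
theorem Env.nine (M : Env I W K) (hW : IsOpen W) (hK : 0 < K) {f : Pl → ℝ} (hf : Tst W f)
    (h0 : ∀ z, 0 ≤ f z) {b : ℝ} (hb : M.Wall f b) :
    |M.L (fun i => Real.cos (M.X f i)) - Real.exp (-(K * En W f / 2))| ≤ b * (∫ z, f z) / 2 := by
  have h1 := M.char hK hf
  have h2 := M.upper hW hK hf h0 hb
  linarith

end GF
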