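import Pool.Agent.Helper86.LG.Mk
import Pool.Agent.Helper94.BR.Geo
import Pool.Agent.Helper35.MD.Defs
import Pool.Agent.Helper75.GF.L2c

/-!
H1.  The covariance with functions supported near the boundary of a simply connected lattice domain.
-/

open Finset Filter Topology MeasureTheory

namespace DV

open RP4 (V Adj BdryPar Om dom avg bdry mass cell)
open GF.Lat (Xd win)
open GF (Pl Cc)

/-- INPUT (T'): boundary decay of the covariance in simply connected domains: a site outside of `D` at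
distance at most `ρ` of `x`, and `z` at distance at least `m` -/
def Decay (C a : ℝ) : Prop := ∀ (D : Finset V), LG.SC D → ∀ x z v : V, v ∉ D → ∀ ρ m : ℝ, 1 ≤ ρ → ρ ≤ m →
  |((v.1 - x.1 : ℤ) : ℝ)| ≤ ρ → |((v.2 - x.2 : ℤ) : ℝ)| ≤ ρ →
  (m ≤ |((z.1 - x.1 : ℤ) : ℝ)| ∨ m ≤ |((z.2 - x.2 : ℤ) : ℝ)|) → MD.cv D x z ≤ C * (ρ / m) ^ a

/-- a cell with mass contains a point of the support near its center -/
private lemma H1_cell {δ : ℝ} (hδ : 0 < δ) {f : Pl → ℝ} {x : V} (hm : mass δ f x ≠ 0) :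
    ∃ y, f y ≠ 0 ∧ dist (pt δ x) y ≤ δ := by
  by_contra hc
  push Not at hc
  apply hm
  unfold mass
  refine setIntegral_eq_zero_of_forall_eq_zero fun y hy => ?_
  by_contra hf
  have h1 := hc y hf
  have h2 : dist (pt δ x) y ≤ δ := by
    obtain ⟨⟨a1, a2⟩, b1, b2⟩ := hy
    rw [Prod.dist_eq, max_le_iff, Real.dist_eq, Real.dist_eq, abs_le, abs_le]
    unfold pt
    constructor <;> constructor <;> simp only <;> nlinarith
  linarith

private lemma H1_mass_nonneg {δ : ℝ} {f : Pl → ℝ} (hf : ∀ z, 0 ≤ f z) (x : V) : 0 ≤ mass δ f x := by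
  unfold mass
  exact setIntegral_nonneg (measurableSet_Ico.prod measurableSet_Ico) fun y _ => hf y

private lemma H1_symm (D : Finset V) (x y : V) : MD.cv D x y = MD.cv D y x := by
  unfold MD.cv
  congr 1
  funext h
  ring

/--
Expand `Xd δ f h * Xd δ η h = ∑ x, ∑ z, mass δ f x * mass δ η z * (h x * h z)` (`GF.Lat.Xd_eq`, `GF.Lat.cc_box`), the average is
`∑ x, ∑ z, mass δ f x * mass δ η z * cv D x z`.  If both masses are not zero there are `y` in the cell of `x`, `w` in the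
cell of `z` with `f y ≠ 0`, `η w ≠ 0`, so `dist (pt δ x) y ≤ δ`, `dist (pt δ z) w ≤ δ`, and for `δ ≤ d/4` the sup distance
of `x` and `z` is at least `d/(2 δ)`; the site `v` of `hnear` has sup distance at most `τ/δ` from `z`; `Decay` for `z` in place of
`x` (`cv` is symmetric), `ρ = τ/δ ≥ 1`, `m = d/(2 δ)`.  Sum of the masses: `GF.Lat.sum_mass`.
-/
theorem wall_bound {C a : ℝ} (hC : 0 ≤ C) (hdec : Decay C a) {D : ℝ → Finset V}
    (hsc : ∀ᶠ δ in 𝓝[>] (0 : ℝ), LG.SC (D δ)) {f η : Pl → ℝ} (hf : Cc f) (hη : Cc η) (hf0 : ∀ z, 0 ≤ f z)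
    (hη0 : ∀ z, 0 ≤ η z) {τ d : ℝ} (hτ : 0 < τ) (hτd : 2 * τ ≤ d)
    (hd : ∀ y w, f y ≠ 0 → η w ≠ 0 → d ≤ dist y w)
    (hnear : ∀ᶠ δ in 𝓝[>] (0 : ℝ), ∀ (x : V) (w : Pl), η w ≠ 0 → dist (pt δ x) w ≤ δ →
      ∃ v, v ∉ D δ ∧ dist (pt δ x) (pt δ v) ≤ τ) :
    ∀ᶠ δ in 𝓝[>] (0 : ℝ), avg (Om (D δ)) (fun h => Xd δ f h * Xd δ η h) ≤
      C * (2 * τ / d) ^ a * (∫ z, f z) * ∫ z, η z := by
  filter_upwards [hsc, hnear, self_mem_nhdsWithin, Ioo_mem_nhdsGT (show (0 : ℝ) < min (d / 4) τ by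
    refine lt_min ?_ hτ
    linarith)] with δ hSC hn hδ0 hδ1
  have hδ : 0 < δ := hδ0
  have hδd : δ < d / 4 := lt_of_lt_of_le hδ1.2 (min_le_left _ _)
  have hδτ : δ < τ := lt_of_lt_of_le hδ1.2 (min_le_right _ _)
  have hd0 : 0 < d := by linarith
  obtain ⟨R1, hR1, hf1⟩ := GF.Lat.cc_box hf
  obtain ⟨R2, hR2, hη1⟩ := GF.Lat.cc_box hη
  set R := max R1 R2 with hR
  have hR0 : 0 ≤ R := hR1.le.trans (le_max_left _ _)
  have hfR : ∀ z, f z ≠ 0 → |z.1| ≤ R ∧ |z.2| ≤ R := fun z hz =>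
    ⟨(hf1 z hz).1.trans (le_max_left _ _), (hf1 z hz).2.trans (le_max_left _ _)⟩
  have hηR : ∀ z, η z ≠ 0 → |z.1| ≤ R ∧ |z.2| ≤ R := fun z hz =>
    ⟨(hη1 z hz).1.trans (le_max_right _ _), (hη1 z hz).2.trans (le_max_right _ _)⟩
  set s := win δ R with hs
  set B : ℝ := C * (2 * τ / d) ^ a with hB
  have hB0 : 0 ≤ B := by positivity
  have e1 : avg (Om (D δ)) (fun h => Xd δ f h * Xd δ η h) =
      ∑ x ∈ s, ∑ z ∈ s, mass δ f x * mass δ η z * MD.cv (D δ) x z := by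
    have e2 : (fun h : V → ℤ => Xd δ f h * Xd δ η h) =
        fun h => ∑ x ∈ s, ∑ z ∈ s, mass δ f x * mass δ η z * ((h x : ℝ) * h z) := by
      funext h
      rw [GF.Lat.Xd_eq hδ hR0 hfR (Finset.Subset.refl _), GF.Lat.Xd_eq hδ hR0 hηR (Finset.Subset.refl _),
        Finset.sum_mul_sum]
      exact sum_congr rfl fun x _ => sum_congr rfl fun z _ => by ring
    rw [e2]
    unfold MD.cv avg
    rw [sum_comm, sum_div]
    refine sum_congr rfl fun x _ => ?_
    rw [sum_comm, sum_div]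
    refine sum_congr rfl fun z _ => ?_
    rw [← mul_sum, mul_div_assoc]
  have key : ∀ x ∈ s, ∀ z ∈ s, mass δ f x * mass δ η z * MD.cv (D δ) x z ≤
      mass δ f x * mass δ η z * B := by
    intro x _ z _
    by_cases hx : mass δ f x = 0
    · rw [hx]
      simp
    by_cases hz : mass δ η z = 0
    · rw [hz]
      simp
    obtain ⟨y, hy1, hy2⟩ := H1_cell hδ hx
    obtain ⟨w, hw1, hw2⟩ := H1_cell hδ hz
    refine mul_le_mul_of_nonneg_left ?_ (mul_nonneg (H1_mass_nonneg hf0 x) (H1_mass_nonneg hη0 z))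
    obtain ⟨v, hv1, hv2⟩ := hn z w hw1 hw2
    have h1 := hd y w hy1 hw1
    have h2 : d / 2 ≤ dist (pt δ x) (pt δ z) := by
      have h3 := dist_triangle y (pt δ x) w
      have h4 := dist_triangle (pt δ x) (pt δ z) w
      rw [dist_comm y (pt δ x)] at h3
      linarith
    have co : ∀ u v : ℤ, |δ * (u : ℝ) - δ * v| = δ * |((u - v : ℤ) : ℝ)| := by
      intro u v
      rw [← mul_sub, abs_mul, abs_of_pos hδ]
      push_cast
      rfl
    rw [Prod.dist_eq, Real.dist_eq, Real.dist_eq] at h2 hv2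
    unfold pt at h2 hv2
    simp only at h2 hv2
    rw [co, co] at h2 hv2
    rw [max_le_iff] at hv2
    rw [H1_symm]
    have hρm : (τ / δ) / (d / (2 * δ)) = 2 * τ / d := by
      field_simp
    have h5 := hdec (D δ) hSC z x v hv1 (τ / δ) (d / (2 * δ)) (by rw [le_div_iff₀ hδ]; linarith) (by
      rw [div_le_div_iff₀ hδ (by linarith)]
      nlinarith) (by
      rw [le_div_iff₀ hδ, mul_comm, show v.1 - z.1 = -(z.1 - v.1) by ring, Int.cast_neg, abs_neg]
      exact hv2.1) (by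
      rw [le_div_iff₀ hδ, mul_comm, show v.2 - z.2 = -(z.2 - v.2) by ring, Int.cast_neg, abs_neg]
      exact hv2.2) (by
      rw [le_max_iff] at h2
      refine h2.imp (fun h => ?_) fun h => ?_
      · rw [div_le_iff₀ (by linarith)]
        nlinarith
      · rw [div_le_iff₀ (by linarith)]
        nlinarith)
    rw [hρm] at h5
    exact h5
  rw [e1]
  calc ∑ x ∈ s, ∑ z ∈ s, mass δ f x * mass δ η z * MD.cv (D δ) x z
      ≤ ∑ x ∈ s, ∑ z ∈ s, mass δ f x * mass δ η z * B :=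
        sum_le_sum fun x hx => sum_le_sum fun z hz => key x hx z hz
    _ = (∑ x ∈ s, mass δ f x) * (∑ z ∈ s, mass δ η z) * B := by
        rw [Finset.sum_mul_sum, sum_mul]
        exact sum_congr rfl fun x _ => by rw [sum_mul]
    _ = B * (∫ z, f z) * ∫ z, η z := by
        rw [GF.Lat.sum_mass hδ hR0 hf.integrable hfR (Finset.Subset.refl _),
          GF.Lat.sum_mass hδ hR0 hη.integrable hηR (Finset.Subset.refl _)]
        ring

end DV
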