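import Pool.Agent.Helper94.BR.Geo
import Pool.Agent.Helper35.MD.G4b
import Pool.Agent.Helper75.GF.L2c
import Pool.Agent.Helper27.GF.M5

/-!
H2.  All moments of the field are bounded in domains of bounded size.
-/

open Finset Filter Topology MeasureTheory

namespace DV

open RP4 (V Adj BdryPar Om dom avg bdry mass cell)
open GF.Lat (Xd win)
open GF (Pl Cc)

private lemma H2_sum {D : Finset V} {δ : ℝ} {f : Pl → ℝ} {h : V → ℤ} (hh : h ∈ Om D) :
    Xd δ f h = GF.lin D (mass δ f) h := by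
  unfold Xd GF.lin
  refine tsum_eq_sum fun x hx => ?_
  rw [(RP4.mem_Om.1 hh).1.off x hx, Int.cast_zero, mul_zero]

private lemma H2_vol {δ : ℝ} (hδ : 0 < δ) (x : V) : (volume : Measure Pl).real (cell δ x) = δ ^ 2 := by
  unfold cell
  rw [Measure.real, Measure.volume_eq_prod, Measure.prod_prod, Real.volume_Ico, Real.volume_Ico,
    ENNReal.toReal_mul, ENNReal.toReal_ofReal, ENNReal.toReal_ofReal]
  · ring
  · nlinarith
  · nlinarith

private lemma H2_mass {f : Pl → ℝ} {M δ : ℝ} (hδ : 0 < δ) (hM : ∀ z, |f z| ≤ M) (x : V) :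
    |mass δ f x| ≤ M * δ ^ 2 := by
  unfold mass
  have h := norm_setIntegral_le_of_norm_le_const (μ := (volume : Measure Pl)) (s := cell δ x) (C := M)
    (f := f) ?_ (fun z _ => by rw [Real.norm_eq_abs]; exact hM z)
  · rw [H2_vol hδ x, Real.norm_eq_abs] at h
    exact h
  · unfold cell
    rw [Measure.volume_eq_prod, Measure.prod_prod, Real.volume_Ico, Real.volume_Ico]
    exact ENNReal.mul_lt_top ENNReal.ofReal_lt_top ENNReal.ofReal_lt_top

/--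
Second moment: `MD.mdv` for `g x = mass δ f x`, `|g x| ≤ A = sup |f| δ²`, `∑ |g x| ≤ ∫ |f|`, lattice diameter `≤ 2 R/δ + 1`, so the
bound is `C (2R/δ + 1)² sup|f| δ² ∫ |f| ≤ C'`.  Outside of `D` the heights of `Om D` are zero, so only `x ∈ D` count.
All moments: `GF.moments (2 n)`.
-/
theorem box_moments {f : Pl → ℝ} (hf : Cc f) (R : ℝ) (n : ℕ) : ∃ C : ℝ, ∀ᶠ δ in 𝓝[>] (0 : ℝ), ∀ D : Finset V,
    BdryPar D 0 → (∀ x ∈ D, ‖pt δ x‖ ≤ R) → avg (Om D) (fun h => Xd δ f h ^ (2 * n)) ≤ C := by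
  obtain ⟨C, hC, hm⟩ := MD.mdv
  obtain ⟨C', hC', hm'⟩ := GF.moments (2 * n)
  have hi : Integrable f := hf.smooth.continuous.integrable_of_hasCompactSupport hf.supp
  obtain ⟨M, hM⟩ : ∃ M, ∀ z, |f z| ≤ M := by
    obtain ⟨M, hM⟩ := hf.smooth.continuous.bounded_above_of_compact_support hf.supp
    exact ⟨M, fun z => by simpa [Real.norm_eq_abs] using hM z⟩
  have hM0 : 0 ≤ M := (abs_nonneg _).trans (hM 0)
  set I : ℝ := ∫ z, |f z| with hI
  have hI0 : 0 ≤ I := integral_nonneg fun z => abs_nonneg _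
  set B : ℝ := C * (2 * |R| + 2) ^ 2 * (M * I) with hB
  refine ⟨C' * (Real.sqrt B + I) ^ (2 * n), ?_⟩
  have h1 : ∀ᶠ δ in 𝓝[>] (0 : ℝ), δ < 1 := by
    have : Set.Iio (1 : ℝ) ∈ 𝓝 (0 : ℝ) := Iio_mem_nhds one_pos
    exact mem_nhdsWithin_of_mem_nhds this
  filter_upwards [self_mem_nhdsWithin, h1] with δ hδ0 hδ1 D hD hDR
  have hδ : (0 : ℝ) < δ := hδ0
  have hne := RP4.Om_nonempty hD
  have hsm : ∑ x ∈ D, |mass δ f x| ≤ I := GF.Lat.sum_abs_mass hδ hi D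
  -- the lattice diameter
  set N : ℕ := ⌈2 * |R| / δ⌉₊ + 1 with hN
  have hN1 : 1 ≤ N := by omega
  have hNR : (N : ℝ) * δ ≤ 2 * |R| + 2 := by
    have h2 : (⌈2 * |R| / δ⌉₊ : ℝ) < 2 * |R| / δ + 1 := Nat.ceil_lt_add_one (by positivity)
    have h3 : (N : ℝ) = (⌈2 * |R| / δ⌉₊ : ℝ) + 1 := by rw [hN]; push_cast; ring
    have h4 : (N : ℝ) ≤ 2 * |R| / δ + 2 := by linarith
    have h5 : 2 * |R| / δ * δ = 2 * |R| := by field_simp
    calc (N : ℝ) * δ ≤ (2 * |R| / δ + 2) * δ := mul_le_mul_of_nonneg_right h4 hδ.le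
      _ = 2 * |R| / δ * δ + 2 * δ := by ring
      _ ≤ 2 * |R| + 2 := by rw [h5]; linarith
  have hco : ∀ u ∈ D, ∀ v ∈ D, |u.1 - v.1| ≤ (N : ℤ) ∧ |u.2 - v.2| ≤ (N : ℤ) := by
    intro u hu v hv
    have key : ∀ a b : ℤ, |δ * (a : ℝ)| ≤ R → |δ * (b : ℝ)| ≤ R → |a - b| ≤ (N : ℤ) := by
      intro a b ha hb
      have h2 : |δ * ((a - b : ℤ) : ℝ)| ≤ 2 * |R| := by
        have e : δ * ((a - b : ℤ) : ℝ) = δ * a - δ * b := by push_cast; ring
        rw [e]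
        have h3 := abs_sub (δ * (a : ℝ)) (δ * b)
        have h4 := le_abs_self R
        linarith
      rw [abs_mul, abs_of_pos hδ] at h2
      have h3 : |((a - b : ℤ) : ℝ)| ≤ 2 * |R| / δ := by
        rw [le_div_iff₀ hδ]
        linarith
      have h4 : |((a - b : ℤ) : ℝ)| ≤ (N : ℝ) := by
        have h5 := Nat.le_ceil (2 * |R| / δ)
        have h6 : (N : ℝ) = (⌈2 * |R| / δ⌉₊ : ℝ) + 1 := by rw [hN]; push_cast; ring
        linarith
      exact_mod_cast h4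
    have h2 := hDR u hu
    have h3 := hDR v hv
    unfold pt at h2 h3
    rw [Prod.norm_def, max_le_iff, Real.norm_eq_abs, Real.norm_eq_abs] at h2 h3
    exact ⟨key _ _ h2.1 h3.1, key _ _ h2.2 h3.2⟩
  have h2 := hm N hN1 D hD hco (mass δ f) (M * δ ^ 2) (fun x _ => H2_mass hδ hM x)
  have h3 : avg (Om D) (fun h => GF.lin D (mass δ f) h ^ 2) ≤ B := by
    refine h2.trans ?_
    have h4 : M * δ ^ 2 * ∑ x ∈ D, |mass δ f x| ≤ M * δ ^ 2 * I :=
      mul_le_mul_of_nonneg_left hsm (by positivity)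
    calc C * (N : ℝ) ^ 2 * (M * δ ^ 2 * ∑ x ∈ D, |mass δ f x|) ≤ C * (N : ℝ) ^ 2 * (M * δ ^ 2 * I) :=
          mul_le_mul_of_nonneg_left h4 (by positivity)
      _ = C * ((N : ℝ) * δ) ^ 2 * (M * I) := by ring
      _ ≤ C * (2 * |R| + 2) ^ 2 * (M * I) := by gcongr
      _ = B := hB.symm
  have h4 : avg (Om D) (fun h => Xd δ f h ^ (2 * n)) = avg (Om D) (fun h => |GF.lin D (mass δ f) h| ^ (2 * n)) := by
    unfold RP4.avg
    congr 1
    refine Finset.sum_congr rfl fun h hh => ?_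
    show Xd δ f h ^ (2 * n) = |GF.lin D (mass δ f) h| ^ (2 * n)
    rw [H2_sum hh, pow_mul, pow_mul, sq_abs]
  rw [h4]
  refine (hm' D D (mass δ f) hne).trans ?_
  have h5 : Real.sqrt (avg (Om D) (fun h => GF.lin D (mass δ f) h ^ 2)) ≤ Real.sqrt B := Real.sqrt_le_sqrt h3
  have h6 : 0 ≤ ∑ x ∈ D, |mass δ f x| := Finset.sum_nonneg fun x _ => abs_nonneg _
  have h7 := Real.sqrt_nonneg (avg (Om D) (fun h => GF.lin D (mass δ f) h ^ 2))
  gcongr

end DV
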