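import Pool.Agent.Helper41.DV.H4
import Pool.Agent.Helper23.DV.Fil
import Pool.Agent.Helper12.DV.L2
import Pool.Agent.Helper97.DV.Tq
import Pool.Agent.Helper74.AL.Out

/-!
H6.  The lower half of the sandwich: all inputs except the families of blocks.
-/

open Finset Filter Topology MeasureTheory Metric

namespace DV

open RP4 (V Adj BdryPar Om dom avg bdry mass cell Deloc core Conn)
open GF (Pl Cc Tst En JJ Kc LoV md)
open GF.Fin (Approximates)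

theorem innPol {D : ℝ → Finset V} {Ω : Set Pl} (hΩ : IsOpen Ω) (hD : Approximates D Ω) : InnPol Ω :=
  fun _ hK hKΩ => exists_pol_fil (fil_of_approx hΩ hD) hΩ hK hKΩ

theorem outDom {k : ℕ} {S : Finset (ℤ × ℤ)} (hP : IsConnected (pol k S)ᶜ) : OutDom (pol k S) := by
  refine ⟨1 / 2 ^ k / 8, by positivity, fun τ hτ hττ => ?_⟩
  have h1 : ∀ᶠ δ in 𝓝[>] (0 : ℝ), δ < τ / 2 := mem_nhdsWithin_of_mem_nhds (gt_mem_nhds (half_pos hτ))
  filter_upwards [h1, self_mem_nhdsWithin] with δ h2 h3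
  obtain ⟨h4, h5, h6, -⟩ := nbD_spec hP.isPreconnected hτ (by linarith) h3 (by linarith : 2 * δ ≤ τ)
  exact ⟨_, h4, h5, fun x hx => cthickening_mono (by linarith) _ (h6 x hx)⟩

theorem exists_decay : ∃ C a : ℝ, 0 ≤ C ∧ 0 < a ∧ Decay C a := by
  obtain ⟨c, K, n0, hc, -, -, h⟩ := AL.exists_LP
  obtain ⟨C, a, hC, ha, h1⟩ := decay_form h hc
  exact ⟨C, a, hC, ha, h1⟩

/-- the lower half of the sandwich for all domains -/
theorem lo_all (hd : Deloc)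
    (hfam : ∀ k S (U₀ : Ultrafilter ℝ), (U₀ : Filter ℝ) ≤ 𝓝[>] 0 → ∃ F, LoFam (Kc hd) (pol k S) U₀ F)
    {D : ℝ → Finset V} {Ω : Set Pl} (hΩ : IsOpen Ω) (hΩb : Bornology.IsBounded Ω) (hD : Approximates D Ω)
    {f : Pl → ℝ} (hf : Tst Ω f) (hf0 : ∀ z, 0 ≤ f z) :
    ∃ C : ℕ → ℝ, ∀ ε > 0, ∀ U : Ultrafilter ℝ, (U : Filter ℝ) ≤ 𝓝[>] 0 → LoV (Kc hd) Ω D f C ε U := by
  obtain ⟨R, hR⟩ := hD.bounded
  have hpar : ∀ᶠ δ in 𝓝[>] (0 : ℝ), BdryPar (D δ) 0 := by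
    filter_upwards [self_mem_nhdsWithin] with δ hδ
    obtain ⟨n, c, -, -, -, -, h⟩ := hD.even δ hδ
    exact (GF.Fin.bdryPar_iff _).2 h
  exact lo_half hd hΩb hpar hR (fun Q hQ hQΩ => hD.inner Q hQ hQΩ) (innPol hΩ hD) (fun k S h => outDom h)
    hfam exists_decay hf hf0

end DV
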